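import Mathlib
import Pool.Agent.Q1.M6b.Meander

set_option autoImplicit false
open Finset

/-! # A multiplier along a closed meander which is not one -/

namespace Pool.Agent.H69.M6b

open Pool.Agent.Q1.M6b.Meander

lemma prod_match {C : Finset ℕ} {f : ℕ → ℕ} (h : Match C f) (g : ℕ → ℂ) :
    ∏ i ∈ C, g (f i) = ∏ i ∈ C, g i :=
  Finset.prod_nbij' f f h.mem h.mem h.inv h.inv (fun _ _ => rfl)

lemma prod_zpow_sum {ξ : ℂ} (hξ0 : ξ ≠ 0) (C : Finset ℕ) (u : ℕ → ℤ) :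
    ∏ i ∈ C, ξ ^ (u i) = ξ ^ (∑ i ∈ C, u i) := by
  induction C using Finset.induction_on with
  | empty => simp
  | insert a s ha ih => rw [prod_insert ha, sum_insert ha, zpow_add₀ hξ0, ih]

/-- a nonzero function with multipliers `ξ ^ (e i)` along a matching -/
lemma match_mul {C : Finset ℕ} {U : ℕ → ℕ} (h : Match C U) {f : ℕ → ℂ} {ξ : ℂ} (hξ0 : ξ ≠ 0)
    (hf : ∀ i ∈ C, f i ≠ 0) {e : ℕ → ℤ} (hU : ∀ i ∈ C, f (U i) = ξ ^ (e i) * f i) :
    (∏ i ∈ C, f i ^ (sg C i)) ^ 2 = ξ ^ (-∑ i ∈ C, sg C i * e i) := by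
  have h1 : ∀ i ∈ C, f (U i) ^ (sg C (U i)) = ξ ^ (-(sg C i * e i)) * (f i ^ (sg C i))⁻¹ := by
    intro i hi
    rw [hU i hi, h.sg hi, mul_zpow, ← zpow_mul, ← zpow_neg]
    congr 2
    ring
  have h2 := prod_match h (fun i => f i ^ (sg C i))
  rw [prod_congr rfl h1, prod_mul_distrib, prod_inv_distrib] at h2
  have hne : ∏ i ∈ C, f i ^ (sg C i) ≠ 0 := prod_ne_zero_iff.2 fun i hi => zpow_ne_zero _ (hf i hi)
  have h3 : ∏ i ∈ C, ξ ^ (-(sg C i * e i)) = ξ ^ (-∑ i ∈ C, sg C i * e i) := by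
    rw [← sum_neg_distrib]
    exact prod_zpow_sum hξ0 C _
  rw [h3] at h2
  rw [sq]
  nth_rewrite 1 [← h2]
  rw [mul_assoc, inv_mul_cancel₀ hne, mul_one]

/-- **A closed meander with nontrivial multiplier.** -/
theorem closed_zero {C : Finset ℕ} {U D : ℕ → ℕ} (hC : Closed U D C) {f : ℕ → ℂ} {ξ : ℂ}
    (hξ0 : ξ ≠ 0) (h8 : ξ ^ 8 ≠ 1)
    (hU : ∀ i ∈ C, f (U i) = ξ ^ (-2 * dir i (U i)) * f i)
    (hD : ∀ i ∈ C, f (D i) = ξ ^ (2 * dir i (D i)) * f i) (hf : ∀ i ∈ C, f i ≠ 0) : False := by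
  have h1 := match_mul hC.mU hξ0 hf hU
  have h2 := match_mul hC.mD hξ0 hf hD
  rw [h1] at h2
  apply h8
  have h3 : ξ ^ (-∑ i ∈ C, sg C i * (-2 * dir i (U i))) *
      ξ ^ (∑ i ∈ C, sg C i * (2 * dir i (D i))) = ξ ^ (8 : ℤ) := by
    rw [← zpow_add₀ hξ0]
    congr 1
    have := umlauf hC
    rw [← sum_neg_distrib, ← sum_add_distrib]
    rw [show (8 : ℤ) = 2 * 4 by norm_num, ← this, mul_sum]
    exact sum_congr rfl fun i _ => by ring
  rw [h2, ← zpow_add₀ hξ0] at h3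
  rw [neg_add_cancel, zpow_zero] at h3
  rw [h3]
  norm_cast

/-- **All closed curves together.** -/
theorem stable_zero {C : Finset ℕ} {U D : ℕ → ℕ} (mU : Match C U) (mD : Match C D) {f : ℕ → ℂ}
    {ξ : ℂ} (hξ0 : ξ ≠ 0) (h8 : ξ ^ 8 ≠ 1)
    (hU : ∀ i ∈ C, f (U i) = ξ ^ (-2 * dir i (U i)) * f i)
    (hD : ∀ i ∈ C, f (D i) = ξ ^ (2 * dir i (D i)) * f i) : ∀ i ∈ C, f i = 0 := by
  classical
  by_contra hcon
  push Not at hcon
  obtain ⟨i0, hi0, hf0⟩ := hcon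
  -- the set of the columns with nonzero value
  set S0 := C.filter (fun i => f i ≠ 0) with hS0
  have st0 : Stable U D S0 := by
    intro x hx
    rw [hS0, mem_filter] at hx
    rw [hS0, mem_filter, mem_filter]
    refine ⟨⟨mU.mem x hx.1, ?_⟩, ⟨mD.mem x hx.1, ?_⟩⟩
    · rw [hU x hx.1]; exact mul_ne_zero (zpow_ne_zero _ hξ0) hx.2
    · rw [hD x hx.1]; exact mul_ne_zero (zpow_ne_zero _ hξ0) hx.2
  have hex : (S0.powerset.filter (fun S => S.Nonempty ∧ Stable U D S)).Nonempty :=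
    ⟨S0, mem_filter.2 ⟨mem_powerset.2 (Subset.refl _), ⟨i0, mem_filter.2 ⟨hi0, hf0⟩⟩, st0⟩⟩
  obtain ⟨S, hS, hmin⟩ := exists_min_image _ card hex
  rw [mem_filter, mem_powerset] at hS
  obtain ⟨hSS, hne, hst⟩ := hS
  have hSC : ∀ i ∈ S, i ∈ C := fun i hi => (mem_filter.1 (hSS hi)).1
  have hcl : Closed U D S := by
    refine ⟨⟨fun x hx => (hst x hx).1, fun x hx => mU.inv x (hSC x hx),
      fun x hx => mU.ne x (hSC x hx), fun x hx y hy => mU.nc x (hSC x hx) y (hSC y hy)⟩,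
      ⟨fun x hx => (hst x hx).2, fun x hx => mD.inv x (hSC x hx),
      fun x hx => mD.ne x (hSC x hx), fun x hx y hy => mD.nc x (hSC x hx) y (hSC y hy)⟩, hne, ?_⟩
    intro S' hS' hne' hst'
    refine eq_of_subset_of_card_le hS' ?_
    exact hmin S' (mem_filter.2 ⟨mem_powerset.2 (hS'.trans hSS), hne', hst'⟩)
  exact closed_zero hcl hξ0 h8 (fun i hi => hU i (hSC i hi)) (fun i hi => hD i (hSC i hi))
    (fun i hi => (mem_filter.1 (hSS hi)).2)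

end Pool.Agent.H69.M6b
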