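import Pool.Agent.H69.M6b.Red

set_option autoImplicit false
set_option linter.unusedSectionVars false
set_option linter.unusedVariables false
open Finset

/-! # Shift of the root

The root of a network may be moved along its strand through frozen tiles (`ZF_root`). If the strand
of the root never meets the random tiles, the state sum is zero (`ZF_root0`). -/

namespace Pool.Agent.H69.M6b

open Pool.Agent.H81.G1 Pool.Agent.H80.Sweep Pool.Agent.Q1 Pool.Agent.H75.Perc

section gen
variable {D : Type*} [DecidableEq D]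

/-- shift of the starting point -/
lemma ampF_shift [Finite D] {f : D → D} {d : D → ℤ} (hf : Function.Injective f) {x0 v y0 : D}
    {t : ℤ} {k : ℕ} (hk : f^[k] x0 = v) (hne : ∀ i < k, f^[i] x0 ≠ y0)
    (ht : t = ∑ i ∈ range k, d (f^[i] x0)) (φ : ℤ → ℂ) :
    ampF f d x0 y0 φ = ampF f d v y0 (fun m => φ (m + t)) := by
  have hper : x0 ∈ Function.periodicPts f := hf.mem_periodicPts x0
  have hP : Function.minimalPeriod f v = Function.minimalPeriod f x0 := by
    rw [← hk]; exact Function.minimalPeriod_apply_iterate hper k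
  have hpos : 0 < Function.minimalPeriod f x0 := Function.minimalPeriod_pos_of_mem_periodicPts hper
  have hKK : ∀ i, KK f d x0 0 (k + i) = KK f d v 0 i + t := by
    intro i
    rw [KK_iter_add, hk]
    unfold KK
    rw [ht]
    ring
  have hit : ∀ i, f^[k + i] x0 = f^[i] v := by
    intro i; rw [Nat.add_comm, Function.iterate_add_apply, hk]
  by_cases h : ∃ m, Vis f d v 0 y0 m
  · obtain ⟨m, hm⟩ := h
    rw [ampF_vis hm]
    obtain ⟨i, hi, h1, h2⟩ := hm
    rw [hP] at hi
    have hlt : k + i < Function.minimalPeriod f x0 := by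
      by_contra hcon
      rw [not_lt] at hcon
      have e1 := Nat.mod_add_div (k + i) (Function.minimalPeriod f x0)
      have h3 : 1 ≤ (k + i) / Function.minimalPeriod f x0 :=
        (Nat.one_le_div_iff hpos).2 hcon
      have h4 : (k + i) % Function.minimalPeriod f x0 < k := by
        have h5 : Function.minimalPeriod f x0 * 1 ≤
            Function.minimalPeriod f x0 * ((k + i) / Function.minimalPeriod f x0) :=
          Nat.mul_le_mul_left _ h3
        omega
      apply hne _ h4
      rw [← h1, ← hit]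
      exact Function.iterate_mod_minimalPeriod_eq
    refine (ampF_vis (k := m + t) ⟨k + i, hlt, ?_, ?_⟩).trans rfl
    · rw [hit, h1]
    · rw [hKK, h2]
  · push Not at h
    rw [ampF_not_vis h, ampF_not_vis]
    rintro m ⟨i, hi, h1, h2⟩
    have hki : k ≤ i := by
      by_contra hcon
      exact hne i (by omega) h1
    obtain ⟨j, rfl⟩ : ∃ j, i = k + j := ⟨i - k, by omega⟩
    refine h (KK f d v 0 j) ⟨j, by rw [hP]; omega, ?_, rfl⟩
    rw [← hit, h1]

lemma ampF_zero {f : D → D} {d : D → ℤ} {x0 y0 : D} (h : ∀ i, f^[i] x0 ≠ y0) (φ : ℤ → ℂ) :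
    ampF f d x0 y0 φ = 0 := by
  unfold ampF
  apply Finset.sum_eq_zero
  intro i _
  rw [if_neg (h i)]

end gen

section
variable {ι : Type*} [Fintype ι] [DecidableEq ι]

/-- the network with another root -/
def wr (X : Net ι) (v : ι × Dir) : Net ι := { X with x0 := v }

omit [Fintype ι] [DecidableEq ι] in
lemma step_inj {X : Net ι} (hinv : ∀ p, X.π (X.π p) = p) (s : ι → Bool) :
    Function.Injective (X.step s) := by
  intro p q hpq
  have h1 : (p.1, p.2.mate (s p.1)) = (q.1, q.2.mate (s q.1)) := by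
    have := congrArg X.π hpq
    unfold Net.step at this
    rwa [hinv, hinv] at this
  obtain ⟨e1, e2⟩ := Prod.ext_iff.1 h1
  simp only at e1 e2
  rw [e1] at e2
  exact Prod.ext e1 (mate_inj e2)

omit [Fintype ι] [DecidableEq ι] in
lemma En.ex {X : Net ι} {s0 : ι → Bool} {Q : Finset ι} {w v : ι × Dir} {t : ℤ}
    (h : En X s0 Q w v t) : ∃ k, (X.step s0)^[k] w = v ∧ (∀ i < k, ((X.step s0)^[i] w).1 ∉ Q) ∧
      t = ∑ i ∈ range k, X.dt s0 ((X.step s0)^[i] w) := by
  induction h with
  | done h => exact ⟨0, rfl, fun i hi => absurd hi (Nat.not_lt_zero i), by simp⟩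
  | @pass w v t h h' ih =>
    obtain ⟨k, h1, h2, h3⟩ := ih
    refine ⟨k + 1, by rw [Function.iterate_succ_apply, h1], ?_, ?_⟩
    · intro i hi
      rcases Nat.eq_zero_or_pos i with h0 | h0
      · subst h0; exact h
      · obtain ⟨j, rfl⟩ : ∃ j, i = j + 1 := ⟨i - 1, by omega⟩
        rw [Function.iterate_succ_apply]
        exact h2 j (by omega)
    · rw [Finset.sum_range_succ', h3]
      simp only [Function.iterate_succ_apply, Function.iterate_zero, id]
      ring

omit [Fintype ι] [DecidableEq ι] in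
lemma same_it {X : Net ι} {s0 s : ι → Bool} {Q : Finset ι} (hs : ∀ i ∉ Q, s i = s0 i)
    {w : ι × Dir} {k : ℕ} (h : ∀ i < k, ((X.step s0)^[i] w).1 ∉ Q) :
    ∀ i ≤ k, (X.step s)^[i] w = (X.step s0)^[i] w := by
  intro i
  induction i with
  | zero => intro _; rfl
  | succ i ih =>
    intro hi
    have hz : ∀ z : ι × Dir, z.1 ∉ Q → X.step s z = X.step s0 z := fun z hz => by
      unfold Net.step; rw [hs _ hz]
    rw [Function.iterate_succ_apply', ih (by omega), Function.iterate_succ_apply']
    exact hz _ (h i (by omega))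

lemma En.wr {X : Net ι} {s0 : ι → Bool} {Q : Finset ι} {w v : ι × Dir} {t : ℤ}
    (h : En X s0 Q w v t) (u : ι × Dir) : En (wr X u) s0 Q w v t := by
  induction h with
  | done h => exact En.done h
  | pass h _ ih => exact En.pass (X := Pool.Agent.H69.M6b.wr X u) h ih

lemma prod_zero {s0 s : ι → Bool} {Q : Finset ι} {a b : ι → ℂ} (hF : Frz s0 Q a b)
    (hs : ¬ ∀ i ∉ Q, s i = s0 i) : (∏ i, if s i then b i else a i) = 0 := by
  push Not at hs
  obtain ⟨i, hi, hne⟩ := hs
  apply Finset.prod_eq_zero (mem_univ i)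
  rw [hF.fa i hi, hF.fb i hi]
  cases h1 : s i <;> cases h2 : s0 i
  · exact absurd (h1.trans h2.symm) hne
  · simp
  · simp
  · exact absurd (h1.trans h2.symm) hne

/-- **Shift of the root.** -/
theorem ZF_root {X : Net ι} {s0 : ι → Bool} {Q : Finset ι} {a b : ι → ℂ}
    (hinv : ∀ p, X.π (X.π p) = p) (hF : Frz s0 Q a b) (hyQ : X.y0.1 ∈ Q) {v : ι × Dir} {t : ℤ}
    (h : En X s0 Q X.x0 v t) (φ : ℤ → ℂ) :
    ZF X φ a b = ZF (wr X v) (fun m => φ (m + t)) a b := by
  unfold ZF
  apply sum_congr rfl
  intro s _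
  by_cases hs : ∀ i ∉ Q, s i = s0 i
  · congr 1
    obtain ⟨k, h1, h2, h3⟩ := h.ex
    have hsame := same_it hs h2
    refine ampF_shift (step_inj hinv s) (k := k) ((hsame k le_rfl).trans h1) ?_ ?_ φ
    · intro i hi e
      apply h2 i hi
      rw [← hsame i hi.le, e]
      exact hyQ
    · rw [h3]
      apply sum_congr rfl
      intro i hi
      rw [mem_range] at hi
      rw [hsame i hi.le]
      have hz : ∀ z : ι × Dir, z.1 ∉ Q → X.dt s0 z = X.dt s z := fun z hz => by
        unfold Net.dt; rw [hs _ hz]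
      exact hz _ (h2 i hi)
  · rw [prod_zero hF hs, zero_mul, zero_mul]

/-- **The strand of the root never meets the random tiles.** -/
theorem ZF_root0 {X : Net ι} {s0 : ι → Bool} {Q : Finset ι} {a b : ι → ℂ}
    (hF : Frz s0 Q a b) (hyQ : X.y0.1 ∈ Q) (h : ∀ v t, ¬ En X s0 Q X.x0 v t) (φ : ℤ → ℂ) :
    ZF X φ a b = 0 := by
  have hno : ∀ k, ((X.step s0)^[k] X.x0).1 ∉ Q := by
    intro k
    induction k using Nat.strong_induction_on with
    | _ k ih =>
      intro hk
      exact h _ _ (En.iter (k := k) ih (En.done hk))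
  unfold ZF
  apply Finset.sum_eq_zero
  intro s _
  by_cases hs : ∀ i ∉ Q, s i = s0 i
  · rw [ampF_zero, mul_zero]
    intro i e
    have h1 := same_it hs (k := i) (fun j _ => hno j) i le_rfl
    apply hno i
    rw [← h1, e]
    exact hyQ
  · rw [prod_zero hF hs, zero_mul]

end

/-! ### Passage of a frozen arc from below, as iterates -/

variable {N : ℕ} {X : Net (Fin N)} {P : Finset (Fin N)} {U : Fin N → Fin N}

lemma Arcs.under_it (hP : Arcs X P U) (hinv : ∀ p, X.π (X.π p) = p)
    (htn : ∀ p, X.t (X.π p) = -X.t p) {c : Fin N} (hc : c ∈ P) :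
    ∃ k, 0 < k ∧ (X.step (can U))^[k] (c, .S) = X.π (U c, .S) ∧
      ∀ i < k, ((X.step (can U))^[i] (c, .S)).1 ∈ P := by
  rcases lt_or_gt_of_ne (hP.ne c hc) with hlt | hlt
  · -- right foot
    have hlt' : ((U c : Fin N) : ℕ) < (c : ℕ) := hlt
    have hcN := c.2
    have hUc : U c ∈ P := hP.mem c hc
    have hUU : U (U c) = c := hP.inv c hc
    have sc : can U c = true := decide_eq_true hlt
    have su : can U (U c) = false := by
      unfold can; rw [hUU]; exact decide_eq_false (not_lt.2 hlt.le)
    set e : Fin N := ⟨(c : ℕ) - 1, by omega⟩ with he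
    have hev : (c : ℕ) = e + 1 := by
      have : (e : ℕ) = (c : ℕ) - 1 := rfl
      omega
    have hxe : U c ≤ e := by rw [Fin.le_def]; omega
    have hec : e < c := by rw [Fin.lt_def]; omega
    have hrow : ∀ z z' : Fin N, U c ≤ z → z' ≤ c → (z' : ℕ) = z + 1 → X.π (z, .E) = (z', .W) :=
      fun z z' h1 h2 h3 => hP.row (U c) hUc z z' h1 (by rw [hUU]; exact h2) h3
    obtain ⟨k, k1, k2, k3⟩ := hP.runB hinv htn (s := can U) (x := U c) _ e hxe rfl (by
      intro z h1 h2
      have h3 : z < U (U c) := by rw [hUU]; exact lt_of_le_of_lt h2 hec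
      obtain ⟨g1, g2, g3⟩ := hP.nest (U c) hUc z h1 h3
      rw [hUU] at g3
      exact ⟨g1, g2, by rw [Fin.le_def]; rw [Fin.lt_def] at g3; omega, rfl⟩)
      (fun z z' h1 h2 h3 => hrow z z' h1 (h2.trans hec.le) h3)
    have e1 : X.step (can U) (c, .S) = (e, .E) := by
      unfold Net.step
      simp only [sc, Dir.mate]
      rw [← hrow e c hxe le_rfl hev, hinv]
    have e2 : X.step (can U) (U c, .E) = X.π (U c, .S) := by
      unfold Net.step
      simp only [su, Dir.mate]
    refine ⟨k + 2, by omega, ?_, ?_⟩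
    · rw [show k + 2 = (k + 1) + 1 from rfl, Function.iterate_succ_apply, e1,
        Function.iterate_succ_apply', k1, e2]
    · intro i hi
      rcases Nat.eq_zero_or_pos i with h0 | h0
      · subst h0; exact hc
      · obtain ⟨j, rfl⟩ : ∃ j, i = j + 1 := ⟨i - 1, by omega⟩
        rw [Function.iterate_succ_apply, e1]
        rcases Nat.lt_or_ge j k with h1 | h1
        · exact k2 j h1
        · have : j = k := by omega
          subst this
          rw [k1]; exact hUc
  · -- left foot
    have hlt' : (c : ℕ) < ((U c : Fin N) : ℕ) := hlt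
    have hUN := (U c).2
    have hUc : U c ∈ P := hP.mem c hc
    have hUU : U (U c) = c := hP.inv c hc
    have sc : can U c = false := decide_eq_false (not_lt.2 hlt.le)
    have su : can U (U c) = true := by
      unfold can; rw [hUU]; exact decide_eq_true hlt
    set e : Fin N := ⟨(c : ℕ) + 1, by omega⟩ with he
    have hev : (e : ℕ) = c + 1 := rfl
    have hce : c < e := by rw [Fin.lt_def]; omega
    have hey : e ≤ U c := by rw [Fin.le_def]; omega
    have hrow : ∀ z z' : Fin N, c ≤ z → z' ≤ U c → (z' : ℕ) = z + 1 → X.π (z, .E) = (z', .W) :=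
      fun z z' h1 h2 h3 => hP.row c hc z z' h1 h2 h3
    obtain ⟨k, k1, k2, k3⟩ := hP.run (s := can U) (y := U c) _ e hey rfl (by
      intro z h1 h2
      have h3 : c < z := lt_of_lt_of_le hce h1
      obtain ⟨g1, g2, g3⟩ := hP.nest c hc z h3 h2
      exact ⟨g1, by rw [Fin.le_def]; rw [Fin.lt_def] at g2; omega, g3, rfl⟩)
      (fun z z' h1 h2 h3 => hrow z z' (hce.le.trans h1) h2 h3)
    have e1 : X.step (can U) (c, .S) = (e, .W) := by
      unfold Net.step
      simp only [sc, Dir.mate]
      exact hrow c e le_rfl hey hev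
    have e2 : X.step (can U) (U c, .W) = X.π (U c, .S) := by
      unfold Net.step
      simp only [su, Dir.mate]
    refine ⟨k + 2, by omega, ?_, ?_⟩
    · rw [show k + 2 = (k + 1) + 1 from rfl, Function.iterate_succ_apply, e1,
        Function.iterate_succ_apply', k1, e2]
    · intro i hi
      rcases Nat.eq_zero_or_pos i with h0 | h0
      · subst h0; exact hc
      · obtain ⟨j, rfl⟩ : ∃ j, i = j + 1 := ⟨i - 1, by omega⟩
        rw [Function.iterate_succ_apply, e1]
        rcases Nat.lt_or_ge j k with h1 | h1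
        · exact k2 j h1
        · have : j = k := by omega
          subst this
          rw [k1]; exact hUc

end Pool.Agent.H69.M6b
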