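import Mathlib
import Pool.Agent.H75.Perc.Explore

set_option autoImplicit false
open Finset

/-! # Planarity by growth

The strands of a region of tiles between two boundary paths join the ends (ports) of the boundary by a
noncrossing matching, and the turning of a strand is a function of its ports. Both facts are preserved
when one tile is added at two neighbouring ports (`TL.grow`).

Ports are numbered `0, …, 2n-1`: `k < n` lower boundary from left to right, then the upper boundary from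
right to left. `K k` is the direction of a strand which crosses the port `k` upwards (`0` = east,
`1` = north), `en k`: the strand enters the region at `k`. -/

namespace Pool.Agent.H69.M6b

open Pool.Agent.H75.Perc

/-- path of the exploration map from `c` to `c'` through labels of `R`, with turning `t` -/
def Pth (ω R : Finset (ℤ × ℤ)) (c c' : ℤ × ℤ) (t : ℤ) : Prop :=
  ∃ n : ℕ, (nx ω)^[n] c = c' ∧ (∀ i < n, lab ((nx ω)^[i] c) ∈ R) ∧
    t = ∑ i ∈ range n, del ω ((nx ω)^[i] c)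

lemma Pth.refl (ω R : Finset (ℤ × ℤ)) (c : ℤ × ℤ) : Pth ω R c c 0 :=
  ⟨0, rfl, fun i hi => absurd hi (Nat.not_lt_zero i), by simp⟩

lemma Pth.step {ω R : Finset (ℤ × ℤ)} {c c' : ℤ × ℤ} (h : lab c ∈ R) (h' : nx ω c = c') {t : ℤ}
    (ht : del ω c = t) : Pth ω R c c' t :=
  ⟨1, h', fun i hi => by
    have : i = 0 := by omega
    subst this; exact h, by simp [ht]⟩

lemma Pth.trans {ω R : Finset (ℤ × ℤ)} {c c' c'' : ℤ × ℤ} {t t' : ℤ} (h : Pth ω R c c' t)
    (h' : Pth ω R c' c'' t') : Pth ω R c c'' (t + t') := by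
  obtain ⟨n, h1, h2, h3⟩ := h
  obtain ⟨m, g1, g2, g3⟩ := h'
  have e : ∀ i, (nx ω)^[n + i] c = (nx ω)^[i] c' := by
    intro i; rw [Nat.add_comm, Function.iterate_add_apply, h1]
  refine ⟨n + m, by rw [e, g1], ?_, ?_⟩
  · intro i hi
    rcases Nat.lt_or_ge i n with h4 | h4
    · exact h2 i h4
    · obtain ⟨j, rfl⟩ : ∃ j, i = n + j := ⟨i - n, by omega⟩
      rw [e]; exact g2 j (by omega)
  · rw [Finset.sum_range_add, h3, g3]
    congr 1
    exact sum_congr rfl fun i _ => by rw [e]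

lemma Pth.mono {ω R R' : Finset (ℤ × ℤ)} (hR : R ⊆ R') {c c' : ℤ × ℤ} {t : ℤ}
    (h : Pth ω R c c' t) : Pth ω R' c c' t := by
  obtain ⟨n, h1, h2, h3⟩ := h
  exact ⟨n, h1, fun i hi => hR (h2 i hi), h3⟩

/-- turning from the port `k` to the port `l` -/
def tt (n : ℕ) (K : ℕ → ℤ) (k l : ℕ) : ℤ :=
  K l - K k + (if (k < n ↔ l < n) then (if k < l then -2 else 2) else 0)

/-- noncrossing matching of the ports by the strands of the region `R` -/
structure TL (n : ℕ) (ω R : Finset (ℤ × ℤ)) (cr : ℕ → ℤ × ℤ) (K : ℕ → ℤ) (en : ℕ → Bool)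
    (M : ℕ → ℕ) : Prop where
  lt : ∀ k < 2 * n, M k < 2 * n
  inv : ∀ k < 2 * n, M (M k) = k
  ne : ∀ k < 2 * n, M k ≠ k
  nc : ∀ k < 2 * n, ∀ l < 2 * n, l ≠ k → l ≠ M k →
    ((l < k ↔ l < M k) ↔ (M l < k ↔ M l < M k))
  eno : ∀ k < 2 * n, en (M k) = !en k
  path : ∀ k < 2 * n, en k = true → Pth ω R (cr k) (cr (M k)) (tt n K k (M k))

/-- a tile at the ports `a` (side `S`) and `a + 1` (side `W`); new sides `E` at `a`, `N` at `a + 1`;
`u`: the side `W` is incoming; `p`: the state is `{W–N, S–E}` -/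
structure TileAt (ω : Finset (ℤ × ℤ)) (e W S No Ea : ℤ × ℤ) (u p : Bool) : Prop where
  l1 : u = true → lab W = e ∧ lab Ea = e
  l2 : u = false → lab S = e ∧ lab No = e
  s1 : u = true → p = true → nx ω W = No ∧ nx ω Ea = S ∧ del ω W = 1 ∧ del ω Ea = 1
  s2 : u = true → p = false → nx ω W = S ∧ nx ω Ea = No ∧ del ω W = -1 ∧ del ω Ea = -1
  s3 : u = false → p = true → nx ω S = Ea ∧ nx ω No = W ∧ del ω S = -1 ∧ del ω No = -1
  s4 : u = false → p = false → nx ω S = W ∧ nx ω No = Ea ∧ del ω S = 1 ∧ del ω No = 1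

/-- the value `x` at `a`, the value `y` at `a + 1` -/
def up (α : Type*) (f : ℕ → α) (a : ℕ) (x y : α) (k : ℕ) : α :=
  if k = a then x else if k = a + 1 then y else f k

lemma up_a {α : Type*} (f : ℕ → α) (a : ℕ) (x y : α) : up α f a x y a = x := by simp [up]

lemma up_b {α : Type*} (f : ℕ → α) (a : ℕ) (x y : α) : up α f a x y (a + 1) = y := by simp [up]

lemma up_ne {α : Type*} (f : ℕ → α) (a : ℕ) (x y : α) {k : ℕ} (h : k ≠ a) (h' : k ≠ a + 1) :
    up α f a x y k = f k := by simp [up, h, h']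

/-- the matching after a joining tile -/
def jn (M : ℕ → ℕ) (a k : ℕ) : ℕ :=
  if k = a then a + 1 else if k = a + 1 then a else if k = M (a + 1) then M a
  else if k = M a then M (a + 1) else M k

lemma ar1 {a l l' : ℕ} (h1 : l ≠ a) (h3 : l' ≠ a) :
    ((l < a ↔ l < a + 1) ↔ (l' < a ↔ l' < a + 1)) := by
  have e1 : (l < a + 1) ↔ (l < a) := by omega
  have e2 : (l' < a + 1) ↔ (l' < a) := by omega
  rw [e1, e2]; tauto

lemma ar1' {a l l' : ℕ} (h1 : l ≠ a) (h3 : l' ≠ a) :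
    ((l < a + 1 ↔ l < a) ↔ (l' < a + 1 ↔ l' < a)) := by
  have e1 : (l < a + 1) ↔ (l < a) := by omega
  have e2 : (l' < a + 1) ↔ (l' < a) := by omega
  rw [e1, e2]; tauto

lemma ar2 {a x y : ℕ} (h2 : x ≠ a + 1) (h4 : y ≠ a + 1) :
    ((a < x ↔ a < y) ↔ (a + 1 < x ↔ a + 1 < y)) := by
  have e1 : (a + 1 < x) ↔ (a < x) := by omega
  have e2 : (a + 1 < y) ↔ (a < y) := by omega
  rw [e1, e2]

lemma ar2' {a x y : ℕ} (h2 : x ≠ a + 1) (h4 : y ≠ a + 1) :
    ((a + 1 < x ↔ a + 1 < y) ↔ (a < x ↔ a < y)) := (ar2 h2 h4).symm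

lemma iff3 {p q r p' q' r' : Prop} (g1 : (p ↔ q) ↔ (p' ↔ q')) (g2 : (p ↔ r) ↔ (p' ↔ r')) :
    (r ↔ q) ↔ (r' ↔ q') := by
  by_cases hp : p <;> by_cases hp' : p' <;>
    simp only [hp, hp', true_iff, false_iff] at g1 g2
  · rw [g1, g2]
  · rw [g1, g2, not_iff_not]
  · have h1 : q' ↔ ¬ q := g1.symm
    have h2 : r' ↔ ¬ r := g2.symm
    rw [h1, h2, not_iff_not]
  · rw [not_iff_not] at g1 g2
    rw [g1, g2]

lemma ar3 {a x y l l' : ℕ} (h1 : l ≠ a) (h3 : l' ≠ a)
    (g1 : (l < a ↔ l < x) ↔ (l' < a ↔ l' < x))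
    (g2 : (l < a + 1 ↔ l < y) ↔ (l' < a + 1 ↔ l' < y)) :
    ((l < y ↔ l < x) ↔ (l' < y ↔ l' < x)) ∧ ((l < x ↔ l < y) ↔ (l' < x ↔ l' < y)) := by
  have e1 : (l < a + 1) ↔ (l < a) := by omega
  have e2 : (l' < a + 1) ↔ (l' < a) := by omega
  rw [e1, e2] at g2
  exact ⟨iff3 g1 g2, iff3 g2 g1⟩

lemma ar4 {a x y k k' : ℕ} (h2 : k ≠ a + 1) (h4 : k' ≠ a + 1)
    (g1 : (a < k ↔ a < k') ↔ (x < k ↔ x < k'))
    (g2 : (a + 1 < k ↔ a + 1 < k') ↔ (y < k ↔ y < k')) :
    ((y < k ↔ y < k') ↔ (x < k ↔ x < k')) ∧ ((x < k ↔ x < k') ↔ (y < k ↔ y < k')) := by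
  have e1 : (a + 1 < k) ↔ (a < k) := by omega
  have e2 : (a + 1 < k') ↔ (a < k') := by omega
  rw [e1, e2] at g2
  exact ⟨g2.symm.trans g1, g1.symm.trans g2⟩

/-- turning of a join -/
lemma ar5 {n a x y : ℕ} (ha : n ≤ a) (h1 : x ≠ a) (h2 : x ≠ a + 1) (h3 : y ≠ a) (h4 : y ≠ a + 1)
    (hxy : x ≠ y) (nab : (a < a + 1 ↔ a < y) ↔ (x < a + 1 ↔ x < y)) :
    (if (y < n ↔ x < n) then (if y < x then -2 else 2) else 0 : ℤ) =
      -2 + (if (y < n ↔ a + 1 < n) then (if y < a + 1 then -2 else 2) else 0) +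
        (if (a < n ↔ x < n) then (if a < x then -2 else 2) else 0) ∧
    (if (x < n ↔ y < n) then (if x < y then -2 else 2) else 0 : ℤ) =
      2 + (if (x < n ↔ a < n) then (if x < a then -2 else 2) else 0) +
        (if (a + 1 < n ↔ y < n) then (if a + 1 < y then -2 else 2) else 0) := by
  have e1 : ¬ a < n := by omega
  have e2 : ¬ a + 1 < n := by omega
  have e3 : a < a + 1 := by omega
  -- the noncrossing condition
  have nab' : (a < y → (x < a → x < y) ∧ (a < x → y < x)) ∧ (y < a → x < a ∧ y < x) := by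
    simp only [e3, true_iff] at nab
    refine ⟨fun h => ?_, fun h => ?_⟩
    · have h5 := nab.1 h
      refine ⟨fun g => h5.1 (by omega), fun g => ?_⟩
      by_contra hc
      have h6 : x < y := by omega
      have := h5.2 h6
      omega
    · have h5 : ¬ (x < a + 1 ↔ x < y) := fun hc => by
        have := nab.2 hc
        omega
      rcases Nat.lt_or_ge x a with g | g
      · refine ⟨g, ?_⟩
        by_contra hc
        exact h5 ⟨fun _ => by omega, fun _ => by omega⟩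
      · exfalso
        exact h5 ⟨fun _ => by omega, fun _ => by omega⟩
  clear nab
  simp only [e1, e2, iff_false, false_iff]
  rcases Nat.lt_or_ge x n with c1 | c1 <;> rcases Nat.lt_or_ge y n with c2 | c2
  · have g1 := nab'.2 (by omega)
    have g2 := g1.2
    have d1 : ¬ x < y := by omega
    simp [c1, c2, g2, d1]
  · have hy : a < y ∨ y < a := by omega
    rcases hy with hy | hy
    · have k1 : ¬ y < n := by omega
      have k2 : ¬ y < a + 1 := by omega
      have k3 : a + 1 < y := by omega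
      simp [c1, k1, k2, k3]
    · have g2 := (nab'.2 hy).2
      omega
  · have k1 : ¬ x < n := by omega
    have g1 := nab'.2 (by omega)
    have k2 : ¬ a < x := by omega
    simp [c2, k1, k2, g1.1]
  · have k1 : ¬ x < n := by omega
    have k2 : ¬ y < n := by omega
    have hy : a < y ∨ y < a := by omega
    rcases hy with hy | hy
    · have k3 : ¬ y < a + 1 := by omega
      have k4 : a + 1 < y := by omega
      have hx : a < x ∨ x < a := by omega
      rcases hx with hx | hx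
      · have g1 := (nab'.1 hy).2 hx
        have k5 : ¬ x < a := by omega
        have k6 : ¬ x < y := by omega
        simp [k1, k2, k3, k4, k5, k6, hx, g1]
      · have g1 := (nab'.1 hy).1 hx
        have k5 : ¬ a < x := by omega
        have k6 : ¬ y < x := by omega
        simp [k1, k2, k3, k4, k5, k6, hx, g1]
    · obtain ⟨g1, g2⟩ := nab'.2 hy
      have k3 : y < a + 1 := by omega
      have k4 : ¬ a + 1 < y := by omega
      have k5 : ¬ a < x := by omega
      have k6 : ¬ x < y := by omega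
      simp [k1, k2, k3, k4, k5, k6, g1, g2]

section
variable {n : ℕ} {ω R : Finset (ℤ × ℤ)} {cr : ℕ → ℤ × ℤ} {K : ℕ → ℤ} {en : ℕ → Bool} {M : ℕ → ℕ}
  {a : ℕ} {e No Ea : ℤ × ℤ} {u p : Bool}

lemma TL.inj (h : TL n ω R cr K en M) {k l : ℕ} (hk : k < 2 * n) (hl : l < 2 * n)
    (hkl : M k = M l) : k = l := by
  rw [← h.inv k hk, hkl, h.inv l hl]

/-- passing tile -/
theorem TL.pass (h : TL n ω R cr K en M) (ha : n ≤ a) (ha' : a + 1 < 2 * n) (hKa : K a = 1)
    (hKb : K (a + 1) = 0) (hea : en a = u) (heb : en (a + 1) = !u)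
    (hT : TileAt ω e (cr (a + 1)) (cr a) No Ea u true) :
    TL n ω (insert e R) (up _ cr a Ea No) (up _ K a 0 1) en M := by
  have hR : R ⊆ insert e R := subset_insert _ _
  have heR : e ∈ insert e R := mem_insert_self _ _
  have Ma := h.lt a (by omega)
  have Mb := h.lt (a + 1) ha'
  refine ⟨h.lt, h.inv, h.ne, h.nc, h.eno, ?_⟩
  intro k hk hen
  have hMk := h.lt k hk
  have hmm := h.inv k hk
  have hne := h.ne k hk
  have henM := h.eno k hk
  have key := h.path k hk hen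
  -- the first part
  have first : ∃ t, Pth ω (insert e R) (up _ cr a Ea No k) (cr k) t ∧
      t = K k - up _ K a 0 1 k := by
    by_cases h1 : k = a
    · subst h1
      rw [up_a, up_a]
      have hu : u = true := by rw [← hea, hen]
      refine ⟨1, Pth.step (by rw [(hT.l1 hu).2]; exact heR) (hT.s1 hu rfl).2.1
        (hT.s1 hu rfl).2.2.2, by rw [hKa]; ring⟩
    · by_cases h2 : k = a + 1
      · subst h2
        rw [up_b, up_b]
        have hu : u = false := by rw [heb] at hen; simpa using hen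
        refine ⟨-1, Pth.step (by rw [(hT.l2 hu).2]; exact heR) (hT.s3 hu rfl).2.1
          (hT.s3 hu rfl).2.2.2, by rw [hKb]; ring⟩
      · rw [up_ne _ _ _ _ h1 h2, up_ne _ _ _ _ h1 h2]
        exact ⟨0, Pth.refl _ _ _, by ring⟩
  have last : ∃ t, Pth ω (insert e R) (cr (M k)) (up _ cr a Ea No (M k)) t ∧
      t = up _ K a 0 1 (M k) - K (M k) := by
    by_cases h1 : M k = a
    · rw [h1, up_a, up_a]
      have hu : u = false := by rw [h1, hea, hen] at henM; simpa using henM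
      refine ⟨-1, Pth.step (by rw [(hT.l2 hu).1]; exact heR) (hT.s3 hu rfl).1
        (hT.s3 hu rfl).2.2.1, by rw [hKa]; ring⟩
    · by_cases h2 : M k = a + 1
      · rw [h2, up_b, up_b]
        have hu : u = true := by rw [h2, heb, hen] at henM; simpa using henM
        refine ⟨1, Pth.step (by rw [(hT.l1 hu).1]; exact heR) (hT.s1 hu rfl).1
          (hT.s1 hu rfl).2.2.1, by rw [hKb]; ring⟩
      · rw [up_ne _ _ _ _ h1 h2, up_ne _ _ _ _ h1 h2]
        exact ⟨0, Pth.refl _ _ _, by ring⟩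
  obtain ⟨t1, h1, e1⟩ := first
  obtain ⟨t2, h2, e2⟩ := last
  have h3 := (h1.trans (key.mono hR)).trans h2
  have e3 : t1 + tt n K k (M k) + t2 = tt n (up _ K a 0 1) k (M k) := by
    rw [e1, e2]; unfold tt; ring
  rw [← e3]; exact h3

/-- joining tile -/
theorem TL.join (h : TL n ω R cr K en M) (ha : n ≤ a) (ha' : a + 1 < 2 * n) (hKa : K a = 1)
    (hKb : K (a + 1) = 0) (hea : en a = u) (heb : en (a + 1) = !u)
    (hT : TileAt ω e (cr (a + 1)) (cr a) No Ea u false) :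
    TL n ω (insert e R) (up _ cr a Ea No) (up _ K a 0 1) en (jn M a) := by
  have hR : R ⊆ insert e R := subset_insert _ _
  have heR : e ∈ insert e R := mem_insert_self _ _
  have ha2 : a < 2 * n := by omega
  have Ma := h.lt a ha2
  have Mb := h.lt (a + 1) ha'
  have Ia := h.inv a ha2
  have Ib := h.inv (a + 1) ha'
  have Na := h.ne a ha2
  have Nb := h.ne (a + 1) ha'
  have iff1 : M a = a + 1 ↔ M (a + 1) = a :=
    ⟨fun hh => by have := Ia; rw [hh] at this; exact this,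
      fun hh => by have := Ib; rw [hh] at this; exact this⟩
  have hab : M a ≠ M (a + 1) := fun hh => by
    have := h.inj ha2 ha' hh; omega
  -- values of `jn`
  have j1 : jn M a a = a + 1 := by simp [jn]
  have j2 : jn M a (a + 1) = a := by simp [jn]
  have j3 : M a ≠ a + 1 → jn M a (M (a + 1)) = M a := by
    intro hh
    have : M (a + 1) ≠ a := fun h' => hh (iff1.2 h')
    simp [jn, this, Nb]
  have j4 : M a ≠ a + 1 → jn M a (M a) = M (a + 1) := by
    intro hh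
    simp [jn, hh, Na, hab]
  have j5 : ∀ k, k ≠ a → k ≠ a + 1 → k ≠ M (a + 1) → k ≠ M a → jn M a k = M k := by
    intro k h1 h2 h3 h4
    simp [jn, h1, h2, h3, h4]
  have j6 : ∀ k < 2 * n, k ≠ a → k ≠ a + 1 → k ≠ M (a + 1) → k ≠ M a →
      M k ≠ a ∧ M k ≠ a + 1 ∧ M k ≠ M (a + 1) ∧ M k ≠ M a := by
    intro k hk h1 h2 h3 h4
    refine ⟨fun hh => ?_, fun hh => ?_, fun hh => ?_, fun hh => ?_⟩
    · apply h4; rw [← hh, h.inv k hk]
    · apply h3; rw [← hh, h.inv k hk]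
    · exact h2 (h.inj hk ha' hh)
    · exact h1 (h.inj hk ha2 hh)
  -- case distinction for a port
  have cases4 : ∀ k < 2 * n, (jn M a k = a + 1 ∧ k = a) ∨ (jn M a k = a ∧ k = a + 1) ∨
      (jn M a k = M a ∧ M a ≠ a + 1 ∧ k = M (a + 1) ∧ k ≠ a ∧ k ≠ a + 1 ∧ M k = a + 1) ∨
      (jn M a k = M (a + 1) ∧ M a ≠ a + 1 ∧ k = M a ∧ k ≠ a ∧ k ≠ a + 1 ∧ M k = a) ∨
      (jn M a k = M k ∧ k ≠ a ∧ k ≠ a + 1 ∧ k ≠ M (a + 1) ∧ k ≠ M a) := by
    intro k hk
    by_cases h1 : k = a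
    · left; exact ⟨by rw [h1, j1], h1⟩
    by_cases h2 : k = a + 1
    · right; left; exact ⟨by rw [h2, j2], h2⟩
    by_cases h3 : k = M (a + 1)
    · have h0 : M a ≠ a + 1 := fun hh => h1 (by rw [h3]; exact iff1.1 hh)
      right; right; left
      exact ⟨by rw [h3, j3 h0], h0, h3, h1, h2, by rw [h3, Ib]⟩
    by_cases h4 : k = M a
    · have h0 : M a ≠ a + 1 := fun hh => h2 (by rw [h4]; exact hh)
      right; right; right; left
      exact ⟨by rw [h4, j4 h0], h0, h4, h1, h2, by rw [h4, Ia]⟩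
    · right; right; right; right
      exact ⟨j5 k h1 h2 h3 h4, h1, h2, h3, h4⟩
  have nab := h.nc (a + 1) ha' a ha2 (by omega)
  refine ⟨?_, ?_, ?_, ?_, ?_, ?_⟩
  · intro k hk
    have := h.lt k hk
    rcases cases4 k hk with c | c | c | c | c <;> omega
  · intro k hk
    rcases cases4 k hk with ⟨c2, c1⟩ | ⟨c2, c1⟩ | ⟨c2, c0, c1, -⟩ | ⟨c2, c0, c1, -⟩ |
        ⟨c5, c1, c2, c3, c4⟩
    · rw [c2, j2, c1]
    · rw [c2, j1, c1]
    · rw [c2, j4 c0, c1]
    · rw [c2, j3 c0, c1]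
    · obtain ⟨d1, d2, d3, d4⟩ := j6 k hk c1 c2 c3 c4
      rw [c5, j5 _ d1 d2 d3 d4, h.inv k hk]
  · intro k hk
    have := h.ne k hk
    rcases cases4 k hk with c | c | c | c | c <;> omega
  · intro k hk l hl hlk hlM
    have mem6 := j6
    have out : ∀ l < 2 * n, l ≠ a → l ≠ a + 1 → jn M a l ≠ a ∧ jn M a l ≠ a + 1 := by
      intro l hl h1 h2
      rcases cases4 l hl with ⟨d2, d1⟩ | ⟨d2, d1⟩ | ⟨d2, d0, d1, d3, d4, d5⟩ |
        ⟨d2, d0, d1, d3, d4, d5⟩ | ⟨d2, d1, d3, d4, d5⟩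
      · exact absurd d1 h1
      · exact absurd d1 h2
      · rw [d2]; exact ⟨Na, d0⟩
      · rw [d2]; exact ⟨fun hh => d0 (iff1.2 hh), Nb⟩
      · rw [d2]; exact ⟨(j6 l hl d1 d3 d4 d5).1, (j6 l hl d1 d3 d4 d5).2.1⟩
    rcases cases4 k hk with ⟨c2, c1⟩ | ⟨c2, c1⟩ | ⟨c2, c0, c1, c3, c4, c5⟩ |
        ⟨c2, c0, c1, c3, c4, c5⟩ | ⟨c2, c1, c3, c4, c5⟩
    · rw [c2] at hlM ⊢
      rw [c1] at hlk ⊢
      obtain ⟨o1, o2⟩ := out l hl hlk hlM
      exact ar1 hlk o1
    · rw [c2] at hlM ⊢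
      rw [c1] at hlk ⊢
      obtain ⟨o1, o2⟩ := out l hl hlM hlk
      exact ar1' hlM o1
    · -- k = M (a+1), jn k = M a
      rw [c2] at hlM ⊢
      rw [c1] at hlk ⊢
      have hb : M (a + 1) ≠ a := fun hh => c0 (iff1.2 hh)
      rcases cases4 l hl with ⟨d2, d1⟩ | ⟨d2, d1⟩ | ⟨d2, d0, d1, -⟩ | ⟨d2, d0, d1, -⟩ |
        ⟨d2, d1, d3, d4, d5⟩
      · rw [d2, d1]; exact ar2 Nb c0
      · rw [d2, d1]; exact ar2' Nb c0
      · exact absurd d1 hlk
      · exact absurd d1 hlM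
      · obtain ⟨f1, f2, -, -⟩ := j6 l hl d1 d3 d4 d5
        rw [d2]
        exact (ar3 d1 f1 (h.nc a ha2 l hl d1 d5) (h.nc (a + 1) ha' l hl d3 d4)).1
    · -- k = M a, jn k = M (a+1)
      rw [c2] at hlM ⊢
      rw [c1] at hlk ⊢
      have hb : M (a + 1) ≠ a := fun hh => c0 (iff1.2 hh)
      rcases cases4 l hl with ⟨d2, d1⟩ | ⟨d2, d1⟩ | ⟨d2, d0, d1, -⟩ | ⟨d2, d0, d1, -⟩ |
        ⟨d2, d1, d3, d4, d5⟩
      · rw [d2, d1]; exact ar2 c0 Nb
      · rw [d2, d1]; exact ar2' c0 Nb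
      · exact absurd d1 hlM
      · exact absurd d1 hlk
      · obtain ⟨f1, f2, -, -⟩ := j6 l hl d1 d3 d4 d5
        rw [d2]
        exact (ar3 d1 f1 (h.nc a ha2 l hl d1 d5) (h.nc (a + 1) ha' l hl d3 d4)).2
    · rw [c2] at hlM ⊢
      obtain ⟨f1, f2, f3, f4⟩ := j6 k hk c1 c3 c4 c5
      rcases cases4 l hl with ⟨d2, d1⟩ | ⟨d2, d1⟩ | ⟨d2, d0, d1, -⟩ | ⟨d2, d0, d1, -⟩ |
        ⟨d2, d1, d3, d4, d5⟩
      · rw [d2, d1]; exact ar2 c3 f2
      · rw [d2, d1]; exact ar2' c3 f2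
      · rw [d2, d1]
        exact (ar4 c3 f2 (h.nc k hk a ha2 (Ne.symm c1) (Ne.symm f1))
          (h.nc k hk (a + 1) ha' (Ne.symm c3) (Ne.symm f2))).1
      · rw [d2, d1]
        exact (ar4 c3 f2 (h.nc k hk a ha2 (Ne.symm c1) (Ne.symm f1))
          (h.nc k hk (a + 1) ha' (Ne.symm c3) (Ne.symm f2))).2
      · rw [d2]; exact h.nc k hk l hl hlk hlM
  · intro k hk
    have e1 := h.eno a ha2
    have e2 := h.eno (a + 1) ha'
    have e3 := h.eno k hk
    rcases cases4 k hk with ⟨c2, c1⟩ | ⟨c2, c1⟩ | ⟨c2, c0, c1, -⟩ | ⟨c2, c0, c1, -⟩ |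
        ⟨c5, c1, c2, c3, c4⟩
    · rw [c2, c1, hea, heb]
    · rw [c2, c1, hea, heb]; simp
    · rw [c2, c1, e1, e2, hea, heb]; simp
    · rw [c2, c1, e1, e2, hea, heb]
    · rw [c5, e3]
  · intro k hk hen
    rcases cases4 k hk with ⟨c2, c1⟩ | ⟨c2, c1⟩ | ⟨c2, c0, c1, c3, c4, c5⟩ |
        ⟨c2, c0, c1, c3, c4, c5⟩ | ⟨c2, c1, c3, c4, c5⟩
    · subst c1
      rw [c2, up_a, up_b]
      have hu : u = true := by rw [← hea, hen]
      refine Pth.step (by rw [(hT.l1 hu).2]; exact heR) (hT.s2 hu rfl).2.1 ?_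
      rw [(hT.s2 hu rfl).2.2.2]
      unfold tt
      rw [up_a, up_b, if_pos (by omega), if_pos (by omega)]
      norm_num
    · subst c1
      rw [c2, up_a, up_b]
      have hu : u = false := by rw [heb] at hen; simpa using hen
      refine Pth.step (by rw [(hT.l2 hu).2]; exact heR) (hT.s4 hu rfl).2.1 ?_
      rw [(hT.s4 hu rfl).2.2.2]
      unfold tt
      rw [up_a, up_b, if_pos (by omega), if_neg (by omega)]
      norm_num
    · have hMa : M a ≠ a := Na
      have h1 := h.path k hk hen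
      rw [c5] at h1
      have h2 := h.eno k hk
      rw [c5, hen, heb] at h2
      have hu : u = true := by simpa using h2
      have h3 := h.path a ha2 (by rw [hea, hu])
      have h4 : Pth ω (insert e R) (cr (a + 1)) (cr a) (-1) :=
        Pth.step (by rw [(hT.l1 hu).1]; exact heR) (hT.s2 hu rfl).1 (hT.s2 hu rfl).2.2.1
      have h5 := ((h1.mono hR).trans h4).trans (h3.mono hR)
      rw [c2, up_ne _ _ _ _ c3 c4, up_ne _ _ _ _ hMa c0]
      convert h5 using 1
      unfold tt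
      rw [up_ne _ _ _ _ c3 c4, up_ne _ _ _ _ hMa c0, hKa, hKb, c1]
      have hb : M (a + 1) ≠ a := fun hh => c0 (iff1.2 hh)
      have e5 := (ar5 ha Na c0 hb Nb hab (nab hb.symm)).1
      linarith
    · have hMb : M (a + 1) ≠ a := fun hh => c0 (iff1.2 hh)
      have h1 := h.path k hk hen
      rw [c5] at h1
      have h2 := h.eno k hk
      rw [c5, hen, hea] at h2
      have hu : u = false := by simpa using h2
      have h3 := h.path (a + 1) ha' (by rw [heb, hu]; rfl)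
      have h4 : Pth ω (insert e R) (cr a) (cr (a + 1)) 1 :=
        Pth.step (by rw [(hT.l2 hu).1]; exact heR) (hT.s4 hu rfl).1 (hT.s4 hu rfl).2.2.1
      have h5 := ((h1.mono hR).trans h4).trans (h3.mono hR)
      rw [c2, up_ne _ _ _ _ c3 c4, up_ne _ _ _ _ hMb Nb]
      convert h5 using 1
      unfold tt
      rw [up_ne _ _ _ _ c3 c4, up_ne _ _ _ _ hMb Nb, hKa, hKb, c1]
      have e5 := (ar5 ha Na c0 hMb Nb hab (nab hMb.symm)).2
      linarith
    · have h1 := h.path k hk hen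
      obtain ⟨d1, d2, -, -⟩ := j6 k hk c1 c3 c4 c5
      rw [c2, up_ne _ _ _ _ c1 c3, up_ne _ _ _ _ d1 d2]
      convert h1.mono hR using 1
      unfold tt
      rw [up_ne _ _ _ _ c1 c3, up_ne _ _ _ _ d1 d2]

end

end Pool.Agent.H69.M6b
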