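import Mathlib
import Pool.Agent.H69.M6b.Grow

set_option autoImplicit false
open Finset

/-! # Planarity by growth, for an arbitrary step map

The ports `0, …, 2n-1` of a region: `k < n` lower boundary from left to right, then the upper boundary
from right to left. `inn k`: position after entering the region at the port `k`, `out k`: position after
leaving it there. -/

namespace Pool.Agent.H69.M6b

/-- path of the map `f` from `x` to `y` through `R`, with turning `t` -/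
def PR {D : Type*} (f : D → D) (δ : D → ℤ) (R : Set D) (x y : D) (t : ℤ) : Prop :=
  ∃ n : ℕ, f^[n] x = y ∧ (∀ i < n, f^[i] x ∈ R) ∧ t = ∑ i ∈ range n, δ (f^[i] x)

section
variable {D : Type*} {f : D → D} {δ : D → ℤ} {R R' : Set D}

lemma PR.refl (x : D) : PR f δ R x x 0 := ⟨0, rfl, fun i hi => absurd hi (Nat.not_lt_zero i), by simp⟩

lemma PR.step {x y : D} (h : x ∈ R) (h' : f x = y) {t : ℤ} (ht : δ x = t) : PR f δ R x y t :=
  ⟨1, h', fun i hi => by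
    have : i = 0 := by omega
    subst this; exact h, by simp [ht]⟩

lemma PR.trans {x y z : D} {t t' : ℤ} (h : PR f δ R x y t) (h' : PR f δ R y z t') :
    PR f δ R x z (t + t') := by
  obtain ⟨n, h1, h2, h3⟩ := h
  obtain ⟨m, g1, g2, g3⟩ := h'
  have e : ∀ i, f^[n + i] x = f^[i] y := by
    intro i; rw [Nat.add_comm, Function.iterate_add_apply, h1]
  refine ⟨n + m, by rw [e, g1], ?_, ?_⟩
  · intro i hi
    rcases Nat.lt_or_ge i n with h4 | h4
    · exact h2 i h4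
    · obtain ⟨j, rfl⟩ : ∃ j, i = n + j := ⟨i - n, by omega⟩
      rw [e]; exact g2 j (by omega)
  · rw [Finset.sum_range_add, h3, g3]
    congr 1
    exact sum_congr rfl fun i _ => by rw [e]

lemma PR.mono (hR : R ⊆ R') {x y : D} {t : ℤ} (h : PR f δ R x y t) : PR f δ R' x y t := by
  obtain ⟨n, h1, h2, h3⟩ := h
  exact ⟨n, h1, fun i hi => hR (h2 i hi), h3⟩

/-- noncrossing matching of the ports by the strands of the region -/
structure TD (f : D → D) (δ : D → ℤ) (R : Set D) (n : ℕ) (inn out : ℕ → D) (K : ℕ → ℤ)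
    (M : ℕ → ℕ) : Prop where
  lt : ∀ k < 2 * n, M k < 2 * n
  inv : ∀ k < 2 * n, M (M k) = k
  ne : ∀ k < 2 * n, M k ≠ k
  nc : ∀ k < 2 * n, ∀ l < 2 * n, l ≠ k → l ≠ M k →
    ((l < k ↔ l < M k) ↔ (M l < k ↔ M l < M k))
  path : ∀ k < 2 * n, PR f δ R (inn k) (out (M k)) (tt n K k (M k))

/-- the step map at a tile: positions `xS, xW` (entering from below, from the left), `xE, xN` (entering
from the right, from above), `yW, yS, yE, yN` (leaving) -/
structure Tile4 (f : D → D) (δ : D → ℤ) (p : Bool) (xS xW xE xN yS yW yE yN : D) : Prop where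
  s1 : p = false → f xW = yN ∧ f xE = yS ∧ f xS = yE ∧ f xN = yW ∧ δ xW = 1 ∧ δ xE = 1 ∧
    δ xS = -1 ∧ δ xN = -1
  s2 : p = true → f xW = yS ∧ f xE = yN ∧ f xS = yW ∧ f xN = yE ∧ δ xW = -1 ∧ δ xE = -1 ∧
    δ xS = 1 ∧ δ xN = 1

variable {n : ℕ} {inn out : ℕ → D} {K : ℕ → ℤ} {M : ℕ → ℕ} {a : ℕ} {p : Bool}
  {xE xN yE yN : D}

lemma TD.inj (h : TD f δ R n inn out K M) {k l : ℕ} (hk : k < 2 * n) (hl : l < 2 * n)
    (hkl : M k = M l) : k = l := by
  rw [← h.inv k hk, hkl, h.inv l hl]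

/-- passing tile -/
theorem TD.pass (h : TD f δ R n inn out K M) (ha : n ≤ a) (ha' : a + 1 < 2 * n) (hKa : K a = 1)
    (hKb : K (a + 1) = 0)
    (hT : Tile4 f δ false (out a) (out (a + 1)) xE xN (inn a) (inn (a + 1)) yE yN)
    (m1 : out a ∈ R) (m2 : out (a + 1) ∈ R) (m3 : xE ∈ R) (m4 : xN ∈ R) :
    TD f δ R n (up _ inn a xE xN) (up _ out a yE yN) (up _ K a 0 1) M := by
  obtain ⟨t1, t2, t3, t4, d1, d2, d3, d4⟩ := hT.s1 rfl
  refine ⟨h.lt, h.inv, h.ne, h.nc, ?_⟩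
  intro k hk
  have key := h.path k hk
  have first : ∃ t, PR f δ R (up _ inn a xE xN k) (inn k) t ∧ t = K k - up _ K a 0 1 k := by
    by_cases h1 : k = a
    · subst h1
      rw [up_a, up_a]
      exact ⟨1, PR.step m3 t2 d2, by rw [hKa]; ring⟩
    · by_cases h2 : k = a + 1
      · subst h2
        rw [up_b, up_b]
        exact ⟨-1, PR.step m4 t4 d4, by rw [hKb]; ring⟩
      · rw [up_ne _ _ _ _ h1 h2, up_ne _ _ _ _ h1 h2]
        exact ⟨0, PR.refl _, by ring⟩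
  have last : ∃ t, PR f δ R (out (M k)) (up _ out a yE yN (M k)) t ∧
      t = up _ K a 0 1 (M k) - K (M k) := by
    by_cases h1 : M k = a
    · rw [h1, up_a, up_a]
      exact ⟨-1, PR.step m1 t3 d3, by rw [hKa]; ring⟩
    · by_cases h2 : M k = a + 1
      · rw [h2, up_b, up_b]
        exact ⟨1, PR.step m2 t1 d1, by rw [hKb]; ring⟩
      · rw [up_ne _ _ _ _ h1 h2, up_ne _ _ _ _ h1 h2]
        exact ⟨0, PR.refl _, by ring⟩
  obtain ⟨t1, h1, e1⟩ := first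
  obtain ⟨t2, h2, e2⟩ := last
  have h3 := (h1.trans key).trans h2
  have e3 : t1 + tt n K k (M k) + t2 = tt n (up _ K a 0 1) k (M k) := by
    rw [e1, e2]; unfold tt; ring
  rw [← e3]; exact h3

/-- joining tile -/
theorem TD.join (h : TD f δ R n inn out K M) (ha : n ≤ a) (ha' : a + 1 < 2 * n) (hKa : K a = 1)
    (hKb : K (a + 1) = 0)
    (hT : Tile4 f δ true (out a) (out (a + 1)) xE xN (inn a) (inn (a + 1)) yE yN)
    (m1 : out a ∈ R) (m2 : out (a + 1) ∈ R) (m3 : xE ∈ R) (m4 : xN ∈ R) :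
    TD f δ R n (up _ inn a xE xN) (up _ out a yE yN) (up _ K a 0 1) (jn M a) := by
  obtain ⟨t1, t2, t3, t4, d1, d2, d3, d4⟩ := hT.s2 rfl
  have ha2 : a < 2 * n := by omega
  have Ma := h.lt a ha2
  have Mb := h.lt (a + 1) ha'
  have Ia := h.inv a ha2
  have Ib := h.inv (a + 1) ha'
  have Na := h.ne a ha2
  have Nb := h.ne (a + 1) ha'
  have iff1 : M a = a + 1 ↔ M (a + 1) = a :=
    ⟨fun hh => by have := Ia; rw [hh] at this; exact this,
      fun hh => by have := Ib; rw [hh] at this; exact this⟩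
  have hab : M a ≠ M (a + 1) := fun hh => by
    have := h.inj ha2 ha' hh; omega
  -- values of `jn`
  have j1 : jn M a a = a + 1 := by simp [jn]
  have j2 : jn M a (a + 1) = a := by simp [jn]
  have j3 : M a ≠ a + 1 → jn M a (M (a + 1)) = M a := by
    intro hh
    have : M (a + 1) ≠ a := fun h' => hh (iff1.2 h')
    simp [jn, this, Nb]
  have j4 : M a ≠ a + 1 → jn M a (M a) = M (a + 1) := by
    intro hh
    simp [jn, hh, Na, hab]
  have j5 : ∀ k, k ≠ a → k ≠ a + 1 → k ≠ M (a + 1) → k ≠ M a → jn M a k = M k := by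
    intro k h1 h2 h3 h4
    simp [jn, h1, h2, h3, h4]
  have j6 : ∀ k < 2 * n, k ≠ a → k ≠ a + 1 → k ≠ M (a + 1) → k ≠ M a →
      M k ≠ a ∧ M k ≠ a + 1 ∧ M k ≠ M (a + 1) ∧ M k ≠ M a := by
    intro k hk h1 h2 h3 h4
    refine ⟨fun hh => ?_, fun hh => ?_, fun hh => ?_, fun hh => ?_⟩
    · apply h4; rw [← hh, h.inv k hk]
    · apply h3; rw [← hh, h.inv k hk]
    · exact h2 (h.inj hk ha' hh)
    · exact h1 (h.inj hk ha2 hh)
  -- case distinction for a port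
  have cases4 : ∀ k < 2 * n, (jn M a k = a + 1 ∧ k = a) ∨ (jn M a k = a ∧ k = a + 1) ∨
      (jn M a k = M a ∧ M a ≠ a + 1 ∧ k = M (a + 1) ∧ k ≠ a ∧ k ≠ a + 1 ∧ M k = a + 1) ∨
      (jn M a k = M (a + 1) ∧ M a ≠ a + 1 ∧ k = M a ∧ k ≠ a ∧ k ≠ a + 1 ∧ M k = a) ∨
      (jn M a k = M k ∧ k ≠ a ∧ k ≠ a + 1 ∧ k ≠ M (a + 1) ∧ k ≠ M a) := by
    intro k hk
    by_cases h1 : k = a
    · left; exact ⟨by rw [h1, j1], h1⟩
    by_cases h2 : k = a + 1
    · right; left; exact ⟨by rw [h2, j2], h2⟩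
    by_cases h3 : k = M (a + 1)
    · have h0 : M a ≠ a + 1 := fun hh => h1 (by rw [h3]; exact iff1.1 hh)
      right; right; left
      exact ⟨by rw [h3, j3 h0], h0, h3, h1, h2, by rw [h3, Ib]⟩
    by_cases h4 : k = M a
    · have h0 : M a ≠ a + 1 := fun hh => h2 (by rw [h4]; exact hh)
      right; right; right; left
      exact ⟨by rw [h4, j4 h0], h0, h4, h1, h2, by rw [h4, Ia]⟩
    · right; right; right; right
      exact ⟨j5 k h1 h2 h3 h4, h1, h2, h3, h4⟩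
  have nab := h.nc (a + 1) ha' a ha2 (by omega)
  refine ⟨?_, ?_, ?_, ?_, ?_⟩
  · intro k hk
    have := h.lt k hk
    rcases cases4 k hk with c | c | c | c | c <;> omega
  · intro k hk
    rcases cases4 k hk with ⟨c2, c1⟩ | ⟨c2, c1⟩ | ⟨c2, c0, c1, -⟩ | ⟨c2, c0, c1, -⟩ |
        ⟨c5, c1, c2, c3, c4⟩
    · rw [c2, j2, c1]
    · rw [c2, j1, c1]
    · rw [c2, j4 c0, c1]
    · rw [c2, j3 c0, c1]
    · obtain ⟨d1, d2, d3, d4⟩ := j6 k hk c1 c2 c3 c4
      rw [c5, j5 _ d1 d2 d3 d4, h.inv k hk]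
  · intro k hk
    have := h.ne k hk
    rcases cases4 k hk with c | c | c | c | c <;> omega
  · intro k hk l hl hlk hlM
    have out : ∀ l < 2 * n, l ≠ a → l ≠ a + 1 → jn M a l ≠ a ∧ jn M a l ≠ a + 1 := by
      intro l hl h1 h2
      rcases cases4 l hl with ⟨d2, d1⟩ | ⟨d2, d1⟩ | ⟨d2, d0, d1, d3, d4, d5⟩ |
        ⟨d2, d0, d1, d3, d4, d5⟩ | ⟨d2, d1, d3, d4, d5⟩
      · exact absurd d1 h1
      · exact absurd d1 h2
      · rw [d2]; exact ⟨Na, d0⟩
      · rw [d2]; exact ⟨fun hh => d0 (iff1.2 hh), Nb⟩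
      · rw [d2]; exact ⟨(j6 l hl d1 d3 d4 d5).1, (j6 l hl d1 d3 d4 d5).2.1⟩
    rcases cases4 k hk with ⟨c2, c1⟩ | ⟨c2, c1⟩ | ⟨c2, c0, c1, c3, c4, c5⟩ |
        ⟨c2, c0, c1, c3, c4, c5⟩ | ⟨c2, c1, c3, c4, c5⟩
    · rw [c2] at hlM ⊢
      rw [c1] at hlk ⊢
      obtain ⟨o1, o2⟩ := out l hl hlk hlM
      exact ar1 hlk o1
    · rw [c2] at hlM ⊢
      rw [c1] at hlk ⊢
      obtain ⟨o1, o2⟩ := out l hl hlM hlk
      exact ar1' hlM o1
    · -- k = M (a+1), jn k = M a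
      rw [c2] at hlM ⊢
      rw [c1] at hlk ⊢
      have hb : M (a + 1) ≠ a := fun hh => c0 (iff1.2 hh)
      rcases cases4 l hl with ⟨d2, d1⟩ | ⟨d2, d1⟩ | ⟨d2, d0, d1, -⟩ | ⟨d2, d0, d1, -⟩ |
        ⟨d2, d1, d3, d4, d5⟩
      · rw [d2, d1]; exact ar2 Nb c0
      · rw [d2, d1]; exact ar2' Nb c0
      · exact absurd d1 hlk
      · exact absurd d1 hlM
      · obtain ⟨f1, f2, -, -⟩ := j6 l hl d1 d3 d4 d5
        rw [d2]
        exact (ar3 d1 f1 (h.nc a ha2 l hl d1 d5) (h.nc (a + 1) ha' l hl d3 d4)).1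
    · -- k = M a, jn k = M (a+1)
      rw [c2] at hlM ⊢
      rw [c1] at hlk ⊢
      have hb : M (a + 1) ≠ a := fun hh => c0 (iff1.2 hh)
      rcases cases4 l hl with ⟨d2, d1⟩ | ⟨d2, d1⟩ | ⟨d2, d0, d1, -⟩ | ⟨d2, d0, d1, -⟩ |
        ⟨d2, d1, d3, d4, d5⟩
      · rw [d2, d1]; exact ar2 c0 Nb
      · rw [d2, d1]; exact ar2' c0 Nb
      · exact absurd d1 hlM
      · exact absurd d1 hlk
      · obtain ⟨f1, f2, -, -⟩ := j6 l hl d1 d3 d4 d5
        rw [d2]
        exact (ar3 d1 f1 (h.nc a ha2 l hl d1 d5) (h.nc (a + 1) ha' l hl d3 d4)).2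
    · rw [c2] at hlM ⊢
      obtain ⟨f1, f2, f3, f4⟩ := j6 k hk c1 c3 c4 c5
      rcases cases4 l hl with ⟨d2, d1⟩ | ⟨d2, d1⟩ | ⟨d2, d0, d1, -⟩ | ⟨d2, d0, d1, -⟩ |
        ⟨d2, d1, d3, d4, d5⟩
      · rw [d2, d1]; exact ar2 c3 f2
      · rw [d2, d1]; exact ar2' c3 f2
      · rw [d2, d1]
        exact (ar4 c3 f2 (h.nc k hk a ha2 (Ne.symm c1) (Ne.symm f1))
          (h.nc k hk (a + 1) ha' (Ne.symm c3) (Ne.symm f2))).1
      · rw [d2, d1]
        exact (ar4 c3 f2 (h.nc k hk a ha2 (Ne.symm c1) (Ne.symm f1))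
          (h.nc k hk (a + 1) ha' (Ne.symm c3) (Ne.symm f2))).2
      · rw [d2]; exact h.nc k hk l hl hlk hlM
  · intro k hk
    rcases cases4 k hk with ⟨c2, c1⟩ | ⟨c2, c1⟩ | ⟨c2, c0, c1, c3, c4, c5⟩ |
        ⟨c2, c0, c1, c3, c4, c5⟩ | ⟨c2, c1, c3, c4, c5⟩
    · subst c1
      rw [c2, up_a, up_b]
      refine PR.step m3 t2 ?_
      rw [d2]
      unfold tt
      rw [up_a, up_b, if_pos (by omega), if_pos (by omega)]
      norm_num
    · subst c1
      rw [c2, up_a, up_b]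
      refine PR.step m4 t4 ?_
      rw [d4]
      unfold tt
      rw [up_a, up_b, if_pos (by omega), if_neg (by omega)]
      norm_num
    · have hMa : M a ≠ a := Na
      have h1 := h.path k hk
      rw [c5] at h1
      have h3 := h.path a ha2
      have h4 : PR f δ R (out (a + 1)) (inn a) (-1) := PR.step m2 t1 d1
      have h5 := (h1.trans h4).trans h3
      rw [c2, up_ne _ _ _ _ c3 c4, up_ne _ _ _ _ hMa c0]
      convert h5 using 1
      unfold tt
      rw [up_ne _ _ _ _ c3 c4, up_ne _ _ _ _ hMa c0, hKa, hKb, c1]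
      have hb : M (a + 1) ≠ a := fun hh => c0 (iff1.2 hh)
      have e5 := (ar5 ha Na c0 hb Nb hab (nab hb.symm)).1
      linarith
    · have hMb : M (a + 1) ≠ a := fun hh => c0 (iff1.2 hh)
      have h1 := h.path k hk
      rw [c5] at h1
      have h3 := h.path (a + 1) ha'
      have h4 : PR f δ R (out a) (inn (a + 1)) 1 := PR.step m1 t3 d3
      have h5 := (h1.trans h4).trans h3
      rw [c2, up_ne _ _ _ _ c3 c4, up_ne _ _ _ _ hMb Nb]
      convert h5 using 1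
      unfold tt
      rw [up_ne _ _ _ _ c3 c4, up_ne _ _ _ _ hMb Nb, hKa, hKb, c1]
      have e5 := (ar5 ha Na c0 hMb Nb hab (nab hMb.symm)).2
      linarith
    · have h1 := h.path k hk
      obtain ⟨f1, f2, f3, f4⟩ := j6 k hk c1 c3 c4 c5
      rw [c2, up_ne _ _ _ _ c1 c3, up_ne _ _ _ _ f1 f2]
      convert h1 using 1
      unfold tt
      rw [up_ne _ _ _ _ c1 c3, up_ne _ _ _ _ f1 f2]

end

end Pool.Agent.H69.M6b
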