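import Mathlib
import Pool.Agent.H69.M6b.TL

set_option autoImplicit false
open Finset

/-! # The strands of a rectangle of tiles

Tiles `(i, j)`, `i < w`, `j < h`. `vR i j`, `vL i j`: position after crossing the vertical side `(i, j)`
(between the tiles `(i-1, j)` and `(i, j)`) to the right, to the left; `hU i j`, `hD i j`: position after
crossing the horizontal side `(i, j)` (between `(i, j-1)` and `(i, j)`) upwards, downwards.

Ports: left side from top to bottom, bottom side from left to right, right side from bottom to top, top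
side from right to left. -/

namespace Pool.Agent.H69.M6b

/-- the step map `f` on a rectangle of tiles; `s i j = false`: state `{W–N, S–E}`, `true`: `{W–S, N–E}` -/
structure Grid {D : Type*} (f : D → D) (δ : D → ℤ) (w h : ℕ) (s : ℕ → ℕ → Bool)
    (vR vL hU hD : ℕ → ℕ → D) : Prop where
  tile : ∀ i < w, ∀ j < h, Tile4 f δ (s i j) (hU i j) (vR i j) (vL (i + 1) j) (hD i (j + 1))
    (hD i j) (vL i j) (vR (i + 1) j) (hU i (j + 1))

/-- a side: vertical? and the indices -/
abbrev Sd := Bool × ℕ × ℕ

/-- position after crossing a side to the right or upwards -/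
def fwd {D : Type*} (vR hU : ℕ → ℕ → D) (x : Sd) : D := if x.1 then vR x.2.1 x.2.2 else hU x.2.1 x.2.2

/-- side of a port of the rectangle -/
def sdP (w h : ℕ) (k : ℕ) : Sd :=
  if k < h then (true, 0, h - 1 - k) else if k < h + w then (false, k - h, 0)
  else if k < h + w + h then (true, w, k - (h + w))
  else if k < 2 * (h + w) then (false, 2 * (h + w) - 1 - k, h) else (true, 0, 0)

/-- side number `r` of the upper boundary (from left to right) after adding the rows below `j` and the
tiles `(i', j)`, `i' < i` -/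
def prof (w h j i : ℕ) (r : ℕ) : Sd :=
  if r + 1 + j < h then (true, 0, h - 1 - r) else if r + 1 + j < h + i then (false, r + 1 + j - h, j + 1)
  else if r + 1 + j = h + i then (true, i, j) else if r + j < h + w then (false, r + j - h, j)
  else (true, w, h + w - 1 - r)

/-- side of a port at a stage -/
def sdS (w h j i : ℕ) (k : ℕ) : Sd :=
  if k < h + w then sdP w h k else if k < 2 * (h + w) then prof w h j i (2 * (h + w) - 1 - k)
  else (true, 0, 0)

variable {D : Type*} {f : D → D} {δ : D → ℤ} {w h : ℕ} {s : ℕ → ℕ → Bool}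
  {vR vL hU hD : ℕ → ℕ → D}

/-- position after entering the region at a port -/
def innS (vR vL hU hD : ℕ → ℕ → D) (n : ℕ) (S : ℕ → Sd) (k : ℕ) : D :=
  if k < n then fwd vR hU (S k) else fwd vL hD (S k)

/-- position after leaving the region at a port -/
def outS (vR vL hU hD : ℕ → ℕ → D) (n : ℕ) (S : ℕ → Sd) (k : ℕ) : D :=
  if k < n then fwd vL hD (S k) else fwd vR hU (S k)

/-- direction of the port -/
def KS (S : ℕ → Sd) (k : ℕ) : ℤ := if (S k).1 then 0 else 1

/-- the positions of the rectangle -/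
def RR (w h : ℕ) (vR vL hU hD : ℕ → ℕ → D) : Set D :=
  {x | ∃ i < w, ∃ j < h, x = hU i j ∨ x = vR i j ∨ x = vL (i + 1) j ∨ x = hD i (j + 1)}

lemma sdS_up {j i : ℕ} (hi : i < w) (hj : j < h) :
    sdS w h j (i + 1) = up Sd (sdS w h j i) (2 * (h + w) - 1 - (h + i - j)) (true, i + 1, j)
      (false, i, j + 1) := by
  funext k
  unfold sdS up
  by_cases h1 : k = 2 * (h + w) - 1 - (h + i - j)
  · rw [if_pos h1, if_neg (by omega), if_pos (by omega)]
    unfold prof
    rw [if_neg (by omega), if_neg (by omega), if_pos (by omega)]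
  rw [if_neg h1]
  by_cases h2 : k = 2 * (h + w) - 1 - (h + i - j) + 1
  · rw [if_pos h2, if_neg (by omega), if_pos (by omega)]
    unfold prof
    rw [if_neg (by omega), if_pos (by omega)]
    congr 2
    omega
  rw [if_neg h2]
  dsimp only
  by_cases h3 : k < h + w
  · rw [if_pos h3, if_pos h3]
  rw [if_neg h3, if_neg h3]
  by_cases h4 : k < 2 * (h + w)
  · rw [if_pos h4, if_pos h4]
    unfold prof
    split_ifs <;> first | rfl | omega
  · rw [if_neg h4, if_neg h4]

lemma innS_up {S : ℕ → Sd} {n a : ℕ} (ha : n ≤ a) (x y : Sd) :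
    innS vR vL hU hD n (up Sd S a x y) =
      up D (innS vR vL hU hD n S) a (fwd vL hD x) (fwd vL hD y) := by
  funext k
  unfold innS up
  by_cases h1 : k = a
  · simp only [if_pos h1]; rw [if_neg (by omega)]
  by_cases h2 : k = a + 1
  · simp only [if_pos h2, if_neg h1]; rw [if_neg (by omega)]
  simp only [if_neg h1, if_neg h2]

lemma outS_up {S : ℕ → Sd} {n a : ℕ} (ha : n ≤ a) (x y : Sd) :
    outS vR vL hU hD n (up Sd S a x y) =
      up D (outS vR vL hU hD n S) a (fwd vR hU x) (fwd vR hU y) := by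
  funext k
  unfold outS up
  by_cases h1 : k = a
  · simp only [if_pos h1]; rw [if_neg (by omega)]
  by_cases h2 : k = a + 1
  · simp only [if_pos h2, if_neg h1]; rw [if_neg (by omega)]
  simp only [if_neg h1, if_neg h2]

lemma KS_up {S : ℕ → Sd} {a i j i' j' : ℕ} :
    KS (up Sd S a (true, i, j) (false, i', j')) = up ℤ (KS S) a 0 1 := by
  funext k
  unfold KS up
  by_cases h1 : k = a
  · simp [if_pos h1]
  by_cases h2 : k = a + 1
  · subst h2; simp
  simp only [if_neg h1, if_neg h2]

/-- one more tile -/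
lemma Grid.add (hG : Grid f δ w h s vR vL hU hD) {j i : ℕ} (hi : i < w) (hj : j < h)
    (hM : ∃ M, TD f δ (RR w h vR vL hU hD) (h + w) (innS vR vL hU hD (h + w) (sdS w h j i))
      (outS vR vL hU hD (h + w) (sdS w h j i)) (KS (sdS w h j i)) M) :
    ∃ M, TD f δ (RR w h vR vL hU hD) (h + w) (innS vR vL hU hD (h + w) (sdS w h j (i + 1)))
      (outS vR vL hU hD (h + w) (sdS w h j (i + 1))) (KS (sdS w h j (i + 1))) M := by
  obtain ⟨M, hM⟩ := hM
  set n := h + w with hn
  set a := 2 * n - 1 - (h + i - j) with ha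
  have han : n ≤ a := by omega
  have ha' : a + 1 < 2 * n := by omega
  have ea : sdS w h j i a = (false, i, j) := by
    unfold sdS prof
    rw [if_neg (by omega), if_pos (by omega), if_neg (by omega), if_neg (by omega),
      if_neg (by omega), if_pos (by omega)]
    congr 2
    omega
  have eb : sdS w h j i (a + 1) = (true, i, j) := by
    unfold sdS prof
    rw [if_neg (by omega), if_pos (by omega), if_neg (by omega), if_neg (by omega),
      if_pos (by omega)]
  have oa : outS vR vL hU hD n (sdS w h j i) a = hU i j := by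
    unfold outS fwd; rw [if_neg (by omega), ea]; rfl
  have ob : outS vR vL hU hD n (sdS w h j i) (a + 1) = vR i j := by
    unfold outS fwd; rw [if_neg (by omega), eb]; rfl
  have ia : innS vR vL hU hD n (sdS w h j i) a = hD i j := by
    unfold innS fwd; rw [if_neg (by omega), ea]; rfl
  have ib : innS vR vL hU hD n (sdS w h j i) (a + 1) = vL i j := by
    unfold innS fwd; rw [if_neg (by omega), eb]; rfl
  have ka : KS (sdS w h j i) a = 1 := by unfold KS; rw [ea]; rfl
  have kb : KS (sdS w h j i) (a + 1) = 0 := by unfold KS; rw [eb]; rfl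
  have hT := hG.tile i hi j hj
  rw [← oa, ← ob, ← ia, ← ib] at hT
  rw [sdS_up hi hj, innS_up han, outS_up han, KS_up]
  have e1 : fwd vL hD ((true, i + 1, j) : Sd) = vL (i + 1) j := rfl
  have e2 : fwd vL hD ((false, i, j + 1) : Sd) = hD i (j + 1) := rfl
  have e3 : fwd vR hU ((true, i + 1, j) : Sd) = vR (i + 1) j := rfl
  have e4 : fwd vR hU ((false, i, j + 1) : Sd) = hU i (j + 1) := rfl
  rw [e1, e2, e3, e4]
  have m1 : outS vR vL hU hD n (sdS w h j i) a ∈ RR w h vR vL hU hD := by
    rw [oa]; exact ⟨i, hi, j, hj, Or.inl rfl⟩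
  have m2 : outS vR vL hU hD n (sdS w h j i) (a + 1) ∈ RR w h vR vL hU hD := by
    rw [ob]; exact ⟨i, hi, j, hj, Or.inr (Or.inl rfl)⟩
  have m3 : vL (i + 1) j ∈ RR w h vR vL hU hD := ⟨i, hi, j, hj, Or.inr (Or.inr (Or.inl rfl))⟩
  have m4 : hD i (j + 1) ∈ RR w h vR vL hU hD := ⟨i, hi, j, hj, Or.inr (Or.inr (Or.inr rfl))⟩
  cases hs : s i j
  · rw [hs] at hT
    exact ⟨_, hM.pass han ha' ka kb hT m1 m2 m3 m4⟩
  · rw [hs] at hT
    exact ⟨_, hM.join han ha' ka kb hT m1 m2 m3 m4⟩

lemma sdS_row {j : ℕ} (_ : j + 1 < h) : sdS w h j w = sdS w h (j + 1) 0 := by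
  funext k
  unfold sdS prof
  split_ifs <;> first | rfl | omega | (refine Prod.ext rfl (Prod.ext ?_ ?_) <;> simp only <;> omega)

lemma sdS_last (hh : 0 < h) : sdS w h (h - 1) w = sdP w h := by
  funext k
  unfold sdS prof
  by_cases h1 : k < h + w
  · rw [if_pos h1]
  rw [if_neg h1]
  unfold sdP
  split_ifs <;> first | rfl | omega | (refine Prod.ext rfl (Prod.ext ?_ ?_) <;> simp only <;> omega)

lemma sdS_zero {k : ℕ} (hk : k < 2 * (h + w)) :
    sdS w h 0 0 (2 * (h + w) - 1 - k) = sdS w h 0 0 k := by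
  unfold sdS prof sdP
  split_ifs <;> first | rfl | omega | (refine Prod.ext rfl (Prod.ext ?_ ?_) <;> simp only <;> omega)

/-- the region of width zero -/
lemma TD_zero (f : D → D) (δ : D → ℤ) (R : Set D) (vR vL hU hD : ℕ → ℕ → D) (w h : ℕ) :
    TD f δ R (h + w) (innS vR vL hU hD (h + w) (sdS w h 0 0))
      (outS vR vL hU hD (h + w) (sdS w h 0 0)) (KS (sdS w h 0 0))
      (fun k => 2 * (h + w) - 1 - k) := by
  refine ⟨fun k hk => by omega, fun k hk => by omega, fun k hk => by omega, ?_, ?_⟩
  · intro k hk l hl h1 h2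
    have e1 : (l < k) ↔ ¬ (k < l) := by omega
    have e2 : (l < 2 * (h + w) - 1 - k) ↔ ¬ (2 * (h + w) - 1 - k < l) := by omega
    have e3 : (2 * (h + w) - 1 - l < k) ↔ (2 * (h + w) - 1 - k < l) := by omega
    have e4 : (2 * (h + w) - 1 - l < 2 * (h + w) - 1 - k) ↔ (k < l) := by omega
    rw [e1, e2, e3, e4, not_iff_not]
    exact ⟨fun h => h.symm, fun h => h.symm⟩
  · intro k hk
    have e1 : innS vR vL hU hD (h + w) (sdS w h 0 0) k =
        outS vR vL hU hD (h + w) (sdS w h 0 0) (2 * (h + w) - 1 - k) := by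
      unfold innS outS
      rw [sdS_zero hk]
      by_cases h1 : k < h + w
      · rw [if_pos h1, if_neg (by omega)]
      · rw [if_neg h1, if_pos (by omega)]
    have e2 : tt (h + w) (KS (sdS w h 0 0)) k (2 * (h + w) - 1 - k) = 0 := by
      unfold tt KS
      have h0 : ¬ (k < h + w ↔ 2 * (h + w) - 1 - k < h + w) := by
        intro h1
        rcases Nat.lt_or_ge k (h + w) with h2 | h2
        · have := h1.1 h2; omega
        · have := h1.2 (by omega); omega
      rw [sdS_zero hk, if_neg h0]
      ring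
    rw [e1, e2]
    exact PR.refl _

/-- **The strands of a rectangle** join the ports by a noncrossing matching; the turning of a strand is the
function `tt` of its ports. -/
theorem Grid.rect (hG : Grid f δ w h s vR vL hU hD) (hh : 0 < h) :
    ∃ M, TD f δ (RR w h vR vL hU hD) (h + w) (innS vR vL hU hD (h + w) (sdP w h))
      (outS vR vL hU hD (h + w) (sdP w h)) (KS (sdP w h)) M := by
  have row : ∀ j < h, (∃ M, TD f δ (RR w h vR vL hU hD) (h + w)
      (innS vR vL hU hD (h + w) (sdS w h j 0)) (outS vR vL hU hD (h + w) (sdS w h j 0))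
      (KS (sdS w h j 0)) M) → ∀ i ≤ w, ∃ M, TD f δ (RR w h vR vL hU hD) (h + w)
      (innS vR vL hU hD (h + w) (sdS w h j i)) (outS vR vL hU hD (h + w) (sdS w h j i))
      (KS (sdS w h j i)) M := by
    intro j hj h0 i
    induction i with
    | zero => intro _; exact h0
    | succ i ih => intro hi; exact hG.add (by omega) hj (ih (by omega))
  have all : ∀ j < h, ∃ M, TD f δ (RR w h vR vL hU hD) (h + w)
      (innS vR vL hU hD (h + w) (sdS w h j w)) (outS vR vL hU hD (h + w) (sdS w h j w))
      (KS (sdS w h j w)) M := by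
    intro j
    induction j with
    | zero => intro hj; exact row 0 hj ⟨_, TD_zero f δ _ vR vL hU hD w h⟩ w le_rfl
    | succ j ih =>
      intro hj
      have h1 := ih (by omega)
      rw [sdS_row hj] at h1
      exact row (j + 1) hj h1 w le_rfl
  have h1 := all (h - 1) (by omega)
  rw [sdS_last hh] at h1
  exact h1

end Pool.Agent.H69.M6b
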