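import Pool.Agent.H69.M6b.Mirror

set_option autoImplicit false
set_option linter.unusedSectionVars false
open Finset

/-! # Comparison of two networks with frozen tiles

`En X s0 Q w v t`: the path which enters at `w` and runs through tiles outside `Q` in the state `s0`
enters `Q` for the first time at `v`, with turning `t`. The state sum of a network whose tiles outside
`Q` are frozen depends only on these data (`compare`). For two rows with frozen inner arcs this is the
theorem `Cmp.eq`. -/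

namespace Pool.Agent.H69.M6b

open Pool.Agent.H81.G1 Pool.Agent.H80.Sweep

section
variable {ι : Type*} [Fintype ι] [DecidableEq ι]

/-- path through the frozen tiles up to the first entrance into `Q` -/
inductive En (X : Net ι) (s0 : ι → Bool) (Q : Finset ι) : ι × Dir → ι × Dir → ℤ → Prop
  | done {w : ι × Dir} (h : w.1 ∈ Q) : En X s0 Q w w 0
  | pass {w v : ι × Dir} {t : ℤ} (h : w.1 ∉ Q) (h' : En X s0 Q (X.step s0 w) v t) :
      En X s0 Q w v (X.dt s0 w + t)

omit [Fintype ι] [DecidableEq ι] in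
lemma En.mem {X : Net ι} {s0 : ι → Bool} {Q : Finset ι} {w v : ι × Dir} {t : ℤ}
    (h : En X s0 Q w v t) : v.1 ∈ Q := by
  induction h with
  | done h => exact h
  | pass _ _ ih => exact ih

omit [Fintype ι] [DecidableEq ι] in
lemma En.ret {X : Net ι} {s0 s : ι → Bool} {Q : Finset ι} (hs : ∀ i ∉ Q, s i = s0 i)
    {w v : ι × Dir} {t : ℤ} (h : En X s0 Q w v t) : ∀ p, X.step s p = w →
    Ret (X.step s) (X.dt s) (fun p => p.1 ∈ Q) p v (X.dt s p + t) := by
  induction h with
  | done h =>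
    intro p hp
    rw [add_zero]
    exact Ret.last hp h rfl
  | @pass w v t h h' ih =>
    intro p hp
    have e1 : X.step s w = X.step s0 w := by unfold Net.step; rw [hs _ h]
    have e2 : X.dt s w = X.dt s0 w := by unfold Net.dt; rw [hs _ h]
    have h1 := ih w e1
    rw [e2] at h1
    exact Ret.step hp h rfl h1

omit [Fintype ι] [DecidableEq ι] in
lemma En.iter {X : Net ι} {s0 : ι → Bool} {Q : Finset ι} {v : ι × Dir} {t : ℤ} {k : ℕ} :
    ∀ {w : ι × Dir}, (∀ i < k, ((X.step s0)^[i] w).1 ∉ Q) → En X s0 Q ((X.step s0)^[k] w) v t →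
    En X s0 Q w v (∑ i ∈ range k, X.dt s0 ((X.step s0)^[i] w) + t) := by
  induction k with
  | zero => intro w _ h; simpa using h
  | succ k ih =>
    intro w h1 h2
    have h3 := ih (w := X.step s0 w) (fun i hi => by
      have := h1 (i + 1) (by omega)
      rwa [Function.iterate_succ_apply] at this) (by rwa [← Function.iterate_succ_apply])
    have h0 := h1 0 (Nat.succ_pos k)
    rw [Function.iterate_zero_apply] at h0
    have h4 := En.pass h0 h3
    rw [Finset.sum_range_succ']
    simp only [Function.iterate_succ_apply, Function.iterate_zero, id]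
    have : X.dt s0 w + (∑ i ∈ range k, X.dt s0 ((X.step s0)^[i] (X.step s0 w)) + t) =
        ∑ i ∈ range k, X.dt s0 ((X.step s0)^[i] (X.step s0 w)) + X.dt s0 w + t := by ring
    rw [← this]
    exact h4

/-- frozen weights of the states `s0` outside `Q` -/
structure Frz (s0 : ι → Bool) (Q : Finset ι) (a b : ι → ℂ) : Prop where
  fa : ∀ i ∉ Q, a i = if s0 i then 0 else 1
  fb : ∀ i ∉ Q, b i = if s0 i then 1 else 0

/-- **Comparison** of two networks on the same set of tiles. -/
theorem compare {X X' : Net ι} {s0 s0' : ι → Bool} {Q : Finset ι} {a b a' b' : ι → ℂ}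
    (hW : ∀ u : ι × Dir, u.1 ∈ Q → ∃ v t t', En X s0 Q (X.π u) v t ∧ En X' s0' Q (X'.π u) v t' ∧
      X.t u + t = X'.t u + t')
    (hx : X.x0 = X'.x0) (hy : X.y0 = X'.y0) (hxQ : X.x0.1 ∈ Q) (hyQ : X.y0.1 ∈ Q)
    (hF : Frz s0 Q a b) (hF' : Frz s0' Q a' b') (hab : ∀ i ∈ Q, a i = a' i ∧ b i = b' i)
    (φ : ℤ → ℂ) : ZF X φ a b = ZF X' φ a' b' := by
  -- reduction to the frozen states
  have red : ∀ (Y : Net ι) (σ : ι → Bool) (c d : ι → ℂ), Frz σ Q c d →
      ZF Y φ c d = ∑ s ∈ univ.filter (fun s : ι → Bool => ∀ i ∉ Q, s i = σ i),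
        (∏ i ∈ Q, if s i then d i else c i) * ampF (Y.step s) (Y.dt s) Y.x0 Y.y0 φ := by
    intro Y σ c d hc
    unfold ZF
    rw [Finset.sum_filter]
    apply sum_congr rfl
    intro s _
    by_cases hs : ∀ i ∉ Q, s i = σ i
    · rw [if_pos hs]
      congr 1
      rw [← Finset.prod_subset (Finset.subset_univ Q)]
      intro i _ hi
      rw [hs i hi, hc.fa i hi, hc.fb i hi]
      cases σ i <;> simp
    · rw [if_neg hs]
      push Not at hs
      obtain ⟨i, hi, hne⟩ := hs
      have h0 : (if s i then d i else c i) = 0 := by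
        rw [hc.fa i hi, hc.fb i hi]
        cases h1 : s i <;> cases h2 : σ i
        · exact absurd (h1.trans h2.symm) hne
        · simp
        · simp
        · exact absurd (h1.trans h2.symm) hne
      rw [Finset.prod_eq_zero (mem_univ i) h0, zero_mul]
  rw [red X s0 a b hF, red X' s0' a' b' hF']
  refine Finset.sum_bij' (fun s _ => fun i => if i ∈ Q then s i else s0' i)
    (fun s _ => fun i => if i ∈ Q then s i else s0 i) ?_ ?_ ?_ ?_ ?_
  · intro s _
    rw [mem_filter]
    exact ⟨mem_univ _, fun i hi => by simp only [if_neg hi]⟩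
  · intro s _
    rw [mem_filter]
    exact ⟨mem_univ _, fun i hi => by simp only [if_neg hi]⟩
  · intro s hs
    rw [mem_filter] at hs
    ext i
    by_cases hi : i ∈ Q
    · simp only [if_pos hi]
    · simp only [if_neg hi]; rw [hs.2 i hi]
  · intro s hs
    rw [mem_filter] at hs
    ext i
    by_cases hi : i ∈ Q
    · simp only [if_pos hi]
    · simp only [if_neg hi]; rw [hs.2 i hi]
  · intro s hs
    rw [mem_filter] at hs
    set s' : ι → Bool := fun i => if i ∈ Q then s i else s0' i with hs'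
    have hQ : ∀ i ∈ Q, s' i = s i := fun i hi => by rw [hs']; simp only [if_pos hi]
    have hQ' : ∀ i ∉ Q, s' i = s0' i := fun i hi => by rw [hs']; simp only [if_neg hi]
    congr 1
    · apply prod_congr rfl
      intro i hi
      rw [hQ i hi, (hab i hi).1, (hab i hi).2]
    · rw [← hx, ← hy]
      refine ampF_congr (R := fun p => p.1 ∈ Q) φ hxQ hyQ ?_
      intro p hp
      obtain ⟨v, t, t', h1, h2, h3⟩ := hW (p.1, p.2.mate (s p.1)) hp
      have r1 := h1.ret hs.2 p rfl
      have r2 := h2.ret hQ' p (by unfold Net.step; rw [hQ _ hp])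
      refine ⟨v, _, r1, ?_⟩
      have e : X.dt s p + t = X'.dt s' p + t' := by
        unfold Net.dt
        rw [hQ _ hp]
        linarith
      rw [e]; exact r2

/-! ### Relabelling -/

omit [Fintype ι] in
lemma En.rel {X : Net ι} {s0 : ι → Bool} {Q Q' : Finset ι} {ρ : ι ≃ ι}
    (hQ : ∀ i, i ∈ Q ↔ ρ i ∈ Q') {w v : ι × Dir} {t : ℤ} (h : En X s0 Q w v t) :
    En (rel X ρ) (fun i => s0 (ρ.symm i)) Q' (relE ρ w) (relE ρ v) t := by
  induction h with
  | @done w h => exact En.done ((hQ _).1 h)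
  | @pass w v t h h' ih =>
    rw [← rel_dt X ρ s0 w]
    refine En.pass (fun hh => h ((hQ _).2 hh)) ?_
    rw [rel_step]
    exact ih

/-- **Comparison** of two networks whose random tiles correspond under `ρ`. -/
theorem compare_rel {X X' : Net ι} {s0 s0' : ι → Bool} {Q Q' : Finset ι} (ρ : ι ≃ ι)
    (hQ : ∀ i, i ∈ Q ↔ ρ i ∈ Q') {a b a' b' : ι → ℂ}
    (hW : ∀ u : ι × Dir, u.1 ∈ Q → ∃ v t t', En X s0 Q (X.π u) v t ∧
      En X' s0' Q' (X'.π (relE ρ u)) (relE ρ v) t' ∧ X.t u + t = X'.t (relE ρ u) + t')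
    (hx : relE ρ X.x0 = X'.x0) (hy : relE ρ X.y0 = X'.y0) (hxQ : X.x0.1 ∈ Q) (hyQ : X.y0.1 ∈ Q)
    (hF : Frz s0 Q a b) (hF' : Frz s0' Q' a' b')
    (hab : ∀ i ∈ Q, a i = a' (ρ i) ∧ b i = b' (ρ i)) (φ : ℤ → ℂ) :
    ZF X φ a b = ZF X' φ a' b' := by
  rw [← ZF_rel X ρ φ a b]
  refine compare (s0 := fun i => s0 (ρ.symm i)) (s0' := s0') (Q := Q') ?_ ?_ ?_ ?_ ?_ ?_ hF' ?_ φ
  · intro u hu
    have hu' : ((relE ρ).symm u).1 ∈ Q := by
      rw [hQ]
      have : ρ ((relE ρ).symm u).1 = u.1 := by unfold relE; simp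
      rw [this]; exact hu
    obtain ⟨v, t, t', h1, h2, h3⟩ := hW _ hu'
    rw [Equiv.apply_symm_apply] at h2 h3
    exact ⟨_, t, t', h1.rel hQ, h2, h3⟩
  · exact hx
  · exact hy
  · exact (hQ _).1 hxQ
  · exact (hQ _).1 hyQ
  · constructor
    · intro i hi
      exact hF.fa _ (fun h => hi (by
        have := (hQ _).1 h
        rwa [Equiv.apply_symm_apply] at this))
    · intro i hi
      exact hF.fb _ (fun h => hi (by
        have := (hQ _).1 h
        rwa [Equiv.apply_symm_apply] at this))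
  · intro i hi
    have h1 : ρ.symm i ∈ Q := (hQ _).2 (by rw [Equiv.apply_symm_apply]; exact hi)
    have h2 := hab _ h1
    rw [Equiv.apply_symm_apply] at h2
    exact h2

end

/-! ### Rows -/

variable {N : ℕ}

section
variable {X : Net (Fin N)} {P : Finset (Fin N)} {U : Fin N → Fin N} (hP : Arcs X P U)
include hP

/-- run through a closed interval of frozen columns, to the right -/
lemma Arcs.run {s : Fin N → Bool} {y : Fin N} : ∀ (n : ℕ) (c : Fin N), c ≤ y →
      (y : ℕ) - c = n → (∀ z, c ≤ z → z < y → z ∈ P ∧ c ≤ U z ∧ U z < y ∧ Cn U s z) →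
      (∀ z z' : Fin N, c ≤ z → z' ≤ y → (z' : ℕ) = z + 1 → X.π (z, .E) = (z', .W)) →
      ∃ k, (X.step s)^[k] (c, .W) = (y, .W) ∧
        (∀ i < k, ((X.step s)^[i] (c, .W)).1 ∈ P) ∧
        ∑ i ∈ range k, X.dt s ((X.step s)^[i] (c, .W)) = ∑ n ∈ Ico (c : ℕ) y, TE X n := by
  intro n
  induction n using Nat.strong_induction_on with
  | _ n ih =>
    intro c hcy hn hcl hrow
    rcases eq_or_lt_of_le hcy with heq | hlt
    · refine ⟨0, ?_, fun i hi => absurd hi (Nat.not_lt_zero i), ?_⟩
      · rw [Function.iterate_zero_apply, heq]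
      · rw [heq]; simp
    · obtain ⟨hcP, h1, h2, hsc'⟩ := hcl c le_rfl hlt
      have h3 : c < U c := lt_of_le_of_ne h1 (hP.ne c hcP).symm
      have hsc : s c = false := by
        unfold Cn at hsc'
        rw [hsc']; exact decide_eq_false (not_lt.2 h3.le)
      have hsu : s (U c) = true := by
        have := (hcl (U c) h1 h2).2.2.2
        unfold Cn at this
        rw [this, hP.inv c hcP]; exact decide_eq_true h3
      have h2' : ((U c : Fin N) : ℕ) < (y : ℕ) := h2
      have h3' : (c : ℕ) < ((U c : Fin N) : ℕ) := h3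
      have hval : ((U c : Fin N) : ℕ) + 1 < N := by
        have := y.2
        omega
      set c' : Fin N := ⟨(U c : ℕ) + 1, hval⟩ with hc'
      have hc'v : (c' : ℕ) = (U c : ℕ) + 1 := rfl
      have e1 : X.step s (c, .W) = (U c, .N) := by
        unfold Net.step
        simp only [hsc, Dir.mate]
        exact hP.arc c hcP
      have e2 : X.step s (U c, .N) = (c', .W) := by
        unfold Net.step
        simp only [hsu, Dir.mate]
        refine hrow (U c) c' h1 ?_ rfl
        rw [Fin.le_def]; omega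
      have hcc' : c < c' := by rw [Fin.lt_def]; omega
      have hc'y : c' ≤ y := by rw [Fin.le_def]; omega
      have hcl' : ∀ z, c' ≤ z → z < y → z ∈ P ∧ c' ≤ U z ∧ U z < y ∧ Cn U s z := by
        intro z hz hzy
        have hcz : c < z := lt_of_lt_of_le hcc' hz
        obtain ⟨hzP, h4, h5, h6⟩ := hcl z hcz.le hzy
        refine ⟨hzP, ?_, h5, h6⟩
        have hUcz : U c < z := by
          rw [Fin.lt_def]; rw [Fin.le_def] at hz; omega
        by_contra hcon
        rw [not_le, Fin.lt_def] at hcon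
        have h5 : U z ≤ U c := by rw [Fin.le_def]; omega
        rcases eq_or_lt_of_le h5 with h6 | h6
        · have h7 : z = c := by
            rw [← hP.inv z hzP, h6, hP.inv c hcP]
          exact absurd h7 hcz.ne'
        rcases eq_or_lt_of_le h4 with h7 | h7
        · have h8 : U c = z := by rw [h7, hP.inv z hzP]
          exact absurd h8 hUcz.ne
        · have h8 := (hP.nest c hcP (U z) h7 h6).2.2
          rw [hP.inv z hzP] at h8
          exact absurd h8 (not_lt.2 hUcz.le)
      obtain ⟨k, k1, k2, k3⟩ := ih ((y : ℕ) - c') (by omega) c' hc'y rfl hcl'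
        (fun z z' h4 h5 h6 => hrow z z' (hcc'.le.trans h4) h5 h6)
      have e3 : ∀ i, (X.step s)^[i + 2] (c, .W) = (X.step s)^[i] (c', .W) := by
        intro i
        rw [Function.iterate_add_apply]
        congr 1
        change X.step s (X.step s (c, .W)) = _
        rw [e1, e2]
      refine ⟨k + 2, ?_, ?_, ?_⟩
      · rw [e3, k1]
      · intro i hi
        rcases Nat.lt_or_ge i 2 with h4 | h4
        · interval_cases i
          · exact hcP
          · rw [Function.iterate_one, e1]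
            exact hP.mem c hcP
        · obtain ⟨j, rfl⟩ : ∃ j, i = j + 2 := ⟨i - 2, by omega⟩
          rw [e3]
          exact k2 j (by omega)
      · rw [Finset.sum_range_succ', Finset.sum_range_succ']
        simp only [Nat.zero_add]
        have e4 : ∑ i ∈ range k, X.dt s ((X.step s)^[i + 1 + 1] (c, .W)) =
            ∑ i ∈ range k, X.dt s ((X.step s)^[i] (c', .W)) :=
          sum_congr rfl fun i _ => by rw [show i + 1 + 1 = i + 2 from rfl, e3]
        rw [e4, k3, Function.iterate_one, Function.iterate_zero_apply, e1]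
        have d1 : X.dt s (c, .W) = 1 + (∑ n ∈ Ico (c : ℕ) (U c), TE X n - 2) := by
          unfold Net.dt
          simp only [hsc, Dir.mate, Dir.tn]
          rw [hP.turn c hcP h3]
        have d2 : X.dt s (U c, .N) = 1 + TE X (U c) := by
          unfold Net.dt
          simp only [hsu, Dir.mate, Dir.tn]
          rw [TE_eq]
        rw [d1, d2]
        have e5 : ∑ n ∈ Ico (c : ℕ) y, TE X n = ∑ n ∈ Ico (c : ℕ) (U c), TE X n + TE X (U c) +
            ∑ n ∈ Ico (c' : ℕ) y, TE X n := by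
          rw [← Finset.sum_Ico_succ_top (show (c : ℕ) ≤ (U c : ℕ) from h3.le),
            ← Finset.sum_Ico_consecutive _ (show (c : ℕ) ≤ (U c : ℕ) + 1 by omega)
              (show (U c : ℕ) + 1 ≤ (y : ℕ) from h2)]
        rw [e5]; ring

/-- run through a closed interval of frozen columns, to the left -/
lemma Arcs.runB (hinv : ∀ p, X.π (X.π p) = p) (htn : ∀ p, X.t (X.π p) = -X.t p)
    {s : Fin N → Bool} {x : Fin N} : ∀ (n : ℕ) (c : Fin N), x ≤ c →
      (c : ℕ) - x = n → (∀ z, x < z → z ≤ c → z ∈ P ∧ x < U z ∧ U z ≤ c ∧ Cn U s z) →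
      (∀ z z' : Fin N, x ≤ z → z' ≤ c → (z' : ℕ) = z + 1 → X.π (z, .E) = (z', .W)) →
      ∃ k, (X.step s)^[k] (c, .E) = (x, .E) ∧
        (∀ i < k, ((X.step s)^[i] (c, .E)).1 ∈ P) ∧
        ∑ i ∈ range k, X.dt s ((X.step s)^[i] (c, .E)) = -∑ n ∈ Ico (x : ℕ) c, TE X n := by
  intro n
  induction n using Nat.strong_induction_on with
  | _ n ih =>
    intro c hxc hn hcl hrow
    rcases eq_or_lt_of_le hxc with heq | hlt
    · refine ⟨0, ?_, fun i hi => absurd hi (Nat.not_lt_zero i), ?_⟩
      · rw [Function.iterate_zero_apply, heq]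
      · rw [heq]; simp
    · obtain ⟨hcP, h1, h2, hsc'⟩ := hcl c hlt le_rfl
      have h3 : U c < c := lt_of_le_of_ne h2 (hP.ne c hcP)
      have hsc : s c = true := by
        unfold Cn at hsc'
        rw [hsc']; exact decide_eq_true h3
      have hsu : s (U c) = false := by
        have := (hcl (U c) h1 h2).2.2.2
        unfold Cn at this
        rw [this, hP.inv c hcP]; exact decide_eq_false (not_lt.2 h3.le)
      have h1' : (x : ℕ) < (U c : ℕ) := h1
      have h3' : (U c : ℕ) < (c : ℕ) := h3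
      have hcN := c.2
      set c' : Fin N := ⟨(U c : ℕ) - 1, by omega⟩ with hc'
      have hc'v : ((U c : Fin N) : ℕ) = c' + 1 := by
        have : (c' : ℕ) = (U c : ℕ) - 1 := rfl
        omega
      have e1 : X.step s (c, .E) = (U c, .N) := by
        unfold Net.step
        simp only [hsc, Dir.mate]
        exact hP.arc c hcP
      have hxc' : x ≤ c' := by rw [Fin.le_def]; omega
      have hrw : X.π (c', .E) = (U c, .W) := hrow c' (U c) hxc' h2 hc'v
      have e2 : X.step s (U c, .N) = (c', .E) := by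
        unfold Net.step
        simp only [hsu, Dir.mate]
        rw [← hrw, hinv]
      have hcc' : c' < c := by rw [Fin.lt_def]; omega
      have hcl' : ∀ z, x < z → z ≤ c' → z ∈ P ∧ x < U z ∧ U z ≤ c' ∧ Cn U s z := by
        intro z hxz hz
        have hzc : z < c := lt_of_le_of_lt hz hcc'
        obtain ⟨hzP, h4, h5, h6⟩ := hcl z hxz hzc.le
        refine ⟨hzP, h4, ?_, h6⟩
        have hzUc : z < U c := by
          rw [Fin.lt_def]; rw [Fin.le_def] at hz; omega
        by_contra hcon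
        rw [not_le, Fin.lt_def] at hcon
        have h5' : U c ≤ U z := by rw [Fin.le_def]; omega
        rcases eq_or_lt_of_le h5' with h6 | h6
        · have h7 : z = c := by
            rw [← hP.inv z hzP, ← h6, hP.inv c hcP]
          exact absurd h7 hzc.ne
        rcases eq_or_lt_of_le h5 with h7 | h7
        · have h8 : U c = z := by rw [← h7, hP.inv z hzP]
          exact absurd h8 hzUc.ne'
        · have h9 : U (U c) = c := hP.inv c hcP
          have h8 := (hP.nest (U c) (hP.mem c hcP) (U z) h6 (by rw [h9]; exact h7)).2.1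
          rw [hP.inv z hzP] at h8
          exact absurd h8 (not_lt.2 hzUc.le)
      obtain ⟨k, k1, k2, k3⟩ := ih ((c' : ℕ) - x) (by omega) c' hxc' rfl hcl'
        (fun z z' h4 h5 h6 => hrow z z' h4 (h5.trans hcc'.le) h6)
      have e3 : ∀ i, (X.step s)^[i + 2] (c, .E) = (X.step s)^[i] (c', .E) := by
        intro i
        rw [Function.iterate_add_apply]
        congr 1
        change X.step s (X.step s (c, .E)) = _
        rw [e1, e2]
      refine ⟨k + 2, ?_, ?_, ?_⟩
      · rw [e3, k1]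
      · intro i hi
        rcases Nat.lt_or_ge i 2 with h4 | h4
        · interval_cases i
          · exact hcP
          · rw [Function.iterate_one, e1]
            exact hP.mem c hcP
        · obtain ⟨j, rfl⟩ : ∃ j, i = j + 2 := ⟨i - 2, by omega⟩
          rw [e3]
          exact k2 j (by omega)
      · rw [Finset.sum_range_succ', Finset.sum_range_succ']
        simp only [Nat.zero_add]
        have e4 : ∑ i ∈ range k, X.dt s ((X.step s)^[i + 1 + 1] (c, .E)) =
            ∑ i ∈ range k, X.dt s ((X.step s)^[i] (c', .E)) :=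
          sum_congr rfl fun i _ => by rw [show i + 1 + 1 = i + 2 from rfl, e3]
        rw [e4, k3, Function.iterate_one, Function.iterate_zero_apply, e1]
        have d1 : X.dt s (c, .E) = -1 + (2 - ∑ n ∈ Ico ((U c : Fin N) : ℕ) c, TE X n) := by
          unfold Net.dt
          simp only [hsc, Dir.mate, Dir.tn]
          rw [hP.arc_t htn hcP h3]
        have d2 : X.dt s (U c, .N) = -1 - TE X c' := by
          unfold Net.dt
          simp only [hsu, Dir.mate, Dir.tn]
          rw [TE_eq, ← hrw, htn]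
          ring
        rw [d1, d2]
        have e5 : ∑ n ∈ Ico (x : ℕ) c, TE X n = ∑ n ∈ Ico (x : ℕ) c', TE X n + TE X c' +
            ∑ n ∈ Ico ((U c : Fin N) : ℕ) c, TE X n := by
          rw [← Finset.sum_Ico_succ_top (show (x : ℕ) ≤ (c' : ℕ) from hxc'), ← hc'v,
            Finset.sum_Ico_consecutive _ (show (x : ℕ) ≤ (U c : ℕ) from h1.le)
              (show (U c : ℕ) ≤ (c : ℕ) from h3.le)]
        rw [e5]; ring

end

/-- the strand below the row which passes straight through the columns of `P` -/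
inductive Gl (X : Net (Fin N)) (P : Finset (Fin N)) (U : Fin N → Fin N) : Fin N → Fin N → ℤ → Prop
  | stop {c d : Fin N} (h : X.π (c, .S) = (d, .S)) (h' : d ∉ P) : Gl X P U c d (X.t (c, .S))
  | pass {c d e : Fin N} {t : ℤ} (h : X.π (c, .S) = (d, .S)) (h' : d ∈ P)
      (h'' : Gl X P U (U d) e t) : Gl X P U c e (X.t (c, .S) + X.t (d, .N) + t)

/-- canonical states -/
def can (U : Fin N → Fin N) (c : Fin N) : Bool := decide (U c < c)

section
variable {X : Net (Fin N)} {P : Finset (Fin N)} {U : Fin N → Fin N} (hP : Arcs X P U)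
include hP

/-- passage of a frozen arc from below -/
lemma Arcs.under (hinv : ∀ p, X.π (X.π p) = p) (htn : ∀ p, X.t (X.π p) = -X.t p) {c : Fin N}
    (hc : c ∈ P) {v : Fin N × Dir} {t : ℤ} (h : En X (can U) Pᶜ (X.π (U c, .S)) v t) :
    En X (can U) Pᶜ (c, .S) v (X.t (c, .N) + X.t (U c, .S) + t) := by
  have mP : ∀ z, z ∈ P → z ∉ Pᶜ := fun z hz h => (mem_compl.1 h) hz
  rcases lt_or_gt_of_ne (hP.ne c hc) with hlt | hlt
  · -- right foot
    have hlt' : ((U c : Fin N) : ℕ) < (c : ℕ) := hlt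
    have hcN := c.2
    have hUc : U c ∈ P := hP.mem c hc
    have hUU : U (U c) = c := hP.inv c hc
    have sc : can U c = true := decide_eq_true hlt
    have su : can U (U c) = false := by
      unfold can; rw [hUU]; exact decide_eq_false (not_lt.2 hlt.le)
    set e : Fin N := ⟨(c : ℕ) - 1, by omega⟩ with he
    have hev : (c : ℕ) = e + 1 := by
      have : (e : ℕ) = (c : ℕ) - 1 := rfl
      omega
    have hxe : U c ≤ e := by rw [Fin.le_def]; omega
    have hec : e < c := by rw [Fin.lt_def]; omega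
    have hrow : ∀ z z' : Fin N, U c ≤ z → z' ≤ c → (z' : ℕ) = z + 1 → X.π (z, .E) = (z', .W) :=
      fun z z' h1 h2 h3 => hP.row (U c) hUc z z' h1 (by rw [hUU]; exact h2) h3
    obtain ⟨k, k1, k2, k3⟩ := hP.runB hinv htn (s := can U) (x := U c) _ e hxe rfl (by
      intro z h1 h2
      have h3 : z < U (U c) := by rw [hUU]; exact lt_of_le_of_lt h2 hec
      obtain ⟨g1, g2, g3⟩ := hP.nest (U c) hUc z h1 h3
      rw [hUU] at g3
      exact ⟨g1, g2, by rw [Fin.le_def]; rw [Fin.lt_def] at g3; omega, rfl⟩)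
      (fun z z' h1 h2 h3 => hrow z z' h1 (h2.trans hec.le) h3)
    have e1 : X.step (can U) (c, .S) = (e, .E) := by
      unfold Net.step
      simp only [sc, Dir.mate]
      rw [← hrow e c hxe le_rfl hev, hinv]
    have e2 : X.step (can U) (U c, .E) = X.π (U c, .S) := by
      unfold Net.step
      simp only [su, Dir.mate]
    rw [← e2] at h
    have h1 := En.pass (w := (U c, .E)) (mP _ hUc) h
    rw [← k1] at h1
    have h2 := En.iter (fun i hi => mP _ (k2 i hi)) h1
    rw [← e1] at h2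
    have h3 := En.pass (w := (c, .S)) (mP _ hc) h2
    convert h3 using 1
    have d1 : X.dt (can U) (c, .S) = 1 - TE X e := by
      unfold Net.dt
      simp only [sc, Dir.mate, Dir.tn]
      rw [TE_eq, ← hrow e c hxe le_rfl hev, htn]
      ring
    have d2 : X.dt (can U) (U c, .E) = 1 + X.t (U c, .S) := by
      unfold Net.dt
      simp only [su, Dir.mate, Dir.tn]
    rw [e1, k3, k1, d1, d2, hP.arc_t htn hc hlt]
    have e5 : ∑ n ∈ Ico ((U c : Fin N) : ℕ) c, TE X n =
        ∑ n ∈ Ico ((U c : Fin N) : ℕ) e, TE X n + TE X e := by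
      rw [← Finset.sum_Ico_succ_top (show (U c : ℕ) ≤ (e : ℕ) from hxe), ← hev]
    rw [e5]; ring
  · -- left foot
    have hlt' : (c : ℕ) < ((U c : Fin N) : ℕ) := hlt
    have hUN := (U c).2
    have hUc : U c ∈ P := hP.mem c hc
    have hUU : U (U c) = c := hP.inv c hc
    have sc : can U c = false := decide_eq_false (not_lt.2 hlt.le)
    have su : can U (U c) = true := by
      unfold can; rw [hUU]; exact decide_eq_true hlt
    set e : Fin N := ⟨(c : ℕ) + 1, by omega⟩ with he
    have hev : (e : ℕ) = c + 1 := rfl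
    have hce : c < e := by rw [Fin.lt_def]; omega
    have hey : e ≤ U c := by rw [Fin.le_def]; omega
    have hrow : ∀ z z' : Fin N, c ≤ z → z' ≤ U c → (z' : ℕ) = z + 1 → X.π (z, .E) = (z', .W) :=
      fun z z' h1 h2 h3 => hP.row c hc z z' h1 h2 h3
    obtain ⟨k, k1, k2, k3⟩ := hP.run (s := can U) (y := U c) _ e hey rfl (by
      intro z h1 h2
      have h3 : c < z := lt_of_lt_of_le hce h1
      obtain ⟨g1, g2, g3⟩ := hP.nest c hc z h3 h2
      exact ⟨g1, by rw [Fin.le_def]; rw [Fin.lt_def] at g2; omega, g3, rfl⟩)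
      (fun z z' h1 h2 h3 => hrow z z' (hce.le.trans h1) h2 h3)
    have e1 : X.step (can U) (c, .S) = (e, .W) := by
      unfold Net.step
      simp only [sc, Dir.mate]
      exact hrow c e le_rfl hey hev
    have e2 : X.step (can U) (U c, .W) = X.π (U c, .S) := by
      unfold Net.step
      simp only [su, Dir.mate]
    rw [← e2] at h
    have h1 := En.pass (w := (U c, .W)) (mP _ hUc) h
    rw [← k1] at h1
    have h2 := En.iter (fun i hi => mP _ (k2 i hi)) h1
    rw [← e1] at h2
    have h3 := En.pass (w := (c, .S)) (mP _ hc) h2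
    convert h3 using 1
    have d1 : X.dt (can U) (c, .S) = -1 + TE X c := by
      unfold Net.dt
      simp only [sc, Dir.mate, Dir.tn]
      rw [TE_eq]
    have d2 : X.dt (can U) (U c, .W) = -1 + X.t (U c, .S) := by
      unfold Net.dt
      simp only [su, Dir.mate, Dir.tn]
    rw [e1, k3, k1, d1, d2, hP.turn c hc hlt]
    have e5 : ∑ n ∈ Ico (c : ℕ) ((U c : Fin N) : ℕ), TE X n =
        TE X c + ∑ n ∈ Ico (e : ℕ) ((U c : Fin N) : ℕ), TE X n := by
      rw [hev, Finset.sum_eq_sum_Ico_succ_bot hlt']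
    rw [e5]; ring

lemma Arcs.glued (hinv : ∀ p, X.π (X.π p) = p) (htn : ∀ p, X.t (X.π p) = -X.t p) {c e : Fin N}
    {t : ℤ} (h : Gl X P U c e t) :
    En X (can U) Pᶜ (X.π (c, .S)) (e, .S) (t - X.t (c, .S)) := by
  induction h with
  | @stop c d h h' =>
    rw [h, sub_self]
    exact En.done (mem_compl.2 h')
  | @pass c d e t h h' h'' ih =>
    rw [h]
    have h1 := hP.under hinv htn h' ih
    convert h1 using 1
    ring

/-- the closed gaps between consecutive columns outside `P` -/
lemma Arcs.gap {q q' : Fin N} (hq : q ∉ P) (hq' : q' ∉ P) (hb : ∀ z, q < z → z < q' → z ∈ P)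
    {z : Fin N} (h1 : q < z) (h2 : z < q') : q < U z ∧ U z < q' := by
  have hz := hb z h1 h2
  have key : ∀ w, w ∈ P → q < w → w < q' → w < U w → U w < q' := by
    intro w hw h3 h4 h5
    by_contra hcon
    rw [not_lt] at hcon
    rcases eq_or_lt_of_le hcon with h6 | h6
    · exact hq' (h6 ▸ hP.mem w hw)
    · exact hq' (hP.nest w hw q' h4 h6).1
  have key2 : ∀ w, w ∈ P → q < w → w < q' → U w < w → q < U w := by
    intro w hw h3 h4 h5
    by_contra hcon
    rw [not_lt] at hcon
    rcases eq_or_lt_of_le hcon with h6 | h6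
    · exact hq (h6 ▸ hP.mem w hw)
    · exact hq (hP.nest (U w) (hP.mem w hw) q h6 (by rw [hP.inv w hw]; exact h3)).1
  rcases lt_or_gt_of_ne (hP.ne z hz) with h3 | h3
  · exact ⟨key2 z hz h1 h2 h3, h3.trans h2⟩
  · exact ⟨h1.trans h3, key z hz h1 h2 h3⟩

/-- the row between two consecutive columns outside `P`, to the right -/
lemma Arcs.east (hrow : X.IsRow) {q q' : Fin N} (hqq : q < q') (hq : q ∉ P) (hq' : q' ∉ P)
    (hb : ∀ z, q < z → z < q' → z ∈ P) :
    En X (can U) Pᶜ (X.π (q, .E)) (q', .W) (∑ n ∈ Ico (q : ℕ) q', TE X n - X.t (q, .E)) := by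
  have hqq' : (q : ℕ) < (q' : ℕ) := hqq
  have hN := q'.2
  set e : Fin N := ⟨(q : ℕ) + 1, by omega⟩ with he
  have hev : (e : ℕ) = q + 1 := rfl
  have hqe : q < e := by rw [Fin.lt_def]; omega
  have heq : e ≤ q' := by rw [Fin.le_def]; omega
  obtain ⟨k, k1, k2, k3⟩ := hP.run (s := can U) (y := q') _ e heq rfl (by
    intro z h1 h2
    have h3 : q < z := lt_of_lt_of_le hqe h1
    obtain ⟨g2, g3⟩ := hP.gap hq hq' hb h3 h2
    exact ⟨hb z h3 h2, by rw [Fin.le_def]; rw [Fin.lt_def] at g2; omega, g3, rfl⟩)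
    (fun z z' _ _ h3 => hrow z z' h3)
  rw [hrow q e hev]
  have h1 : En X (can U) Pᶜ ((X.step (can U))^[k] (e, .W)) (q', .W) 0 := by
    rw [k1]; exact En.done (mem_compl.2 hq')
  have h2 := En.iter (fun i hi h => (mem_compl.1 h) (k2 i hi)) h1
  convert h2 using 1
  rw [k3, ← TE_eq, Finset.sum_eq_sum_Ico_succ_bot hqq', ← hev]
  ring

/-- the row between two consecutive columns outside `P`, to the left -/
lemma Arcs.west (hinv : ∀ p, X.π (X.π p) = p) (htn : ∀ p, X.t (X.π p) = -X.t p) (hrow : X.IsRow)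
    {q q' : Fin N} (hqq : q < q') (hq : q ∉ P) (hq' : q' ∉ P) (hb : ∀ z, q < z → z < q' → z ∈ P) :
    En X (can U) Pᶜ (X.π (q', .W)) (q, .E) (-∑ n ∈ Ico (q : ℕ) q', TE X n - X.t (q', .W)) := by
  have hqq' : (q : ℕ) < (q' : ℕ) := hqq
  have hN := q'.2
  set e : Fin N := ⟨(q' : ℕ) - 1, by omega⟩ with he
  have hev : (q' : ℕ) = e + 1 := by
    have : (e : ℕ) = (q' : ℕ) - 1 := rfl
    omega
  have hqe : q ≤ e := by rw [Fin.le_def]; omega
  have heq : e < q' := by rw [Fin.lt_def]; omega
  obtain ⟨k, k1, k2, k3⟩ := hP.runB hinv htn (s := can U) (x := q) _ e hqe rfl (by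
    intro z h1 h2
    have h3 : z < q' := lt_of_le_of_lt h2 heq
    obtain ⟨g2, g3⟩ := hP.gap hq hq' hb h1 h3
    exact ⟨hb z h1 h3, g2, by rw [Fin.le_def]; rw [Fin.lt_def] at g3; omega, rfl⟩)
    (fun z z' _ _ h3 => hrow z z' h3)
  have hr := hrow e q' hev
  rw [← hr, hinv]
  have h1 : En X (can U) Pᶜ ((X.step (can U))^[k] (e, .E)) (q, .E) 0 := by
    rw [k1]; exact En.done (mem_compl.2 hq)
  have h2 := En.iter (fun i hi h => (mem_compl.1 h) (k2 i hi)) h1
  convert h2 using 1
  rw [k3, htn, ← TE_eq, hev, Finset.sum_Ico_succ_top (show (q : ℕ) ≤ (e : ℕ) from hqe)]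
  ring

end

/-- Two rows whose columns outside the inner arcs correspond under `ρ`. -/
structure Cmp (X X' : Net (Fin N)) (P P' : Finset (Fin N)) (U U' : Fin N → Fin N)
    (ρ : Fin N ≃ Fin N) : Prop where
  arcs : Arcs X P U
  arcs' : Arcs X' P' U'
  row : X.IsRow
  row' : X'.IsRow
  out : ∀ c, c ∈ P ↔ ρ c ∈ P'
  mono : ∀ c d, c ∉ P → d ∉ P → c < d → ρ c < ρ d
  first : ∀ c : Fin N, (c : ℕ) = 0 → c ∉ P ∧ ρ c = c ∧ ∃ d e, d ∉ P ∧ X.π (c, .W) = (d, e) ∧
    X'.π (c, .W) = (ρ d, e) ∧ X.t (c, .W) = X'.t (c, .W)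
  last : ∀ c : Fin N, (c : ℕ) + 1 = N → c ∉ P ∧ ρ c = c ∧ ∃ d e, d ∉ P ∧ X.π (c, .E) = (d, e) ∧
    X'.π (c, .E) = (ρ d, e) ∧ X.t (c, .E) = X'.t (c, .E)
  te : ∀ c d, c ∉ P → d ∉ P → c < d → ∑ n ∈ Ico (c : ℕ) d, TE X n =
    ∑ n ∈ Ico (ρ c : ℕ) (ρ d), TE X' n
  up : ∀ c, c ∉ P → ∃ d, d ∉ P ∧ X.π (c, .N) = (d, .N) ∧ X'.π (ρ c, .N) = (ρ d, .N) ∧
    X.t (c, .N) = X'.t (ρ c, .N)
  dn : ∀ c, c ∉ P → ∃ d t, d ∉ P ∧ Gl X P U c d t ∧ Gl X' P' U' (ρ c) (ρ d) t
  x0 : relE ρ X.x0 = X'.x0
  y0 : relE ρ X.y0 = X'.y0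
  x0P : X.x0.1 ∉ P
  y0P : X.y0.1 ∉ P

/-- **Independence of the inner configuration**: if the columns outside the inner arcs, with the strands
above the row and the glued strands below the row, are the same, the state sums are equal. -/
theorem Cmp.eq {X X' : Net (Fin N)} {P P' : Finset (Fin N)} {U U' : Fin N → Fin N}
    {ρ : Fin N ≃ Fin N} (h : Cmp X X' P P' U U' ρ) {A B : ℂ} (hAB : Over A B)
    (hinv : ∀ p, X.π (X.π p) = p) (htn : ∀ p, X.t (X.π p) = -X.t p)
    (hinv' : ∀ p, X'.π (X'.π p) = p) (htn' : ∀ p, X'.t (X'.π p) = -X'.t p)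
    {a b a' b' : Fin N → ℂ} (hab : ∀ c ∈ P, a c = A ∧ b c = B) (hab' : ∀ c ∈ P', a' c = A ∧ b' c = B)
    (hQ : ∀ c, c ∉ P → a c = a' (ρ c) ∧ b c = b' (ρ c)) (φ : ℤ → ℂ) :
    ZF X φ a b = ZF X' φ a' b' := by
  have nestP : ∀ {Y : Net (Fin N)} {R : Finset (Fin N)} {V : Fin N → Fin N}, Arcs Y R V →
      ∀ c ∈ R, ∀ z, c < z → z < V c → z ∈ R := fun hR c hc z h1 h2 => (hR.nest c hc z h1 h2).1
  rw [freeze_all h.arcs hAB hinv htn φ a b _ P rfl Subset.rfl h.arcs.mem (nestP h.arcs) hab,
    freeze_all h.arcs' hAB hinv' htn' φ a' b' _ P' rfl Subset.rfl h.arcs'.mem (nestP h.arcs') hab']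
  have frz : ∀ {Y : Net (Fin N)} {R : Finset (Fin N)} {V : Fin N → Fin N} (c d : Fin N → ℂ),
      Arcs Y R V → Frz (can V) Rᶜ (fa V R c) (fb V R d) := by
    intro Y R V c d hR
    constructor
    · intro i hi
      have hiR : i ∈ R := by by_contra hh; exact hi (mem_compl.2 hh)
      unfold fa can
      rw [if_pos hiR]
      rcases lt_or_gt_of_ne (hR.ne i hiR) with h1 | h1
      · rw [if_neg (not_lt.2 h1.le), decide_eq_true h1]; rfl
      · rw [if_pos h1, decide_eq_false (not_lt.2 h1.le)]; rfl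
    · intro i hi
      have hiR : i ∈ R := by by_contra hh; exact hi (mem_compl.2 hh)
      unfold fb can
      rw [if_pos hiR]
      rcases lt_or_gt_of_ne (hR.ne i hiR) with h1 | h1
      · rw [if_neg (not_lt.2 h1.le), decide_eq_true h1]; rfl
      · rw [if_pos h1, decide_eq_false (not_lt.2 h1.le)]; rfl
  refine compare_rel (s0 := can U) (s0' := can U') (Q := Pᶜ) (Q' := P'ᶜ) ρ ?_ ?_ h.x0 h.y0
    (mem_compl.2 h.x0P) (mem_compl.2 h.y0P) (frz a b h.arcs) (frz a' b' h.arcs') ?_ φ
  · intro i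
    rw [mem_compl, mem_compl, h.out]
  · rintro ⟨c, d⟩ hc
    have hcP : c ∉ P := mem_compl.1 hc
    have hcP' : ρ c ∉ P' := fun hh => hcP ((h.out c).2 hh)
    have hre : ∀ (q : Fin N) (e : Dir), relE ρ (q, e) = (ρ q, e) := fun q e => rfl
    -- neighbours outside `P`
    have nxt : (c : ℕ) + 1 < N → (c : ℕ) + 1 ≠ N → ∃ q, c < q ∧ q ∉ P ∧ ∀ z, c < z → z < q → z ∈ P := by
      intro h1 _
      have hne : (univ.filter (fun z : Fin N => c < z ∧ z ∉ P)).Nonempty := by
        refine ⟨⟨N - 1, by omega⟩, mem_filter.2 ⟨mem_univ _, ?_, (h.last _ (by simp; omega)).1⟩⟩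
        rw [Fin.lt_def]; simp only; omega
      refine ⟨_, (mem_filter.1 (Finset.min'_mem _ hne)).2.1, (mem_filter.1 (Finset.min'_mem _ hne)).2.2,
        ?_⟩
      intro z h2 h3
      by_contra h4
      have h5 := Finset.min'_le (univ.filter (fun z : Fin N => c < z ∧ z ∉ P)) z
        (mem_filter.2 ⟨mem_univ _, h2, h4⟩)
      exact absurd h3 (not_lt.2 h5)
    have prv : 0 < (c : ℕ) → ∃ q, q < c ∧ q ∉ P ∧ ∀ z, q < z → z < c → z ∈ P := by
      intro h1
      have hN : 0 < N := lt_of_le_of_lt (Nat.zero_le _) c.2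
      have hne : (univ.filter (fun z : Fin N => z < c ∧ z ∉ P)).Nonempty := by
        refine ⟨⟨0, hN⟩, mem_filter.2 ⟨mem_univ _, ?_, (h.first _ rfl).1⟩⟩
        rw [Fin.lt_def]; exact h1
      refine ⟨_, (mem_filter.1 (Finset.max'_mem _ hne)).2.1, (mem_filter.1 (Finset.max'_mem _ hne)).2.2,
        ?_⟩
      intro z h2 h3
      by_contra h4
      have h5 := Finset.le_max' (univ.filter (fun z : Fin N => z < c ∧ z ∉ P)) z
        (mem_filter.2 ⟨mem_univ _, h3, h4⟩)
      exact absurd h2 (not_lt.2 h5)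
    -- the images of neighbours are neighbours
    have img : ∀ q q' : Fin N, q ∉ P → q' ∉ P → q < q' → (∀ z, q < z → z < q' → z ∈ P) →
        ∀ z, ρ q < z → z < ρ q' → z ∈ P' := by
      intro q q' hq hq' _ hb z h1 h2
      by_contra h3
      have h4 : ρ.symm z ∉ P := fun hh => h3 (by
        have := (h.out _).1 hh
        rwa [Equiv.apply_symm_apply] at this)
      have h5 : q < ρ.symm z := by
        rcases lt_trichotomy q (ρ.symm z) with g | g | g
        · exact g
        · rw [g, Equiv.apply_symm_apply] at h1; exact absurd h1 (lt_irrefl _)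
        · have := h.mono _ _ h4 hq g
          rw [Equiv.apply_symm_apply] at this
          exact absurd (this.trans h1) (lt_irrefl _)
      have h6 : ρ.symm z < q' := by
        rcases lt_trichotomy (ρ.symm z) q' with g | g | g
        · exact g
        · rw [← g, Equiv.apply_symm_apply] at h2; exact absurd h2 (lt_irrefl _)
        · have := h.mono _ _ hq' h4 g
          rw [Equiv.apply_symm_apply] at this
          exact absurd (this.trans h2) (lt_irrefl _)
      exact h4 (hb _ h5 h6)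
    cases d
    · -- W
      rcases Nat.eq_zero_or_pos (c : ℕ) with h0 | h0
      · obtain ⟨-, h1, d, e, h2, h3, h4, h5⟩ := h.first c h0
        refine ⟨(d, e), 0, 0, ?_, ?_, ?_⟩
        · rw [h3]; exact En.done (mem_compl.2 h2)
        · rw [hre, h1, h4]; exact En.done (mem_compl.2 (fun hh => h2 ((h.out d).2 hh)))
        · rw [hre, h1, h5]
      · obtain ⟨q, hqc, hq, hb⟩ := prv h0
        have hq' : ρ q ∉ P' := fun hh => hq ((h.out q).2 hh)
        refine ⟨(q, .E), _, _, h.arcs.west hinv htn h.row hqc hq hcP hb,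
          h.arcs'.west hinv' htn' h.row' (h.mono q c hq hcP hqc) hq' hcP' (img q c hq hcP hqc hb), ?_⟩
        rw [h.te q c hq hcP hqc]
        rw [hre]
        ring
    · -- N
      obtain ⟨d, h1, h2, h3, h4⟩ := h.up c hcP
      refine ⟨(d, .N), 0, 0, ?_, ?_, ?_⟩
      · rw [h2]; exact En.done (mem_compl.2 h1)
      · rw [hre, h3]; exact En.done (mem_compl.2 (fun hh => h1 ((h.out d).2 hh)))
      · rw [hre, h4]
    · -- E
      have hcN := c.2
      rcases Nat.lt_or_ge ((c : ℕ) + 1) N with h0 | h0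
      · obtain ⟨q, hqc, hq, hb⟩ := nxt h0 (by omega)
        have hq' : ρ q ∉ P' := fun hh => hq ((h.out q).2 hh)
        refine ⟨(q, .W), _, _, h.arcs.east h.row hqc hcP hq hb,
          h.arcs'.east h.row' (h.mono c q hcP hq hqc) hcP' hq' (img c q hcP hq hqc hb), ?_⟩
        rw [h.te c q hcP hq hqc]
        rw [hre]
        ring
      · obtain ⟨-, h1, d, e, h2, h3, h4, h5⟩ := h.last c (by omega)
        refine ⟨(d, e), 0, 0, ?_, ?_, ?_⟩
        · rw [h3]; exact En.done (mem_compl.2 h2)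
        · rw [hre, h1, h4]; exact En.done (mem_compl.2 (fun hh => h2 ((h.out d).2 hh)))
        · rw [hre, h1, h5]
    · -- S
      obtain ⟨d, t, h1, h2, h3⟩ := h.dn c hcP
      refine ⟨(d, .S), _, _, h.arcs.glued hinv htn h2, h.arcs'.glued hinv' htn' h3, ?_⟩
      rw [hre]
      ring
  · intro i hi
    have hiP : i ∉ P := mem_compl.1 hi
    have hiP' : ρ i ∉ P' := fun hh => hiP ((h.out i).2 hh)
    unfold fa fb
    rw [if_neg hiP, if_neg hiP', if_neg hiP, if_neg hiP']
    exact hQ i hiP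

end Pool.Agent.H69.M6b
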