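import Mathlib
import Pool.Agent.H69.M6b.Rect
import Pool.Agent.H69.M6b.Red

set_option autoImplicit false
set_option linter.unusedSectionVars false
open Finset

/-! # Paths of step maps, first exits; the step map with columns which are passed straight -/

namespace Pool.Agent.H69.M6b

open Pool.Agent.H81.G1

section
variable {D : Type*} {f g : D → D} {δ : D → ℤ} {R R' : Set D}

/-- path with `n` steps -/
def Pn (f : D → D) (δ : D → ℤ) (R : Set D) (n : ℕ) (x y : D) (t : ℤ) : Prop :=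
  f^[n] x = y ∧ (∀ i < n, f^[i] x ∈ R) ∧ t = ∑ i ∈ range n, δ (f^[i] x)

lemma PR.ex {x y : D} {t : ℤ} (h : PR f δ R x y t) : ∃ n, Pn f δ R n x y t := h

lemma Pn.pr {n : ℕ} {x y : D} {t : ℤ} (h : Pn f δ R n x y t) : PR f δ R x y t := ⟨n, h⟩

lemma Pn.zero (x : D) : Pn f δ R 0 x x 0 :=
  ⟨rfl, fun i hi => absurd hi (Nat.not_lt_zero i), by simp⟩

lemma Pn.mono (hR : R ⊆ R') {n : ℕ} {x y : D} {t : ℤ} (h : Pn f δ R n x y t) :
    Pn f δ R' n x y t := ⟨h.1, fun i hi => hR (h.2.1 i hi), h.2.2⟩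

lemma Pn.trans {n m : ℕ} {x y z : D} {t t' : ℤ} (h : Pn f δ R n x y t) (h' : Pn f δ R m y z t') :
    Pn f δ R (n + m) x z (t + t') := by
  obtain ⟨h1, h2, h3⟩ := h
  obtain ⟨g1, g2, g3⟩ := h'
  have e : ∀ i, f^[n + i] x = f^[i] y := by
    intro i; rw [Nat.add_comm, Function.iterate_add_apply, h1]
  refine ⟨by rw [e, g1], ?_, ?_⟩
  · intro i hi
    rcases Nat.lt_or_ge i n with h4 | h4
    · exact h2 i h4
    · obtain ⟨j, rfl⟩ : ∃ j, i = n + j := ⟨i - n, by omega⟩
      rw [e]; exact g2 j (by omega)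
  · rw [Finset.sum_range_add, h3, g3]
    congr 1
    exact sum_congr rfl fun i _ => by rw [e]

lemma Pn.pos {n : ℕ} {x y : D} {t : ℤ} (h : Pn f δ R n x y t) (hx : x ∈ R) (hy : y ∉ R) :
    0 < n := by
  rcases Nat.eq_zero_or_pos n with h0 | h0
  · subst h0
    exfalso
    apply hy
    rw [← h.1]; exact hx
  · exact h0

/-- the first exit is unique -/
lemma Pn.uniq {n m : ℕ} {x y z : D} {t t' : ℤ} (h : Pn f δ R n x y t) (h' : Pn f δ R m x z t')
    (hy : y ∉ R) (hz : z ∉ R) : n = m ∧ y = z ∧ t = t' := by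
  have e : n = m := by
    rcases lt_trichotomy n m with h1 | h1 | h1
    · exfalso; apply hy; rw [← h.1]; exact h'.2.1 n h1
    · exact h1
    · exfalso; apply hz; rw [← h'.1]; exact h.2.1 m h1
  subst e
  exact ⟨rfl, by rw [← h.1, ← h'.1], by rw [h.2.2, h'.2.2]⟩

lemma PR.uniq {x y z : D} {t t' : ℤ} (h : PR f δ R x y t) (h' : PR f δ R x z t')
    (hy : y ∉ R) (hz : z ∉ R) : y = z ∧ t = t' := by
  obtain ⟨n, hn⟩ := h
  obtain ⟨m, hm⟩ := h'
  exact (Pn.uniq hn hm hy hz).2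

/-- a path which ends outside `R` continues every path of `R` -/
lemma Pn.rest {n m : ℕ} {x y z : D} {t t' : ℤ} (h : Pn f δ R n x z t) (hz : z ∉ R)
    (h' : Pn f δ R m x y t') : m ≤ n ∧ Pn f δ R (n - m) y z (t - t') := by
  have hmn : m ≤ n := by
    by_contra hh
    apply hz
    rw [← h.1]; exact h'.2.1 n (by omega)
  obtain ⟨k, rfl⟩ : ∃ k, n = m + k := ⟨n - m, by omega⟩
  have e : ∀ i, f^[m + i] x = f^[i] y := by
    intro i; rw [Nat.add_comm, Function.iterate_add_apply, h'.1]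
  refine ⟨hmn, ?_, ?_, ?_⟩
  · rw [Nat.add_sub_cancel_left, ← e]; exact h.1
  · intro i hi
    rw [← e]; exact h.2.1 _ (by omega)
  · rw [Nat.add_sub_cancel_left, h.2.2, h'.2.2, Finset.sum_range_add]
    simp only [e]
    ring

/-- change of the map after the last step -/
lemma Pn.last {n : ℕ} {x y : D} {t : ℤ} (h : Pn f δ R n x y t) (hn : 0 < n) {q : D → D}
    (hq : ∀ z ∈ R, q z = z) : Pn (fun z => q (f z)) δ R n x (q y) t := by
  have key : ∀ i < n, (fun z => q (f z))^[i] x = f^[i] x := by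
    intro i
    induction i with
    | zero => intro _; rfl
    | succ i ih =>
      intro hi
      rw [Function.iterate_succ_apply', ih (by omega), Function.iterate_succ_apply']
      apply hq
      have := h.2.1 (i + 1) hi
      rwa [Function.iterate_succ_apply'] at this
  refine ⟨?_, ?_, ?_⟩
  · obtain ⟨k, rfl⟩ : ∃ k, n = k + 1 := ⟨n - 1, by omega⟩
    rw [Function.iterate_succ_apply', key k (by omega)]
    rw [← h.1, Function.iterate_succ_apply']
  · intro i hi
    rw [key i hi]; exact h.2.1 i hi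
  · rw [h.2.2]
    exact sum_congr rfl fun i hi => by rw [key i (mem_range.1 hi)]

end

variable {κ : Type*}

/-- the opposite end -/
def opp : Dir → Dir
  | .W => .E | .E => .W | .N => .S | .S => .N

lemma opp_opp (d : Dir) : opp (opp d) = d := by cases d <;> rfl

open Classical in
/-- the tiles of `Q` are passed straight -/
noncomputable def pas (Y : Net κ) (Q : κ → Prop) (y : κ × Dir) : κ × Dir :=
  if Q y.1 then Y.π (y.1, opp y.2) else y

lemma pas_in {Y : Net κ} {Q : κ → Prop} {y : κ × Dir} (h : Q y.1) :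
    pas Y Q y = Y.π (y.1, opp y.2) := by unfold pas; rw [if_pos h]

lemma pas_out {Y : Net κ} {Q : κ → Prop} {y : κ × Dir} (h : ¬ Q y.1) : pas Y Q y = y := by
  unfold pas; rw [if_neg h]

/-- step map with straight passages through `Q` -/
noncomputable def ps (Y : Net κ) (s : κ → Bool) (Q : κ → Prop) (x : κ × Dir) : κ × Dir :=
  pas Y Q (Y.step s x)

lemma Pn.toPs {Y : Net κ} {s : κ → Bool} {Q : κ → Prop} {R : Set (κ × Dir)} {δ : κ × Dir → ℤ}
    {n : ℕ} {x y : κ × Dir} {t : ℤ} (h : Pn (Y.step s) δ R n x y t) (hn : 0 < n)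
    (hR : ∀ z ∈ R, ¬ Q z.1) : Pn (ps Y s Q) δ R n x (pas Y Q y) t :=
  h.last hn fun z hz => pas_out (hR z hz)

/-! ### Tiles of a rectangle -/

section
variable {D : Type*}

/-- positions after crossing the sides of the rectangle of the tiles `T i j`, `W` = wires -/
def vRT (T : ℕ → ℕ → κ) (W : κ × Dir → κ × Dir) (w : ℕ) (i j : ℕ) : κ × Dir :=
  if i < w then (T i j, .W) else W (T (w - 1) j, .E)

def vLT (T : ℕ → ℕ → κ) (W : κ × Dir → κ × Dir) (i j : ℕ) : κ × Dir :=
  if i = 0 then W (T 0 j, .W) else (T (i - 1) j, .E)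

def hUT (T : ℕ → ℕ → κ) (W : κ × Dir → κ × Dir) (h : ℕ) (i j : ℕ) : κ × Dir :=
  if j < h then (T i j, .S) else W (T i (h - 1), .N)

def hDT (T : ℕ → ℕ → κ) (W : κ × Dir → κ × Dir) (i j : ℕ) : κ × Dir :=
  if j = 0 then W (T i 0, .S) else (T i (j - 1), .N)

/-- wires of a rectangle -/
structure Wires (T : ℕ → ℕ → κ) (W : κ × Dir → κ × Dir) (w h : ℕ) : Prop where
  wE : ∀ i j, i + 1 < w → j < h → W (T i j, Dir.E) = (T (i + 1) j, Dir.W)
  wW : ∀ i j, i + 1 < w → j < h → W (T (i + 1) j, Dir.W) = (T i j, Dir.E)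
  wN : ∀ i j, i < w → j + 1 < h → W (T i j, Dir.N) = (T i (j + 1), Dir.S)
  wS : ∀ i j, i < w → j + 1 < h → W (T i (j + 1), Dir.S) = (T i j, Dir.N)

theorem grid_of {f : κ × Dir → κ × Dir} {δ : κ × Dir → ℤ} {w h : ℕ} {T : ℕ → ℕ → κ}
    {s : κ → Bool} {W : κ × Dir → κ × Dir}
    (hf : ∀ i < w, ∀ j < h, ∀ d, f (T i j, d) = W (T i j, Dir.mate (s (T i j)) d))
    (hδ : ∀ i < w, ∀ j < h, ∀ d, δ (T i j, d) = Dir.tn (s (T i j)) d) (hW : Wires T W w h) :
    Grid f δ w h (fun i j => s (T i j)) (vRT T W w) (vLT T W) (hUT T W h) (hDT T W) := by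
  refine ⟨fun i hi j hj => ?_⟩
  have a1 : hUT T W h i j = (T i j, .S) := by unfold hUT; rw [if_pos hj]
  have a2 : vRT T W w i j = (T i j, .W) := by unfold vRT; rw [if_pos hi]
  have a3 : vLT T W (i + 1) j = (T i j, .E) := by
    unfold vLT; rw [if_neg (by omega), Nat.add_sub_cancel]
  have a4 : hDT T W i (j + 1) = (T i j, .N) := by
    unfold hDT; rw [if_neg (by omega), Nat.add_sub_cancel]
  have a5 : hDT T W i j = W (T i j, .S) := by
    unfold hDT
    by_cases h0 : j = 0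
    · rw [if_pos h0, h0]
    · rw [if_neg h0]
      have := hW.wS i (j - 1) hi (by omega)
      rw [Nat.sub_add_cancel (by omega)] at this
      rw [this]
  have a6 : vLT T W i j = W (T i j, .W) := by
    unfold vLT
    by_cases h0 : i = 0
    · rw [if_pos h0, h0]
    · rw [if_neg h0]
      have := hW.wW (i - 1) j (by omega) hj
      rw [Nat.sub_add_cancel (by omega)] at this
      rw [this]
  have a7 : vRT T W w (i + 1) j = W (T i j, .E) := by
    unfold vRT
    by_cases h0 : i + 1 < w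
    · rw [if_pos h0, hW.wE i j h0 hj]
    · rw [if_neg h0]
      have : w - 1 = i := by omega
      rw [this]
  have a8 : hUT T W h i (j + 1) = W (T i j, .N) := by
    unfold hUT
    by_cases h0 : j + 1 < h
    · rw [if_pos h0, hW.wN i j hi h0]
    · rw [if_neg h0]
      have : h - 1 = j := by omega
      rw [this]
  rw [a1, a2, a3, a4, a5, a6, a7, a8]
  constructor
  · intro hs
    rw [hf i hi j hj, hf i hi j hj, hf i hi j hj, hf i hi j hj, hδ i hi j hj, hδ i hi j hj,
      hδ i hi j hj, hδ i hi j hj, hs]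
    simp [Dir.mate, Dir.tn]
  · intro hs
    rw [hf i hi j hj, hf i hi j hj, hf i hi j hj, hf i hi j hj, hδ i hi j hj, hδ i hi j hj,
      hδ i hi j hj, hδ i hi j hj, hs]
    simp [Dir.mate, Dir.tn]

/-- the tiles of the rectangle -/
def Bx' (T : ℕ → ℕ → κ) (w j0 j1 : ℕ) : Set (κ × Dir) :=
  {x | ∃ i < w, ∃ j, j0 ≤ j ∧ j < j1 ∧ x.1 = T i j}

lemma RR_eq {T : ℕ → ℕ → κ} {W : κ × Dir → κ × Dir} {w h : ℕ} :
    RR w h (vRT T W w) (vLT T W) (hUT T W h) (hDT T W) = Bx' T w 0 h := by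
  ext x
  unfold RR Bx' vRT vLT hUT hDT
  simp only [Set.mem_ofPred_eq]
  constructor
  · rintro ⟨i, hi, j, hj, hx⟩
    refine ⟨i, hi, j, Nat.zero_le _, hj, ?_⟩
    rw [if_pos hj, if_pos hi, if_neg (by omega), if_neg (by omega), Nat.add_sub_cancel,
      Nat.add_sub_cancel] at hx
    rcases hx with rfl | rfl | rfl | rfl <;> rfl
  · rintro ⟨i, hi, j, -, hj, hx⟩
    refine ⟨i, hi, j, hj, ?_⟩
    rw [if_pos hj, if_pos hi, if_neg (by omega), if_neg (by omega), Nat.add_sub_cancel,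
      Nat.add_sub_cancel]
    obtain ⟨k, d⟩ := x
    simp only at hx
    subst hx
    cases d <;> simp

end

end Pool.Agent.H69.M6b
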