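import Mathlib
import Pool.Agent.H69.M6b.Eq

set_option autoImplicit false
set_option linter.unusedSectionVars false
open Finset

/-! # The mirror image of the box, and reversed paths -/

namespace Pool.Agent.H69.M6b

open Pool.Agent.H81.G1

variable {κ : Type*} {N : ℕ}

lemma opp_fld (d : Dir) : opp (fld d) = fld (opp d) := by cases d <;> rfl

lemma pas_fl (Y : Net κ) (Q : κ → Prop) (y : κ × Dir) : pas (mir Y) Q (fl y) = fl (pas Y Q y) := by
  by_cases h : Q y.1
  · rw [pas_in (Y := mir Y) (y := fl y) h, pas_in h]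
    unfold mir fl
    simp only [opp_fld, fld_fld]
  · rw [pas_out (Y := mir Y) (y := fl y) h, pas_out h]

lemma ps_fl (Y : Net κ) (s : κ → Bool) (Q : κ → Prop) (x : κ × Dir) :
    ps (mir Y) (fun k => !s k) Q (fl x) = fl (ps Y s Q x) := by
  unfold ps
  rw [mir_step, pas_fl]

lemma Pn.flip {Y : Net κ} {s : κ → Bool} {Q : κ → Prop} {R R' : Set (κ × Dir)}
    (hR : ∀ z ∈ R, fl z ∈ R') {n : ℕ} {x y : κ × Dir} {t : ℤ}
    (h : Pn (ps Y s Q) (Y.dt s) R n x y t) :
    Pn (ps (mir Y) (fun k => !s k) Q) ((mir Y).dt fun k => !s k) R' n (fl x) (fl y) (-t) := by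
  have e : ∀ i, (ps (mir Y) (fun k => !s k) Q)^[i] (fl x) = fl ((ps Y s Q)^[i] x) := by
    intro i
    induction i with
    | zero => rfl
    | succ i ih => rw [Function.iterate_succ_apply', ih, ps_fl, Function.iterate_succ_apply']
  refine ⟨by rw [e, h.1], fun i hi => by rw [e]; exact hR _ (h.2.1 i hi), ?_⟩
  rw [h.2.2, ← sum_neg_distrib]
  exact sum_congr rfl fun i _ => by rw [e, mir_dt]

lemma Pn.flipY {Y : Net κ} {s : κ → Bool} {R R' : Set (κ × Dir)}
    (hR : ∀ z ∈ R, fl z ∈ R') {n : ℕ} {x y : κ × Dir} {t : ℤ}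
    (h : Pn (Y.step s) (Y.dt s) R n x y t) :
    Pn ((mir Y).step fun k => !s k) ((mir Y).dt fun k => !s k) R' n (fl x) (fl y) (-t) := by
  have e : ∀ i, ((mir Y).step (fun k => !s k))^[i] (fl x) = fl ((Y.step s)^[i] x) := by
    intro i
    induction i with
    | zero => rfl
    | succ i ih => rw [Function.iterate_succ_apply', ih, mir_step, Function.iterate_succ_apply']
  refine ⟨by rw [e, h.1], fun i hi => by rw [e]; exact hR _ (h.2.1 i hi), ?_⟩
  rw [h.2.2, ← sum_neg_distrib]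
  exact sum_congr rfl fun i _ => by rw [e, mir_dt]

/-- the mirror image of the induced network -/
lemma Ind.flip {Y : Net κ} {s : κ → Bool} {τ : Fin N → κ} {X : Net (Fin N)} (hI : Ind Y s τ X) :
    Ind (mir Y) (fun k => !s k) τ (mir X) := by
  refine ⟨?_, mir_inv hI.inv, mir_tn hI.tn⟩
  rintro ⟨c, d⟩
  obtain ⟨n, hn⟩ := hI.wire (c, fld d)
  have hn' : Pn (Y.step s) (Y.dt s) (Off τ) n (Y.π (τ c, fld d))
    (τ (X.π (c, fld d)).1, (X.π (c, fld d)).2) (X.t (c, fld d) - Y.t (τ c, fld d)) := hn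
  have h1 := hn'.flipY (R' := Off τ) (fun z hz => hz)
  have h2 : (mir X).t (c, d) - (mir Y).t (τ c, d) = -(X.t (c, fld d) - Y.t (τ c, fld d)) := by
    change -X.t (c, fld d) - -Y.t (τ c, fld d) = _
    ring
  change PR _ _ _ _ _ ((mir X).t (c, d) - (mir Y).t (τ c, d))
  rw [h2]
  exact ⟨n, h1⟩

namespace World

variable {Y : Net κ} {τ : Fin N → κ} {c0 w h : ℕ} {cl : ℕ → Fin N} {T : ℕ → ℕ → κ}

/-- the rows in the reversed order -/
def Tf (T : ℕ → ℕ → κ) (h : ℕ) (i j : ℕ) : κ := T i (2 * h - 1 - j)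

/-- the mirror image of a port -/
def rf (w h k : ℕ) : ℕ :=
  if k < 2 * h then 2 * h - 1 - k else if k < 2 * h + w then 2 * (2 * h + w) - 1 - (k - 2 * h)
  else if k < 2 * h + w + 2 * h then 2 * h + w + (2 * h - 1 - (k - (2 * h + w)))
  else 2 * h + (2 * (2 * h + w) - 1 - k)

lemma rf_lt {k : ℕ} (hk : k < 2 * (2 * h + w)) : rf w h k < 2 * (2 * h + w) := by
  unfold rf; split_ifs <;> omega

lemma rf_rf {k : ℕ} (hk : k < 2 * (2 * h + w)) : rf w h (rf w h k) = k := by
  unfold rf; split_ifs <;> omega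

lemma se_flip (hh : 0 < h) {k : ℕ} (hk : k < 2 * (2 * h + w)) :
    fl (se (Tf T h) w (2 * h) k) = se T w (2 * h) (rf w h k) := by
  by_cases h1 : k < 2 * h
  · have e : rf w h k = 2 * h - 1 - k := by unfold rf; rw [if_pos h1]
    rw [e]
    unfold se Tf fl
    rw [if_pos h1, if_pos (by omega)]
    congr 2 <;> omega
  by_cases h2 : k < 2 * h + w
  · have e : rf w h k = 2 * (2 * h + w) - 1 - (k - 2 * h) := by
      unfold rf; rw [if_neg h1, if_pos h2]
    rw [e]
    unfold se Tf fl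
    rw [if_neg h1, if_pos h2, if_neg (by omega), if_neg (by omega), if_neg (by omega)]
    simp only [fld]
    congr 2 <;> omega
  by_cases h3 : k < 2 * h + w + 2 * h
  · have e : rf w h k = 2 * h + w + (2 * h - 1 - (k - (2 * h + w))) := by
      unfold rf; rw [if_neg h1, if_neg h2, if_pos h3]
    rw [e]
    unfold se Tf fl
    rw [if_neg h1, if_neg h2, if_pos h3, if_neg (by omega), if_neg (by omega), if_pos (by omega)]
    simp only [fld]
    congr 2 <;> omega
  · have e : rf w h k = 2 * h + (2 * (2 * h + w) - 1 - k) := by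
      unfold rf; rw [if_neg h1, if_neg h2, if_neg h3]
    rw [e]
    unfold se Tf fl
    rw [if_neg h1, if_neg h2, if_neg h3, if_neg (by omega), if_pos (by omega)]
    simp only [fld]
    congr 2 <;> omega

lemma fl_AB {z : κ × Dir} (hh : 0 < h) (hz : z ∈ Bx' T w 0 (2 * h)) :
    fl z ∈ Bx' (Tf T h) w 0 (2 * h) := by
  obtain ⟨i, hi, j, -, hj, e⟩ := hz
  refine ⟨i, hi, 2 * h - 1 - j, Nat.zero_le _, by omega, ?_⟩
  change z.1 = T i (2 * h - 1 - (2 * h - 1 - j))
  rw [e]
  congr 1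
  omega

lemma fl_Ad {z : κ × Dir} (hz : z ∈ Bx' T w 0 h) :
    fl z ∈ Bx' (Tu (Tf T h) h) w 0 h := by
  obtain ⟨i, hi, j, -, hj, e⟩ := hz
  refine ⟨i, hi, h - 1 - j, Nat.zero_le _, by omega, ?_⟩
  change z.1 = T i (2 * h - 1 - (h + (h - 1 - j)))
  rw [e]
  congr 1
  omega

/-- **The mirror image of the box.** -/
theorem flip (V : World Y τ c0 w h cl T) : World (mir Y) τ c0 w h cl (Tf T h) := by
  have hh := V.h0
  have mp : ∀ x, (mir Y).π x = fl (Y.π (fl x)) := fun x => rfl
  refine ⟨mir_inv V.inv, V.w0, V.h0, V.c1, V.c2, V.clv, V.τinj, ?_, ?_, ?_, ?_, ?_, ?_, ?_, ?_, ?_,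
    ?_⟩
  · intro i hi j hj i' hi' j' hj' e
    have := V.Tinj i hi _ (by omega) i' hi' _ (by omega) e
    omega
  · intro i hi j hj c
    exact V.Trow i hi _ (by omega) c
  · intro i j hi hj
    rw [mp]
    change fl (Y.π (T i (2 * h - 1 - j), .E)) = _
    rw [V.wE i _ hi (by omega)]
    rfl
  · intro i j hi hj hjh
    rw [mp]
    change fl (Y.π (T i (2 * h - 1 - j), .S)) = _
    have e : 2 * h - 1 - j = (2 * h - 1 - (j + 1)) + 1 := by omega
    rw [e, V.wS i _ hi (by omega) (by omega)]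
    rfl
  · intro i hi
    rw [mp]
    change fl (Y.π (T i (2 * h - 1 - h), .N)) = _
    have e : 2 * h - 1 - h = h - 1 := by omega
    rw [e, V.dn i hi]
    rfl
  · intro i hi
    rw [mp]
    change fl (Y.π (T i (2 * h - 1 - (h - 1)), .S)) = _
    have e : 2 * h - 1 - (h - 1) = h := by omega
    rw [e, V.up i hi]
    rfl
  · intro i hi j hj d
    change -Y.t _ = 0
    have := V.tT i hi (2 * h - 1 - j) (by omega) (fld d)
    rw [neg_eq_zero]
    exact this
  · intro i hi d
    change -Y.t _ = 0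
    rw [neg_eq_zero]
    exact V.tr i hi (fld d)
  · intro c c' hcc
    rw [mp]
    change fl (Y.π (τ c, .E)) = _
    rw [V.row c c' hcc]
    rfl
  · intro k hk
    rw [mp, se_flip hh hk]
    obtain ⟨h1, h2⟩ := V.oo _ (rf_lt hk)
    refine ⟨fun i hi j hj => ?_, fun i hi => ?_⟩
    · exact h1 i hi (2 * h - 1 - j) (by omega)
    · exact h2 i hi

/-- the mirror image of the root -/
lemma Rt.flip {s : κ → Bool} {X : Net (Fin N)} {ρ0 : κ × Dir} {r : ℤ}
    (hR : Rt Y s τ w h cl T X ρ0 r) :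
    Rt (mir Y) (fun k => !s k) τ w h cl (Tf T h) (mir X) (fl ρ0) (-r) := by
  refine ⟨fun i hi j hj => ?_, hR.nc, ?_⟩
  · exact hR.nb i hi (2 * h - 1 - j) (by omega)
  · obtain ⟨n, hn⟩ := hR.pr
    have hn' : Pn (Y.step s) (Y.dt s) (Off τ) n ρ0 (τ X.x0.1, X.x0.2) r := hn
    exact ⟨n, hn'.flipY (R' := Off τ) (fun z hz => hz)⟩

lemma Rn.flip {s : κ → Bool} {ρ0 : κ × Dir} (hR : Rn Y s τ w h cl T ρ0) :
    Rn (mir Y) (fun k => !s k) τ w h cl (Tf T h) (fl ρ0) := by
  refine ⟨fun i hi j hj => ?_, hR.nc, fun n => ?_⟩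
  · exact hR.nb i hi (2 * h - 1 - j) (by omega)
  · have e : ∀ i, ((mir Y).step (fun k => !s k))^[i] (fl ρ0) = fl ((Y.step s)^[i] ρ0) := by
      intro i
      induction i with
      | zero => rfl
      | succ i ih => rw [Function.iterate_succ_apply', ih, mir_step, Function.iterate_succ_apply']
    rw [e]
    exact hR.nv n

/-! ### Reversed paths -/

section
variable (V : World Y τ c0 w h cl T)
include V

/-- the position after turning back -/
noncomputable def rv (Y : Net κ) (τ : Fin N → κ) (w : ℕ) (cl : ℕ → Fin N) (x : κ × Dir) : κ × Dir :=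
  pas Y (Qb τ w cl) (Y.π x)

lemma rv_rv {x : κ × Dir} (hx : x ∈ Bx' T w 0 (2 * h)) :
    rv Y τ w cl (rv Y τ w cl x) = x := by
  have hh := V.h0
  unfold rv
  by_cases hq : Qb τ w cl (Y.π x).1
  · rw [pas_in hq]
    obtain ⟨i, hi, e⟩ := hq
    have hcl := V.clv i hi
    have h1 := V.c1
    have h2 := V.c2
    obtain ⟨i0, hi0, j0, -, hj0, e0⟩ := hx
    have e1 : Y.π x = (τ (cl i), (Y.π x).2) := Prod.ext e rfl
    have e2 : Y.π (τ (cl i), (Y.π x).2) = x := by rw [← e1, V.inv]
    rcases hd : (Y.π x).2 with _ | _ | _ | _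
    · exfalso
      rw [hd] at e2
      have h3 := V.row ⟨(cl i : ℕ) - 1, by omega⟩ (cl i) (by simp only; omega)
      rw [← h3, V.inv] at e2
      exact V.Trow i0 hi0 j0 hj0 _ (by rw [← e0, ← e2])
    · rw [V.inv, pas_in ⟨i, hi, e⟩]
      simp only [opp]
      rw [hd] at e2
      rw [e]
      exact e2
    · exfalso
      rw [hd] at e2
      have h3 := V.row (cl i) ⟨(cl i : ℕ) + 1, by omega⟩ rfl
      rw [h3] at e2
      exact V.Trow i0 hi0 j0 hj0 _ (by rw [← e0, ← e2])
    · rw [V.inv, pas_in ⟨i, hi, e⟩]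
      simp only [opp]
      rw [hd] at e2
      rw [e]
      exact e2
  · rw [pas_out hq, V.inv, pas_out (V.AB_Qb hx)]

/-- a step and the way back -/
lemma rv_step (s : κ → Bool) {x : κ × Dir} (hx : x ∈ Bx' T w 0 (2 * h)) :
    rv Y τ w cl (ps Y s (Qb τ w cl) x) = (x.1, Dir.mate (s x.1) x.2) := by
  have e : ps Y s (Qb τ w cl) x = rv Y τ w cl (x.1, Dir.mate (s x.1) x.2) := rfl
  rw [e]
  exact V.rv_rv (x := (x.1, Dir.mate (s x.1) x.2)) hx

omit V in
lemma mate_mate (b : Bool) (d : Dir) : Dir.mate b (Dir.mate b d) = d := by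
  cases b <;> cases d <;> rfl

omit V in
lemma tn_mate (b : Bool) (d : Dir) : Dir.tn b (Dir.mate b d) = -Dir.tn b d := by
  cases b <;> cases d <;> rfl

/-- **The reversed path.** -/
lemma rev {s : κ → Bool} {n : ℕ} : ∀ {x y : κ × Dir} {t : ℤ},
    Pn (ps Y s (Qb τ w cl)) (Y.dt s) (Bx' T w 0 (2 * h)) n x y t →
    Pn (ps Y s (Qb τ w cl)) (Y.dt s) (Bx' T w 0 (2 * h)) n (rv Y τ w cl y) (rv Y τ w cl x) (-t) := by
  induction n with
  | zero =>
    intro x y t hp
    have e1 : x = y := hp.1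
    have e2 : t = 0 := by have := hp.2.2; simpa using this
    rw [e1, e2, neg_zero]
    exact Pn.zero _
  | succ n ih =>
    intro x y t hp
    have hx : x ∈ Bx' T w 0 (2 * h) := hp.2.1 0 (by omega)
    -- split off the first step
    set x1 := ps Y s (Qb τ w cl) x with hx1
    have p1 : Pn (ps Y s (Qb τ w cl)) (Y.dt s) (Bx' T w 0 (2 * h)) n x1 y (t - Y.dt s x) := by
      refine ⟨?_, ?_, ?_⟩
      · rw [← hp.1, Function.iterate_succ_apply]
      · intro i hi
        have := hp.2.1 (i + 1) (by omega)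
        rwa [Function.iterate_succ_apply] at this
      · rw [hp.2.2, Finset.sum_range_succ']
        simp only [Function.iterate_succ_apply, Function.iterate_zero, id]
        ring
    have p2 := ih p1
    rw [V.rv_step s hx] at p2
    obtain ⟨i, hi, j, -, hj, e⟩ := id hx
    have p3 : Pn (ps Y s (Qb τ w cl)) (Y.dt s) (Bx' T w 0 (2 * h)) 1
        (x.1, Dir.mate (s x.1) x.2) (rv Y τ w cl x) (-Y.dt s x) := by
      refine ⟨?_, ?_, ?_⟩
      · rw [Function.iterate_one]
        unfold ps Net.step rv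
        simp only [mate_mate]
      · intro i' hi'
        have : i' = 0 := by omega
        subst this
        exact ⟨i, hi, j, Nat.zero_le _, hj, e⟩
      · rw [Finset.sum_range_one, Function.iterate_zero, id]
        unfold Net.dt
        simp only [mate_mate, tn_mate]
        rw [e, V.tT i hi j hj, V.tT i hi j hj]
        ring
    have p4 := p2.trans p3
    convert p4 using 1
    ring

end

end World

end Pool.Agent.H69.M6b
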