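import Mathlib
import Pool.Agent.H69.M6b.TwoPort

set_option autoImplicit false
set_option linter.unusedSectionVars false
set_option linter.unusedVariables false
open Finset

/-! # Two ports, any position of the ports -/

namespace Pool.Agent.H69.M6b

open Pool.Agent.H81.G1

variable {κ : Type*} {N : ℕ}

namespace World

variable {Y : Net κ} {τ : Fin N → κ} {c0 w h : ℕ} {cl : ℕ → Fin N} {T : ℕ → ℕ → κ}

section
variable (V : World Y τ c0 w h cl T) {s s' : κ → Bool} {Mu Md M Nu Nd M2 : ℕ → ℕ}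
  {Mu' Md' M' Nu' Nd' M2' : ℕ → ℕ} {I : κ → Prop} {k0 k1 : ℕ}
include V

/-- the mirror image of a port, again -/
lemma se_flip' {k : ℕ} (hk : k < 2 * (2 * h + w)) :
    fl (se T w (2 * h) k) = se (Tf T h) w (2 * h) (rf w h k) := by
  have h1 := se_flip (T := T) V.h0 (rf_lt (w := w) hk)
  rw [rf_rf hk] at h1
  rw [← h1, fl_fl]

omit V in
lemma psn_flip (hh : 0 < h) (j : ℕ) (d : Bool) :
    fl (psn T h j d) = psn (Tf T h) h j (!d) := by
  cases d
  · change (T j (h - 1), Dir.S) = (T j (2 * h - 1 - h), Dir.S)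
    congr 2
    omega
  · change (T j h, Dir.N) = (T j (2 * h - 1 - (h - 1)), Dir.N)
    congr 2
    omega

omit V in
lemma AB_fl {z : κ × Dir} (hh : 0 < h) (hz : fl z ∈ Bx' (Tf T h) w 0 (2 * h)) :
    z ∈ Bx' T w 0 (2 * h) := by
  obtain ⟨i, hi, j, -, hj, e⟩ := hz
  exact ⟨i, hi, 2 * h - 1 - j, Nat.zero_le _, by omega, e⟩

omit V in
lemma iter_fl (Q : κ → Prop) (x : κ × Dir) (i : ℕ) :
    (ps (mir Y) (fun k => !s k) Q)^[i] (fl x) = fl ((ps Y s Q)^[i] x) := by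
  induction i with
  | zero => rfl
  | succ i ih => rw [Function.iterate_succ_apply', ih, ps_fl, Function.iterate_succ_apply']

lemma Vs.flip {k j : ℕ} {d : Bool} {t : ℤ} (hk : k < 2 * (2 * h + w))
    (hv : Vs Y τ w h cl T s k j d t) :
    Vs (mir Y) τ w h cl (Tf T h) (fun k => !s k) (rf w h k) j (!d) (-t) := by
  obtain ⟨n, hn⟩ := hv
  have hn' : Pn (ps Y s (Qb τ w cl)) (Y.dt s) (Bx' T w 0 (2 * h)) n (se T w (2 * h) k)
      (psn T h j d) t := hn
  have h1 := hn'.flip (R' := Bx' (Tf T h) w 0 (2 * h)) (fun z hz => fl_AB V.h0 hz)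
  rw [V.se_flip' hk, psn_flip V.h0] at h1
  exact ⟨n, h1⟩

lemma Vi.flip {k : ℕ} (hk : k < 2 * (2 * h + w))
    (hv : Vi (mir Y) τ w h cl (Tf T h) I (fun k => !s k) k) :
    Vi Y τ w h cl T I s (rf w h k) := by
  obtain ⟨n, h1, h2⟩ := hv
  have e : se (Tf T h) w (2 * h) k = fl (se T w (2 * h) (rf w h k)) := by
    rw [V.se_flip' (rf_lt hk), rf_rf hk]
  refine ⟨n, fun i hi => ?_, ?_⟩
  · have := h1 i hi
    rw [e, iter_fl] at this
    exact AB_fl V.h0 this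
  · rw [e, iter_fl] at h2
    exact h2

lemma Two.flip (hT : Two Y τ w h cl T I s k0 k1) :
    Two (mir Y) τ w h cl (Tf T h) I (fun k => !s k) (rf w h k0) (rf w h k1) := by
  refine ⟨rf_lt hT.lt0, rf_lt hT.lt1, ?_⟩
  intro k hk hv
  rcases hT.two _ (rf_lt hk) (Vi.flip V hk hv) with h | h
  · left; rw [← h, rf_rf hk]
  · right; rw [← h, rf_rf hk]

lemma M_flip (hM : Mats Y τ w h cl T s Mu Md M)
    (hN : Mats (mir Y) τ w h cl (Tf T h) (fun k => !s k) Nu Nd M2) {k : ℕ}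
    (hk : k < 2 * (2 * h + w)) : M2 (rf w h k) = rf w h (M k) := by
  obtain ⟨n, hn⟩ := V.full hM hk
  have h1 := hn.flip (R' := Bx' (Tf T h) w 0 (2 * h)) (fun z hz => fl_AB V.h0 hz)
  obtain ⟨m, hm⟩ := V.flip.full hN (rf_lt hk)
  rw [V.se_flip' hk] at h1
  have hl := hM.g.lt k hk
  have e : fl (Y.π (se T w (2 * h) (M k))) =
      (mir Y).π (se (Tf T h) w (2 * h) (rf w h (M k))) := by
    rw [← V.se_flip' hl]
    change _ = fl (Y.π (fl (fl _)))
    rw [fl_fl]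
  rw [e] at h1
  obtain ⟨-, e2, -⟩ := hm.uniq h1 (V.flip.out_B (hN.g.lt _ (rf_lt hk)))
    (V.flip.out_B (rf_lt hl))
  exact V.flip.se_inj (hN.g.lt _ (rf_lt hk)) (rf_lt hl) (V.flip.pi_inj e2)

omit V in
lemma Ag.flip (hag : Ag τ I s s') : Ag τ I (fun k => !s k) (fun k => !s' k) := fun k h1 h2 => by
  simp only; rw [hag k h1 h2]

/-- **The amplitudes of two configurations which agree off `I`.** -/
theorem two (hM : Mats Y τ w h cl T s Mu Md M)
    (hN : Mats (mir Y) τ w h cl (Tf T h) (fun k => !s k) Nu Nd M2)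
    (hM' : Mats Y τ w h cl T s' Mu' Md' M')
    (hN' : Mats (mir Y) τ w h cl (Tf T h) (fun k => !s' k) Nu' Nd' M2')
    (hMf : ∃ Pu Pd P, Mats (mir (mir Y)) τ w h cl (Tf (Tf T h) h) (fun k => !(!s k)) Pu Pd P)
    (hMf' : ∃ Pu Pd P, Mats (mir (mir Y)) τ w h cl (Tf (Tf T h) h) (fun k => !(!s' k)) Pu Pd P)
    (hIB : ∀ k, I k → ∃ i < w, ∃ j < 2 * h, k = T i j)
    (hag : Ag τ I s s') (hT : Two Y τ w h cl T I s k0 k1) (hMk : M k0 = k1)
    {X X' : Net (Fin N)} (hI : Ind Y s τ X) (hI' : Ind Y s' τ X') {ρ0 : κ × Dir} {r r' : ℤ}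
    (hR : Rt Y s τ w h cl T X ρ0 r) (hR' : Rt Y s' τ w h cl T X' ρ0 r')
    (hy : X.y0 = X'.y0) (hy0 : ∀ i < w, X.y0.1 ≠ cl i)
    {A B : ℂ} (hAB : Over A B) {ξ : ℂ} (hξ : ξ ^ 2 = A) {a b : Fin N → ℂ}
    (hab : ∀ i < w, a (cl i) = A ∧ b (cl i) = B) (φ : ℤ → ℂ) {j j' : ℕ} {d d' : Bool} {t t' : ℤ}
    (hj : j < w) (hj' : j' < w) (hv : Vs Y τ w h cl T s k0 j d t)
    (hv' : Vs Y τ w h cl T s' k0 j' d' t') :
    ξ ^ (-t) * cpn X (fun k => φ (k + r)) a b (cl j) =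
      ξ ^ (-t') * cpn X' (fun k => φ (k + r')) a b (cl j') := by
  have hh := V.h0
  have hξ0 : ξ ≠ 0 := by
    intro h0
    rw [h0] at hξ
    have := hAB.mul
    rw [← hξ] at this
    norm_num at this
  have lt0 := hT.lt0
  have lt1 := hT.lt1
  -- an upper port
  have isU : ∀ k < 2 * (2 * h + w), (k < h ∨ 3 * h + w ≤ k) →
      ∃ q, q < 2 * (h + w) ∧ (q < h ∨ h + w ≤ q) ∧ k = eu h q := by
    intro k hk hc
    rcases hc with h1 | h1
    · exact ⟨k, by omega, Or.inl h1, by unfold eu; rw [if_pos h1]⟩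
    · exact ⟨k - 2 * h, by omega, Or.inr (by omega), by
        unfold eu; rw [if_neg (by omega)]; omega⟩
  by_cases hu0 : k0 < h ∨ 3 * h + w ≤ k0
  · obtain ⟨q, hq, ho, hk0⟩ := isU k0 lt0 hu0
    exact V.twoU hM hN hM' hN' hIB hag hT hMk hI hI' hR hR' hy hy0 hAB hξ hab φ hq ho hk0 hj hj'
      hv hv'
  have hMe := Two.M_eq V hM hM' hag hT
  have hMk' : M' k0 = k1 := by rw [hMe k0 lt0, hMk]
  by_cases hu1 : k1 < h ∨ 3 * h + w ≤ k1
  · obtain ⟨q, hq, ho, hk1⟩ := isU k1 lt1 hu1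
    have w1 := Vs.rev V hM lt0 hj hv
    have w1' := Vs.rev V hM' lt0 hj' hv'
    rw [hMk] at w1
    rw [hMk'] at w1'
    have hT' : Two Y τ w h cl T I s k1 k0 :=
      ⟨lt1, lt0, fun k hk hvi => (hT.two k hk hvi).symm⟩
    have hMk1 : M k1 = k0 := by rw [← hMk, hM.g.inv _ lt0]
    have key := V.twoU hM hN hM' hN' hIB hag hT' hMk1 hI hI' hR hR' hy hy0 hAB hξ hab φ hq ho hk1
      hj hj' w1 w1'
    set u := tt (2 * h + w) (Kp w (2 * h)) k0 k1 with hu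
    have e1 : ξ ^ (-t) = ξ ^ (-u) * ξ ^ (-(t - u)) := by
      rw [← zpow_add₀ hξ0]; congr 1; ring
    have e2 : ξ ^ (-t') = ξ ^ (-u) * ξ ^ (-(t' - u)) := by
      rw [← zpow_add₀ hξ0]; congr 1; ring
    rw [e1, e2, mul_assoc, mul_assoc, key]
  · -- both ports are below the row
    have hr0 : rf w h k0 < h ∨ 3 * h + w ≤ rf w h k0 := by
      unfold rf; split_ifs <;> omega
    obtain ⟨q, hq, ho, hk0⟩ := isU _ (rf_lt lt0) hr0
    obtain ⟨Pu, Pd, P, hP⟩ := hMf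
    obtain ⟨Pu', Pd', P', hP'⟩ := hMf'
    have hM2 : M2 (rf w h k0) = rf w h k1 := by rw [V.M_flip hM hN lt0, hMk]
    have hAB' : Over B A := ⟨by rw [mul_comm]; exact hAB.mul, by rw [add_comm]; exact hAB.add⟩
    have hξ' : ξ⁻¹ ^ 2 = B := by
      rw [inv_pow, hξ]
      have h3 := hAB.mul
      have hA0 : A ≠ 0 := by intro h0; rw [h0, zero_mul] at h3; exact zero_ne_one h3
      rw [inv_eq_of_mul_eq_one_right h3]
    have key := V.flip.twoU hN hP hN' hP' (I := I) (by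
        intro k hk
        obtain ⟨i, hi, j, hj, e⟩ := hIB k hk
        refine ⟨i, hi, 2 * h - 1 - j, by omega, ?_⟩
        rw [e]; unfold Tf; congr 1; omega) hag.flip (Two.flip V hT) hM2 hI.flip hI'.flip
      hR.flip hR'.flip (congrArg fl hy) hy0 hAB' hξ' (a := b) (b := a)
      (fun i hi => ⟨(hab i hi).2, (hab i hi).1⟩) (fun k => φ (-k)) hq ho hk0 hj hj'
      (Vs.flip V lt0 hv) (Vs.flip V lt0 hv')
    have ep : ∀ r : ℤ, (fun k : ℤ => (fun k => φ (-k)) (k + -r)) = fun k : ℤ => φ (-k + r) := by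
      intro r; funext k; simp only; congr 1; ring
    have m1 : cpn (mir X) (fun k => φ (-k + r)) b a (cl j) =
        -cpn X (fun k => φ (k + r)) a b (cl j) := cpn_mir X (fun k => φ (k + r)) a b (cl j)
    have m2 : cpn (mir X') (fun k => φ (-k + r')) b a (cl j') =
        -cpn X' (fun k => φ (k + r')) a b (cl j') := cpn_mir X' (fun k => φ (k + r')) a b (cl j')
    rw [ep, ep, m1, m2, neg_neg, neg_neg, inv_zpow', inv_zpow'] at key
    linear_combination -key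

/-- **The strand of the root does not meet the row in the second configuration.** -/
theorem never (hM : Mats Y τ w h cl T s Mu Md M)
    (hN : Mats (mir Y) τ w h cl (Tf T h) (fun k => !s k) Nu Nd M2)
    (hM' : Mats Y τ w h cl T s' Mu' Md' M')
    (hN' : Mats (mir Y) τ w h cl (Tf T h) (fun k => !s' k) Nu' Nd' M2')
    (hMf : ∃ Pu Pd P, Mats (mir (mir Y)) τ w h cl (Tf (Tf T h) h) (fun k => !(!s k)) Pu Pd P)
    (hIB : ∀ k, I k → ∃ i < w, ∃ j < 2 * h, k = T i j)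
    (hag : Ag τ I s s') (hT : Two Y τ w h cl T I s k0 k1) (hMk : M k0 = k1)
    {X : Net (Fin N)} (hI : Ind Y s τ X) {ρ0 : κ × Dir} {r : ℤ}
    (hR : Rt Y s τ w h cl T X ρ0 r) (hR' : Rn Y s' τ w h cl T ρ0)
    (hy0 : ∀ i < w, X.y0.1 ≠ cl i)
    {A B : ℂ} (hAB : Over A B) {ξ : ℂ} (hξ : ξ ^ 2 = A) {a b : Fin N → ℂ}
    (hab : ∀ i < w, a (cl i) = A ∧ b (cl i) = B) (φ : ℤ → ℂ) {j j' : ℕ} {d d' : Bool} {t t' : ℤ}
    (hj : j < w) (hj' : j' < w) (hv : Vs Y τ w h cl T s k0 j d t)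
    (hv' : Vs Y τ w h cl T s' k0 j' d' t') : cpn X φ a b (cl j) = 0 := by
  have hh := V.h0
  have hξ0 : ξ ≠ 0 := by
    intro h0
    rw [h0] at hξ
    have := hAB.mul
    rw [← hξ] at this
    norm_num at this
  have lt0 := hT.lt0
  have lt1 := hT.lt1
  -- an upper port
  have isU : ∀ k < 2 * (2 * h + w), (k < h ∨ 3 * h + w ≤ k) →
      ∃ q, q < 2 * (h + w) ∧ (q < h ∨ h + w ≤ q) ∧ k = eu h q := by
    intro k hk hc
    rcases hc with h1 | h1
    · exact ⟨k, by omega, Or.inl h1, by unfold eu; rw [if_pos h1]⟩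
    · exact ⟨k - 2 * h, by omega, Or.inr (by omega), by
        unfold eu; rw [if_neg (by omega)]; omega⟩
  by_cases hu0 : k0 < h ∨ 3 * h + w ≤ k0
  · obtain ⟨q, hq, ho, hk0⟩ := isU k0 lt0 hu0
    exact V.neverU hM hN hM' hIB hag hT hMk hI hR hR' hy0 hAB hξ hab φ hq ho hk0 hj hj' hv hv'
  have hMe := Two.M_eq V hM hM' hag hT
  have hMk' : M' k0 = k1 := by rw [hMe k0 lt0, hMk]
  by_cases hu1 : k1 < h ∨ 3 * h + w ≤ k1
  · obtain ⟨q, hq, ho, hk1⟩ := isU k1 lt1 hu1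
    have w1 := Vs.rev V hM lt0 hj hv
    have w1' := Vs.rev V hM' lt0 hj' hv'
    rw [hMk] at w1
    rw [hMk'] at w1'
    have hT' : Two Y τ w h cl T I s k1 k0 :=
      ⟨lt1, lt0, fun k hk hvi => (hT.two k hk hvi).symm⟩
    have hMk1 : M k1 = k0 := by rw [← hMk, hM.g.inv _ lt0]
    exact V.neverU hM hN hM' hIB hag hT' hMk1 hI hR hR' hy0 hAB hξ hab φ hq ho hk1 hj hj' w1 w1'
  · -- both ports are below the row
    have hr0 : rf w h k0 < h ∨ 3 * h + w ≤ rf w h k0 := by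
      unfold rf; split_ifs <;> omega
    obtain ⟨q, hq, ho, hk0⟩ := isU _ (rf_lt lt0) hr0
    obtain ⟨Pu, Pd, P, hP⟩ := hMf
    have hM2 : M2 (rf w h k0) = rf w h k1 := by rw [V.M_flip hM hN lt0, hMk]
    have hAB' : Over B A := ⟨by rw [mul_comm]; exact hAB.mul, by rw [add_comm]; exact hAB.add⟩
    have hξ' : ξ⁻¹ ^ 2 = B := by
      rw [inv_pow, hξ]
      have h3 := hAB.mul
      have hA0 : A ≠ 0 := by intro h0; rw [h0, zero_mul] at h3; exact zero_ne_one h3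
      rw [inv_eq_of_mul_eq_one_right h3]
    have key := V.flip.neverU hN hP hN' (I := I) (by
        intro k hk
        obtain ⟨i, hi, j, hj, e⟩ := hIB k hk
        refine ⟨i, hi, 2 * h - 1 - j, by omega, ?_⟩
        rw [e]; unfold Tf; congr 1; omega) hag.flip (Two.flip V hT) hM2 hI.flip
      hR.flip hR'.flip hy0 hAB' hξ' (a := b) (b := a)
      (fun i hi => ⟨(hab i hi).2, (hab i hi).1⟩) (fun k => φ (-k)) hq ho hk0 hj hj'
      (Vs.flip V lt0 hv) (Vs.flip V lt0 hv')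
    rw [cpn_mir] at key
    exact neg_eq_zero.1 key

end

end World

end Pool.Agent.H69.M6b
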