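import Mathlib
import Pool.Agent.H69.M6b.TwoFlip
import Pool.Agent.H81.G1.Exists

set_option autoImplicit false
set_option linter.unusedSectionVars false
open Finset

/-! # The network of the random tiles of an environment; boxes of natural tiles -/

namespace Pool.Agent.H69.M6b

open Pool.Agent.H75.Perc Pool.Agent.H75.TwoArm Pool.Agent.Q1 Pool.Agent.H81.G1

/-- label of the tile `(X, Y)` -/
def lbt (X Y : ℤ) : ℤ × ℤ := (X - Y, X + Y + 1)

lemma lbt_inj {X Y X' Y' : ℤ} (h : lbt X Y = lbt X' Y') : X = X' ∧ Y = Y' := by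
  unfold lbt at h
  have h1 := congrArg Prod.fst h
  have h2 := congrArg Prod.snd h
  simp only at h1 h2
  omega

lemma lbt_odd (X Y : ℤ) : ((lbt X Y).1 + (lbt X Y).2) % 2 = 1 := by
  unfold lbt; simp only; omega

/-- corner at the end of a tile -/
def crn (e : ℤ × ℤ) : Dir → ℤ × ℤ
  | .W => e
  | .N => (e.1, e.2 + 1)
  | .E => (e.1 + 1, e.2 + 1)
  | .S => (e.1 + 1, e.2)

/-- parity of a label -/
def pr0 (e : ℤ × ℤ) : Bool := decide (e.1 % 2 = 1)

section
variable {X : Env}

/-- the tiles of an environment -/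
abbrev TI (X : Env) := {e : ℤ × ℤ // e ∈ X.E}

def lbS (i : TI X) : ℤ × ℤ := i.1
def pS (i : TI X) : Bool := pr0 i.1
def crS (x : TI X × Dir) : ℤ × ℤ := crn x.1.1 x.2

lemma tilesS : Tiles X (lbS (X := X)) pS crS := by
  refine ⟨fun a b h => Subtype.ext h, fun i => i.2, fun e he => ⟨⟨e, he⟩, rfl⟩, ?_, ?_⟩
  · rintro ⟨⟨a, b⟩, he⟩ hp
    have ho := X.odd _ he
    unfold pS pr0 at hp
    simp only [decide_eq_true_eq] at hp ho
    unfold crS crn lbS lab nxC
    simp only
    refine ⟨?_, ?_, ?_, ?_, ?_⟩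
    · rw [if_pos (by omega), if_neg (by omega)]
    · rw [if_neg (by omega), if_pos (by omega)]
      refine Prod.ext ?_ ?_ <;> simp
    · intro h
      have := congrArg Prod.fst h
      simp at this
    · rw [if_pos (by omega), if_neg (by omega)]
    · rw [if_neg (by omega), if_pos (by omega)]
      refine Prod.ext ?_ ?_ <;> simp
  · rintro ⟨⟨a, b⟩, he⟩ hp
    have ho := X.odd _ he
    unfold pS pr0 at hp
    simp only [decide_eq_false_iff_not] at hp ho
    unfold crS crn lbS lab nxC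
    simp only
    refine ⟨?_, ?_, ?_, ?_, ?_⟩
    · rw [if_pos (by omega), if_pos (by omega)]
      refine Prod.ext ?_ ?_ <;> simp
    · rw [if_neg (by omega), if_neg (by omega)]
      refine Prod.ext ?_ ?_ <;> simp
    · intro h
      have := congrArg Prod.fst h
      simp at this
    · rw [if_pos (by omega), if_pos (by omega)]
    · rw [if_neg (by omega), if_neg (by omega)]
      refine Prod.ext ?_ ?_ <;> simp

/-- the network of all the random tiles of an environment -/
noncomputable def netS (X : Env) (x y : TI X × Dir) : Net (TI X) where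
  π := wπ (X := X) (lb := lbS) (p := pS) (cr := crS) tilesS
  t := wτ (X := X) (lb := lbS) (p := pS) (cr := crS) tilesS
  x0 := x
  y0 := y

variable (x y : TI X × Dir)

lemma netS_inv (z : TI X × Dir) : (netS X x y).π ((netS X x y).π z) = z := wπ_wπ tilesS z

lemma netS_neg (z : TI X × Dir) : (netS X x y).t ((netS X x y).π z) = -(netS X x y).t z :=
  wτ_wπ tilesS z

/-- a trivial wire -/
lemma netS_adj {z z' : TI X × Dir} (h : crS z = crS z') (h1 : inc pS z = !inc pS z') :
    (netS X x y).π z = z' ∧ (netS X x y).t z = 0 := by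
  have key : ∀ {z z' : TI X × Dir}, crS z = crS z' → inc pS z = false → inc pS z' = true →
      (netS X x y).π z = z' ∧ (netS X x y).t z = 0 := by
    intro z z' h h1 h2
    obtain ⟨e1, e2⟩ := wired_pi tilesS (x := z) (x' := z') (n := 0) h1 h2
      (fun i hi => absurd hi (Nat.not_lt_zero i)) h
    constructor
    · change wπ tilesS z = z'
      unfold wπ
      rw [if_pos h1]; exact e2
    · change wτ tilesS z = 0
      unfold wτ
      rw [if_pos h1]
      unfold wt
      rw [e1]; rfl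
  cases h2 : inc pS z'
  · have h3 : inc pS z = true := by rw [h1, h2]; rfl
    obtain ⟨e1, e2⟩ := key h.symm h2 h3
    have e3 : (netS X x y).π z = z' := by rw [← e1, netS_inv]
    refine ⟨e3, ?_⟩
    have := netS_neg x y z'
    rw [e1, e2] at this
    simpa using this
  · have h3 : inc pS z = false := by rw [h1, h2]; rfl
    exact key h h3 h2

lemma pr0_shift {e e' : ℤ × ℤ} (h : (e'.1 - e.1) % 2 = 1) : pr0 e' = !pr0 e := by
  unfold pr0
  by_cases h1 : e.1 % 2 = 1
  · rw [decide_eq_true h1, decide_eq_false (by omega)]; rfl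
  · rw [decide_eq_false h1, decide_eq_true (by omega)]; rfl

/-- neighbours along the row direction -/
lemma adjE {e e' : ℤ × ℤ} (he : e ∈ X.E) (he' : e' ∈ X.E) (h : e' = (e.1 + 1, e.2 + 1)) :
    (netS X x y).π (⟨e, he⟩, .E) = (⟨e', he'⟩, .W) ∧ (netS X x y).t (⟨e, he⟩, .E) = 0 ∧
      (netS X x y).t (⟨e', he'⟩, .W) = 0 := by
  have hp : pr0 e' = !pr0 e := pr0_shift (by rw [h]; simp only; omega)
  have h1 : inc pS ((⟨e, he⟩ : TI X), Dir.E) = !inc pS ((⟨e', he'⟩ : TI X), Dir.W) := by
    unfold inc pS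
    simp only [Dir.v, hp]
    cases pr0 e <;> rfl
  have h2 : crS ((⟨e, he⟩ : TI X), Dir.E) = crS ((⟨e', he'⟩ : TI X), Dir.W) := by
    unfold crS crn
    simp only [h]
  obtain ⟨a1, a2⟩ := netS_adj x y h2 h1
  obtain ⟨b1, b2⟩ := netS_adj x y h2.symm (by rw [h1, Bool.not_not])
  exact ⟨a1, a2, b2⟩

/-- neighbours along the other direction -/
lemma adjN {e e' : ℤ × ℤ} (he : e ∈ X.E) (he' : e' ∈ X.E) (h : e' = (e.1 - 1, e.2 + 1)) :
    (netS X x y).π (⟨e, he⟩, .N) = (⟨e', he'⟩, .S) ∧ (netS X x y).t (⟨e, he⟩, .N) = 0 ∧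
      (netS X x y).t (⟨e', he'⟩, .S) = 0 := by
  have hp : pr0 e' = !pr0 e := pr0_shift (by rw [h]; simp only; omega)
  have h1 : inc pS ((⟨e, he⟩ : TI X), Dir.N) = !inc pS ((⟨e', he'⟩ : TI X), Dir.S) := by
    unfold inc pS
    simp only [Dir.v, hp]
    cases pr0 e <;> rfl
  have h2 : crS ((⟨e, he⟩ : TI X), Dir.N) = crS ((⟨e', he'⟩ : TI X), Dir.S) := by
    subst h
    unfold crS crn
    simp only
    refine Prod.ext ?_ rfl
    simp
  obtain ⟨a1, a2⟩ := netS_adj x y h2 h1
  obtain ⟨b1, b2⟩ := netS_adj x y h2.symm (by rw [h1, Bool.not_not])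
  exact ⟨a1, a2, b2⟩

end

end Pool.Agent.H69.M6b
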