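import Mathlib
import Pool.Agent.H69.M6b.EnvNet

set_option autoImplicit false
set_option linter.unusedSectionVars false
open Finset

/-! # A box of natural tiles around a piece of the row, as a `World` -/

namespace Pool.Agent.H69.M6b

open Pool.Agent.H75.Perc Pool.Agent.H75.TwoArm Pool.Agent.Q1 Pool.Agent.H81.G1

/-- height of the row `j` of the box -/
def hgt (y0 : ℤ) (h : ℕ) (j : ℤ) : ℤ := if j < h then y0 - h + j else y0 - h + j + 1

/-- label of the tile `(i, j)` of the box -/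
def tl (Xc y0 : ℤ) (h : ℕ) (i j : ℤ) : ℤ × ℤ := lbt (Xc + i) (hgt y0 h j)

/-- a box of random natural tiles -/
structure BoxIn (X : Env) (N : ℕ) (xr y0 : ℤ) (c0 w h : ℕ) : Prop where
  row : ∀ c : Fin N, lbt (xr + (c : ℕ)) y0 ∈ X.E
  w0 : 0 < w
  h0 : 0 < h
  c1 : 0 < c0
  c2 : c0 + w < N
  box : ∀ i j : ℤ, -1 ≤ i → i ≤ w → -1 ≤ j → j ≤ 2 * h → tl (xr + c0) y0 h i j ∈ X.E

section
variable {X : Env} {N : ℕ} {xr y0 : ℤ} {c0 w h : ℕ}

/-- the tiles of the row -/
def τS (hr : ∀ c : Fin N, lbt (xr + (c : ℕ)) y0 ∈ X.E) (c : Fin N) : TI X :=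
  ⟨lbt (xr + (c : ℕ)) y0, hr c⟩

open Classical in
/-- the tiles of the box -/
noncomputable def TS (X : Env) (dflt : TI X) (Xc y0 : ℤ) (h : ℕ) (i j : ℕ) : TI X :=
  if hm : tl Xc y0 h i j ∈ X.E then ⟨tl Xc y0 h i j, hm⟩ else dflt

lemma TS_eq {dflt : TI X} {Xc : ℤ} {i j : ℕ} (hm : tl Xc y0 h i j ∈ X.E) :
    TS X dflt Xc y0 h i j = ⟨tl Xc y0 h i j, hm⟩ := by
  unfold TS; rw [dif_pos hm]

/-- the columns of the box -/
def clS (N c0 : ℕ) (hN : 0 < N) (i : ℕ) : Fin N := ⟨(c0 + i) % N, Nat.mod_lt _ hN⟩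

lemma hgt_lt {j : ℤ} (hj : j < h) : hgt y0 h j = y0 - h + j := by unfold hgt; rw [if_pos hj]

lemma hgt_ge {j : ℤ} (hj : ¬ j < h) : hgt y0 h j = y0 - h + j + 1 := by unfold hgt; rw [if_neg hj]

/-- **The box is a world.** -/
theorem world_env (B : BoxIn X N xr y0 c0 w h) (hN : 0 < N) (dflt : TI X) (x y : TI X × Dir) :
    World (netS X x y) (τS B.row) c0 w h (clS N c0 hN) (TS X dflt (xr + c0) y0 h) := by
  have h0 := B.h0
  have w0 := B.w0
  have c1 := B.c1
  have c2 := B.c2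
  have clv : ∀ i < w, ((clS N c0 hN i : Fin N) : ℕ) = c0 + i := by
    intro i hi
    unfold clS
    simp only
    exact Nat.mod_eq_of_lt (by omega)
  have mem : ∀ i < w, ∀ j < 2 * h, tl (xr + c0) y0 h i j ∈ X.E := fun i hi j hj =>
    B.box i j (by omega) (by omega) (by omega) (by omega)
  have TE : ∀ i (hi : i < w), ∀ j (hj : j < 2 * h), TS X dflt (xr + c0) y0 h i j =
      ⟨tl (xr + c0) y0 h i j, mem i hi j hj⟩ := fun i hi j hj => TS_eq (mem i hi j hj)
  -- neighbours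
  have east : ∀ i j : ℤ, tl (xr + c0) y0 h (i + 1) j =
      ((tl (xr + c0) y0 h i j).1 + 1, (tl (xr + c0) y0 h i j).2 + 1) := by
    intro i j
    unfold tl lbt
    refine Prod.ext ?_ ?_ <;> simp only <;> ring
  have north : ∀ i j : ℤ, j + 1 ≠ h → tl (xr + c0) y0 h i (j + 1) =
      ((tl (xr + c0) y0 h i j).1 - 1, (tl (xr + c0) y0 h i j).2 + 1) := by
    intro i j hj
    unfold tl lbt hgt
    refine Prod.ext ?_ ?_ <;> simp only <;> split_ifs <;> omega
  have rowN : ∀ i : ℤ, tl (xr + c0) y0 h i h =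
      ((lbt (xr + c0 + i) y0).1 - 1, (lbt (xr + c0 + i) y0).2 + 1) := by
    intro i
    unfold tl lbt hgt
    refine Prod.ext ?_ ?_ <;> simp only <;> split_ifs <;> omega
  have rowS : ∀ i : ℤ, lbt (xr + c0 + i) y0 =
      ((tl (xr + c0) y0 h i (h - 1)).1 - 1, (tl (xr + c0) y0 h i (h - 1)).2 + 1) := by
    intro i
    unfold tl lbt hgt
    refine Prod.ext ?_ ?_ <;> simp only <;> split_ifs <;> omega
  have tcl : ∀ i < w, lbt (xr + c0 + (i : ℕ)) y0 ∈ X.E ∧
      (τS B.row (clS N c0 hN i)).1 = lbt (xr + c0 + (i : ℕ)) y0 := by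
    intro i hi
    have e : lbt (xr + c0 + (i : ℕ)) y0 = lbt (xr + ((clS N c0 hN i : Fin N) : ℕ)) y0 := by
      rw [clv i hi]; push_cast; rw [add_assoc]
    exact ⟨by rw [e]; exact B.row _, e.symm⟩
  have tcl' : ∀ i (hi : i < w), τS B.row (clS N c0 hN i) =
      ⟨lbt (xr + c0 + (i : ℕ)) y0, (tcl i hi).1⟩ := fun i hi => Subtype.ext (tcl i hi).2
  -- wires of the tiles of the box
  have wE : ∀ i : ℕ, i < w → ∀ j : ℕ, ∀ hj : j < 2 * h, ∀ hi : i < w,
      (netS X x y).π (⟨tl (xr + c0) y0 h i j, mem i hi j hj⟩, .E) =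
        (⟨tl (xr + c0) y0 h (i + 1) j, B.box _ _ (by omega) (by omega) (by omega) (by omega)⟩, .W) ∧
      (netS X x y).t (⟨tl (xr + c0) y0 h i j, mem i hi j hj⟩, .E) = 0 := by
    intro i _ j hj hi
    obtain ⟨e1, e2, -⟩ := adjE x y (mem i hi j hj)
      (B.box (i + 1) j (by omega) (by omega) (by omega) (by omega)) (east i j)
    exact ⟨e1, e2⟩
  have wW : ∀ i : ℕ, ∀ j : ℕ, ∀ hj : j < 2 * h, ∀ hi : i < w,
      (netS X x y).π (⟨tl (xr + c0) y0 h i j, mem i hi j hj⟩, .W) =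
        (⟨tl (xr + c0) y0 h ((i : ℤ) - 1) j, B.box _ _ (by omega) (by omega) (by omega) (by omega)⟩, .E) ∧
      (netS X x y).t (⟨tl (xr + c0) y0 h i j, mem i hi j hj⟩, .W) = 0 := by
    intro i j hj hi
    have e := east ((i : ℤ) - 1) j
    rw [sub_add_cancel] at e
    obtain ⟨e1, -, e3⟩ := adjE x y
      (B.box ((i : ℤ) - 1) j (by omega) (by omega) (by omega) (by omega)) (mem i hi j hj) e
    exact ⟨by rw [← e1, netS_inv], e3⟩
  have wN : ∀ i : ℕ, ∀ j : ℕ, ∀ hj : j < 2 * h, ∀ hi : i < w, j + 1 ≠ h →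
      (netS X x y).π (⟨tl (xr + c0) y0 h i j, mem i hi j hj⟩, .N) =
        (⟨tl (xr + c0) y0 h i (j + 1), B.box _ _ (by omega) (by omega) (by omega) (by omega)⟩, .S) ∧
      (netS X x y).t (⟨tl (xr + c0) y0 h i j, mem i hi j hj⟩, .N) = 0 := by
    intro i j hj hi hjh
    obtain ⟨e1, e2, -⟩ := adjN x y (mem i hi j hj)
      (B.box i (j + 1) (by omega) (by omega) (by omega) (by omega)) (north i j (by omega))
    exact ⟨e1, e2⟩
  have wS : ∀ i : ℕ, ∀ j : ℕ, ∀ hj : j < 2 * h, ∀ hi : i < w, j ≠ h →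
      (netS X x y).π (⟨tl (xr + c0) y0 h i j, mem i hi j hj⟩, .S) =
        (⟨tl (xr + c0) y0 h i ((j : ℤ) - 1), B.box _ _ (by omega) (by omega) (by omega) (by omega)⟩, .N) ∧
      (netS X x y).t (⟨tl (xr + c0) y0 h i j, mem i hi j hj⟩, .S) = 0 := by
    intro i j hj hi hjh
    have e := north i ((j : ℤ) - 1) (by omega)
    rw [sub_add_cancel] at e
    obtain ⟨e1, -, e3⟩ := adjN x y
      (B.box i ((j : ℤ) - 1) (by omega) (by omega) (by omega) (by omega)) (mem i hi j hj) e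
    exact ⟨by rw [← e1, netS_inv], e3⟩
  have up : ∀ i : ℕ, ∀ hi : i < w,
      (netS X x y).π (⟨tl (xr + c0) y0 h i (h : ℕ), mem i hi h (by omega)⟩, .S) =
        (⟨lbt (xr + c0 + (i : ℕ)) y0, (tcl i hi).1⟩, .N) ∧
      (netS X x y).t (⟨tl (xr + c0) y0 h i (h : ℕ), mem i hi h (by omega)⟩, .S) = 0 ∧
      (netS X x y).t (⟨lbt (xr + c0 + (i : ℕ)) y0, (tcl i hi).1⟩, .N) = 0 := by
    intro i hi
    obtain ⟨e1, e2, e3⟩ := adjN x y (tcl i hi).1 (mem i hi h (by omega)) (rowN i)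
    exact ⟨by rw [← e1, netS_inv], e3, e2⟩
  have dn : ∀ i : ℕ, ∀ hi : i < w,
      (netS X x y).π (⟨tl (xr + c0) y0 h i (h - 1 : ℕ), mem i hi (h - 1) (by omega)⟩, .N) =
        (⟨lbt (xr + c0 + (i : ℕ)) y0, (tcl i hi).1⟩, .S) ∧
      (netS X x y).t (⟨tl (xr + c0) y0 h i (h - 1 : ℕ), mem i hi (h - 1) (by omega)⟩, .N) = 0 ∧
      (netS X x y).t (⟨lbt (xr + c0 + (i : ℕ)) y0, (tcl i hi).1⟩, .S) = 0 := by
    intro i hi
    have e := rowS i
    have ec : ((h - 1 : ℕ) : ℤ) = (h : ℤ) - 1 := by omega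
    rw [← ec] at e
    obtain ⟨e1, e2, e3⟩ := adjN x y (mem i hi (h - 1) (by omega)) (tcl i hi).1 e
    exact ⟨e1, e2, e3⟩
  have rowE : ∀ c c' : Fin N, (c' : ℕ) = c + 1 →
      (netS X x y).π (τS B.row c, .E) = (τS B.row c', .W) ∧ (netS X x y).t (τS B.row c, .E) = 0 ∧
        (netS X x y).t (τS B.row c', .W) = 0 := by
    intro c c' hcc
    refine adjE x y (B.row c) (B.row c') ?_
    unfold lbt
    rw [hcc]
    refine Prod.ext ?_ ?_ <;> simp only <;> push_cast <;> ring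
  refine ⟨netS_inv x y, w0, h0, c1, c2, clv, ?_, ?_, ?_, ?_, ?_, ?_, ?_, ?_, ?_, ?_, ?_⟩
  · intro c c' hcc
    have := congrArg (fun z : TI X => z.1) hcc
    have h1 := (lbt_inj this).1
    apply Fin.ext
    omega
  · intro i hi j hj i' hi' j' hj' e
    rw [TE i hi j hj, TE i' hi' j' hj'] at e
    have := congrArg (fun z : TI X => z.1) e
    obtain ⟨e1, e2⟩ := lbt_inj this
    unfold hgt at e2
    split_ifs at e2 <;> omega
  · intro i hi j hj c e
    rw [TE i hi j hj] at e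
    have := congrArg (fun z : TI X => z.1) e
    obtain ⟨-, e2⟩ := lbt_inj this
    unfold hgt at e2
    split_ifs at e2 <;> omega
  · intro i j hi hj
    rw [TE i (by omega) j hj, TE (i + 1) hi j hj, (wE i (by omega) j hj (by omega)).1]
    refine Prod.ext (Subtype.ext ?_) rfl
    simp only
    push_cast
    rfl
  · intro i j hi hj hjh
    rw [TE i hi j (by omega), TE i hi (j + 1) hj, (wN i j (by omega) hi hjh).1]
    refine Prod.ext (Subtype.ext ?_) rfl
    simp only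
    push_cast
    rfl
  · intro i hi
    rw [TE i hi h (by omega), tcl' i hi]
    exact (up i hi).1
  · intro i hi
    rw [TE i hi (h - 1) (by omega), tcl' i hi]
    exact (dn i hi).1
  · intro i hi j hj d
    rw [TE i hi j hj]
    cases d
    · exact (wW i j hj hi).2
    · by_cases hjh : j + 1 = h
      · have e : j = h - 1 := by omega
        subst e
        exact (dn i hi).2.1
      · exact (wN i j hj hi hjh).2
    · exact (wE i hi j hj hi).2
    · by_cases hjh : j = h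
      · subst hjh
        exact (up i hi).2.1
      · exact (wS i j hj hi hjh).2
  · intro i hi d
    cases d
    · exact (rowE ⟨c0 + i - 1, by omega⟩ (clS N c0 hN i) (by rw [clv i hi]; simp only; omega)).2.2
    · rw [tcl' i hi]; exact (up i hi).2.2
    · exact (rowE (clS N c0 hN i) ⟨c0 + i + 1, by omega⟩ (by rw [clv i hi])).2.1
    · rw [tcl' i hi]; exact (dn i hi).2.2
  · intro c c' hcc
    exact (rowE c c' hcc).1
  · intro k hk
    -- the outside neighbours
    have out : ∀ (i j : ℤ) (hm : tl (xr + c0) y0 h i j ∈ X.E) (d : Dir),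
        (netS X x y).π (se (TS X dflt (xr + c0) y0 h) w (2 * h) k) = (⟨tl (xr + c0) y0 h i j, hm⟩, d) →
        (i < 0 ∨ (w : ℤ) ≤ i ∨ j < 0 ∨ (2 * h : ℤ) ≤ j) →
        (∀ i < w, ∀ j < 2 * h, ((netS X x y).π (se (TS X dflt (xr + c0) y0 h) w (2 * h) k)).1 ≠
          TS X dflt (xr + c0) y0 h i j) ∧
        ∀ i < w, ((netS X x y).π (se (TS X dflt (xr + c0) y0 h) w (2 * h) k)).1 ≠
          τS B.row (clS N c0 hN i) := by
      intro i j hm d e ho
      rw [e]
      refine ⟨fun i' hi' j' hj' hh => ?_, fun i' hi' hh => ?_⟩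
      · rw [TE i' hi' j' hj'] at hh
        have := congrArg (fun z : TI X => z.1) hh
        obtain ⟨e1, e2⟩ := lbt_inj this
        unfold hgt at e2
        split_ifs at e2 <;> omega
      · rw [tcl' i' hi'] at hh
        have := congrArg (fun z : TI X => z.1) hh
        obtain ⟨e1, e2⟩ := lbt_inj this
        unfold hgt at e2
        split_ifs at e2 <;> omega
    by_cases h1 : k < 2 * h
    · refine out (((0 : ℕ) : ℤ) - 1) ((2 * h - 1 - k : ℕ) : ℤ) (B.box _ _ (by omega) (by omega) (by omega) (by omega))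
        .E ?_ (Or.inl (by omega))
      unfold se
      rw [if_pos h1, TE 0 w0 _ (by omega)]
      exact (wW 0 (2 * h - 1 - k) (by omega) w0).1
    by_cases h2 : k < 2 * h + w
    · refine out ((k - 2 * h : ℕ) : ℤ) (((0 : ℕ) : ℤ) - 1) (B.box _ _ (by omega) (by omega) (by omega) (by omega))
        .N ?_ (Or.inr (Or.inr (Or.inl (by omega))))
      unfold se
      rw [if_neg h1, if_pos h2, TE _ (by omega) 0 (by omega)]
      exact (wS (k - 2 * h) 0 (by omega) (by omega) (by omega)).1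
    by_cases h3 : k < 2 * h + w + 2 * h
    · refine out (((w - 1 : ℕ) : ℤ) + 1) ((k - (2 * h + w) : ℕ) : ℤ)
        (B.box _ _ (by omega) (by omega) (by omega) (by omega)) .W ?_ (Or.inr (Or.inl (by omega)))
      unfold se
      rw [if_neg h1, if_neg h2, if_pos h3, TE (w - 1) (by omega) _ (by omega)]
      exact (wE (w - 1) (by omega) (k - (2 * h + w)) (by omega) (by omega)).1
    · refine out ((2 * (2 * h + w) - 1 - k : ℕ) : ℤ) (((2 * h - 1 : ℕ) : ℤ) + 1)
        (B.box _ _ (by omega) (by omega) (by omega) (by omega)) .S ?_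
        (Or.inr (Or.inr (Or.inr (by omega))))
      unfold se
      rw [if_neg h1, if_neg h2, if_neg h3, TE _ (by omega) (2 * h - 1) (by omega)]
      exact (wN (2 * (2 * h + w) - 1 - k) (2 * h - 1) (by omega) (by omega) (by omega)).1

end

end Pool.Agent.H69.M6b
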