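import Mathlib
import Pool.Agent.H69.M6b.EnvWorld

set_option autoImplicit false
set_option linter.unusedSectionVars false
open Finset

/-! # The network of the row is induced by the network of the row and the box -/

namespace Pool.Agent.H69.M6b

open Pool.Agent.H75.Perc Pool.Agent.H75.TwoArm Pool.Agent.Q1 Pool.Agent.H81.G1

section
variable {κ : Type*} {N : ℕ}

/-- reversed paths off the row -/
lemma revY {Y : Net κ} (inv : ∀ z, Y.π (Y.π z) = z) (neg : ∀ z, Y.t (Y.π z) = -Y.t z)
    {s : κ → Bool} {τ : Fin N → κ} {n : ℕ} : ∀ {z v : κ × Dir} {t : ℤ},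
    Pn (Y.step s) (Y.dt s) (Off τ) n (Y.π z) v t →
    Pn (Y.step s) (Y.dt s) (Off τ) n (Y.π v) z (-t - Y.t z - Y.t v) := by
  induction n with
  | zero =>
    intro z v t hp
    have e1 : Y.π z = v := hp.1
    have e2 : t = 0 := by have := hp.2.2; simpa using this
    rw [e2, ← e1, inv, neg]
    have e3 : (-0 - Y.t z - -Y.t z : ℤ) = 0 := by ring
    rw [e3]
    exact Pn.zero _
  | succ n ih =>
    intro z v t hp
    set a := Y.π z with ha
    have hx : a ∈ Off τ := hp.2.1 0 (by omega)
    set z1 : κ × Dir := (a.1, Dir.mate (s a.1) a.2) with hz1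
    have hst : Y.step s a = Y.π z1 := rfl
    have p1 : Pn (Y.step s) (Y.dt s) (Off τ) n (Y.π z1) v (t - Y.dt s a) := by
      refine ⟨?_, ?_, ?_⟩
      · rw [← hst, ← hp.1, Function.iterate_succ_apply]
      · intro i hi
        have := hp.2.1 (i + 1) (by omega)
        rwa [Function.iterate_succ_apply, hst] at this
      · rw [hp.2.2, Finset.sum_range_succ']
        simp only [Function.iterate_succ_apply, Function.iterate_zero, id, hst]
        ring
    have p2 := ih p1
    have p3 : Pn (Y.step s) (Y.dt s) (Off τ) 1 z1 z (Y.dt s z1) := by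
      refine ⟨?_, ?_, by simp⟩
      · rw [Function.iterate_one]
        unfold Net.step
        rw [hz1]
        simp only [World.mate_mate]
        rw [Prod.mk.eta, ha, inv]
      · intro i hi
        have : i = 0 := by omega
        subst this
        exact fun c => hx c
    have p4 := p2.trans p3
    have e1 : Y.dt s z1 = -Dir.tn (s a.1) a.2 + Y.t a := by
      unfold Net.dt
      rw [hz1]
      simp only [World.mate_mate, World.tn_mate]
    have e2 : Y.dt s a = Dir.tn (s a.1) a.2 + Y.t z1 := rfl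
    have e3 : Y.t a = -Y.t z := by rw [ha, neg]
    convert p4 using 1
    rw [e1, e2, e3]
    ring

end

section
variable {X X2 : Env} {N : ℕ} {lb2 : Fin N → ℤ × ℤ} {p2 : Fin N → Bool} {cr2 : Fin N × Dir → ℤ × ℤ}
  {Nw : Net (Fin N)} {n0 : ℕ} {ω : Finset (ℤ × ℤ)} {τ : Fin N → TI X}

/-- the environment `X2` of the row is the environment `X` with the other labels in the state `ω` -/
structure Fz (X X2 : Env) (ω : Finset (ℤ × ℤ)) : Prop where
  sub : X2.E ⊆ X.E
  o1 : ∀ c, lab c ∉ X.E → X2.out c = X.out c ∧ X2.dout c = X.dout c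
  o2 : ∀ c, lab c ∈ X.E → lab c ∉ X2.E → X2.out c = nx ω c ∧ X2.dout c = del ω c

/-- the row and its network (the mark may be the root end) -/
structure RowNet (X X2 : Env) (τ : Fin N → TI X) (lb2 : Fin N → ℤ × ℤ) (p2 : Fin N → Bool)
    (cr2 : Fin N × Dir → ℤ × ℤ) (Nw : Net (Fin N)) (n0 : ℕ) : Prop where
  tiles : Tiles X2 lb2 p2 cr2
  inv : ∀ x, Nw.π (Nw.π x) = x
  neg : ∀ x, Nw.t (Nw.π x) = -Nw.t x
  ty : ∀ x, Pool.Agent.H81.G1.inc p2 (Nw.π x) = !Pool.Agent.H81.G1.inc p2 x
  x0in : Pool.Agent.H81.G1.inc p2 Nw.x0 = true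
  wire : ∀ x, Pool.Agent.H81.G1.inc p2 x = false → ∃ n, (∀ i < n, lab (X2.out^[i] (cr2 x)) ∉ X2.E) ∧
    cr2 (Nw.π x) = X2.out^[n] (cr2 x) ∧ Nw.t x = ∑ i ∈ range n, X2.dout (X2.out^[i] (cr2 x))
  root : (∀ i < n0, lab (X2.out^[i] X2.c0) ∉ X2.E) ∧ cr2 Nw.x0 = X2.out^[n0] X2.c0
  lb : ∀ c, lb2 c = (τ c).1
  p : ∀ c, p2 c = pS (τ c)
  cr : ∀ x : Fin N × Dir, cr2 x = crS (τ x.1, x.2)

lemma RowNet.inc (R : RowNet X X2 τ lb2 p2 cr2 Nw n0) (x : Fin N × Dir) :
    inc p2 x = inc pS (τ x.1, x.2) := by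
  unfold Pool.Agent.H81.G1.inc
  rw [R.p]

lemma RowNet.off (R : RowNet X X2 τ lb2 p2 cr2 Nw n0) {z : TI X × Dir}
    (hz : z.1.1 ∉ X2.E) : z ∈ Off τ := by
  intro c hc
  apply hz
  rw [hc, ← R.lb]
  exact R.tiles.mem c

/-- along a wire of the row -/
lemma rowfwd (hF : Fz X X2 ω) (R : RowNet X X2 τ lb2 p2 cr2 Nw n0) (x y : TI X × Dir) {n : ℕ} :
    ∀ {z : TI X × Dir} {v : Fin N × Dir}, inc pS z = false → inc p2 v = true →
    (∀ i < n, lab (X2.out^[i] (crS z)) ∉ X2.E) → X2.out^[n] (crS z) = cr2 v →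
    PR ((netS X x y).step (stt lbS pS ω)) ((netS X x y).dt (stt lbS pS ω)) (Off τ)
      ((netS X x y).π z) (τ v.1, v.2)
      (∑ i ∈ range n, X2.dout (X2.out^[i] (crS z)) - (netS X x y).t z) := by
  induction n using Nat.strong_induction_on with
  | _ n ih =>
    intro z v hz hv h1 h2
    set m := wl (tilesS (X := X)) z with hm
    have hvl : lab (cr2 v) ∈ X2.E := mem_cr R.tiles hv
    have same : ∀ i ≤ m, X2.out^[i] (crS z) = X.out^[i] (crS z) := by
      intro i
      induction i with
      | zero => intro _; rfl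
      | succ i ihi =>
        intro hi
        rw [Function.iterate_succ_apply', ihi (by omega), Function.iterate_succ_apply']
        exact (hF.o1 _ (wl_lt tilesS hz (i := i) (by omega))).1
    have hmn : m ≤ n := by
      by_contra hc
      apply wl_lt (tilesS (X := X)) hz (i := n) (by omega)
      rw [← same n (by omega), h2]
      exact hF.sub hvl
    have hπ : (netS X x y).π z = sg tilesS z := by
      change wπ tilesS z = _
      unfold wπ; rw [if_pos hz]
    have ht : (netS X x y).t z = ∑ i ∈ range m, X2.dout (X2.out^[i] (crS z)) := by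
      change wτ tilesS z = _
      unfold wτ; rw [if_pos hz]
      unfold wt
      refine sum_congr rfl fun i hi => ?_
      rw [mem_range] at hi
      rw [same i hi.le, (hF.o1 _ (wl_lt tilesS hz (i := i) hi)).2]
    have hsc : crS (sg tilesS z) = X.out^[m] (crS z) := sg_cr tilesS hz
    rcases Nat.lt_or_ge m n with hlt | hge
    · -- the wire leads to a tile of the box
      set z' := sg (tilesS (X := X)) z with hz'
      have hin : inc pS z' = true := sg_in tilesS hz
      have hc : crS z' = X2.out^[m] (crS z) := by rw [hsc, same m le_rfl]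
      have hl : lab (crS z') = z'.1.1 := lab_cr tilesS hin
      have hE2 : z'.1.1 ∉ X2.E := by
        rw [← hl, hc]; exact h1 m hlt
      set z'' := par (stt lbS pS ω) z' with hz''
      have hout : inc pS z'' = false := by rw [hz'', inc_par, hin]; rfl
      have hlE : lab (crS z') ∈ X.E := by rw [hl]; exact z'.1.2
      have hnx : X2.out (crS z') = crS z'' := by
        rw [(hF.o2 _ hlE (by rw [hl]; exact hE2)).1]
        have := f_cr (X := X) tilesS ω hin
        rw [Env.f_in hlE] at this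
        exact this
      have hdl : X2.dout (crS z') = z'.2.tn (stt lbS pS ω z'.1) := by
        rw [(hF.o2 _ hlE (by rw [hl]; exact hE2)).2]
        have := d_cr (X := X) tilesS ω hin
        rw [Env.d_in hlE] at this
        exact this
      have hit : ∀ i, X2.out^[i] (crS z'') = X2.out^[m + 1 + i] (crS z) := by
        intro i
        rw [Nat.add_comm (m + 1) i, Function.iterate_add_apply, Function.iterate_succ_apply', ← hc,
          hnx]
      have h3 := ih (n - (m + 1)) (by omega) (z := z'') (v := v) hout hv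
        (fun i hi => by rw [hit]; exact h1 _ (by omega))
        (by rw [hit, ← h2]; congr 1; omega)
      have hstep : (netS X x y).step (stt lbS pS ω) z' = (netS X x y).π z'' := rfl
      rw [hπ]
      have h4 := (PR.step (R := Off τ) (R.off hE2) hstep
        (rfl : (netS X x y).dt (stt lbS pS ω) z' = _)).trans h3
      convert h4 using 1
      have e1 : (netS X x y).dt (stt lbS pS ω) z' =
          z'.2.tn (stt lbS pS ω z'.1) + (netS X x y).t z'' := rfl
      rw [e1, ht, ← hdl, hc]
      have e2 : n = m + 1 + (n - (m + 1)) := by omega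
      nth_rewrite 1 [e2]
      rw [Finset.sum_range_add, Finset.sum_range_succ]
      simp only [hit]
      ring
    · have hmn' : m = n := by omega
      have hsg : sg (tilesS (X := X)) z = (τ v.1, v.2) := by
        apply cr_inj (tilesS (X := X)) (sg_in tilesS hz)
        · rw [← R.inc]; exact hv
        · rw [hsc, ← same m le_rfl, hmn', h2, R.cr]
      rw [hπ, hsg, ht, hmn', sub_self]
      exact PR.refl _

/-- **The network of the row is induced.** -/
theorem ind_env (hF : Fz X X2 ω) (R : RowNet X X2 τ lb2 p2 cr2 Nw n0) (x y : TI X × Dir) :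
    Ind (netS X x y) (stt lbS pS ω) τ Nw := by
  refine ⟨?_, R.inv, R.neg⟩
  have key : ∀ v : Fin N × Dir, inc p2 v = false →
      PR ((netS X x y).step (stt lbS pS ω)) ((netS X x y).dt (stt lbS pS ω)) (Off τ)
        ((netS X x y).π (τ v.1, v.2)) (τ (Nw.π v).1, (Nw.π v).2)
        (Nw.t v - (netS X x y).t (τ v.1, v.2)) := by
    intro v hv
    obtain ⟨n, w1, w2, w3⟩ := R.wire v hv
    have hin : inc p2 (Nw.π v) = true := by rw [R.ty, hv]; rfl
    have e0 : cr2 v = crS (τ v.1, v.2) := R.cr v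
    rw [e0] at w1 w2 w3
    have := rowfwd hF R x y (z := (τ v.1, v.2)) (v := Nw.π v) (by rw [← R.inc]; exact hv) hin w1
      w2.symm
    rw [← w3] at this
    exact this
  intro v
  cases hv : inc p2 v
  · exact key v hv
  · have hout : inc p2 (Nw.π v) = false := by rw [R.ty, hv]; rfl
    obtain ⟨n, hn⟩ := key _ hout
    rw [R.inv] at hn
    have h1 := revY (netS_inv x y) (netS_neg x y) (s := stt lbS pS ω) (τ := τ) (n := n)
      (z := (τ (Nw.π v).1, (Nw.π v).2)) (v := (τ v.1, v.2)) hn
    refine ⟨n, ?_⟩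
    have e : Nw.t v - (netS X x y).t (τ v.1, v.2) =
        -(Nw.t (Nw.π v) - (netS X x y).t (τ (Nw.π v).1, (Nw.π v).2)) -
          (netS X x y).t (τ (Nw.π v).1, (Nw.π v).2) - (netS X x y).t (τ v.1, v.2) := by
      rw [R.neg]
      ring
    rw [e]
    exact h1

/-- freezing fewer labels -/
lemma Fz.of_freeze (Z : Env) {E1 E2 ω0 ω : Finset (ℤ × ℤ)} (h : E2 ⊆ E1)
    (hag : ∀ e ∈ Z.E, e ∉ E1 → (e ∈ ω ↔ e ∈ ω0)) :
    Fz (Z.freeze E1 ω0) (Z.freeze E2 ω) ω := by
  refine ⟨?_, ?_, ?_⟩
  · intro e he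
    rw [Env.freeze_E, mem_inter] at he ⊢
    exact ⟨he.1, h he.2⟩
  · intro c hc
    rw [Env.freeze_E, mem_inter, not_and] at hc
    change (if lab c ∈ Z.E then nx ω c else Z.out c) = (if lab c ∈ Z.E then nx ω0 c else Z.out c) ∧
      (if lab c ∈ Z.E then del ω c else Z.dout c) = (if lab c ∈ Z.E then del ω0 c else Z.dout c)
    by_cases hz : lab c ∈ Z.E
    · rw [if_pos hz, if_pos hz, if_pos hz, if_pos hz]
      have h1 := hag _ hz (hc hz)
      unfold nx del
      by_cases h2 : lab c ∈ ω
      · rw [if_pos h2, if_pos (h1.1 h2), if_pos h2, if_pos (h1.1 h2)]; exact ⟨rfl, rfl⟩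
      · have h3 : lab c ∉ ω0 := fun hh => h2 (h1.2 hh)
        rw [if_neg h2, if_neg h3, if_neg h2, if_neg h3]; exact ⟨rfl, rfl⟩
    · rw [if_neg hz, if_neg hz, if_neg hz, if_neg hz]; exact ⟨rfl, rfl⟩
  · intro c hc _
    rw [Env.freeze_E, mem_inter] at hc
    change (if lab c ∈ Z.E then nx ω c else Z.out c) = _ ∧
      (if lab c ∈ Z.E then del ω c else Z.dout c) = _
    rw [if_pos hc.1, if_pos hc.1]
    exact ⟨rfl, rfl⟩

end

end Pool.Agent.H69.M6b
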