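import Mathlib
import Pool.Agent.H69.M6b.EnvInd

set_option autoImplicit false
set_option linter.unusedSectionVars false
open Finset

/-! # The root of an environment and the root of its row -/

namespace Pool.Agent.H69.M6b

open Pool.Agent.H75.Perc Pool.Agent.H75.TwoArm Pool.Agent.Q1 Pool.Agent.H81.G1

section
variable {X X2 : Env} {N : ℕ} {lb2 : Fin N → ℤ × ℤ} {p2 : Fin N → Bool} {cr2 : Fin N × Dir → ℤ × ℤ}
  {Nw : Net (Fin N)} {n0 m : ℕ} {ω : Finset (ℤ × ℤ)} {τ : Fin N → TI X} {ρ0 : TI X × Dir}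

/-- the first random corner of the strand of the root -/
structure RootP (X : Env) (ρ0 : TI X × Dir) (m : ℕ) : Prop where
  inc : inc pS ρ0 = true
  lt : ∀ i < m, lab (X.out^[i] X.c0) ∉ X.E
  cr : crS ρ0 = X.out^[m] X.c0

lemma RootP.exists (hm : Meets X) : ∃ ρ0 m, RootP X ρ0 m :=
  ⟨rx0 tilesS hm, rn0 X, rx0_in tilesS hm, fun _ hi => rn0_lt hm hi, rx0_cr tilesS hm⟩

/-- the corner of the root is not the corner of an outgoing end -/
lemma RootP.ne (hR : RootP X ρ0 m) {z : TI X × Dir} (hz : Pool.Agent.H81.G1.inc pS z = false) :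
    crS z ≠ crS ρ0 := by
  intro h
  have h0 : (∅ : Finset (ℤ × ℤ)) ⊆ X.E := empty_subset _
  have hy : Pool.Agent.H81.G1.inc pS (par (stt (lbS (X := X)) pS ∅) z) = true := by
    rw [inc_par, hz]; rfl
  have h1 := cr_out (X := X) (ω := ∅) tilesS hz
  rw [h] at h1
  have hin : lab (crS (par (stt (lbS (X := X)) pS ∅) z)) ∈ X.E := mem_cr tilesS hy
  rcases Nat.eq_zero_or_pos m with hm | hm
  · subst hm
    have h2 := hR.cr
    rw [Function.iterate_zero_apply] at h2
    rw [h2, Env.f_in hin] at h1
    apply X.root _ hin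
    rw [h1]
    unfold nx
    rw [if_neg (by simp)]
  · obtain ⟨m', rfl⟩ : ∃ m', m = m' + 1 := ⟨m - 1, by omega⟩
    obtain ⟨i1, -⟩ := wire_iter h0 X.c0_mem hR.lt
    have h2 := hR.cr
    rw [← i1 _ le_rfl, Function.iterate_succ_apply', i1 m' (by omega)] at h2
    rw [h2] at h1
    have h3 := Env.f_injective h0 h1
    apply hR.lt m' (by omega)
    rw [h3]
    exact hin

/-- neighbour of a label -/
def nb (e : ℤ × ℤ) : Dir → ℤ × ℤ
  | .W => (e.1 - 1, e.2 - 1)
  | .N => (e.1 - 1, e.2 + 1)
  | .E => (e.1 + 1, e.2 + 1)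
  | .S => (e.1 + 1, e.2 - 1)

lemma crn_nb (e : ℤ × ℤ) (d : Dir) : crn (nb e d) (opp d) = crn e d := by
  cases d <;> unfold nb crn opp <;> simp

lemma pr0_nb (e : ℤ × ℤ) (d : Dir) : pr0 (nb e d) = !pr0 e := by
  apply pr0_shift
  cases d <;> unfold nb <;> simp only <;> omega

/-- the root is not at a tile all of whose neighbours are random -/
lemma RootP.ne_tile (hR : RootP X ρ0 m) {e : ℤ × ℤ} (he : e ∈ X.E)
    (hn : ∀ d, nb e d ∈ X.E) : ρ0.1 ≠ ⟨e, he⟩ := by
  intro h
  have e1 : ρ0 = (⟨e, he⟩, ρ0.2) := Prod.ext h rfl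
  have e2 : crS (X := X) (⟨nb e ρ0.2, hn _⟩, opp ρ0.2) = crS ρ0 := by
    rw [e1]
    unfold crS
    exact crn_nb e ρ0.2
  refine hR.ne ?_ e2
  have h3 := hR.inc
  rw [e1] at h3
  unfold Pool.Agent.H81.G1.inc pS at h3 ⊢
  simp only at h3 ⊢
  rw [pr0_nb]
  cases hd : ρ0.2 <;> rw [hd] at h3 <;> simp only [opp, Dir.v] at h3 ⊢ <;> simpa using h3

/-- the strand of the root up to the row -/
lemma root_pr (hF : Fz X X2 ω) (hc : X2.c0 = X.c0) (R : RowNet X X2 τ lb2 p2 cr2 Nw n0)
    (hR : RootP X ρ0 m) (x y : TI X × Dir) :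
    PR ((netS X x y).step (stt lbS pS ω)) ((netS X x y).dt (stt lbS pS ω)) (Off τ) ρ0
      (τ Nw.x0.1, Nw.x0.2) (dsh X2 n0 - dsh X m) := by
  obtain ⟨r1, r2⟩ := R.root
  rw [hc] at r1 r2
  have hv : inc p2 Nw.x0 = true := R.x0in
  have hvl : lab (cr2 Nw.x0) ∈ X2.E := mem_cr R.tiles hv
  have same : ∀ i ≤ m, X2.out^[i] X.c0 = X.out^[i] X.c0 := by
    intro i
    induction i with
    | zero => intro _; rfl
    | succ i ihi =>
      intro hi
      rw [Function.iterate_succ_apply', ihi (by omega), Function.iterate_succ_apply']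
      exact (hF.o1 _ (hR.lt i (by omega))).1
  have hmn : m ≤ n0 := by
    by_contra hcon
    apply hR.lt n0 (by omega)
    rw [← same n0 (by omega), ← r2]
    exact hF.sub hvl
  have hdm : dsh X m = ∑ i ∈ range m, X2.dout (X2.out^[i] X.c0) := by
    unfold dsh
    refine sum_congr rfl fun i hi => ?_
    rw [mem_range] at hi
    rw [same i hi.le, (hF.o1 _ (hR.lt i hi)).2]
  have hc0 : crS ρ0 = X2.out^[m] X.c0 := by rw [hR.cr, same m le_rfl]
  have hl : lab (crS ρ0) = ρ0.1.1 := lab_cr tilesS hR.inc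
  rcases Nat.lt_or_ge m n0 with hlt | hge
  · have hE2 : ρ0.1.1 ∉ X2.E := by
      rw [← hl, hc0]; exact r1 m hlt
    set z'' := par (stt lbS pS ω) ρ0 with hz''
    have hout : inc pS z'' = false := by rw [hz'', inc_par, hR.inc]; rfl
    have hlE : lab (crS ρ0) ∈ X.E := by rw [hl]; exact ρ0.1.2
    have hnx : X2.out (crS ρ0) = crS z'' := by
      rw [(hF.o2 _ hlE (by rw [hl]; exact hE2)).1]
      have := f_cr (X := X) tilesS ω hR.inc
      rw [Env.f_in hlE] at this
      exact this
    have hdl : X2.dout (crS ρ0) = ρ0.2.tn (stt lbS pS ω ρ0.1) := by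
      rw [(hF.o2 _ hlE (by rw [hl]; exact hE2)).2]
      have := d_cr (X := X) tilesS ω hR.inc
      rw [Env.d_in hlE] at this
      exact this
    have hit : ∀ i, X2.out^[i] (crS z'') = X2.out^[m + 1 + i] X.c0 := by
      intro i
      rw [Nat.add_comm (m + 1) i, Function.iterate_add_apply, Function.iterate_succ_apply', ← hc0,
        hnx]
    have h3 := rowfwd hF R x y (n := n0 - (m + 1)) (z := z'') (v := Nw.x0) hout hv
      (fun i hi => by rw [hit]; exact r1 _ (by omega))
      (by rw [hit, r2]; congr 1; omega)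
    have hstep : (netS X x y).step (stt lbS pS ω) ρ0 = (netS X x y).π z'' := rfl
    have h4 := (PR.step (R := Off τ) (R.off hE2) hstep
      (rfl : (netS X x y).dt (stt lbS pS ω) ρ0 = _)).trans h3
    convert h4 using 1
    have e1 : (netS X x y).dt (stt lbS pS ω) ρ0 =
        ρ0.2.tn (stt lbS pS ω ρ0.1) + (netS X x y).t z'' := rfl
    rw [e1, ← hdl, hc0, hdm]
    unfold dsh
    rw [hc]
    have e2 : n0 = m + 1 + (n0 - (m + 1)) := by omega
    nth_rewrite 1 [e2]
    rw [Finset.sum_range_add, Finset.sum_range_succ]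
    simp only [hit]
    ring
  · have hmn' : m = n0 := by omega
    have hsg : ρ0 = (τ Nw.x0.1, Nw.x0.2) := by
      apply cr_inj (tilesS (X := X)) hR.inc
      · rw [← R.inc]; exact hv
      · rw [hc0, hmn', ← r2, R.cr]
    have e : dsh X2 n0 - dsh X m = 0 := by
      rw [hdm]; unfold dsh; rw [hc, hmn', sub_self]
    rw [e, ← hsg]
    exact PR.refl _

/-- the strand of the root never meets the row -/
lemma root_never (hF : Fz X X2 ω) (hc : X2.c0 = X.c0)
    (hoff : ∀ z : TI X × Dir, z.1.1 ∉ X2.E → z ∈ Off τ)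
    (hm : ∀ n, lab (X2.out^[n] X2.c0) ∉ X2.E) (hR : RootP X ρ0 m) (x y : TI X × Dir) (k : ℕ) :
    ((netS X x y).step (stt lbS pS ω))^[k] ρ0 ∈ Off τ := by
  rw [hc] at hm
  have same : ∀ i ≤ m, X2.out^[i] X.c0 = X.out^[i] X.c0 := by
    intro i
    induction i with
    | zero => intro _; rfl
    | succ i ihi =>
      intro hi
      rw [Function.iterate_succ_apply', ihi (by omega), Function.iterate_succ_apply']
      exact (hF.o1 _ (hR.lt i (by omega))).1
  -- incoming ends on the strand
  have key : ∀ k, inc pS (((netS X x y).step (stt lbS pS ω))^[k] ρ0) = true ∧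
      ∃ n, crS (((netS X x y).step (stt lbS pS ω))^[k] ρ0) = X2.out^[n] X.c0 := by
    intro k
    induction k with
    | zero => exact ⟨hR.inc, m, by rw [same m le_rfl]; exact hR.cr⟩
    | succ k ih =>
      obtain ⟨hin, n, hn⟩ := ih
      rw [Function.iterate_succ_apply']
      set z := ((netS X x y).step (stt lbS pS ω))^[k] ρ0 with hz
      have hl : lab (crS z) = z.1.1 := lab_cr tilesS hin
      have hlE : lab (crS z) ∈ X.E := by rw [hl]; exact z.1.2
      have hl2 : lab (crS z) ∉ X2.E := by rw [hn]; exact hm n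
      set z'' := par (stt lbS pS ω) z with hz''
      have hout : inc pS z'' = false := by rw [hz'', inc_par, hin]; rfl
      have hnx : X2.out (crS z) = crS z'' := by
        rw [(hF.o2 _ hlE hl2).1]
        have := f_cr (X := X) tilesS ω hin
        rw [Env.f_in hlE] at this
        exact this
      have hstep : (netS X x y).step (stt lbS pS ω) z = sg tilesS z'' := by
        change wπ tilesS z'' = _
        unfold wπ; rw [if_pos hout]
      rw [hstep]
      refine ⟨sg_in tilesS hout, n + 1 + wl tilesS z'', ?_⟩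
      have s2 : ∀ i ≤ wl (tilesS (X := X)) z'', X2.out^[i] (crS z'') = X.out^[i] (crS z'') := by
        intro i
        induction i with
        | zero => intro _; rfl
        | succ i ihi =>
          intro hi
          rw [Function.iterate_succ_apply', ihi (by omega), Function.iterate_succ_apply']
          exact (hF.o1 _ (wl_lt tilesS hout (i := i) (by omega))).1
      rw [sg_cr tilesS hout, ← s2 _ le_rfl, ← hnx, hn]
      rw [Nat.add_comm (n + 1) _, Function.iterate_add_apply, Function.iterate_succ_apply']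
  obtain ⟨hin, n, hn⟩ := key k
  apply hoff
  intro hh
  have h := lab_cr (tilesS (X := X)) hin
  rw [hn] at h
  exact hm n (by rw [h]; exact hh)

end

/-! ### The root and the box -/

section
variable {X : Env} {N : ℕ} {xr y0 : ℤ} {c0 w h m : ℕ} {ρ0 : TI X × Dir}

lemma root_nb (B : BoxIn X N xr y0 c0 w h) (dflt : TI X) (hR : RootP X ρ0 m) :
    ∀ i < w, ∀ j < 2 * h, ρ0.1 ≠ TS X dflt (xr + c0) y0 h i j := by
  have h0 := B.h0
  have w0 := B.w0
  have c1 := B.c1
  have c2 := B.c2
  intro i hi j hj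
  have hm : tl (xr + c0) y0 h i j ∈ X.E := B.box i j (by omega) (by omega) (by omega) (by omega)
  have hrow : lbt (xr + c0 + i) y0 ∈ X.E := by
    have := B.row ⟨c0 + i, by omega⟩
    simp only at this
    push_cast at this
    rwa [← add_assoc] at this
  rw [TS_eq hm]
  apply hR.ne_tile
  intro d
  cases d
  · have := B.box ((i : ℤ) - 1) j (by omega) (by omega) (by omega) (by omega)
    convert this using 1
    unfold nb tl lbt
    refine Prod.ext ?_ ?_ <;> simp only <;> ring
  · by_cases hjh : (j : ℤ) + 1 = h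
    · convert hrow using 1
      unfold nb tl lbt hgt
      rw [if_pos (by omega)]
      refine Prod.ext ?_ ?_ <;> simp only <;> omega
    · have := B.box i ((j : ℤ) + 1) (by omega) (by omega) (by omega) (by omega)
      convert this using 1
      unfold nb tl lbt hgt
      split_ifs <;> refine Prod.ext ?_ ?_ <;> simp only <;> omega
  · have := B.box ((i : ℤ) + 1) j (by omega) (by omega) (by omega) (by omega)
    convert this using 1
    unfold nb tl lbt
    refine Prod.ext ?_ ?_ <;> simp only <;> ring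
  · by_cases hjh : (j : ℤ) = h
    · convert hrow using 1
      unfold nb tl lbt hgt
      rw [if_neg (by omega)]
      refine Prod.ext ?_ ?_ <;> simp only <;> omega
    · have := B.box i ((j : ℤ) - 1) (by omega) (by omega) (by omega) (by omega)
      convert this using 1
      unfold nb tl lbt hgt
      split_ifs <;> refine Prod.ext ?_ ?_ <;> simp only <;> omega

lemma root_nc (B : BoxIn X N xr y0 c0 w h) (hN : 0 < N) (hR : RootP X ρ0 m) :
    ∀ i < w, ρ0.1 ≠ τS B.row (clS N c0 hN i) := by
  have h0 := B.h0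
  have w0 := B.w0
  have c1 := B.c1
  have c2 := B.c2
  intro i hi
  have clv : ((clS N c0 hN i : Fin N) : ℕ) = c0 + i := by
    unfold clS
    simp only
    exact Nat.mod_eq_of_lt (by omega)
  have hrow : ∀ k : ℕ, k < N → lbt (xr + k) y0 ∈ X.E := fun k hk => B.row ⟨k, hk⟩
  unfold τS
  apply hR.ne_tile
  intro d
  rw [clv]
  cases d
  · have := hrow (c0 + i - 1) (by omega)
    convert this using 1
    unfold nb lbt
    refine Prod.ext ?_ ?_ <;> simp only <;> push_cast [Nat.cast_sub (show 1 ≤ c0 + i by omega)] <;>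
      ring
  · have := B.box i h (by omega) (by omega) (by omega) (by omega)
    convert this using 1
    unfold nb tl lbt hgt
    rw [if_neg (by omega)]
    refine Prod.ext ?_ ?_ <;> simp only <;> push_cast <;> omega
  · have := hrow (c0 + i + 1) (by omega)
    convert this using 1
    unfold nb lbt
    refine Prod.ext ?_ ?_ <;> simp only <;> push_cast <;> ring
  · have := B.box i ((h : ℤ) - 1) (by omega) (by omega) (by omega) (by omega)
    convert this using 1
    unfold nb tl lbt hgt
    rw [if_pos (by omega)]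
    refine Prod.ext ?_ ?_ <;> simp only <;> push_cast <;> omega

end

end Pool.Agent.H69.M6b
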