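import Mathlib
import Pool.Agent.H69.M6b.EnvRoot
import Pool.Agent.Q1.M6b.FarEnv

set_option autoImplicit false
set_option linter.unusedSectionVars false
set_option linter.unusedVariables false
open Finset

/-! # The strands of a box and the exploration map of the glued configuration -/

namespace Pool.Agent.H69.M6b

open Pool.Agent.H75.Perc Pool.Agent.H75.TwoArm Pool.Agent.Q1 Pool.Agent.H81.G1

/-! ### Corners of a label -/

/-- the end `d` of the tile with the label `g` is incoming -/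
def ic (g : ℤ × ℤ) (d : Dir) : Bool := xor (pr0 g) d.v

/-- the state of the tile with the label `g` -/
def sg0 (ζ : Finset (ℤ × ℤ)) (g : ℤ × ℤ) : Bool := decide (g ∈ ζ) == pr0 g

lemma pr0_t {g : ℤ × ℤ} (h : g.1 % 2 = 1) : pr0 g = true := by unfold pr0; exact decide_eq_true h

lemma pr0_f {g : ℤ × ℤ} (h : ¬ g.1 % 2 = 1) : pr0 g = false := by unfold pr0; exact decide_eq_false h

lemma ic_mate (g : ℤ × ℤ) (b : Bool) (d : Dir) : ic g (Dir.mate b d) = !ic g d := by
  unfold ic
  cases pr0 g <;> cases b <;> cases d <;> rfl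

lemma ic_nb (g : ℤ × ℤ) (d : Dir) : ic (nb g d) (opp d) = !ic g d := by
  unfold ic
  rw [pr0_nb]
  cases pr0 g <;> cases d <;> rfl

section
variable {g : ℤ × ℤ} (hg : (g.1 + g.2) % 2 = 1) {d : Dir}
include hg

lemma lab_crn (h : ic g d = true) : lab (crn g d) = g := by
  obtain ⟨a, b⟩ := g
  simp only at hg
  by_cases ha : a % 2 = 1
  · unfold ic at h
    rw [pr0_t (g := (a, b)) ha] at h
    cases d <;> simp only [Dir.v] at h <;> first | (exact absurd h (by decide)) | skip
    · unfold crn lab; simp only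
      rw [if_pos (by omega), if_neg (by omega)]
    · unfold crn lab; simp only
      rw [if_neg (by omega), if_pos (by omega)]
      refine Prod.ext ?_ ?_ <;> simp
  · unfold ic at h
    rw [pr0_f (g := (a, b)) ha] at h
    cases d <;> simp only [Dir.v] at h <;> first | (exact absurd h (by decide)) | skip
    · unfold crn lab; simp only
      rw [if_pos (by omega), if_pos (by omega)]
      refine Prod.ext ?_ ?_ <;> simp
    · unfold crn lab; simp only
      rw [if_neg (by omega), if_neg (by omega)]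
      refine Prod.ext ?_ ?_ <;> simp

lemma lab_crn' (h : ic g d = false) : lab (crn g d) = nb g d := by
  have h1 : ic (nb g d) (opp d) = true := by rw [ic_nb, h]; rfl
  have h2 : ((nb g d).1 + (nb g d).2) % 2 = 1 := by
    cases d <;> unfold nb <;> simp only <;> omega
  rw [← crn_nb]
  exact lab_crn h2 h1

lemma nx_crn (h : ic g d = true) (ζ : Finset (ℤ × ℤ)) :
    nx ζ (crn g d) = crn g (Dir.mate (sg0 ζ g) d) ∧ del ζ (crn g d) = Dir.tn (sg0 ζ g) d := by
  have hl := lab_crn hg h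
  unfold nx del sg0
  rw [hl]
  obtain ⟨a, b⟩ := g
  simp only at hg
  by_cases ha : a % 2 = 1
  · unfold ic at h
    rw [pr0_t (g := (a, b)) ha] at h ⊢
    by_cases hz : (a, b) ∈ ζ
    · rw [if_pos hz, if_pos hz, decide_eq_true hz]
      cases d <;> simp only [Dir.v] at h <;> first | (exact absurd h (by decide)) | skip
      · refine ⟨?_, rfl⟩
        change nxO (a, b) = (a + 1, b)
        unfold nxO; simp only
        rw [if_pos (by omega), if_neg (by omega)]
      · refine ⟨?_, rfl⟩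
        change nxO (a + 1, b + 1) = (a, b + 1)
        unfold nxO; simp only
        rw [if_neg (by omega), if_pos (by omega)]
        refine Prod.ext ?_ ?_ <;> simp
    · rw [if_neg hz, if_neg hz, decide_eq_false hz]
      cases d <;> simp only [Dir.v] at h <;> first | (exact absurd h (by decide)) | skip
      · refine ⟨?_, rfl⟩
        change nxC (a, b) = (a, b + 1)
        unfold nxC; simp only
        rw [if_pos (by omega), if_neg (by omega)]
      · refine ⟨?_, rfl⟩
        change nxC (a + 1, b + 1) = (a + 1, b)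
        unfold nxC; simp only
        rw [if_neg (by omega), if_pos (by omega)]
        refine Prod.ext ?_ ?_ <;> simp
  · unfold ic at h
    rw [pr0_f (g := (a, b)) ha] at h ⊢
    by_cases hz : (a, b) ∈ ζ
    · rw [if_pos hz, if_pos hz, decide_eq_true hz]
      cases d <;> simp only [Dir.v] at h <;> first | (exact absurd h (by decide)) | skip
      · refine ⟨?_, rfl⟩
        change nxO (a, b + 1) = (a, b)
        unfold nxO; simp only
        rw [if_pos (by omega), if_pos (by omega)]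
        refine Prod.ext ?_ ?_ <;> simp
      · refine ⟨?_, rfl⟩
        change nxO (a + 1, b) = (a + 1, b + 1)
        unfold nxO; simp only
        rw [if_neg (by omega), if_neg (by omega)]
    · rw [if_neg hz, if_neg hz, decide_eq_false hz]
      cases d <;> simp only [Dir.v] at h <;> first | (exact absurd h (by decide)) | skip
      · refine ⟨?_, rfl⟩
        change nxC (a, b + 1) = (a + 1, b + 1)
        unfold nxC; simp only
        rw [if_pos (by omega), if_pos (by omega)]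
      · refine ⟨?_, rfl⟩
        change nxC (a + 1, b) = (a, b)
        unfold nxC; simp only
        rw [if_neg (by omega), if_neg (by omega)]
        refine Prod.ext ?_ ?_ <;> simp

lemma plab_crn (h : ic g d = true) : plab (crn g d) = nb g d := by
  -- the corner is the image of a corner of the neighbour
  have h1 : ic (nb g d) (opp d) = false := by rw [ic_nb, h]; rfl
  have h2 : ((nb g d).1 + (nb g d).2) % 2 = 1 := by
    cases d <;> unfold nb <;> simp only <;> omega
  have h3 : ic (nb g d) (Dir.mate (sg0 ∅ (nb g d)) (opp d)) = true := by rw [ic_mate, h1]; rfl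
  have h4 := (nx_crn h2 h3 ∅).1
  rw [World.mate_mate, crn_nb] at h4
  rw [← h4, plab_nx, lab_crn h2 h3]

lemma crn_inj {d' : Dir} (h : ic g d = true) (h' : ic g d' = true) (e : crn g d = crn g d') :
    d = d' := by
  have e1 := congrArg Prod.fst e
  have e2 := congrArg Prod.snd e
  cases d <;> cases d' <;> unfold crn at e1 e2 <;> simp only at e1 e2 <;>
    first | rfl | (exfalso; omega)

end

/-! ### The box -/

/-- label of the tile `(i, j)` of the box in the glued configuration -/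
def gl (Xc y0 : ℤ) (h : ℕ) (i j : ℕ) : ℤ × ℤ := lbt (Xc + i) (y0 - h + j)

lemma gl_odd (Xc y0 : ℤ) (h i j : ℕ) : ((gl Xc y0 h i j).1 + (gl Xc y0 h i j).2) % 2 = 1 :=
  lbt_odd _ _

/-- the labels of the box -/
def BL (Xc y0 : ℤ) (w h : ℕ) (e : ℤ × ℤ) : Prop := ∃ i < w, ∃ j < 2 * h, e = gl Xc y0 h i j

/-- the states of the tiles of the box are those of the configuration `ζ` -/
def Sg {κ : Type*} (T : ℕ → ℕ → κ) (w h : ℕ) (Xc y0 : ℤ) (s : κ → Bool) (ζ : Finset (ℤ × ℤ)) :
    Prop := ∀ i < w, ∀ j < 2 * h, s (T i j) = sg0 ζ (gl Xc y0 h i j)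

/-- the position `x` is incoming, at the corner `c` -/
def Cr {κ : Type*} (T : ℕ → ℕ → κ) (w h : ℕ) (Xc y0 : ℤ) (x : κ × Dir) (c : ℤ × ℤ) : Prop :=
  ∃ i < w, ∃ j < 2 * h, x.1 = T i j ∧ c = crn (gl Xc y0 h i j) x.2 ∧
    ic (gl Xc y0 h i j) x.2 = true

namespace World

variable {κ : Type*} {N : ℕ} {Y : Net κ} {τ : Fin N → κ} {c0 w h : ℕ} {cl : ℕ → Fin N}
  {T : ℕ → ℕ → κ} {Xc y0 : ℤ} {s : κ → Bool} {ζ : Finset (ℤ × ℤ)}

section
variable (V : World Y τ c0 w h cl T)
include V

/-- the neighbour of a tile of the box -/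
lemma nbr {i j : ℕ} (hi : i < w) (hj : j < 2 * h) (d : Dir) :
    (∃ k < 2 * (2 * h + w), (T i j, d) = se T w (2 * h) k ∧
      ¬ BL Xc y0 w h (nb (gl Xc y0 h i j) d)) ∨
    (∃ i' < w, ∃ j' < 2 * h, rv Y τ w cl (T i j, d) = (T i' j', opp d) ∧
      gl Xc y0 h i' j' = nb (gl Xc y0 h i j) d) := by
  have hh := V.h0
  have hw := V.w0
  cases d
  · by_cases h0 : i = 0
    · left
      refine ⟨2 * h - 1 - j, by omega, ?_, ?_⟩
      · unfold se
        rw [if_pos (by omega), h0]
        congr 2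
        omega
      · rintro ⟨i', hi', j', hj', e⟩
        have e1 : nb (gl Xc y0 h i j) .W = lbt (Xc + i - 1) (y0 - h + j) := by
          unfold nb gl lbt; refine Prod.ext ?_ ?_ <;> simp only <;> ring
        rw [e1] at e
        have := lbt_inj e
        omega
    · right
      refine ⟨i - 1, by omega, j, hj, ?_, ?_⟩
      · have := V.wW (i - 1) j (by omega) hj
        rw [Nat.sub_add_cancel (by omega)] at this
        unfold rv
        rw [this]
        exact pas_out (V.T_Qb (by omega) hj)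
      · unfold nb gl lbt
        refine Prod.ext ?_ ?_ <;> simp only <;> omega
  · by_cases h0 : j + 1 = 2 * h
    · left
      refine ⟨2 * (2 * h + w) - 1 - i, by omega, ?_, ?_⟩
      · unfold se
        rw [if_neg (by omega), if_neg (by omega), if_neg (by omega)]
        congr 2
        · omega
        · omega
      · rintro ⟨i', hi', j', hj', e⟩
        have e1 : nb (gl Xc y0 h i j) .N = lbt (Xc + i) (y0 - h + j + 1) := by
          unfold nb gl lbt; refine Prod.ext ?_ ?_ <;> simp only <;> ring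
        rw [e1] at e
        have := lbt_inj e
        omega
    · right
      refine ⟨i, hi, j + 1, by omega, ?_, ?_⟩
      · unfold rv
        by_cases hjh : j + 1 = h
        · have e : j = h - 1 := by omega
          subst e
          rw [V.dn i hi, pas_in ⟨i, hi, rfl⟩]
          simp only [opp]
          rw [V.up' i hi, Nat.sub_add_cancel hh]
        · rw [V.wN i j hi (by omega) hjh]
          exact pas_out (V.T_Qb hi (by omega))
      · unfold nb gl lbt
        refine Prod.ext ?_ ?_ <;> simp only <;> push_cast <;> ring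
  · by_cases h0 : i + 1 = w
    · left
      refine ⟨2 * h + w + j, by omega, ?_, ?_⟩
      · unfold se
        rw [if_neg (by omega), if_neg (by omega), if_pos (by omega)]
        congr 2
        · omega
        · omega
      · rintro ⟨i', hi', j', hj', e⟩
        have e1 : nb (gl Xc y0 h i j) .E = lbt (Xc + i + 1) (y0 - h + j) := by
          unfold nb gl lbt; refine Prod.ext ?_ ?_ <;> simp only <;> ring
        rw [e1] at e
        have := lbt_inj e
        omega
    · right
      refine ⟨i + 1, by omega, j, hj, ?_, ?_⟩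
      · unfold rv
        rw [V.wE i j (by omega) hj]
        exact pas_out (V.T_Qb (by omega) hj)
      · unfold nb gl lbt
        refine Prod.ext ?_ ?_ <;> simp only <;> push_cast <;> ring
  · by_cases h0 : j = 0
    · left
      refine ⟨2 * h + i, by omega, ?_, ?_⟩
      · unfold se
        rw [if_neg (by omega), if_pos (by omega), h0]
        congr 2
        omega
      · rintro ⟨i', hi', j', hj', e⟩
        have e1 : nb (gl Xc y0 h i j) .S = lbt (Xc + i) (y0 - h + j - 1) := by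
          unfold nb gl lbt; refine Prod.ext ?_ ?_ <;> simp only <;> ring
        rw [e1] at e
        have := lbt_inj e
        omega
    · right
      refine ⟨i, hi, j - 1, by omega, ?_, ?_⟩
      · unfold rv
        by_cases hjh : j = h
        · subst hjh
          rw [V.up i hi, pas_in ⟨i, hi, rfl⟩]
          simp only [opp]
          rw [V.dn' i hi]
        · have := V.wS i (j - 1) hi (by omega) (by omega)
          rw [Nat.sub_add_cancel (by omega)] at this
          rw [this]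
          exact pas_out (V.T_Qb hi (by omega))
      · unfold nb gl lbt
        refine Prod.ext ?_ ?_ <;> simp only <;> omega

omit V in
lemma Cr.mem {x : κ × Dir} {c : ℤ × ℤ} (hx : Cr T w h Xc y0 x c) : x ∈ Bx' T w 0 (2 * h) := by
  obtain ⟨i, hi, j, hj, e, -⟩ := hx
  exact ⟨i, hi, j, Nat.zero_le _, hj, e⟩

omit V in
lemma Cr.lab {x : κ × Dir} {c : ℤ × ℤ} (hx : Cr T w h Xc y0 x c) :
    ∃ i < w, ∃ j < 2 * h, x.1 = T i j ∧ Pool.Agent.H75.Perc.lab c = gl Xc y0 h i j := by
  obtain ⟨i, hi, j, hj, e, ec, ei⟩ := hx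
  exact ⟨i, hi, j, hj, e, by rw [ec, lab_crn (gl_odd _ _ _ _ _) ei]⟩

omit V in
lemma Cr.bl {x : κ × Dir} {c : ℤ × ℤ} (hx : Cr T w h Xc y0 x c) :
    BL Xc y0 w h (Pool.Agent.H75.Perc.lab c) := by
  obtain ⟨i, hi, j, hj, -, e⟩ := Cr.lab hx
  exact ⟨i, hi, j, hj, e⟩

omit V in
lemma gl_inj {i j i' j' : ℕ} (e : gl Xc y0 h i j = gl Xc y0 h i' j') : i = i' ∧ j = j' := by
  unfold gl at e
  have := lbt_inj e
  omega

omit V in
lemma Cr.inj {x x' : κ × Dir} {c : ℤ × ℤ} (hx : Cr T w h Xc y0 x c) (hx' : Cr T w h Xc y0 x' c) :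
    x = x' := by
  obtain ⟨i, hi, j, hj, e, ec, ei⟩ := hx
  obtain ⟨i', hi', j', hj', e', ec', ei'⟩ := hx'
  have h1 := lab_crn (gl_odd _ _ _ _ _) ei
  have h2 := lab_crn (gl_odd _ _ _ _ _) ei'
  rw [← ec] at h1
  rw [← ec', h1] at h2
  obtain ⟨rfl, rfl⟩ := gl_inj h2
  refine Prod.ext (e.trans e'.symm) ?_
  exact crn_inj (gl_odd _ _ _ _ _) ei ei' (ec.symm.trans ec')

/-- **One step.** -/
lemma Cr.step (hs : Sg T w h Xc y0 s ζ) {x : κ × Dir} {c : ℤ × ℤ} (hx : Cr T w h Xc y0 x c) :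
    Y.dt s x = del ζ c ∧ ((ps Y s (Qb τ w cl) x ∉ Bx' T w 0 (2 * h) ∧
      ¬ BL Xc y0 w h (Pool.Agent.H75.Perc.lab (nx ζ c))) ∨
      Cr T w h Xc y0 (ps Y s (Qb τ w cl) x) (nx ζ c)) := by
  obtain ⟨i, hi, j, hj, e, ec, ei⟩ := hx
  have ho := gl_odd Xc y0 h i j
  obtain ⟨n1, n2⟩ := nx_crn ho ei ζ
  rw [← ec, ← hs i hi j hj] at n1 n2
  set d' := Dir.mate (s (T i j)) x.2 with hd'
  have eps : ps Y s (Qb τ w cl) x = rv Y τ w cl (T i j, d') := by
    unfold ps Net.step rv
    rw [e]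
  have im : ic (gl Xc y0 h i j) d' = false := by rw [hd', ic_mate, ei]; rfl
  refine ⟨?_, ?_⟩
  · unfold Net.dt
    rw [e, V.tT i hi j hj, add_zero, n2]
  · rcases V.nbr (Xc := Xc) (y0 := y0) hi hj d' with ⟨k, hk, ek, hn⟩ | ⟨i', hi', j', hj', er, eg⟩
    · left
      refine ⟨?_, ?_⟩
      · rw [eps, ek]
        unfold rv
        rw [pas_out (V.out_Qb hk)]
        exact V.out_B hk
      · rw [n1, lab_crn' ho im]
        exact hn
    · right
      rw [eps, er]
      refine ⟨i', hi', j', hj', rfl, ?_, ?_⟩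
      · rw [n1, eg, crn_nb]
      · rw [eg, ic_nb, im]; rfl

/-- type of a position is preserved -/
lemma ty_step {x : κ × Dir} {P : Bool} (hx : ∃ i < w, ∃ j < 2 * h, x.1 = T i j ∧
    ic (gl Xc y0 h i j) x.2 = P) :
    (ps Y s (Qb τ w cl) x ∉ Bx' T w 0 (2 * h)) ∨ ∃ i < w, ∃ j < 2 * h,
      (ps Y s (Qb τ w cl) x).1 = T i j ∧ ic (gl Xc y0 h i j) (ps Y s (Qb τ w cl) x).2 = P := by
  obtain ⟨i, hi, j, hj, e, ei⟩ := hx
  set d' := Dir.mate (s (T i j)) x.2 with hd'
  have eps : ps Y s (Qb τ w cl) x = rv Y τ w cl (T i j, d') := by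
    unfold ps Net.step rv
    rw [e]
  rcases V.nbr (Xc := Xc) (y0 := y0) hi hj d' with ⟨k, hk, ek, hn⟩ | ⟨i', hi', j', hj', er, eg⟩
  · left
    rw [eps, ek]
    unfold rv
    rw [pas_out (V.out_Qb hk)]
    exact V.out_B hk
  · right
    rw [eps, er]
    refine ⟨i', hi', j', hj', rfl, ?_⟩
    rw [eg, ic_nb, hd', ic_mate, ei, Bool.not_not]

/-- along a strand of the box -/
lemma Cr.track (hs : Sg T w h Xc y0 s ζ) {x : κ × Dir} {c : ℤ × ℤ} (hx : Cr T w h Xc y0 x c)
    {n : ℕ} (hn : ∀ i ≤ n, (ps Y s (Qb τ w cl))^[i] x ∈ Bx' T w 0 (2 * h) ∨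
      BL Xc y0 w h (Pool.Agent.H75.Perc.lab ((nx ζ)^[i] c))) :
    ∀ i ≤ n, Cr T w h Xc y0 ((ps Y s (Qb τ w cl))^[i] x) ((nx ζ)^[i] c) := by
  intro i
  induction i with
  | zero => intro _; exact hx
  | succ i ih =>
    intro hi
    have h1 := ih (by omega)
    have h2 := hn (i + 1) hi
    rw [Function.iterate_succ_apply', Function.iterate_succ_apply'] at h2 ⊢
    rcases (Cr.step V hs h1).2 with ⟨h3, h4⟩ | h3
    · rcases h2 with h2 | h2
      · exact absurd h2 h3
      · exact absurd h2 h4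
    · exact h3

lemma Cr.sum (hs : Sg T w h Xc y0 s ζ) {x : κ × Dir} {c : ℤ × ℤ} {n : ℕ}
    (hn : ∀ i < n, Cr T w h Xc y0 ((ps Y s (Qb τ w cl))^[i] x) ((nx ζ)^[i] c)) :
    ∑ i ∈ range n, Y.dt s ((ps Y s (Qb τ w cl))^[i] x) =
      ∑ i ∈ range n, del ζ ((nx ζ)^[i] c) :=
  sum_congr rfl fun i hi => (Cr.step V hs (hn i (mem_range.1 hi))).1

end

/-! ### Ports -/

section
variable (V : World Y τ c0 w h cl T)
include V

/-- incoming port with its corner -/
def PI (T : ℕ → ℕ → κ) (w h : ℕ) (Xc y0 : ℤ) (k : ℕ) (c : ℤ × ℤ) : Prop :=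
  Cr T w h Xc y0 (se T w (2 * h) k) c ∧ ¬ BL Xc y0 w h (plab c)

lemma port_ex {k : ℕ} (hk : k < 2 * (2 * h + w)) : ∃ i < w, ∃ j < 2 * h, ∃ d,
    se T w (2 * h) k = (T i j, d) ∧ ¬ BL Xc y0 w h (nb (gl Xc y0 h i j) d) := by
  have hh := V.h0
  have hw := V.w0
  obtain ⟨i, hi, j, -, hj, e⟩ := V.se_AB hk
  refine ⟨i, hi, j, hj, (se T w (2 * h) k).2, Prod.ext e rfl, ?_⟩
  rcases V.nbr (Xc := Xc) (y0 := y0) hi hj (se T w (2 * h) k).2 with
    ⟨k', hk', ek, hn⟩ | ⟨i', hi', j', hj', er, eg⟩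
  · exact hn
  · exfalso
    have e1 : (T i j, (se T w (2 * h) k).2) = se T w (2 * h) k := Prod.ext e.symm rfl
    rw [e1] at er
    unfold rv at er
    rw [pas_out (V.out_Qb hk)] at er
    apply V.out_B hk
    rw [er]
    exact ⟨i', hi', j', Nat.zero_le _, hj', rfl⟩

/-- an incoming port or an outgoing port -/
lemma port_ty {k : ℕ} (hk : k < 2 * (2 * h + w)) : (∃ c, PI T w h Xc y0 k c) ∨
    ∃ i < w, ∃ j < 2 * h, (se T w (2 * h) k).1 = T i j ∧
      ic (gl Xc y0 h i j) (se T w (2 * h) k).2 = false := by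
  obtain ⟨i, hi, j, hj, d, e, hn⟩ := V.port_ex (Xc := Xc) (y0 := y0) hk
  cases hc : ic (gl Xc y0 h i j) d
  · right
    exact ⟨i, hi, j, hj, by rw [e], by rw [e]; exact hc⟩
  · left
    refine ⟨crn (gl Xc y0 h i j) d, ⟨i, hi, j, hj, by rw [e], by rw [e], by rw [e]; exact hc⟩, ?_⟩
    rw [plab_crn (gl_odd _ _ _ _ _) hc]
    exact hn

/-- one of the two ends of a strand is incoming -/
lemma port_or {Mu Md M : ℕ → ℕ} (hM : Mats Y τ w h cl T s Mu Md M) {k : ℕ}
    (hk : k < 2 * (2 * h + w)) : (∃ c, PI T w h Xc y0 k c) ∨ ∃ c, PI T w h Xc y0 (M k) c := by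
  have hl := hM.g.lt k hk
  rcases V.port_ty (Xc := Xc) (y0 := y0) hk with h1 | h1
  · exact Or.inl h1
  right
  rcases V.port_ty (Xc := Xc) (y0 := y0) hl with h2 | h2
  · exact h2
  exfalso
  obtain ⟨n, hn⟩ := V.full hM hk
  have hpos : 0 < n := hn.pos (V.se_AB hk) (V.out_B hl)
  obtain ⟨n, rfl⟩ : ∃ n', n = n' + 1 := ⟨n - 1, by omega⟩
  have key : ∀ m ≤ n, ∃ i < w, ∃ j < 2 * h, ((ps Y s (Qb τ w cl))^[m] (se T w (2 * h) k)).1 = T i j ∧
      ic (gl Xc y0 h i j) ((ps Y s (Qb τ w cl))^[m] (se T w (2 * h) k)).2 = false := by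
    intro m
    induction m with
    | zero => intro _; exact h1
    | succ m ih =>
      intro hm
      have h3 := V.ty_step (Xc := Xc) (y0 := y0) (s := s) (ih (by omega))
      rw [← Function.iterate_succ_apply' (ps Y s (Qb τ w cl))] at h3
      rcases h3 with h3 | h3
      · exact absurd (hn.2.1 (m + 1) (by omega)) h3
      · exact h3
  obtain ⟨i, hi, j, hj, e, ei⟩ := key n le_rfl
  have h4 := V.rv_step s (hn.2.1 n (by omega))
  rw [← Function.iterate_succ_apply' (ps Y s (Qb τ w cl)), hn.1, V.rv_out hl] at h4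
  obtain ⟨i', hi', j', hj', e', ei'⟩ := h2
  rw [h4] at e' ei'
  simp only at e' ei'
  rw [e] at e'
  obtain ⟨rfl, rfl⟩ := V.Tinj i hi j hj i' hi' j' hj' e'
  rw [ic_mate, ei] at ei'
  exact absurd ei' (by decide)

lemma PI.inj {k k' : ℕ} {c : ℤ × ℤ} (hk : k < 2 * (2 * h + w)) (hk' : k' < 2 * (2 * h + w))
    (h1 : PI T w h Xc y0 k c) (h2 : PI T w h Xc y0 k' c) : k = k' :=
  V.se_inj hk hk' (Cr.inj h1.1 h2.1)

/-- the reversed strand visits the same tiles -/
lemma Vi.rev {Mu Md M : ℕ → ℕ} {I : κ → Prop} (hM : Mats Y τ w h cl T s Mu Md M) {k : ℕ}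
    (hk : k < 2 * (2 * h + w)) (hv : Vi Y τ w h cl T I s k) : Vi Y τ w h cl T I s (M k) := by
  obtain ⟨n, h1, h2⟩ := hv
  obtain ⟨m, hm⟩ := V.full hM hk
  have hl := hM.g.lt k hk
  have hnm : n < m := by
    by_contra hc
    have h4 := h1 m (by omega)
    rw [hm.1] at h4
    exact V.out_B hl h4
  have p : Pn (ps Y s (Qb τ w cl)) (Y.dt s) (Bx' T w 0 (2 * h)) (n + 1) (se T w (2 * h) k)
      ((ps Y s (Qb τ w cl))^[n + 1] (se T w (2 * h) k)) _ := ⟨rfl, fun i hi => h1 i (by omega), rfl⟩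
  have p2 := V.rev (hm.rest' p (by omega))
  rw [V.rv_out hl, Function.iterate_succ_apply' (ps Y s (Qb τ w cl)), V.rv_step s (h1 n le_rfl)] at p2
  refine ⟨m - (n + 1), fun i hi => ?_, ?_⟩
  · rcases Nat.lt_or_ge i (m - (n + 1)) with h3 | h3
    · exact p2.2.1 i h3
    · have : i = m - (n + 1) := by omega
      rw [this, p2.1]
      obtain ⟨i', hi', j', h0, hj', e⟩ := h1 n le_rfl
      exact ⟨i', hi', j', h0, hj', e⟩
  · rw [p2.1]
    exact h2

/-- the two positions of the seam -/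
lemma psn_cr {j : ℕ} (hj : j < w) {x : κ × Dir} (hx : Cr T w h Xc y0 x (crn (gl Xc y0 h j h) .S)) :
    ∃ d, x = psn T h j d := by
  have hh := V.h0
  have e0 : gl Xc y0 h j (h - 1) = nb (gl Xc y0 h j h) .S := by
    unfold nb gl lbt
    refine Prod.ext ?_ ?_ <;> simp only <;> omega
  cases hc : ic (gl Xc y0 h j h) .S
  · refine ⟨false, Cr.inj hx ⟨j, hj, h - 1, by omega, rfl, ?_, ?_⟩⟩
    · rw [e0]
      exact (crn_nb (gl Xc y0 h j h) .S).symm
    · rw [e0]
      change ic (nb (gl Xc y0 h j h) .S) (opp .S) = true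
      rw [ic_nb, hc]; rfl
  · exact ⟨true, Cr.inj hx ⟨j, hj, h, by omega, rfl, rfl, hc⟩⟩

omit V in
/-- the corner of a position of the seam -/
lemma cr_psn (hh : 0 < h) {j : ℕ} {d : Bool} {c : ℤ × ℤ} (hx : Cr T w h Xc y0 (psn T h j d) c)
    (Tinj : ∀ i < w, ∀ j < 2 * h, ∀ i' < w, ∀ j' < 2 * h, T i j = T i' j' → i = i' ∧ j = j')
    (hj : j < w) : c = crn (gl Xc y0 h j h) .S := by
  have e0 : gl Xc y0 h j (h - 1) = nb (gl Xc y0 h j h) .S := by
    unfold nb gl lbt
    refine Prod.ext ?_ ?_ <;> simp only <;> omega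
  obtain ⟨i', hi', j', hj', e, ec, -⟩ := hx
  cases d
  · obtain ⟨rfl, rfl⟩ := Tinj j hj (h - 1) (by omega) i' hi' j' hj' e
    rw [ec, e0]
    exact crn_nb (gl Xc y0 h j h) .S
  · obtain ⟨rfl, rfl⟩ := Tinj j hj h (by omega) i' hi' j' hj' e
    rw [ec]
    rfl

end

end World

end Pool.Agent.H69.M6b
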