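import Mathlib
import Pool.Agent.H69.M6b.Win
import Pool.Agent.H30.Mid.Gl

set_option autoImplicit false
set_option linter.unusedSectionVars false
set_option linter.unusedVariables false
open Finset

/-! # The window theorem for the row of an environment -/

namespace Pool.Agent.H69.M6b

open Pool.Agent.H75.Perc Pool.Agent.H75.TwoArm Pool.Agent.Q1 Pool.Agent.H81.G1
open Pool.Agent.H30.Mid (RS rl rp rcr HasRow AR cA cB ug mem_ug rtiles frz_E mem_RS AR_none AR_net
  AR_triv AR_triv_zero)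
open Pool.Agent.Q1.M6b.Gl (gE tr mem_tr)
open Pool.Agent.Q1.M6b.Gd (FarIn)

/-- the random labels: the row, labels `EL` below and `EU` above the row -/
structure Lay3 (X : Env) (N : ℕ) (xr y0 : ℤ) (EL EU : Finset (ℤ × ℤ)) : Prop where
  row : HasRow X N xr y0
  eq : X.E \ RS N xr y0 = EL ∪ EU
  low : ∀ e ∈ EL, e.2 - e.1 < 2 * y0
  upp : ∀ e ∈ EU, 2 * y0 + 2 < e.2 - e.1

/-- a box of the glued environment -/
structure GBox (EL EU : Finset (ℤ × ℤ)) (N : ℕ) (xr y0 : ℤ) (c0 w h : ℕ) : Prop where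
  w0 : 0 < w
  h0 : 0 < h
  c1 : 0 < c0
  c2 : c0 + w < N
  box : ∀ p q : ℤ, -1 ≤ p → p ≤ w → -1 ≤ q → q ≤ 2 * h →
    lbt (xr + c0 + p) (y0 - h + q) ∈ gE EL EU (1, -1)

lemma lbt_diff (x y : ℤ) : (lbt x y).2 - (lbt x y).1 = 2 * y + 1 := by unfold lbt; simp only; ring

lemma lbt_sub (x y : ℤ) : lbt x y - (1, -1) = lbt x (y + 1) := by
  unfold lbt
  refine Prod.ext ?_ ?_ <;> simp <;> ring

section
variable {X : Env} {N : ℕ} {xr y0 : ℤ} {EL EU ζ ζ' In Out : Finset (ℤ × ℤ)} {c0 w h : ℕ}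

lemma Lay3.mem_lo (L : Lay3 X N xr y0 EL EU) {x y : ℤ} (hm : lbt x y ∈ gE EL EU (1, -1))
    (hy : y < y0) : lbt x y ∈ EL := by
  rcases mem_union.1 hm with h1 | h1
  · exact h1
  · exfalso
    rw [mem_tr, lbt_sub] at h1
    have := L.upp _ h1
    rw [lbt_diff] at this
    omega

lemma Lay3.mem_hi (L : Lay3 X N xr y0 EL EU) {x y : ℤ} (hm : lbt x y ∈ gE EL EU (1, -1))
    (hy : y0 ≤ y) : lbt x (y + 1) ∈ EU := by
  rcases mem_union.1 hm with h1 | h1
  · exfalso
    have := L.low _ h1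
    rw [lbt_diff] at this
    omega
  · rw [mem_tr, lbt_sub] at h1
    exact h1

lemma Lay3.subL (L : Lay3 X N xr y0 EL EU) {e : ℤ × ℤ} (he : e ∈ EL) : e ∈ X.E :=
  (mem_sdiff.1 (L.eq ▸ mem_union_left _ he : e ∈ X.E \ RS N xr y0)).1

lemma Lay3.subU (L : Lay3 X N xr y0 EL EU) {e : ℤ × ℤ} (he : e ∈ EU) : e ∈ X.E :=
  (mem_sdiff.1 (L.eq ▸ mem_union_right _ he : e ∈ X.E \ RS N xr y0)).1

lemma Lay3.box (L : Lay3 X N xr y0 EL EU) (G : GBox EL EU N xr y0 c0 w h) :
    BoxIn X N xr y0 c0 w h := by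
  refine ⟨fun c => L.row (mem_RS.2 ⟨c, rfl⟩), G.w0, G.h0, G.c1, G.c2, ?_⟩
  intro i j h1 h2 h3 h4
  have hm := G.box i j h1 h2 h3 h4
  unfold tl hgt
  split_ifs with hj
  · exact L.subL (L.mem_lo hm (by omega))
  · exact L.subU (L.mem_hi hm (by omega))

/-- the states of the box -/
lemma Lay3.sg (L : Lay3 X N xr y0 EL EU) (G : GBox EL EU N xr y0 c0 w h) (dflt : TI X)
    (ζ : Finset (ℤ × ℤ)) : Sg (TS X dflt (xr + c0) y0 h) w h (xr + c0) y0
      (stt lbS pS (ug EL EU (1, -1) ζ)) ζ := by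
  intro i hi j hj
  have hh := G.h0
  have hm := G.box i j (by omega) (by omega) (by omega) (by omega)
  have B := L.box G
  rw [TS_eq (B.box i j (by omega) (by omega) (by omega) (by omega))]
  change (decide (tl (xr + c0) y0 h i j ∈ ug EL EU (1, -1) ζ) == pr0 (tl (xr + c0) y0 h i j)) =
    (decide (gl (xr + c0) y0 h i j ∈ ζ) == pr0 (gl (xr + c0) y0 h i j))
  rcases Nat.lt_or_ge j h with hjh | hjh
  · have e : tl (xr + c0) y0 h i j = gl (xr + c0) y0 h i j := by
      unfold tl hgt gl; rw [if_pos (by omega)]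
    have hl : gl (xr + c0) y0 h i j ∈ EL := L.mem_lo hm (by omega)
    rw [e]
    congr 1
    apply decide_eq_decide.2
    rw [mem_ug]
    constructor
    · rintro (h1 | h1)
      · exact h1.1
      · exfalso
        have h2 := L.low _ hl
        have h3 := L.upp _ h1.1
        omega
    · intro h1; exact Or.inl ⟨h1, hl⟩
  · have e : tl (xr + c0) y0 h i j = lbt (xr + c0 + i) (y0 - h + j + 1) := by
      unfold tl hgt; rw [if_neg (by omega)]
    have hl : lbt (xr + c0 + i) (y0 - h + j + 1) ∈ EU := L.mem_hi hm (by omega)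
    have e2 : lbt (xr + c0 + i) (y0 - h + j + 1) + (1, -1) = gl (xr + c0) y0 h i j := by
      unfold gl
      rw [← lbt_sub, sub_add_cancel]
    have e3 : pr0 (gl (xr + c0) y0 h i j) = !pr0 (lbt (xr + c0 + i) (y0 - h + j + 1)) := by
      apply pr0_shift
      rw [← e2]
      simp only [Prod.fst_add]
      omega
    rw [e, e3]
    have key : (lbt (xr + c0 + i) (y0 - h + j + 1) ∈ ug EL EU (1, -1) ζ) ↔
        ¬ gl (xr + c0) y0 h i j ∈ ζ := by
      rw [mem_ug, e2]
      constructor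
      · rintro (h1 | h1)
        · exfalso
          have h2 := L.low _ h1.2
          have h3 := L.upp _ hl
          omega
        · exact h1.2
      · intro h1; exact Or.inr ⟨hl, h1⟩
    generalize pr0 (lbt (xr + c0 + i) (y0 - h + j + 1)) = b
    by_cases h1 : gl (xr + c0) y0 h i j ∈ ζ
    · rw [decide_eq_true h1, decide_eq_false (fun h2 => key.1 h2 h1)]
      cases b <;> rfl
    · rw [decide_eq_false h1, decide_eq_true (key.2 h1)]
      cases b <;> rfl

/-- agreement off the window -/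
lemma Lay3.ag (L : Lay3 X N xr y0 EL EU) (G : GBox EL EU N xr y0 c0 w h) (dflt : TI X)
    (hag : ∀ e, e ∉ In → (e ∈ ζ ↔ e ∈ ζ')) (hIn : ∀ e ∈ In, BL (xr + c0) y0 w h e) :
    World.Ag (τS (L.box G).row) (Isf (TS X dflt (xr + c0) y0 h) w h (xr + c0) y0 In)
      (stt lbS pS (ug EL EU (1, -1) ζ)) (stt lbS pS (ug EL EU (1, -1) ζ')) := by
  rintro ⟨e, he⟩ h1 h2
  have hrow : e ∉ RS N xr y0 := by
    intro h3
    obtain ⟨c, hc⟩ := mem_RS.1 h3
    exact h2 c (Subtype.ext hc.symm)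
  have hE : e ∈ EL ∪ EU := by rw [← L.eq]; exact mem_sdiff.2 ⟨he, hrow⟩
  unfold stt lbS
  simp only
  congr 1
  apply decide_eq_decide.2
  rw [mem_ug, mem_ug]
  rcases mem_union.1 hE with hl | hu
  · have hn : e ∉ EU := by
      intro h3
      have h4 := L.low _ hl
      have h5 := L.upp _ h3
      omega
    have hin : e ∉ In := by
      intro h3
      apply h1
      obtain ⟨i, hi, j, hj, e4⟩ := hIn e h3
      refine ⟨i, hi, j, hj, ?_, by rw [← e4]; exact h3⟩
      have h5 := L.low _ hl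
      rw [e4] at h5
      unfold gl at h5
      rw [lbt_diff] at h5
      have e5 : tl (xr + c0) y0 h i j = e := by
        rw [e4]
        unfold tl hgt gl; rw [if_pos (by omega)]
      rw [TS_eq (by rw [e5]; exact he)]
      exact Subtype.ext e5.symm
    have h3 := hag e hin
    constructor
    · rintro (h4 | h4)
      · exact Or.inl ⟨h3.1 h4.1, hl⟩
      · exact absurd h4.1 hn
    · rintro (h4 | h4)
      · exact Or.inl ⟨h3.2 h4.1, hl⟩
      · exact absurd h4.1 hn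
  · have hn : e ∉ EL := by
      intro h3
      have h4 := L.low _ h3
      have h5 := L.upp _ hu
      omega
    have hin : e + (1, -1) ∉ In := by
      intro h3
      apply h1
      obtain ⟨i, hi, j, hj, e4⟩ := hIn _ h3
      refine ⟨i, hi, j, hj, ?_, by rw [← e4]; exact h3⟩
      have h6 : e = lbt (xr + c0 + i) (y0 - h + j + 1) := by
        have h7 := lbt_sub (xr + c0 + i) (y0 - h + j)
        rw [← h7]
        have h8 : e + (1, -1) = lbt (xr + c0 + i) (y0 - h + j) := e4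
        rw [← h8, add_sub_cancel_right]
      have h5 := L.upp _ hu
      rw [h6, lbt_diff] at h5
      have e5 : tl (xr + c0) y0 h i j = e := by
        rw [h6]
        unfold tl hgt; rw [if_neg (by omega)]
      rw [TS_eq (by rw [e5]; exact he)]
      exact Subtype.ext e5.symm
    have h3 := hag _ hin
    constructor
    · rintro (h4 | h4)
      · exact absurd h4.2 hn
      · exact Or.inr ⟨hu, fun h5 => h4.2 (h3.2 h5)⟩
    · rintro (h4 | h4)
      · exact absurd h4.2 hn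
      · exact Or.inr ⟨hu, fun h5 => h4.2 (h3.1 h5)⟩

/-! ### The network of the row -/

section
variable {ω : Finset (ℤ × ℤ)} {y : Fin N × Dir}

lemma Lay3.fz (L : Lay3 X N xr y0 EL EU) (ω : Finset (ℤ × ℤ)) :
    Fz X (X.freeze (RS N xr y0) ω) ω := by
  refine ⟨?_, ?_, ?_⟩
  · rw [frz_E L.row]; exact L.row
  · intro c hc
    change (if lab c ∈ X.E then nx ω c else X.out c) = _ ∧
      (if lab c ∈ X.E then del ω c else X.dout c) = _
    rw [if_neg hc, if_neg hc]; exact ⟨rfl, rfl⟩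
  · intro c hc _
    change (if lab c ∈ X.E then nx ω c else X.out c) = _ ∧
      (if lab c ∈ X.E then del ω c else X.dout c) = _
    rw [if_pos hc, if_pos hc]; exact ⟨rfl, rfl⟩

lemma Lay3.net (L : Lay3 X N xr y0 EL EU) (hr : ∀ c : Fin N, lbt (xr + (c : ℕ)) y0 ∈ X.E)
    (hm : Meets (X.freeze (RS N xr y0) ω)) (y : Fin N × Dir) :
    RowNet X (X.freeze (RS N xr y0) ω) (τS hr) (rl xr y0) (rp xr y0) (rcr xr y0)
      (net (rtiles L.row ω) hm y) (rn0 (X.freeze (RS N xr y0) ω)) := by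
  set T := rtiles (N := N) L.row ω
  refine ⟨T, wπ_wπ T, wτ_wπ T, inc_wπ T, rx0_in T hm, ?_, ⟨fun i hi => rn0_lt hm hi, rx0_cr T hm⟩,
    fun c => rfl, fun c => rfl, fun x => rfl⟩
  intro x hx
  refine ⟨wl T x, fun i hi => wl_lt T hx hi, ?_, ?_⟩
  · show rcr xr y0 (wπ T x) = _
    unfold wπ
    rw [if_pos hx]
    exact sg_cr T hx
  · show wτ T x = _
    unfold wτ
    rw [if_pos hx]
    rfl

end

end

/-! ### State sums -/

lemma ZF_smul {ι : Type*} [Fintype ι] [DecidableEq ι] (X : Net ι) (C : ℂ) (φ : ℤ → ℂ) (a b : ι → ℂ) :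
    ZF X (fun k => C * φ k) a b = C * ZF X φ a b := by
  unfold ZF
  rw [mul_sum]
  refine sum_congr rfl fun s _ => ?_
  have e : ampF (X.step s) (X.dt s) X.x0 X.y0 (fun k => C * φ k) =
      C * ampF (X.step s) (X.dt s) X.x0 X.y0 φ := by
    unfold ampF
    rw [mul_sum]
    refine sum_congr rfl fun i _ => ?_
    split_ifs
    · rfl
    · rw [mul_zero]
  rw [e]; ring

/-- the mark is the root end -/
lemma ZF_triv {ι : Type*} [Fintype ι] [DecidableEq ι] (X : Net ι) (hinv : ∀ p, X.π (X.π p) = p)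
    (h0 : X.y0 = X.x0) (φ : ℤ → ℂ) {a b : ι → ℂ} {c : ι} (hc : a c + b c = 0) :
    ZF X φ a b = 0 := by
  have h1 : ∀ s : ι → Bool, ampF (X.step s) (X.dt s) X.x0 X.y0 φ = φ 0 := by
    intro s
    rw [h0]
    refine ampF_vis ⟨0, ?_, rfl, by simp [KK]⟩
    have hp : X.x0 ∈ Function.periodicPts (X.step s) :=
      (step_inj hinv s).mem_periodicPts X.x0
    exact Function.minimalPeriod_pos_of_mem_periodicPts hp
  unfold ZF
  simp only [h1]
  rw [← Finset.sum_mul]
  have h2 := Finset.prod_univ_sum (fun _ : ι => (univ : Finset Bool))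
    (fun i (u : Bool) => if u then b i else a i)
  rw [Fintype.piFinset_univ] at h2
  rw [← h2, Finset.prod_eq_zero (mem_univ c), zero_mul]
  rw [Fintype.sum_bool]
  simp only [if_true, Bool.false_eq_true, if_false]
  rw [add_comm]; exact hc

lemma over_zt : Over (zt ^ (4 : ℤ)) (zt ^ (-4 : ℤ)) := by
  have h0 := zt_ne
  have h12 := zt_twelve
  have h8 := zt_eight
  refine ⟨?_, ?_⟩
  · rw [← zpow_add₀ h0]; norm_num
  · have e1 : zt ^ (-4 : ℤ) = -zt ^ 8 := by
      have : zt ^ (-4 : ℤ) * zt ^ 12 = zt ^ 8 := by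
        rw [← zpow_natCast zt 12, ← zpow_natCast zt 8, ← zpow_add₀ h0]; norm_num
      rw [h12] at this
      linear_combination -this
    have e2 : zt ^ (4 : ℤ) = zt ^ 4 := by norm_cast
    rw [e1, e2, h8]; ring

/-! ### Amplitudes of the row -/

section
variable {X : Env} {N : ℕ} {xr y0 : ℤ} {EL EU ζ ζ' In Out : Finset (ℤ × ℤ)} {c0 w h : ℕ}
  {ω : Finset (ℤ × ℤ)} {y : Fin N × Dir}

/-- weights with coupons at `S` -/
lemma cpn_eq (Nw : Net (Fin N)) (φ : ℤ → ℂ) (S : Finset (Fin N)) (A B : ℂ) (c : Fin N) :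
    cpn Nw φ (cA S A) (cB S B) c = ZF Nw φ (cA (insert c S) A) (cB (insert c S) B) := by
  have e1 : Function.update (cA S A) c 1 = cA (insert c S) A := by
    funext i
    unfold cA
    by_cases h : i = c
    · subst h; rw [Function.update_self, if_pos (mem_insert_self _ _)]
    · rw [Function.update_of_ne h]
      by_cases h2 : i ∈ S
      · rw [if_pos h2, if_pos (mem_insert_of_mem h2)]
      · rw [if_neg h2, if_neg (fun h3 => (mem_insert.1 h3).elim h h2)]
  have e2 : Function.update (cB S B) c (-1) = cB (insert c S) B := by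
    funext i
    unfold cB
    by_cases h : i = c
    · subst h; rw [Function.update_self, if_pos (mem_insert_self _ _)]
    · rw [Function.update_of_ne h]
      by_cases h2 : i ∈ S
      · rw [if_pos h2, if_pos (mem_insert_of_mem h2)]
      · rw [if_neg h2, if_neg (fun h3 => (mem_insert.1 h3).elim h h2)]
  unfold cpn
  rw [e1, e2]

/-- the phase function of the amplitudes of the row -/
noncomputable def ph0 (X : Env) (xr y0 : ℤ) (y : Fin N × Dir) (m : ℕ) (k : ℤ) : ℂ :=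
  zt ^ (6 * ty (rcr xr y0 y) - 2 * X.k0 - 2 * dsh X m) * zt ^ (-2 * k)

/-- the amplitude as a state sum of the network of the row -/
lemma AR_eq (L : Lay3 X N xr y0 EL EU) (hy : inc (rp xr y0) y = true)
    (hm : Meets (X.freeze (RS N xr y0) ω)) (m : ℕ) {S : Finset (Fin N)} (hS : S.Nonempty) (A B : ℂ) :
    AR X xr y0 y (cA S A) (cB S B) ω = ZF (net (rtiles L.row ω) hm y)
      (fun k => ph0 X xr y0 y m (k + (dsh (X.freeze (RS N xr y0) ω)
        (rn0 (X.freeze (RS N xr y0) ω)) - dsh X m))) (cA S A) (cB S B) := by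
  have h0 := zt_ne
  by_cases hne : y = rx0 (rtiles L.row ω) hm
  · rw [AR_triv_zero L.row hm hne hS]
    obtain ⟨i, hi⟩ := hS
    symm
    refine ZF_triv _ (wπ_wπ (rtiles L.row ω)) hne _ (c := i) ?_
    unfold cA cB
    rw [if_pos hi, if_pos hi]; ring
  · rw [AR_net L.row hy hm hne, ← ZF_eq, ← ZF_smul]
    congr 1
    funext k
    unfold ph0
    rw [← zpow_add₀ h0, ← zpow_add₀ h0]
    congr 1
    have e : (X.freeze (RS N xr y0) ω).k0 = X.k0 := rfl
    rw [e]
    ring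

/-- **The amplitudes of the row and the box.** -/
theorem aw_env (L : Lay3 X N xr y0 EL EU) (G : GBox EL EU N xr y0 c0 w h) (dflt : TI X) (hN : 0 < N)
    (hy : inc (rp xr y0) y = true) {ρ0 : TI X × Dir} {m : ℕ} (hR : RootP X ρ0 m) (x1 y1 : TI X × Dir)
    (ω : Finset (ℤ × ℤ)) (S : Finset (Fin N)) (A B : ℂ) :
    World.AW (netS X x1 y1) (stt lbS pS ω) (τS (L.box G).row) w h (clS N c0 hN)
      (TS X dflt (xr + c0) y0 h) ρ0 (ph0 X xr y0 y m) y (cA S A) (cB S B)
      (fun i => AR X xr y0 y (cA (insert (clS N c0 hN i) S) A) (cB (insert (clS N c0 hN i) S) B) ω) := by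
  have hF := L.fz ω
  have hc : (X.freeze (RS N xr y0) ω).c0 = X.c0 := rfl
  by_cases hm : Meets (X.freeze (RS N xr y0) ω)
  · left
    have R := L.net (L.box G).row hm y
    refine ⟨net (rtiles L.row ω) hm y, _, ind_env hF R x1 y1,
      ⟨root_nb (L.box G) dflt hR, root_nc (L.box G) hN hR, root_pr hF hc R hR x1 y1⟩, rfl, ?_⟩
    intro i hi
    rw [cpn_eq]
    exact AR_eq L hy hm m (insert_nonempty _ _) A B
  · right
    refine ⟨⟨root_nb (L.box G) dflt hR, root_nc (L.box G) hN hR, ?_⟩, ?_⟩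
    · intro k
      refine root_never hF hc ?_ ?_ hR x1 y1 k
      · intro z hz c hc
        apply hz
        rw [frz_E L.row, hc]
        exact mem_RS.2 ⟨c, rfl⟩
      · intro n hn
        exact hm ⟨n, hn⟩
    · intro i hi
      exact AR_none L.row hy hm

lemma sgc_eq (Xc y0 : ℤ) (h i : ℕ) : sgc Xc y0 h i = Pool.Agent.Q1.M6b.Gd.sm true y0 (Xc + i - y0 + 1) := by
  unfold sgc crn gl lbt Pool.Agent.Q1.M6b.Gd.sm
  simp only [if_true]
  refine Prod.ext ?_ ?_ <;> simp only <;> ring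

lemma meets_sub (L : Lay3 X N xr y0 EL EU) (hm : Meets (X.freeze (RS N xr y0) ω)) : Meets X := by
  by_contra hno
  have hno' : ∀ i, lab (X.out^[i] X.c0) ∉ X.E := fun i hi => hno ⟨i, hi⟩
  obtain ⟨n, hn⟩ := hm
  have hF := L.fz ω
  have key : ∀ i, (X.freeze (RS N xr y0) ω).out^[i] X.c0 = X.out^[i] X.c0 := by
    intro i
    induction i with
    | zero => rfl
    | succ i ih =>
      rw [Function.iterate_succ_apply', ih, Function.iterate_succ_apply']
      exact (hF.o1 _ (hno' i)).1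
  have h1 : (X.freeze (RS N xr y0) ω).c0 = X.c0 := rfl
  rw [h1, key n] at hn
  exact hno' n (hF.sub hn)

/-- **No visit in the window: the amplitude is zero.** -/
theorem env_zero (L : Lay3 X N xr y0 EL EU) (G : GBox EL EU N xr y0 c0 w h) (hN : 0 < N)
    (hy : inc (rp xr y0) y = true) (hyb : ∀ i < w, y.1 ≠ clS N c0 hN i) {S : Finset (Fin N)}
    (hS : ∀ i < w, clS N c0 hN i ∉ S) (hIO : In ⊆ Out) (hOut : ∀ e ∈ Out, BL (xr + c0) y0 w h e)
    {i : ℕ} (hi : i < w) (hu : gl (xr + c0) y0 h i h ∈ In) (hd : gl (xr + c0) y0 h i (h - 1) ∈ In)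
    (hno : ∀ e, FarIn In Out ζ e → (∀ e', FarIn In Out ζ e' → e' = e) ∧
      ∃ n, lab ((nx ζ)^[n] e) ∉ Out ∧ ∀ q < n, (nx ζ)^[q] e ≠ sgc (xr + c0) y0 h i) :
    AR X xr y0 y (cA (insert (clS N c0 hN i) S) (zt ^ (4 : ℤ)))
      (cB (insert (clS N c0 hN i) S) (zt ^ (-4 : ℤ))) (ug EL EU (1, -1) ζ) = 0 := by
  by_cases hm : Meets X
  · obtain ⟨ρ0, m, hR⟩ := RootP.exists hm
    have dflt : TI X := ρ0.1
    have V := world_env (L.box G) hN dflt ρ0 ρ0
    refine V.win_zero (L.sg G dflt ζ) hIO hOut hyb over_zt (ξ := zt ^ (2 : ℤ)) ?_ ?_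
      (aw_env L G dflt hN hy hR ρ0 ρ0 (ug EL EU (1, -1) ζ) S (zt ^ (4 : ℤ)) (zt ^ (-4 : ℤ))) hi hu hd hno
    · rw [← zpow_natCast, ← zpow_mul]; norm_num
    · intro i hi
      unfold cA cB
      rw [if_neg (hS i hi), if_neg (hS i hi)]
      exact ⟨rfl, rfl⟩
  · exact AR_none L.row hy (fun h => hm (meets_sub L h))

/-- **Two configurations which agree off the window.** -/
theorem env_two (L : Lay3 X N xr y0 EL EU) (G : GBox EL EU N xr y0 c0 w h) (hN : 0 < N)
    (hy : inc (rp xr y0) y = true) (hyb : ∀ i < w, y.1 ≠ clS N c0 hN i) {S : Finset (Fin N)}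
    (hS : ∀ i < w, clS N c0 hN i ∉ S) (hIO : In ⊆ Out) (hOut : ∀ e ∈ Out, BL (xr + c0) y0 w h e)
    (hag : ∀ e, e ∉ In → (e ∈ ζ ↔ e ∈ ζ')) {e : ℤ × ℤ}
    (uniq : ∀ e', FarIn In Out ζ e' → e' = e) {i i' : ℕ} (hi : i < w) (hi' : i' < w)
    (hu : gl (xr + c0) y0 h i h ∈ In) (hd : gl (xr + c0) y0 h i (h - 1) ∈ In)
    (hu' : gl (xr + c0) y0 h i' h ∈ In) (hd' : gl (xr + c0) y0 h i' (h - 1) ∈ In)
    {q q' : ℕ} (hq : ∀ j ≤ q, lab ((nx ζ)^[j] e) ∈ Out) (eq : (nx ζ)^[q] e = sgc (xr + c0) y0 h i)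
    (hq' : ∀ j ≤ q', lab ((nx ζ')^[j] e) ∈ Out) (eq' : (nx ζ')^[q'] e = sgc (xr + c0) y0 h i') :
    zt ^ (-2 * ∑ j ∈ range q, del ζ ((nx ζ)^[j] e)) *
        AR X xr y0 y (cA (insert (clS N c0 hN i) S) (zt ^ (4 : ℤ)))
          (cB (insert (clS N c0 hN i) S) (zt ^ (-4 : ℤ))) (ug EL EU (1, -1) ζ) =
      zt ^ (-2 * ∑ j ∈ range q', del ζ' ((nx ζ')^[j] e)) *
        AR X xr y0 y (cA (insert (clS N c0 hN i') S) (zt ^ (4 : ℤ)))
          (cB (insert (clS N c0 hN i') S) (zt ^ (-4 : ℤ))) (ug EL EU (1, -1) ζ') := by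
  by_cases hm : Meets X
  · obtain ⟨ρ0, m, hR⟩ := RootP.exists hm
    have dflt : TI X := ρ0.1
    have V := world_env (L.box G) hN dflt ρ0 ρ0
    have key := V.win_two (L.sg G dflt ζ) (L.sg G dflt ζ') (L.ag G dflt hag fun e he => hOut e (hIO he))
      hIO hOut hyb over_zt (ξ := zt ^ (2 : ℤ)) (by rw [← zpow_natCast, ← zpow_mul]; norm_num)
      (fun i hi => by
        unfold cA cB
        rw [if_neg (hS i hi), if_neg (hS i hi)]
        exact ⟨rfl, rfl⟩)
      (aw_env L G dflt hN hy hR ρ0 ρ0 (ug EL EU (1, -1) ζ) S (zt ^ (4 : ℤ)) (zt ^ (-4 : ℤ)))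
      (aw_env L G dflt hN hy hR ρ0 ρ0 (ug EL EU (1, -1) ζ') S (zt ^ (4 : ℤ)) (zt ^ (-4 : ℤ)))
      uniq hi hi' hu hd hu' hd' hq eq hq' eq'
    rw [← zpow_mul, ← zpow_mul] at key
    convert key using 3 <;> ring
  · rw [AR_none L.row hy (fun h => hm (meets_sub L h)), AR_none L.row hy (fun h => hm (meets_sub L h)),
      mul_zero, mul_zero]

end

end Pool.Agent.H69.M6b
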