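import Mathlib
import Pool.Agent.H69.M6b.EnvWin

set_option autoImplicit false
set_option linter.unusedSectionVars false
set_option linter.unusedVariables false
open Finset

/-! # The factor of a window -/

namespace Pool.Agent.H69.M6b

open Pool.Agent.H75.Perc Pool.Agent.H75.TwoArm Pool.Agent.Q1 Pool.Agent.H81.G1
open Pool.Agent.H30.Mid (RS rl rp rcr HasRow AR cA cB ug)
open Pool.Agent.Q1.M6b.Gl (gE tr mem_tr)
open Pool.Agent.Q1.M6b.Gd (FarIn)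

open Classical in
/-- exit time from `Out` -/
noncomputable def xt (Out ζ : Finset (ℤ × ℤ)) (a : ℤ × ℤ) : ℕ :=
  if h : ∃ n, lab ((nx ζ)^[n] a) ∉ Out then Nat.find h else 0

/-- sum of the phases of the visits of the corner `c` from `a` until the exit -/
noncomputable def pth (Out ζ : Finset (ℤ × ℤ)) (a c : ℤ × ℤ) : ℂ :=
  ∑ k ∈ range (xt Out ζ a), if (nx ζ)^[k] a = c then zt ^ (-2 * KK (nx ζ) (del ζ) a (ty a) k) else 0

open Classical in
/-- the factor of a window: the conjugate of the sum of the phases of the visits of the corner `cr x`,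
from the far entrance -/
noncomputable def hW (cr : ℤ → ℤ × ℤ) (In Out ω : Finset (ℤ × ℤ)) (x : ℤ) (η : Finset (ℤ × ℤ)) : ℂ :=
  if hf : ∃ a, FarIn In Out ω a then
    (starRingEnd ℂ) (pth Out (ω \ In ∪ η) (Classical.choose hf) (cr x)) else 0

section
variable {cr : ℤ → ℤ × ℤ} {In Out ω ζ ζ' η : Finset (ℤ × ℤ)} {x : ℤ} {a c : ℤ × ℤ}

lemma xt_spec (h : ∃ n, lab ((nx ζ)^[n] a) ∉ Out) : lab ((nx ζ)^[xt Out ζ a] a) ∉ Out ∧
    ∀ k < xt Out ζ a, lab ((nx ζ)^[k] a) ∈ Out := by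
  classical
  unfold xt
  rw [dif_pos h]
  exact ⟨Nat.find_spec h, fun k hk => not_not.1 (Nat.find_min h hk)⟩

lemma xt_far (hf : FarIn In Out ζ a) : lab ((nx ζ)^[xt Out ζ a] a) ∉ Out ∧
    ∀ k < xt Out ζ a, lab ((nx ζ)^[k] a) ∈ Out := by
  obtain ⟨n, -, hn⟩ := exit_ex hf
  exact xt_spec ⟨n, hn⟩

/-- before the exit no corner is visited twice -/
lemma no_rep (h1 : lab ((nx ζ)^[xt Out ζ a] a) ∉ Out) (h2 : ∀ k < xt Out ζ a, lab ((nx ζ)^[k] a) ∈ Out)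
    {p q : ℕ} (hp : p < xt Out ζ a) (hq : q < xt Out ζ a) (e : (nx ζ)^[p] a = (nx ζ)^[q] a) :
    p = q := by
  have key : ∀ {p q : ℕ}, p < q → q < xt Out ζ a → (nx ζ)^[p] a = (nx ζ)^[q] a → False := by
    intro p q hpq hq e
    obtain ⟨r, rfl⟩ : ∃ r, q = p + (r + 1) := ⟨q - p - 1, by omega⟩
    rw [Function.iterate_add_apply] at e
    have h3 : a = (nx ζ)^[r + 1] a := (nx_injective ζ).iterate p e
    have h4 : Function.IsPeriodicPt (nx ζ) (r + 1) a := h3.symm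
    have h5 := h4.iterate_mod_apply (xt Out ζ a)
    apply h1
    rw [← h5]
    apply h2
    have := Nat.mod_lt (xt Out ζ a) (show r + 1 > 0 by omega)
    omega
  rcases lt_trichotomy p q with h | h | h
  · exact (key h hq e).elim
  · exact h
  · exact (key h hp e.symm).elim

lemma pth_hit (h1 : lab ((nx ζ)^[xt Out ζ a] a) ∉ Out) (h2 : ∀ k < xt Out ζ a, lab ((nx ζ)^[k] a) ∈ Out)
    {q : ℕ} (hq : q < xt Out ζ a) (e : (nx ζ)^[q] a = c) :
    pth Out ζ a c = zt ^ (-2 * (ty a + ∑ j ∈ range q, del ζ ((nx ζ)^[j] a))) := by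
  unfold pth
  rw [Finset.sum_eq_single q]
  · rw [if_pos e]; rfl
  · intro p hp hne
    rw [if_neg]
    intro e'
    exact hne (no_rep h1 h2 (mem_range.1 hp) hq (e'.trans e.symm))
  · intro hh; exact absurd (mem_range.2 hq) hh

lemma pth_none (h : ∀ q < xt Out ζ a, (nx ζ)^[q] a ≠ c) : pth Out ζ a c = 0 := by
  unfold pth
  exact Finset.sum_eq_zero fun q hq => if_neg (h q (mem_range.1 hq))

lemma pth_ne {h : pth Out ζ a c ≠ 0} : ∃ q < xt Out ζ a, (nx ζ)^[q] a = c := by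
  by_contra hc
  push Not at hc
  exact h (pth_none hc)

/-- the factor depends only on the labels of `Out` -/
lemma pth_congr (hex : ∃ n, lab ((nx ζ)^[n] a) ∉ Out) (hag : ∀ e ∈ Out, (e ∈ ζ ↔ e ∈ ζ')) :
    xt Out ζ' a = xt Out ζ a ∧ (∀ q ≤ xt Out ζ a, (nx ζ')^[q] a = (nx ζ)^[q] a) ∧
      (∀ q ≤ xt Out ζ a, ∑ j ∈ range q, del ζ' ((nx ζ')^[j] a) = ∑ j ∈ range q, del ζ ((nx ζ)^[j] a)) ∧
      pth Out ζ' a c = pth Out ζ a c := by
  obtain ⟨h1, h2⟩ := xt_spec hex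
  have hp := path_congr (ζ := ζ) (ζ' := ζ') (c := a) (m := xt Out ζ a) (fun i hi => hag _ (h2 i hi))
  have hit := hp.1
  have hs : ∀ q ≤ xt Out ζ a, ∑ j ∈ range q, del ζ' ((nx ζ')^[j] a) =
      ∑ j ∈ range q, del ζ ((nx ζ)^[j] a) := fun q hq =>
    (path_congr (ζ := ζ) (ζ' := ζ') (c := a) (m := q) (fun i hi => hag _ (h2 i (by omega)))).2
  have hx : xt Out ζ' a = xt Out ζ a := by
    have hex' : ∃ n, lab ((nx ζ')^[n] a) ∉ Out := ⟨_, by rw [hit _ le_rfl]; exact h1⟩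
    obtain ⟨g1, g2⟩ := xt_spec hex'
    rcases lt_trichotomy (xt Out ζ' a) (xt Out ζ a) with h | h | h
    · exfalso
      rw [hit _ h.le] at g1
      exact g1 (h2 _ h)
    · exact h
    · exfalso
      apply h1
      rw [← hit _ le_rfl]
      exact g2 _ h
  refine ⟨hx, hit, hs, ?_⟩
  unfold pth
  rw [hx]
  refine sum_congr rfl fun q hq => ?_
  have hq := mem_range.1 hq
  rw [hit q hq.le]
  unfold KK
  rw [hs q hq.le]

lemma hW_none (h : ¬ ∃ a, FarIn In Out ω a) : hW cr In Out ω x η = 0 := by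
  unfold hW; rw [dif_neg h]

lemma hW_eq (hf : FarIn In Out ω a) (uniq : ∀ a', FarIn In Out ω a' → a' = a) :
    hW cr In Out ω x η = (starRingEnd ℂ) (pth Out (ω \ In ∪ η) a (cr x)) := by
  classical
  have hex : ∃ a, FarIn In Out ω a := ⟨a, hf⟩
  unfold hW
  rw [dif_pos hex, uniq _ (Classical.choose_spec hex)]

/-- the modified configuration has the same far entrances -/
lemma far_mod (hη : η ⊆ In) : FarIn In Out (ω \ In ∪ η) a ↔ FarIn In Out ω a := by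
  have e : (ω \ In ∪ η) ∩ (Out \ In) = ω ∩ (Out \ In) := by
    ext e
    rw [mem_inter, mem_inter, mem_union, mem_sdiff, mem_sdiff]
    constructor
    · rintro ⟨h1 | h1, h2⟩
      · exact ⟨h1.1, h2⟩
      · exact absurd (hη h1) h2.2
    · rintro ⟨h1, h2⟩
      exact ⟨Or.inl ⟨h1, h2.2⟩, h2⟩
  exact ⟨fun h => Pool.Agent.Q1.M6b.Gd.FarIn.congr e h,
    fun h => Pool.Agent.Q1.M6b.Gd.FarIn.congr e.symm h⟩

lemma zt_conj (k : ℤ) : (starRingEnd ℂ) (zt ^ k) = zt ^ (-k) := by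
  have h1 : (starRingEnd ℂ) zt = zt⁻¹ := by
    have := Complex.inv_def zt
    rw [this]
    have h2 : Complex.normSq zt = 1 := by
      rw [Complex.normSq_eq_norm_sq, zt_norm]; norm_num
    rw [h2]; simp
  rw [map_zpow₀, h1, inv_zpow, zpow_neg]

lemma hW_hit (hf : FarIn In Out ω a) (uniq : ∀ a', FarIn In Out ω a' → a' = a) (hη : η ⊆ In) {q : ℕ}
    (hq : q < xt Out (ω \ In ∪ η) a) (e : (nx (ω \ In ∪ η))^[q] a = cr x) :
    hW cr In Out ω x η =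
      zt ^ (2 * (ty a + ∑ j ∈ range q, del (ω \ In ∪ η) ((nx (ω \ In ∪ η))^[j] a))) := by
  obtain ⟨h1, h2⟩ := xt_far ((far_mod hη).2 hf)
  rw [hW_eq hf uniq, pth_hit h1 h2 hq e, zt_conj]
  congr 1
  ring

lemma hW_norm (hη : η ⊆ In) (uniq : ∀ a a', FarIn In Out ω a → FarIn In Out ω a' → a = a')
    (h : hW cr In Out ω x η ≠ 0) : ‖hW cr In Out ω x η‖ = 1 := by
  by_cases hex : ∃ a, FarIn In Out ω a
  · obtain ⟨a, hf⟩ := hex
    have hu : ∀ a', FarIn In Out ω a' → a' = a := fun a' h' => uniq a' a h' hf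
    have h1 : pth Out (ω \ In ∪ η) a (cr x) ≠ 0 := by
      intro h2
      rw [hW_eq hf hu, h2, map_zero] at h
      exact h rfl
    obtain ⟨q, hq, e⟩ := pth_ne (h := h1)
    rw [hW_hit hf hu hη hq e, norm_zpow, zt_norm, one_zpow]
  · exact absurd (hW_none hex) h

end

/-! ### One window -/

/-- geometry of one window: world box, columns `x ∈ I`, their columns in the row -/
structure WG (EL EU : Finset (ℤ × ℤ)) (N : ℕ) (xr y0 k : ℤ) (yc : Fin N) (cr : ℤ → ℤ × ℤ)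
    (cz : ℤ → ℤ) (I : Finset ℤ) (In Out : Finset (ℤ × ℤ)) (hN : 0 < N) (c0 w h : ℕ) : Prop where
  G : GBox EL EU N xr y0 c0 w h
  mark : ∀ i < w, yc ≠ clS N c0 hN i
  io : In ⊆ Out
  ob : ∀ e ∈ Out, BL (xr + c0) y0 w h e
  col : ∀ x ∈ I, ∃ i < w, ((clS N c0 hN i : Fin N) : ℤ) - k = cz x ∧ gl (xr + c0) y0 h i h ∈ In ∧
    gl (xr + c0) y0 h i (h - 1) ∈ In ∧ cr x = sgc (xr + c0) y0 h i

section
variable {X : Env} {N : ℕ} {xr y0 k : ℤ} {EL EU : Finset (ℤ × ℤ)} {y : Fin N × Dir}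
  {cr : ℤ → ℤ × ℤ} {cz : ℤ → ℤ} {I : Finset ℤ} {In Out ω ζ ζ' η η' : Finset (ℤ × ℤ)} {hN : 0 < N}
  {c0 w h : ℕ} {x x' : ℤ} {S : Finset (Fin N)} {c c' : Fin N}

/-- the configuration `ζ` is `η` in the window and `ω` between the boxes -/
def Loc (In Out ω η ζ : Finset (ℤ × ℤ)) : Prop := ∀ e ∈ Out, (e ∈ ω \ In ∪ η ↔ e ∈ ζ)

lemma Loc.far {a : ℤ × ℤ} (hη : η ⊆ In) (h : Loc In Out ω η ζ) :
    FarIn In Out ζ a ↔ FarIn In Out ω a := by
  have e : ζ ∩ (Out \ In) = (ω \ In ∪ η) ∩ (Out \ In) := by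
    ext e
    rw [mem_inter, mem_inter]
    constructor
    · rintro ⟨h1, h2⟩
      exact ⟨(h e (mem_sdiff.1 h2).1).2 h1, h2⟩
    · rintro ⟨h1, h2⟩
      exact ⟨(h e (mem_sdiff.1 h2).1).1 h1, h2⟩
  rw [← far_mod (ω := ω) (Out := Out) hη]
  exact ⟨fun h => Pool.Agent.Q1.M6b.Gd.FarIn.congr e h,
    fun h => Pool.Agent.Q1.M6b.Gd.FarIn.congr e.symm h⟩

/-- amplitude with the coupon of the window at the column `c` -/
noncomputable abbrev AS (X : Env) (xr y0 : ℤ) (y : Fin N × Dir) (EL EU : Finset (ℤ × ℤ))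
    (S : Finset (Fin N)) (ζ : Finset (ℤ × ℤ)) : ℂ :=
  AR X xr y0 y (cA S (zt ^ (4 : ℤ))) (cB S (zt ^ (-4 : ℤ))) (ug EL EU (1, -1) ζ)

/-- the column of `x` -/
lemma WG.at (W : WG EL EU N xr y0 k y.1 cr cz I In Out hN c0 w h) (hx : x ∈ I)
    (hc : ((c : Fin N) : ℤ) - k = cz x) : ∃ i < w, c = clS N c0 hN i ∧
      gl (xr + c0) y0 h i h ∈ In ∧ gl (xr + c0) y0 h i (h - 1) ∈ In ∧ cr x = sgc (xr + c0) y0 h i := by
  obtain ⟨i, hi, h1, h2, h3, h4⟩ := W.col x hx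
  refine ⟨i, hi, Fin.ext ?_, h2, h3, h4⟩
  have : ((c : ℕ) : ℤ) = ((clS N c0 hN i : Fin N) : ℤ) := by linarith
  exact_mod_cast this

/-- **(W1)** -/
theorem w_zero (L : Lay3 X N xr y0 EL EU) (W : WG EL EU N xr y0 k y.1 cr cz I In Out hN c0 w h)
    (hy : inc (rp xr y0) y = true) (hS : ∀ i < w, clS N c0 hN i ∉ S)
    (uniq : ∀ a a', FarIn In Out ω a → FarIn In Out ω a' → a = a') (hx : x ∈ I) (hη : η ⊆ In)
    (hζ : Loc In Out ω η ζ) (hc : ((c : Fin N) : ℤ) - k = cz x) (h0 : hW cr In Out ω x η = 0) :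
    AS X xr y0 y EL EU (insert c S) ζ = 0 := by
  obtain ⟨i, hi, rfl, hu, hd, hcr⟩ := W.at hx hc
  refine env_zero L W.G hN hy W.mark hS W.io W.ob hi hu hd ?_
  intro e he
  have he' := (hζ.far hη).1 he
  have hu' : ∀ a', FarIn In Out ω a' → a' = e := fun a' h' => uniq a' e h' he'
  refine ⟨fun e' h' => uniq e' e ((hζ.far hη).1 h') he', ?_⟩
  have hex := exit_ex ((far_mod (ω := ω) (Out := Out) hη).2 he')
  obtain ⟨n, -, hn⟩ := hex
  obtain ⟨h1, h2, -, -⟩ := pth_congr (ζ' := ζ) (c := cr x) ⟨n, hn⟩ hζ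
  obtain ⟨g1, g2⟩ := xt_far ((far_mod (ω := ω) (Out := Out) hη).2 he')
  refine ⟨xt Out (ω \ In ∪ η) e, by rw [h2 _ le_rfl]; exact g1, ?_⟩
  intro q hq hh
  rw [h2 q hq.le, ← hcr] at hh
  rw [hW_hit he' hu' hη hq hh] at h0
  exact zpow_ne_zero _ zt_ne h0

/-- **(W2)** -/
theorem w_two (L : Lay3 X N xr y0 EL EU) (W : WG EL EU N xr y0 k y.1 cr cz I In Out hN c0 w h)
    (hy : inc (rp xr y0) y = true) (hS : ∀ i < w, clS N c0 hN i ∉ S)
    (uniq : ∀ a a', FarIn In Out ω a → FarIn In Out ω a' → a = a') (hx : x ∈ I) (hx' : x' ∈ I)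
    (hη : η ⊆ In) (hη' : η' ⊆ In) (hζ : Loc In Out ω η ζ) (hζ' : Loc In Out ω η' ζ')
    (hag : ∀ e, e ∉ In → (e ∈ ζ ↔ e ∈ ζ')) (hc : ((c : Fin N) : ℤ) - k = cz x)
    (hc' : ((c' : Fin N) : ℤ) - k = cz x') :
    AS X xr y0 y EL EU (insert c S) ζ * hW cr In Out ω x' η' =
      AS X xr y0 y EL EU (insert c' S) ζ' * hW cr In Out ω x η := by
  by_cases z1 : hW cr In Out ω x η = 0
  · rw [w_zero L W hy hS uniq hx hη hζ hc z1, z1, zero_mul, mul_zero]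
  by_cases z2 : hW cr In Out ω x' η' = 0
  · rw [w_zero L W hy hS uniq hx' hη' hζ' hc' z2, z2, zero_mul, mul_zero]
  have hex : ∃ a, FarIn In Out ω a := by
    by_contra hc
    exact z1 (hW_none hc)
  obtain ⟨a, hf⟩ := hex
  have hu : ∀ a', FarIn In Out ω a' → a' = a := fun a' h' => uniq a' a h' hf
  have p1 : pth Out (ω \ In ∪ η) a (cr x) ≠ 0 := by
    intro h2
    rw [hW_eq hf hu, h2, map_zero] at z1
    exact z1 rfl
  have p2 : pth Out (ω \ In ∪ η') a (cr x') ≠ 0 := by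
    intro h2
    rw [hW_eq hf hu, h2, map_zero] at z2
    exact z2 rfl
  obtain ⟨q, hq, e⟩ := pth_ne (h := p1)
  obtain ⟨q', hq', e'⟩ := pth_ne (h := p2)
  rw [hW_hit hf hu hη hq e, hW_hit hf hu hη' hq' e']
  obtain ⟨i, hi, rfl, hu1, hd1, hcr1⟩ := W.at hx hc
  obtain ⟨i', hi', rfl, hu2, hd2, hcr2⟩ := W.at hx' hc'
  have g := xt_far ((far_mod (ω := ω) (Out := Out) hη).2 hf)
  have g' := xt_far ((far_mod (ω := ω) (Out := Out) hη').2 hf)
  obtain ⟨h1, h2, h3, -⟩ := pth_congr (ζ' := ζ) (c := cr x) ⟨_, g.1⟩ hζ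
  obtain ⟨h1', h2', h3', -⟩ := pth_congr (ζ' := ζ') (c := cr x') ⟨_, g'.1⟩ hζ'
  have key := env_two L W.G hN hy W.mark hS W.io W.ob hag (e := a)
    (fun e' h' => hu e' ((hζ.far hη).1 h')) hi hi' hu1 hd1 hu2 hd2
    (q := q) (q' := q')
    (fun j hj => by rw [h2 j (by omega)]; exact g.2 j (by omega))
    (by rw [h2 q hq.le, e, hcr1])
    (fun j hj => by rw [h2' j (by omega)]; exact g'.2 j (by omega))
    (by rw [h2' q' hq'.le, e', hcr2])
  rw [h3 q hq.le, h3' q' hq'.le] at key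
  set t := ∑ j ∈ range q, del (ω \ In ∪ η) ((nx (ω \ In ∪ η))^[j] a)
  set t' := ∑ j ∈ range q', del (ω \ In ∪ η') ((nx (ω \ In ∪ η'))^[j] a)
  have h0 := zt_ne
  have z3 : zt ^ (2 * (ty a + t')) = zt ^ (2 * (ty a + t + t')) * zt ^ (-2 * t) := by
    rw [← zpow_add₀ h0]; congr 1; ring
  have z4 : zt ^ (2 * (ty a + t)) = zt ^ (2 * (ty a + t + t')) * zt ^ (-2 * t') := by
    rw [← zpow_add₀ h0]; congr 1; ring
  rw [z3, z4]
  unfold AS
  linear_combination zt ^ (2 * (ty a + t + t')) * key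

end

end Pool.Agent.H69.M6b
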