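import Mathlib
import Pool.Agent.H69.M6b.F1a
import Pool.Agent.Q1.M6b.Amp

set_option autoImplicit false
set_option linter.unusedSectionVars false
set_option linter.unusedVariables false
open Finset

/-! # The factorization of the amplitudes of a row: `AmpData` -/

namespace Pool.Agent.H69.M6b

open Pool.Agent.H75.Perc Pool.Agent.H75.TwoArm Pool.Agent.Q1 Pool.Agent.H81.G1
open Pool.Agent.H30.Mid (RS rl rp rcr HasRow AR cA cB ug cs)
open Pool.Agent.Q1.M6b.Gl (gE tr mem_tr)
open Pool.Agent.Q1.M6b.Gd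
open Pool.Agent.Q1.M6b (dy mem_dy cells)
open Pool.Agent.H47.NC (Bq mem_Bq)

/-! ### A product lemma -/

lemma fact_prod {ι α : Type*} [Fintype ι] [DecidableEq ι] (D : ι → Set α) (f : (ι → α) → ℂ)
    (H : ι → α → ℂ)
    (h2 : ∀ p, (∀ i, p i ∈ D i) → ∀ i, ∀ q ∈ D i,
      f p * H i q = f (Function.update p i q) * H i (p i))
    {p p0 : ι → α} (hp : ∀ i, p i ∈ D i) (hp0 : ∀ i, p0 i ∈ D i) :
    f p * ∏ i, H i (p0 i) = f p0 * ∏ i, H i (p i) := by
  classical
  have key : ∀ s : Finset ι, f (fun i => if i ∈ s then p i else p0 i) * ∏ i ∈ s, H i (p0 i) =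
      f p0 * ∏ i ∈ s, H i (p i) := by
    intro s
    induction s using Finset.induction_on with
    | empty => simp
    | insert j s hj ih =>
      set r : ι → α := fun i => if i ∈ s then p i else p0 i with hr
      have e1 : (fun i => if i ∈ insert j s then p i else p0 i) = Function.update r j (p j) := by
        funext i
        by_cases h : i = j
        · subst h
          rw [Function.update_self, if_pos (mem_insert_self _ _)]
        · rw [Function.update_of_ne h, hr]
          simp only [mem_insert, h, false_or]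
      have hrD : ∀ i, r i ∈ D i := by
        intro i
        rw [hr]
        simp only
        split_ifs
        · exact hp i
        · exact hp0 i
      have e2 := h2 r hrD j (p j) (hp j)
      have e3 : r j = p0 j := by rw [hr]; simp only [hj, if_false]
      rw [e3] at e2
      rw [e1, prod_insert hj, prod_insert hj]
      calc f (Function.update r j (p j)) * (H j (p0 j) * ∏ i ∈ s, H i (p0 i))
          = (f (Function.update r j (p j)) * H j (p0 j)) * ∏ i ∈ s, H i (p0 i) := by ring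
        _ = (f r * ∏ i ∈ s, H i (p0 i)) * H j (p j) := by rw [← e2]; ring
        _ = f p0 * (H j (p j) * ∏ i ∈ s, H i (p i)) := by rw [ih]; ring
  have := key univ
  simpa using this

/-! ### Columns -/

/-- the column of the position `x` of the window `i`, relative to the mark -/
def czz {m₁ m₂ : ℕ} : Fin m₁ ⊕ Fin m₂ → ℤ → ℤ := Sum.elim (fun _ j => -1 - j) (fun _ j => j)

lemma zz_czz {m₁ m₂ : ℕ} (z : ℤ → ℤ × ℤ) (i : Fin m₁ ⊕ Fin m₂) : zz z i = fun x => z (czz i x) := by
  rcases i with i | i <;> rfl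

lemma czz_iso {m₁ m₂ : ℕ} (i : Fin m₁ ⊕ Fin m₂) (x x' : ℤ) : |czz i x - czz i x'| = |x - x'| := by
  rcases i with i | i
  · change |(-1 - x) - (-1 - x')| = _
    rw [show (-1 - x) - (-1 - x') = -(x - x') by ring, abs_neg]
  · rfl

lemma cols2_eq {m₁ m₂ : ℕ} (x : Fin m₁ ⊕ Fin m₂ → ℤ) :
    cols2 x = univ.image (fun i => czz i (x i)) := by
  classical
  ext c
  unfold cols2 Pool.Agent.Q1.M6b.cols
  rw [mem_union, mem_image, mem_image, mem_image]
  constructor
  · rintro (⟨i, -, e⟩ | ⟨i, -, e⟩)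
    · exact ⟨Sum.inl i, mem_univ _, e⟩
    · exact ⟨Sum.inr i, mem_univ _, e⟩
  · rintro ⟨i | i, -, e⟩
    · exact Or.inl ⟨i, mem_univ _, e⟩
    · exact Or.inr ⟨i, mem_univ _, e⟩

/-! ### Geometry of a window -/

section
variable {EL EU : Finset (ℤ × ℤ)} {N : ℕ} {xr y0 k : ℤ} {yc : Fin N}

/-- **The world box of a window.** -/
theorem wg_of {b : ℤ} {l : ℕ} {yv : ℤ} (hb : 4 ≤ b) {cz : ℤ → ℤ}
    (hcz : ∀ x x', |cz x - cz x'| = |x - x'|) {z : ℤ → ℤ × ℤ}
    (hz : ∀ j, z j = sm true y0 (xr + k - y0 + 1 + j)) {R c0 : ℕ} (hR : (R : ℤ) = b ^ (l + 1) + 1)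
    (hc0 : (c0 : ℤ) = k + cz (b ^ l * yv) - (2 * R + 1)) (hN : 0 < N) (hpos : 0 < c0)
    (hN2 : c0 + (2 * (2 * R + 1) + 1) < N)
    (hm : (yc : ℕ) < c0 ∨ c0 + (2 * (2 * R + 1) + 1) ≤ (yc : ℕ))
    (hE : ∀ e : ℤ × ℤ, (e.1 + e.2) % 2 = 1 → Nr (4 * R + 4) e (z (cz (b ^ l * yv))) →
      e ∈ gE EL EU (1, -1)) :
    WG EL EU N xr y0 k yc (fun x => z (cz x)) cz (dy b l yv) (InB b (fun x => z (cz x)) l yv)
      (OutB b (fun x => z (cz x)) l yv) hN c0 (2 * (2 * R + 1) + 1) (2 * R + 1) := by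
  have hbl : 1 ≤ b ^ l := by
    have : 0 < b ^ l := by positivity
    omega
  have hbl1 : b ^ l ≤ b ^ (l + 1) := by
    rw [pow_succ]; nlinarith
  have clv : ∀ i < 2 * (2 * R + 1) + 1, ((clS N c0 hN i : Fin N) : ℕ) = c0 + i := by
    intro i hi
    unfold clS
    simp only
    exact Nat.mod_eq_of_lt (by omega)
  have hzc : z (cz (b ^ l * yv)) = (xr + k - y0 + 1 + cz (b ^ l * yv),
      xr + k - y0 + 1 + cz (b ^ l * yv) + 2 * y0) := by
    rw [hz]; unfold sm; simp only [if_true]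
  set js := cz (b ^ l * yv) with hjs
  refine ⟨⟨by omega, by omega, hpos, hN2, ?_⟩, ?_, in_out_B hb _ _ _, ?_, ?_⟩
  · intro p q h1 h2 h3 h4
    apply hE _ (lbt_odd _ _)
    rw [hzc]
    unfold Nr lbt
    simp only
    push_cast at h2 h4 ⊢
    rw [abs_le, abs_le]
    omega
  · intro i hi e
    have := clv i hi
    rw [← e] at this
    omega
  · intro e he
    unfold OutB at he
    obtain ⟨h1, h2⟩ := box_near he
    change Nr (2 * (b ^ (l + 1) + 1) + 1) e (z js) at h1
    rw [hzc, ← hR] at h1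
    unfold Nr at h1
    simp only at h1
    rw [abs_le, abs_le] at h1
    refine ⟨(((e.1 + e.2 - 1) / 2 - (xr + c0))).toNat, ?_, ((e.2 - e.1 - 1) / 2 - (y0 - (2 * R + 1))).toNat,
      ?_, ?_⟩
    · omega
    · omega
    · unfold gl lbt
      refine Prod.ext ?_ ?_ <;> simp only <;> push_cast <;> omega
  · intro x hx
    rw [dy, mem_Ico] at hx
    have h1 : |cz x - js| < b ^ l := by
      rw [hjs, hcz]
      rw [abs_lt]; omega
    rw [abs_lt] at h1
    have hlt : (k + cz x - c0).toNat < 2 * (2 * R + 1) + 1 := by omega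
    have hval : ((clS N c0 hN (k + cz x - c0).toNat : Fin N) : ℤ) = k + cz x := by
      have := clv _ hlt
      have h2 : (((clS N c0 hN (k + cz x - c0).toNat : Fin N) : ℕ) : ℤ) =
          (c0 : ℤ) + ((k + cz x - c0).toNat : ℕ) := by
        rw [this]; push_cast; rfl
      rw [h2]; omega
    have hi : (((k + cz x - c0).toNat : ℕ) : ℤ) = k + cz x - c0 := by omega
    refine ⟨(k + cz x - c0).toNat, hlt, by rw [hval]; ring, ?_, ?_, ?_⟩
    · unfold InB
      refine mem_box (d := b ^ l) ?_ (gl_odd _ _ _ _ _) (by omega)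
      change Nr (b ^ l) _ (z js)
      rw [hzc]
      unfold gl lbt Nr
      simp only
      rw [hi]
      push_cast
      rw [abs_le, abs_le]
      omega
    · unfold InB
      refine mem_box (d := b ^ l) ?_ (gl_odd _ _ _ _ _) (by omega)
      change Nr (b ^ l) _ (z js)
      rw [hzc]
      unfold gl lbt Nr
      simp only
      rw [hi]
      push_cast
      rw [abs_le, abs_le]
      omega
    · rw [sgc_eq, hi, hz]
      congr 1
      ring

/-- the labels of the columns near the centre of a window -/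
theorem nl_of {b : ℤ} {l : ℕ} {yv : ℤ} (hb : 4 ≤ b) {cz : ℤ → ℤ} {z : ℤ → ℤ × ℤ}
    (hz : ∀ j, z j = sm true y0 (xr + k - y0 + 1 + j)) {R c0 : ℕ}
    (hc0 : (c0 : ℤ) = k + cz (b ^ l * yv) - (2 * R + 1)) {i : ℕ}
    (hi : |(c0 : ℤ) + i - (k + cz (b ^ l * yv))| ≤ 8 * b ^ l - 2) :
    gl (xr + c0) y0 (2 * R + 1) i (2 * R + 1) ∈ InB b (fun x => z (cz x)) l yv ∧
      gl (xr + c0) y0 (2 * R + 1) i (2 * R + 1 - 1) ∈ InB b (fun x => z (cz x)) l yv := by
  have hbl : 1 ≤ b ^ l := by
    have : 0 < b ^ l := by positivity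
    omega
  have hzc : z (cz (b ^ l * yv)) = (xr + k - y0 + 1 + cz (b ^ l * yv),
      xr + k - y0 + 1 + cz (b ^ l * yv) + 2 * y0) := by
    rw [hz]; unfold sm; simp only [if_true]
  rw [abs_le] at hi
  constructor
  · unfold InB
    refine mem_box (d := 8 * b ^ l - 1) ?_ (gl_odd _ _ _ _ _) (by omega)
    change Nr (8 * b ^ l - 1) _ (z (cz (b ^ l * yv)))
    rw [hzc]
    unfold gl lbt Nr
    simp only
    push_cast
    rw [abs_le, abs_le]
    omega
  · unfold InB
    refine mem_box (d := 8 * b ^ l - 1) ?_ (gl_odd _ _ _ _ _) (by omega)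
    change Nr (8 * b ^ l - 1) _ (z (cz (b ^ l * yv)))
    rw [hzc]
    unfold gl lbt Nr
    simp only
    push_cast
    rw [abs_le, abs_le]
    omega

end

end Pool.Agent.H69.M6b
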