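import Mathlib
import Pool.Agent.H69.M6b.F1b

set_option autoImplicit false
set_option linter.unusedSectionVars false
set_option linter.unusedVariables false
open Finset

/-! # The windows of a pair of cells -/

namespace Pool.Agent.H69.M6b

open Pool.Agent.H75.Perc Pool.Agent.H75.TwoArm Pool.Agent.Q1 Pool.Agent.H81.G1
open Pool.Agent.H30.Mid (RS rl rp rcr HasRow AR cA cB ug cs)
open Pool.Agent.Q1.M6b.Gl (gE tr mem_tr)
open Pool.Agent.Q1.M6b.Gd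
open Pool.Agent.Q1.M6b (dy mem_dy cells)
open Pool.Agent.H47.NC (Bq mem_Bq)

section cells
variable {b K : ℤ} {S m N' : ℕ} {κ : Fin m → ℕ × ℤ}

lemma dy_trans (hb : 2 ≤ b) {l n : ℕ} (hle : l ≤ n) {x v u : ℤ} (hx : x ∈ dy b l v)
    (hv : v ∈ dy b (n - l) u) : x ∈ dy b n u := by
  rw [mem_dy hb] at hx hv ⊢
  rw [← div_lev hb hle, hx, hv]

lemma dy_bd (hb : 2 ≤ b) {n : ℕ} {x u : ℤ} (hx : x ∈ dy b n u) :
    b ^ n * u ≤ x ∧ x < b ^ n * u + b ^ n := by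
  rw [dy, mem_Ico] at hx; exact hx

lemma cen_dy (hb : 2 ≤ b) (n : ℕ) (u : ℤ) : b ^ n * u ∈ dy b n u := by
  have : 0 < b ^ n := by positivity
  rw [dy, mem_Ico]; omega

lemma cells_nonneg (hb : 2 ≤ b) (hk : κ ∈ cells b K S m N') (i : Fin m) : 0 ≤ (κ i).2 := by
  obtain ⟨j, hj, rfl⟩ := cells_key hk
  obtain ⟨h1, -⟩ := Pool.Agent.Q1.M6b.mem_inc.1 hj
  unfold Pool.Agent.Q1.M6b.key
  simp only
  exact Int.ediv_nonneg (h1 i).1 (by positivity)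

/-- separation on one side of the mark -/
lemma cells_far (hb : 2 ≤ b) (hK : 2 ≤ K) (hk : κ ∈ cells b K S m N') {i i' : Fin m} (hne : i ≠ i')
    (hi : 0 < (κ i).1) {x x' : ℤ} (hx : x ∈ dy b (κ i).1 (κ i).2) (hx' : x' ∈ dy b (κ i').1 (κ i').2) :
    (K - 2) * b ^ (κ i).1 < |x' - x| := by
  obtain ⟨a1, a2⟩ := dy_bd hb hx
  obtain ⟨b1, b2⟩ := dy_bd hb hx'
  rcases le_total (κ i').1 (κ i).1 with hle | hle
  · have h1 := cells_sepa hb (by omega) hk hne hi hle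
    have h2 : b ^ (κ i').1 ≤ b ^ (κ i).1 := pow_le_pow_right₀ (by omega) hle
    have e : (K - 2) * b ^ (κ i).1 = (K - 1) * b ^ (κ i).1 - b ^ (κ i).1 := by ring
    rw [e]
    rcases le_abs.1 h1 with h | h
    · rw [abs_sub_comm]
      refine lt_of_lt_of_le ?_ (le_abs_self _)
      linarith
    · refine lt_of_lt_of_le ?_ (le_abs_self _)
      linarith
  · have h1 := cells_sepa hb (by omega) hk hne.symm (by omega) hle
    have h2 : b ^ (κ i).1 ≤ b ^ (κ i').1 := pow_le_pow_right₀ (by omega) hle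
    have h3 : (K - 2) * b ^ (κ i).1 ≤ (K - 2) * b ^ (κ i').1 :=
      mul_le_mul_of_nonneg_left h2 (by omega)
    have e : (K - 2) * b ^ (κ i').1 = (K - 1) * b ^ (κ i').1 - b ^ (κ i').1 := by ring
    rw [e] at h3
    refine lt_of_le_of_lt h3 ?_
    rcases le_abs.1 h1 with h | h
    · refine lt_of_lt_of_le ?_ (le_abs_self _)
      linarith
    · rw [abs_sub_comm]
      refine lt_of_lt_of_le ?_ (le_abs_self _)
      linarith

end cells

section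
variable {EL EU : Finset (ℤ × ℤ)} {N : ℕ} {xr y0 : ℤ} {k : ℕ} {yc : Fin N}
  {b K K0 : ℤ} {S m₁ m₂ : ℕ} {k₁ : Fin m₁ → ℕ × ℤ} {k₂ : Fin m₂ → ℕ × ℤ}
  {Lv : Fin m₁ ⊕ Fin m₂ → ℕ} {yv : Fin m₁ ⊕ Fin m₂ → ℤ}

/-- separation of the windows -/
lemma win_sep (hb : 2 ≤ b) (hK : 2 ≤ K) {N₁ N₂ : ℕ} (hk₁ : k₁ ∈ cells b K S m₁ N₁)
    (hk₂ : k₂ ∈ cells b K S m₂ N₂) {i i' : Fin m₁ ⊕ Fin m₂} (hne : i ≠ i')
    (hi : 0 < lv2 k₁ k₂ i) {x x' : ℤ} (hx : x ∈ dy b (lv2 k₁ k₂ i) (nu2 k₁ k₂ i))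
    (hx' : x' ∈ dy b (lv2 k₁ k₂ i') (nu2 k₁ k₂ i')) :
    (K - 2) * b ^ lv2 k₁ k₂ i < |czz i' x' - czz i x| := by
  have pos : ∀ i : Fin m₁ ⊕ Fin m₂, ∀ x ∈ dy b (lv2 k₁ k₂ i) (nu2 k₁ k₂ i), 0 ≤ x := by
    intro i x hx
    have h1 : 0 ≤ nu2 k₁ k₂ i := by
      rcases i with i | i
      · exact cells_nonneg hb hk₁ i
      · exact cells_nonneg hb hk₂ i
    have h2 := (dy_bd hb hx).1
    have h3 : 0 ≤ b ^ lv2 k₁ k₂ i * nu2 k₁ k₂ i := mul_nonneg (by positivity) h1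
    omega
  have big : (K - 2) * b ^ lv2 k₁ k₂ i < x + 1 := by
    have h1 : (K - 1) * b ^ lv2 k₁ k₂ i ≤ b ^ lv2 k₁ k₂ i * nu2 k₁ k₂ i := by
      rcases i with i | i
      · exact (cells_ends hb (by omega) hk₁ hi).1
      · exact (cells_ends hb (by omega) hk₂ hi).1
    have h2 := (dy_bd hb hx).1
    have h3 : 0 < b ^ lv2 k₁ k₂ i := by positivity
    have e : (K - 2) * b ^ lv2 k₁ k₂ i = (K - 1) * b ^ lv2 k₁ k₂ i - b ^ lv2 k₁ k₂ i := by ring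
    rw [e]; omega
  have p' := pos i' x' hx'
  rcases i with i | i <;> rcases i' with i' | i'
  · have h1 := cells_far hb hK hk₁ (fun hh => hne (by rw [hh])) hi hx hx'
    change _ < |(-1 - x') - (-1 - x)|
    rw [show (-1 - x') - (-1 - x) = -(x' - x) by ring, abs_neg]
    exact h1
  · change _ < |x' - (-1 - x)|
    refine lt_of_lt_of_le ?_ (le_abs_self _)
    linarith
  · change _ < |(-1 - x') - x|
    rw [abs_sub_comm]
    refine lt_of_lt_of_le ?_ (le_abs_self _)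
    linarith
  · exact cells_far hb hK hk₂ (fun hh => hne (by rw [hh])) hi hx hx'

/-- **The windows.** -/
theorem win_geo (hb : 4 ≤ b) (hK0 : 1 ≤ K0) (hK : K0 * (4 * b + 8) + 1 ≤ K) (hkN : k ≤ N)
    (hgeo : RowGeo (gE EL EU (1, -1)) (fun j => sm true y0 (xr + k - y0 + 1 + j)) K0 k (N - k))
    (hyk : (yc : ℕ) = k ∨ (yc : ℕ) + 1 = k) (hk₁ : k₁ ∈ cells b K S m₁ k)
    (hk₂ : k₂ ∈ cells b K S m₂ (N - k)) (hL : Lv ∈ Lev (lv2 k₁ k₂))
    (hyv : yv ∈ Num b (lv2 k₁ k₂) (nu2 k₁ k₂) Lv) (hN : 0 < N) {i : Fin m₁ ⊕ Fin m₂} (hi : Lv i ≠ 0) :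
    ∃ c0 R : ℕ, WG EL EU N xr y0 k yc (zz (fun j => sm true y0 (xr + k - y0 + 1 + j)) i) (czz i)
        (dy b (Lv i) (yv i)) (InB b (zz (fun j => sm true y0 (xr + k - y0 + 1 + j)) i) (Lv i) (yv i))
        (OutB b (zz (fun j => sm true y0 (xr + k - y0 + 1 + j)) i) (Lv i) (yv i)) hN c0
          (2 * (2 * R + 1) + 1) (2 * R + 1) ∧
      (∀ i', i' ≠ i → ∀ x' ∈ dy b (Lv i') (yv i'), ∀ c : Fin N, ((c : ℕ) : ℤ) - k = czz i' x' →
        ∀ j < 2 * (2 * R + 1) + 1, clS N c0 hN j ≠ c) ∧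
      (R : ℤ) = b ^ (Lv i + 1) + 1 ∧ (c0 : ℤ) = k + czz i (b ^ Lv i * yv i) - (2 * R + 1) ∧ 0 < c0 ∧
      c0 + (2 * (2 * R + 1) + 1) < N ∧ ((yc : ℕ) < c0 ∨ c0 + (2 * (2 * R + 1) + 1) ≤ (yc : ℕ)) := by
  have hLi := mem_Lev.1 hL
  have hyi := mem_Num.1 hyv
  set z : ℤ → ℤ × ℤ := fun j => sm true y0 (xr + k - y0 + 1 + j) with hz
  have hK2 : 4 * b + 9 ≤ K := by nlinarith
  set l := Lv i with hl
  set n := lv2 k₁ k₂ i with hn
  have hln : l ≤ n := hLi i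
  have hn0 : 0 < n := by omega
  have hbl : 1 ≤ b ^ l := by
    have : 0 < b ^ l := by positivity
    omega
  have hbn : b ^ l ≤ b ^ n := pow_le_pow_right₀ (by omega) hln
  have hbl4 : b ^ (l + 1) = b * b ^ l := by rw [pow_succ]; ring
  obtain ⟨R, hR⟩ : ∃ R : ℕ, (R : ℤ) = b ^ (l + 1) + 1 :=
    ⟨(b ^ (l + 1) + 1).toNat, Int.toNat_of_nonneg (by positivity)⟩
  -- the centre
  set J := b ^ l * yv i with hJ
  have hJdy : J ∈ dy b n (nu2 k₁ k₂ i) := dy_trans (by omega) hln (cen_dy (by omega) _ _) (hyi i)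
  obtain ⟨J1, J2⟩ := dy_bd (by omega) hJdy
  have hd : K0 * (4 * R + 4) ≤ (K - 1) * b ^ n := by
    have e1 : (4 * (R : ℤ) + 4) ≤ (4 * b + 8) * b ^ l := by rw [hR, hbl4]; nlinarith
    calc K0 * (4 * (R : ℤ) + 4) ≤ K0 * ((4 * b + 8) * b ^ l) :=
          mul_le_mul_of_nonneg_left e1 (by omega)
      _ = (K0 * (4 * b + 8)) * b ^ l := by ring
      _ ≤ (K - 1) * b ^ l := mul_le_mul_of_nonneg_right (by omega) (by omega)
      _ ≤ (K - 1) * b ^ n := mul_le_mul_of_nonneg_left hbn (by omega)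
  have hdK : (4 * (R : ℤ) + 4) ≤ K0 * (4 * R + 4) := by nlinarith
  have hends : ∃ Ns : ℕ, (K - 1) * b ^ n ≤ J ∧ (K - 1) * b ^ n ≤ Ns - J ∧
      ((∃ i0, i = Sum.inl i0 ∧ Ns = k) ∨ ∃ i0, i = Sum.inr i0 ∧ Ns = N - k) := by
    have ek : K * b ^ n = (K - 1) * b ^ n + b ^ n := by ring
    rcases hii : i with i0 | i0
    · obtain ⟨g1, g2⟩ := cells_ends (b := b) (by omega) (by omega) hk₁ (i := i0)
        (by rw [hn, hii] at hn0; exact hn0)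
      have e1 : (k₁ i0).1 = n := by rw [hn, hii]; rfl
      have e2 : (k₁ i0).2 = nu2 k₁ k₂ i := by rw [hii]; rfl
      rw [e1, e2] at g1 g2
      exact ⟨k, by omega, by omega, Or.inl ⟨i0, rfl, rfl⟩⟩
    · obtain ⟨g1, g2⟩ := cells_ends (b := b) (by omega) (by omega) hk₂ (i := i0)
        (by rw [hn, hii] at hn0; exact hn0)
      have e1 : (k₂ i0).1 = n := by rw [hn, hii]; rfl
      have e2 : (k₂ i0).2 = nu2 k₁ k₂ i := by rw [hii]; rfl
      rw [e1, e2] at g1 g2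
      exact ⟨N - k, by omega, by omega, Or.inr ⟨i0, rfl, rfl⟩⟩
  obtain ⟨Ns, hJ1, hJ2, hside⟩ := hends
  -- the world box
  have hc0ex : ∃ c0 : ℕ, (c0 : ℤ) = k + czz i J - (2 * R + 1) ∧ 0 < c0 ∧
      c0 + (2 * (2 * R + 1) + 1) < N ∧
      ((yc : ℕ) < c0 ∨ c0 + (2 * (2 * R + 1) + 1) ≤ (yc : ℕ)) := by
    rcases hside with ⟨i0, hi0, hNs⟩ | ⟨i0, hi0, hNs⟩
    · have e : czz i J = -1 - J := by rw [hi0]; rfl
      rw [e]
      refine ⟨(k + (-1 - J) - (2 * R + 1)).toNat, ?_, ?_, ?_, ?_⟩ <;> omega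
    · have e : czz i J = J := by rw [hi0]; rfl
      rw [e]
      refine ⟨(k + J - (2 * R + 1)).toNat, ?_, ?_, ?_, ?_⟩ <;> omega
  obtain ⟨c0, hc0, hpos, hN2, hm⟩ := hc0ex
  have hE : ∀ e : ℤ × ℤ, (e.1 + e.2) % 2 = 1 → Nr (4 * R + 4) e (z (czz i J)) →
      e ∈ gE EL EU (1, -1) := by
    intro e he hnr
    rcases hside with ⟨i0, hi0, hNs⟩ | ⟨i0, hi0, hNs⟩
    · have e1 : czz i J = -1 - J := by rw [hi0]; rfl
      rw [e1] at hnr
      exact hgeo.left J (4 * R + 4) (by omega) (by omega) (by omega) e he hnr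
    · have e1 : czz i J = J := by rw [hi0]; rfl
      rw [e1] at hnr
      exact hgeo.right J (4 * R + 4) (by omega) (by omega) (by omega) e he hnr
  refine ⟨c0, R, ?_, ?_, hR, hc0, hpos, hN2, hm⟩
  · have := wg_of (EL := EL) (EU := EU) (xr := xr) (y0 := y0) (k := (k : ℤ)) (yc := yc) hb
      (czz_iso i) (z := z) (fun j => rfl) hR hc0 hN hpos hN2 hm hE
    rw [zz_czz]
    exact this
  · intro i' hne x' hx' c hc j hj e
    have hx'' := dy_trans (by omega) (hLi i') hx' (hyi i')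
    have h1 := win_sep (by omega) (by omega) hk₁ hk₂ hne.symm hn0 hJdy hx''
    have h2 : 2 * (R : ℤ) + 1 ≤ (K - 2) * b ^ n := by
      have e1 : 2 * (R : ℤ) + 1 ≤ (2 * b + 3) * b ^ l := by rw [hR, hbl4]; nlinarith
      calc 2 * (R : ℤ) + 1 ≤ (2 * b + 3) * b ^ l := e1
        _ ≤ (K - 2) * b ^ l := mul_le_mul_of_nonneg_right (by omega) (by omega)
        _ ≤ (K - 2) * b ^ n := mul_le_mul_of_nonneg_left hbn (by omega)
    have h3 : ((c : ℕ) : ℤ) = c0 + j := by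
      rw [← e]
      unfold clS
      simp only
      rw [Nat.mod_eq_of_lt (by omega)]
      push_cast; rfl
    have h4 : |czz i' x' - czz i J| ≤ 2 * R + 1 := by
      rw [← hc, abs_le]
      omega
    linarith

end

end Pool.Agent.H69.M6b
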