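import Mathlib
import Pool.Agent.H69.M6b.F1c

set_option autoImplicit false
set_option linter.unusedSectionVars false
set_option linter.unusedVariables false
open Finset

/-! # The factorization of the amplitudes of a row

`amp_data`: for every choice of good reference positions `x0` and states `η0` of the windows the
amplitudes factorize, with an outer factor of the same modulus as the amplitude of the reference. -/

namespace Pool.Agent.H69.M6b

open Pool.Agent.H75.Perc Pool.Agent.H75.TwoArm Pool.Agent.Q1 Pool.Agent.H81.G1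
open Pool.Agent.H30.Mid (RS rl rp rcr HasRow AR cA cB ug cs)
open Pool.Agent.Q1.M6b.Gl (gE tr mem_tr)
open Pool.Agent.Q1.M6b.Gd
open Pool.Agent.Q1.M6b (dy mem_dy cells)
open Pool.Agent.H47.NC (Bq mem_Bq)

section
variable {X : Env} {EL EU : Finset (ℤ × ℤ)} {N : ℕ} {xr y0 : ℤ} {k : ℕ} {y : Fin N × Dir}
  {b K K0 : ℤ} {S m₁ m₂ : ℕ} {k₁ : Fin m₁ → ℕ × ℤ} {k₂ : Fin m₂ → ℕ × ℤ}
  {Lv : Fin m₁ ⊕ Fin m₂ → ℕ} {yv : Fin m₁ ⊕ Fin m₂ → ℤ} {ω : Finset (ℤ × ℤ)}

/-- positions of the columns -/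
abbrev zr (xr y0 : ℤ) (k : ℕ) (j : ℤ) : ℤ × ℤ := sm true y0 (xr + k - y0 + 1 + j)

/-- the amplitudes with coupons at the columns `x` -/
noncomputable abbrev AX (X : Env) (xr y0 : ℤ) (y : Fin N × Dir) (EL EU : Finset (ℤ × ℤ)) (k : ℕ)
    {m₁ m₂ : ℕ} (x : Fin m₁ ⊕ Fin m₂ → ℤ) (ζ : Finset (ℤ × ℤ)) : ℂ :=
  Pool.Agent.H30.Mid.Amp X xr y0 y (zt ^ (4 : ℤ)) (zt ^ (-4 : ℤ)) EL EU k (cols2 x) ζ

/-- the factors of the windows -/
noncomputable def hX (xr y0 : ℤ) (k : ℕ) (b : ℤ) {m₁ m₂ : ℕ} (Lv : Fin m₁ ⊕ Fin m₂ → ℕ)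
    (yv : Fin m₁ ⊕ Fin m₂ → ℤ) (ω : Finset (ℤ × ℤ)) (i : Fin m₁ ⊕ Fin m₂) (x : ℤ)
    (η : Finset (ℤ × ℤ)) : ℂ :=
  if Lv i = 0 then 1 else hW (zz (zr xr y0 k) i) (InB b (zz (zr xr y0 k) i) (Lv i) (yv i))
    (OutB b (zz (zr xr y0 k) i) (Lv i) (yv i)) ω x η

lemma coupon_set {ι : Type*} [Fintype ι] [DecidableEq ι] (g : ι → ℤ) (i : ι) {c : Fin N}
    (hc : ((c : ℕ) : ℤ) - k = g i) :
    cs N k (univ.image g) = insert c (cs N k ((univ.erase i).image g)) := by
  ext c'
  unfold cs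
  rw [mem_insert, mem_filter, mem_filter, mem_image, mem_image]
  constructor
  · rintro ⟨-, j, -, hj⟩
    by_cases h : j = i
    · left
      subst h
      rw [← hc] at hj
      exact Fin.ext (by omega)
    · right
      exact ⟨mem_univ _, j, mem_erase.2 ⟨h, mem_univ _⟩, hj⟩
  · rintro (rfl | ⟨-, j, -, hj⟩)
    · exact ⟨mem_univ _, i, mem_univ _, hc.symm⟩
    · exact ⟨mem_univ _, j, mem_univ _, hj⟩

/-- the configuration with the states `p i` of the windows -/
noncomputable def cfg {ι : Type*} [Fintype ι] (V ω : Finset (ℤ × ℤ)) (p : ι → Finset (ℤ × ℤ)) :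
    Finset (ℤ × ℤ) := ω \ V ∪ univ.biUnion p

lemma mem_cfg {ι : Type*} [Fintype ι] {V ω : Finset (ℤ × ℤ)} {p : ι → Finset (ℤ × ℤ)} {e : ℤ × ℤ} :
    e ∈ cfg V ω p ↔ (e ∈ ω ∧ e ∉ V) ∨ ∃ i, e ∈ p i := by
  unfold cfg
  rw [mem_union, mem_sdiff, mem_biUnion]
  constructor
  · rintro (h | ⟨i, -, h⟩)
    · exact Or.inl h
    · exact Or.inr ⟨i, h⟩
  · rintro (h | ⟨i, h⟩)
    · exact Or.inl h
    · exact Or.inr ⟨i, mem_univ _, h⟩

/-- the other windows are disjoint from the outer box -/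
lemma out_disj (hb : 4 ≤ b) (hgeo : RowGeo (gE EL EU (1, -1)) (zr xr y0 k) K0 k (N - k))
    (hKb : 4 * b + 8 ≤ K) (hk₁ : k₁ ∈ cells b K S m₁ k)
    (hk₂ : k₂ ∈ cells b K S m₂ (N - k)) (hL : Lv ∈ Lev (lv2 k₁ k₂))
    (hyv : yv ∈ Num b (lv2 k₁ k₂) (nu2 k₁ k₂) Lv) {i : Fin m₁ ⊕ Fin m₂} (hi : Lv i ≠ 0) :
    ∀ j, j ≠ i → ∀ e ∈ OutB b (zz (zr xr y0 k) i) (Lv i) (yv i),
      e ∉ Wi b (zz (zr xr y0 k)) Lv yv j := by
  have hLi := mem_Lev.1 hL
  have hyi := mem_Num.1 hyv
  intro j hj e he he'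
  unfold Wi at he'
  by_cases hj0 : Lv j = 0
  · rw [if_pos hj0] at he'
    exact absurd he' (notMem_empty _)
  · rw [if_neg hj0] at he'
    have h1 := hLi i
    have h2 := hLi j
    have h3 := hgeo.disj (b := b) (by omega) hKb hk₁ hk₂ i j hj.symm (by omega) (by omega)
    refine disjoint_left.1 h3 ?_ (hgeo.in_top hb j (Nat.pos_of_ne_zero hj0) h2 (hyi j) he')
    rcases eq_or_lt_of_le h1 with h4 | h4
    · have h5 := hyi i
      rw [h4, Nat.sub_self, mem_dy (by omega), pow_zero, Int.ediv_one] at h5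
      rw [h4, h5] at he
      exact he
    · have h6 := nest_B (b := b) (by omega) (hgeo.zz_iso i) h4 (Nat.pos_of_ne_zero hi) (yv i) he
      have h5 := hyi i
      rw [mem_dy (by omega)] at h5
      rw [h5] at h6
      exact in_out_B hb _ _ _ h6

/-- **The two relations of the windows.** -/
theorem rel_all (L3 : Lay3 X N xr y0 EL EU) (hb : 4 ≤ b) (hK0 : 1 ≤ K0)
    (hK : K0 * (4 * b + 8) + 1 ≤ K) (hkN : k ≤ N)
    (hgeo : RowGeo (gE EL EU (1, -1)) (zr xr y0 k) K0 k (N - k)) (hy : inc (rp xr y0) y = true)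
    (hyk : (y.1 : ℕ) = k ∨ (y.1 : ℕ) + 1 = k) (hk₁ : k₁ ∈ cells b K S m₁ k)
    (hk₂ : k₂ ∈ cells b K S m₂ (N - k)) (hL : Lv ∈ Lev (lv2 k₁ k₂))
    (hyv : yv ∈ Num b (lv2 k₁ k₂) (nu2 k₁ k₂) Lv)
    (uniq : ∀ i, Lv i ≠ 0 → ∀ a a', FarIn (InB b (zz (zr xr y0 k) i) (Lv i) (yv i))
      (OutB b (zz (zr xr y0 k) i) (Lv i) (yv i)) ω a → FarIn (InB b (zz (zr xr y0 k) i) (Lv i) (yv i))
      (OutB b (zz (zr xr y0 k) i) (Lv i) (yv i)) ω a' → a = a')
    {x : Fin m₁ ⊕ Fin m₂ → ℤ} {p : Fin m₁ ⊕ Fin m₂ → Finset (ℤ × ℤ)}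
    (hx : ∀ i, x i ∈ dy b (Lv i) (yv i)) (hp : ∀ i, p i ⊆ Wi b (zz (zr xr y0 k)) Lv yv i)
    (i : Fin m₁ ⊕ Fin m₂) :
    (hX xr y0 k b Lv yv ω i (x i) (p i) = 0 →
      AX X xr y0 y EL EU k x (cfg (univ.biUnion (Wi b (zz (zr xr y0 k)) Lv yv)) ω p) = 0) ∧
    ∀ x' ∈ dy b (Lv i) (yv i), ∀ p' ⊆ Wi b (zz (zr xr y0 k)) Lv yv i,
      AX X xr y0 y EL EU k x (cfg (univ.biUnion (Wi b (zz (zr xr y0 k)) Lv yv)) ω p) *
          hX xr y0 k b Lv yv ω i x' p' =
        AX X xr y0 y EL EU k (Function.update x i x')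
          (cfg (univ.biUnion (Wi b (zz (zr xr y0 k)) Lv yv)) ω (Function.update p i p')) *
          hX xr y0 k b Lv yv ω i (x i) (p i) := by
  classical
  by_cases hi : Lv i = 0
  · have e1 : ∀ x' ∈ dy b (Lv i) (yv i), x' = x i := by
      intro x' hx'
      have h1 := hx i
      rw [mem_dy (by omega), hi, pow_zero, Int.ediv_one] at h1 hx'
      rw [h1, hx']
    have e2 : ∀ p' ⊆ Wi b (zz (zr xr y0 k)) Lv yv i, p' = p i := by
      intro p' hp'
      have h1 := hp i
      unfold Wi at h1 hp'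
      rw [if_pos hi, subset_empty] at h1 hp'
      rw [h1, hp']
    unfold hX
    rw [if_pos hi]
    refine ⟨fun h => absurd h one_ne_zero, ?_⟩
    intro x' hx' p' hp'
    rw [if_pos hi, e1 x' hx', e2 p' hp', Function.update_eq_self, Function.update_eq_self]
  · have hN : 0 < N := by have := y.1.2; omega
    obtain ⟨c0, R, W, hfar, -⟩ := win_geo hb hK0 hK hkN hgeo hyk hk₁ hk₂ hL hyv hN hi
    set w := 2 * (2 * R + 1) + 1 with hw
    set h := 2 * R + 1 with hh
    set V := univ.biUnion (Wi b (zz (zr xr y0 k)) Lv yv) with hV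
    have eW : Wi b (zz (zr xr y0 k)) Lv yv i = InB b (zz (zr xr y0 k) i) (Lv i) (yv i) := by
      unfold Wi; rw [if_neg hi]
    have eh : ∀ x η, hX xr y0 k b Lv yv ω i x η = hW (zz (zr xr y0 k) i)
        (InB b (zz (zr xr y0 k) i) (Lv i) (yv i)) (OutB b (zz (zr xr y0 k) i) (Lv i) (yv i)) ω x η := by
      intro x η; unfold hX; rw [if_neg hi]
    -- the other windows are disjoint from the outer box
    have hLi := mem_Lev.1 hL
    have hyi := mem_Num.1 hyv
    have hdisj : ∀ j, j ≠ i → ∀ e ∈ OutB b (zz (zr xr y0 k) i) (Lv i) (yv i),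
        e ∉ Wi b (zz (zr xr y0 k)) Lv yv j := out_disj hb hgeo (by nlinarith) hk₁ hk₂ hL hyv hi
    have hio := W.io
    -- local form of the configurations
    have hloc : ∀ q : Fin m₁ ⊕ Fin m₂ → Finset (ℤ × ℤ),
        (∀ j, q j ⊆ Wi b (zz (zr xr y0 k)) Lv yv j) →
        Loc (InB b (zz (zr xr y0 k) i) (Lv i) (yv i)) (OutB b (zz (zr xr y0 k) i) (Lv i) (yv i)) ω
          (q i) (cfg V ω q) := by
      intro q hq e he
      rw [mem_cfg, mem_union, mem_sdiff]
      constructor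
      · rintro (⟨h1, h2⟩ | h1)
        · left
          refine ⟨h1, fun h3 => ?_⟩
          rw [hV, mem_biUnion] at h3
          obtain ⟨j, -, h4⟩ := h3
          by_cases hj : j = i
          · subst hj; rw [eW] at h4; exact h2 h4
          · exact hdisj j hj e he h4
        · exact Or.inr ⟨i, h1⟩
      · rintro (⟨h1, h2⟩ | ⟨j, h1⟩)
        · left
          refine ⟨h1, fun h3 => h2 ?_⟩
          rw [hV, mem_biUnion]
          exact ⟨i, mem_univ _, by rw [eW]; exact h3⟩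
        · right
          by_cases hj : j = i
          · subst hj; exact h1
          · exact absurd (hq j h1) (hdisj j hj e he)
    -- the coupons
    set S' := cs N k ((univ.erase i).image (fun j => czz j (x j))) with hS'
    have hSfar : ∀ j < w, clS N c0 hN j ∉ S' := by
      intro j hj h1
      rw [hS', cs, mem_filter, mem_image] at h1
      obtain ⟨-, i', hi', h2⟩ := h1
      exact hfar i' (mem_erase.1 hi').1 (x i') (hx i') _ h2.symm j hj rfl
    have colx : ∀ x' ∈ dy b (Lv i) (yv i), ∃ c : Fin N, ((c : ℕ) : ℤ) - k = czz i x' ∧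
        cs N k (cols2 (Function.update x i x')) = insert c S' := by
      intro x' hx'
      obtain ⟨j, hj, h1, -⟩ := W.col x' hx'
      refine ⟨_, h1, ?_⟩
      rw [cols2_eq, coupon_set (k := k) (fun j => czz j (Function.update x i x' j)) i
        (c := clS N c0 hN j) (by rw [Function.update_self]; exact h1), hS']
      congr 2
      refine image_congr ?_
      intro j hj
      have : j ≠ i := (mem_erase.1 (mem_coe.1 hj)).1
      simp only [Function.update_of_ne this]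
    have hinW : InB b (zz (zr xr y0 k) i) (Lv i) (yv i) ⊆ InB b (zz (zr xr y0 k) i) (Lv i) (yv i) :=
      Subset.rfl
    have hpi : p i ⊆ InB b (zz (zr xr y0 k) i) (Lv i) (yv i) := by rw [← eW]; exact hp i
    obtain ⟨c, hc, hcS⟩ := colx (x i) (hx i)
    rw [Function.update_eq_self] at hcS
    have eA : ∀ ζ, AX X xr y0 y EL EU k x ζ = AS X xr y0 y EL EU (insert c S') ζ := by
      intro ζ
      unfold AX Pool.Agent.H30.Mid.Amp AS
      rw [hcS]
    refine ⟨?_, ?_⟩
    · intro h0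
      rw [eh] at h0
      rw [eA]
      exact w_zero L3 W hy hSfar (uniq i hi) (hx i) hpi (hloc p hp) hc h0
    · intro x' hx' p' hp'
      rw [eh, eh]
      have hp'' : p' ⊆ InB b (zz (zr xr y0 k) i) (Lv i) (yv i) := by rw [← eW]; exact hp'
      obtain ⟨c', hc', hcS'⟩ := colx x' hx'
      have eA' : ∀ ζ, AX X xr y0 y EL EU k (Function.update x i x') ζ =
          AS X xr y0 y EL EU (insert c' S') ζ := by
        intro ζ
        unfold AX Pool.Agent.H30.Mid.Amp AS
        rw [hcS']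
      rw [eA, eA']
      have hq : ∀ j, Function.update p i p' j ⊆ Wi b (zz (zr xr y0 k)) Lv yv j := by
        intro j
        by_cases hj : j = i
        · subst hj; rw [Function.update_self]; exact hp'
        · rw [Function.update_of_ne hj]; exact hp j
      have hl2 := hloc (Function.update p i p') hq
      rw [Function.update_self] at hl2
      refine w_two L3 W hy hSfar (uniq i hi) (hx i) hx' hpi hp'' (hloc p hp) hl2 ?_ hc hc'
      intro e he
      rw [mem_cfg, mem_cfg]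
      constructor
      · rintro (h1 | ⟨j, h1⟩)
        · exact Or.inl h1
        · right
          refine ⟨j, ?_⟩
          have hj : j ≠ i := by
            rintro rfl
            exact he (hpi h1)
          rw [Function.update_of_ne hj]; exact h1
      · rintro (h1 | ⟨j, h1⟩)
        · exact Or.inl h1
        · right
          refine ⟨j, ?_⟩
          have hj : j ≠ i := by
            rintro rfl
            rw [Function.update_self] at h1
            exact he (hp'' h1)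
          rw [Function.update_of_ne hj] at h1; exact h1

/-- the factors have modulus `1` or vanish -/
lemma hX_norm (uniq : ∀ i, Lv i ≠ 0 → ∀ a a', FarIn (InB b (zz (zr xr y0 k) i) (Lv i) (yv i))
      (OutB b (zz (zr xr y0 k) i) (Lv i) (yv i)) ω a → FarIn (InB b (zz (zr xr y0 k) i) (Lv i) (yv i))
      (OutB b (zz (zr xr y0 k) i) (Lv i) (yv i)) ω a' → a = a') {i : Fin m₁ ⊕ Fin m₂} {x : ℤ}
    {η : Finset (ℤ × ℤ)} (hη : η ⊆ Wi b (zz (zr xr y0 k)) Lv yv i)
    (h : hX xr y0 k b Lv yv ω i x η ≠ 0) : ‖hX xr y0 k b Lv yv ω i x η‖ = 1 := by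
  unfold hX at h ⊢
  by_cases hi : Lv i = 0
  · rw [if_pos hi, norm_one]
  · rw [if_neg hi] at h ⊢
    unfold Wi at hη
    rw [if_neg hi] at hη
    exact hW_norm hη (uniq i hi) h

/-- the data of the windows -/
theorem data_of {A : ℂ} (hb : 4 ≤ b)
    (uniq : ∀ i, Lv i ≠ 0 → ∀ a a', FarIn (InB b (zz (zr xr y0 k) i) (Lv i) (yv i))
      (OutB b (zz (zr xr y0 k) i) (Lv i) (yv i)) ω a → FarIn (InB b (zz (zr xr y0 k) i) (Lv i) (yv i))
      (OutB b (zz (zr xr y0 k) i) (Lv i) (yv i)) ω a' → a = a')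
    (hfac : ∀ x ∈ Bo b Lv yv, ∀ η, η ⊆ univ.biUnion (Wi b (zz (zr xr y0 k)) Lv yv) →
      AX X xr y0 y EL EU k x (ω \ (univ.biUnion (Wi b (zz (zr xr y0 k)) Lv yv)) ∪ η) =
        A * ∏ i, hX xr y0 k b Lv yv ω i (x i) (η ∩ Wi b (zz (zr xr y0 k)) Lv yv i)) :
    AmpData b (zz (zr xr y0 k)) Lv yv ω (fun x ζ => AX X xr y0 y EL EU k x ζ) A
      (hX xr y0 k b Lv yv ω) := by
  refine ⟨hfac, ?_, ?_⟩
  · intro i hi
    unfold hX
    rw [if_pos hi, norm_one]
  · intro i hi
    by_cases hex : ∃ a, FarIn (InB b (zz (zr xr y0 k) i) (Lv i) (yv i))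
      (OutB b (zz (zr xr y0 k) i) (Lv i) (yv i)) ω a
    · right; right
      obtain ⟨a, hf⟩ := hex
      have hu : ∀ a', FarIn (InB b (zz (zr xr y0 k) i) (Lv i) (yv i))
        (OutB b (zz (zr xr y0 k) i) (Lv i) (yv i)) ω a' → a' = a :=
        fun a' h' => uniq i hi a' a h' hf
      refine ⟨1, a, by rw [norm_one], hf, hu, ?_⟩
      intro η hη
      have hio := in_out_B hb (zz (zr xr y0 k) i) (Lv i) (yv i)
      obtain ⟨g1, g2⟩ := xt_far ((far_mod (ω := ω)
        (Out := OutB b (zz (zr xr y0 k) i) (Lv i) (yv i)) hη).2 hf)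
      refine ⟨ω \ InB b (zz (zr xr y0 k) i) (Lv i) (yv i) ∪ η, _, ?_, ?_, g2, g1, ?_⟩
      · ext e
        rw [mem_inter, mem_union, mem_sdiff]
        constructor
        · rintro ⟨h1 | h1, h2⟩
          · exact absurd h2 h1.2
          · exact h1
        · intro h1; exact ⟨Or.inr h1, hη h1⟩
      · ext e
        rw [mem_inter, mem_inter, mem_union, mem_sdiff, mem_sdiff]
        constructor
        · rintro ⟨h1 | h1, h2⟩
          · exact ⟨h1.1, h2⟩
          · exact absurd (hη h1) h2.2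
        · rintro ⟨h1, h2⟩
          exact ⟨Or.inl ⟨h1, h2.2⟩, h2⟩
      · intro x _
        unfold hX
        rw [if_neg hi, hW_eq hf hu, Complex.conj_conj, one_mul]
        rfl
    · left
      intro x _ η _
      unfold hX
      rw [if_neg hi, hW_none hex]

/-- **The factorization of the amplitudes.** For every reference `x0, η0` at which all factors of the
windows are different from zero there are data whose outer factor has the modulus of the amplitude of the
reference; if there is no such reference, then the outer factor is zero. -/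
theorem amp_data (L3 : Lay3 X N xr y0 EL EU) (hb : 4 ≤ b) (hK0 : 1 ≤ K0)
    (hK : K0 * (4 * b + 8) + 1 ≤ K) (hkN : k ≤ N)
    (hgeo : RowGeo (gE EL EU (1, -1)) (zr xr y0 k) K0 k (N - k)) (hy : inc (rp xr y0) y = true)
    (hyk : (y.1 : ℕ) = k ∨ (y.1 : ℕ) + 1 = k) (hk₁ : k₁ ∈ cells b K S m₁ k)
    (hk₂ : k₂ ∈ cells b K S m₂ (N - k)) (hL : Lv ∈ Lev (lv2 k₁ k₂))
    (hyv : yv ∈ Num b (lv2 k₁ k₂) (nu2 k₁ k₂) Lv)
    (uniq : ∀ i, Lv i ≠ 0 → ∀ a a', FarIn (InB b (zz (zr xr y0 k) i) (Lv i) (yv i))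
      (OutB b (zz (zr xr y0 k) i) (Lv i) (yv i)) ω a → FarIn (InB b (zz (zr xr y0 k) i) (Lv i) (yv i))
      (OutB b (zz (zr xr y0 k) i) (Lv i) (yv i)) ω a' → a = a') :
    (∀ x0 ∈ Bo b Lv yv, ∀ η0 ⊆ univ.biUnion (Wi b (zz (zr xr y0 k)) Lv yv),
      (∀ i, hX xr y0 k b Lv yv ω i (x0 i) (η0 ∩ Wi b (zz (zr xr y0 k)) Lv yv i) ≠ 0) →
      ∃ A, AmpData b (zz (zr xr y0 k)) Lv yv ω (fun x ζ => AX X xr y0 y EL EU k x ζ) A
          (hX xr y0 k b Lv yv ω) ∧
        ‖A‖ = ‖AX X xr y0 y EL EU k x0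
          (ω \ (univ.biUnion (Wi b (zz (zr xr y0 k)) Lv yv)) ∪ η0)‖) ∧
    ((∀ x0 ∈ Bo b Lv yv, ∀ η0 ⊆ univ.biUnion (Wi b (zz (zr xr y0 k)) Lv yv),
      ∃ i, hX xr y0 k b Lv yv ω i (x0 i) (η0 ∩ Wi b (zz (zr xr y0 k)) Lv yv i) = 0) →
      AmpData b (zz (zr xr y0 k)) Lv yv ω (fun x ζ => AX X xr y0 y EL EU k x ζ) 0
        (hX xr y0 k b Lv yv ω)) := by
  classical
  set V := univ.biUnion (Wi b (zz (zr xr y0 k)) Lv yv) with hV
  have hrel := fun {x} {p} hx hp i => rel_all (x := x) (p := p) L3 hb hK0 hK hkN hgeo hy hyk hk₁ hk₂ hL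
    hyv uniq hx hp i
  -- restriction of a state to the windows
  have res : ∀ η, η ⊆ V → cfg V ω (fun i => η ∩ Wi b (zz (zr xr y0 k)) Lv yv i) = ω \ V ∪ η := by
    intro η hη
    ext e
    rw [mem_cfg, mem_union, mem_sdiff]
    constructor
    · rintro (h1 | ⟨i, h1⟩)
      · exact Or.inl h1
      · exact Or.inr (mem_inter.1 h1).1
    · rintro (h1 | h1)
      · exact Or.inl h1
      · right
        have h2 := hη h1
        rw [hV, mem_biUnion] at h2
        obtain ⟨i, -, h3⟩ := h2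
        exact ⟨i, mem_inter.2 ⟨h1, h3⟩⟩
  refine ⟨?_, ?_⟩
  · intro x0 hx0 η0 hη0 hne
    rw [mem_Bo] at hx0
    set f : (Fin m₁ ⊕ Fin m₂ → ℤ × Finset (ℤ × ℤ)) → ℂ := fun p =>
      AX X xr y0 y EL EU k (fun i => (p i).1) (cfg V ω (fun i => (p i).2)) with hf
    set H : Fin m₁ ⊕ Fin m₂ → ℤ × Finset (ℤ × ℤ) → ℂ := fun i q =>
      hX xr y0 k b Lv yv ω i q.1 q.2 with hH
    set D : Fin m₁ ⊕ Fin m₂ → Set (ℤ × Finset (ℤ × ℤ)) := fun i =>
      {q | q.1 ∈ dy b (Lv i) (yv i) ∧ q.2 ⊆ Wi b (zz (zr xr y0 k)) Lv yv i} with hD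
    have h2 : ∀ p, (∀ i, p i ∈ D i) → ∀ i, ∀ q ∈ D i,
        f p * H i q = f (Function.update p i q) * H i (p i) := by
      intro p hp i q hq
      have := (hrel (x := fun i => (p i).1) (p := fun i => (p i).2) (fun i => (hp i).1)
        (fun i => (hp i).2) i).2 q.1 hq.1 q.2 hq.2
      have e1 : (fun j => (Function.update p i q j).1) = Function.update (fun i => (p i).1) i q.1 := by
        funext j
        by_cases hj : j = i
        · subst hj; rw [Function.update_self, Function.update_self]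
        · rw [Function.update_of_ne hj, Function.update_of_ne hj]
      have e2 : (fun j => (Function.update p i q j).2) = Function.update (fun i => (p i).2) i q.2 := by
        funext j
        by_cases hj : j = i
        · subst hj; rw [Function.update_self, Function.update_self]
        · rw [Function.update_of_ne hj, Function.update_of_ne hj]
      rw [hf]
      simp only
      rw [e1, e2]
      exact this
    set P0 : ℂ := ∏ i, H i (x0 i, η0 ∩ Wi b (zz (zr xr y0 k)) Lv yv i) with hP0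
    have hP0n : ‖P0‖ = 1 := by
      rw [hP0, norm_prod]
      exact prod_eq_one fun i _ => hX_norm uniq inter_subset_right (hne i)
    have hP00 : P0 ≠ 0 := by
      intro h; rw [h, norm_zero] at hP0n; exact zero_ne_one hP0n
    refine ⟨AX X xr y0 y EL EU k x0 (ω \ V ∪ η0) / P0, data_of hb uniq ?_, ?_⟩
    · intro x hx η hη
      rw [mem_Bo] at hx
      have key := fact_prod D f H h2 (p := fun i => (x i, η ∩ Wi b (zz (zr xr y0 k)) Lv yv i))
        (p0 := fun i => (x0 i, η0 ∩ Wi b (zz (zr xr y0 k)) Lv yv i))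
        (fun i => ⟨hx i, inter_subset_right⟩) (fun i => ⟨hx0 i, inter_subset_right⟩)
      rw [hf] at key
      simp only at key
      rw [res η hη, res η0 hη0] at key
      rw [div_mul_eq_mul_div, eq_div_iff hP00]
      exact key
    · rw [norm_div, hP0n, div_one]
  · intro hall
    refine data_of hb uniq ?_
    intro x hx η hη
    obtain ⟨i, hi⟩ := hall x hx η hη
    rw [mem_Bo] at hx
    have h1 := (hrel (x := x) (p := fun i => η ∩ Wi b (zz (zr xr y0 k)) Lv yv i) hx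
      (fun i => inter_subset_right) i).1 hi
    rw [res η hη] at h1
    rw [h1, zero_mul]

end

end Pool.Agent.H69.M6b
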