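import Mathlib
import Pool.Agent.H69.M6b.F1
import Pool.Agent.H69.M6b.First

set_option autoImplicit false
set_option linter.unusedSectionVars false
set_option linter.unusedVariables false
open Finset

/-! # The outer factor as the amplitude of the first crossings

`amp_first`: the outer factor of the factorization is, in modulus, the state sum of the row with coupons at
the columns `x1 i` of the first crossings of the strands of the windows. -/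

namespace Pool.Agent.H69.M6b

open Pool.Agent.H75.Perc Pool.Agent.H75.TwoArm Pool.Agent.Q1 Pool.Agent.H81.G1
open Pool.Agent.H30.Mid (RS rl rp rcr HasRow AR cA cB ug cs rtiles AR_none AR_triv AR_net)
open Pool.Agent.Q1.M6b.Gl (gE tr mem_tr)
open Pool.Agent.Q1.M6b.Gd
open Pool.Agent.Q1.M6b (dy mem_dy cells)
open Pool.Agent.H47.NC (Bq mem_Bq)

/-! ### One window -/

section
variable {X : Env} {N : ℕ} {xr y0 k : ℤ} {EL EU : Finset (ℤ × ℤ)} {y : Fin N × Dir}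
  {cr : ℤ → ℤ × ℤ} {cz : ℤ → ℤ} {I : Finset ℤ} {In Out ω ζ η : Finset (ℤ × ℤ)} {hN : 0 < N}
  {c0 w h : ℕ} {x : ℤ} {S : Finset (Fin N)} {c : Fin N}

/-- **The first crossing of the strand of a window of the row.** -/
theorem env_first (L : Lay3 X N xr y0 EL EU) (W : WG EL EU N xr y0 k y.1 cr cz I In Out hN c0 w h)
    (hy : inc (rp xr y0) y = true) (hS : ∀ i < w, clS N c0 hN i ∉ S)
    (uniq : ∀ a a', FarIn In Out ω a → FarIn In Out ω a' → a = a') (hx : x ∈ I) (hη : η ⊆ In)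
    (hζ : Loc In Out ω η ζ) (hc : ((c : Fin N) : ℤ) - k = cz x) (dflt : TI X)
    (hm : Meets (X.freeze (RS N xr y0) (ug EL EU (1, -1) ζ)))
    (hne : AS X xr y0 y EL EU (insert c S) ζ ≠ 0) :
    ∃ e : Bool, ∃ x1 < w, World.NearE (TS X dflt (xr + c0) y0 h) w h (clS N c0 hN)
        (Isf (TS X dflt (xr + c0) y0 h) w h (xr + c0) y0 In) (net (rtiles L.row _) hm y) e x1 ∧
      (∀ z, FarIn In Out ζ z → Con ζ (gE EL EU (1, -1)) z
        (sm true y0 (xr - y0 + 1 + ((clS N c0 hN x1 : Fin N) : ℕ)))) ∧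
      ∀ S' : Finset (Fin N), (∀ i < w, clS N c0 hN i ∉ S') →
        ‖AS X xr y0 y EL EU (insert c S') ζ‖ =
          ‖AS X xr y0 y EL EU (insert (clS N c0 hN x1) S') ζ‖ := by
  obtain ⟨ρ0, m, hR⟩ := RootP.exists (meets_sub L hm)
  obtain ⟨i, hi, rfl, hu, hd, hcr⟩ := W.at hx hc
  have V := world_env (L.box W.G) hN dflt ρ0 ρ0
  have hF := L.fz (ug EL EU (1, -1) ζ)
  have R := L.net (L.box W.G).row hm y
  have hI := ind_env hF R ρ0 ρ0
  have hRt : World.Rt (netS X ρ0 ρ0) (stt lbS pS (ug EL EU (1, -1) ζ)) (τS (L.box W.G).row) w h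
      (clS N c0 hN) (TS X dflt (xr + c0) y0 h) (net (rtiles L.row _) hm y) ρ0 _ :=
    ⟨root_nb (L.box W.G) dflt hR, root_nc (L.box W.G) hN hR, root_pr hF rfl R hR ρ0 ρ0⟩
  have hab : ∀ S' : Finset (Fin N), (∀ i < w, clS N c0 hN i ∉ S') → ∀ i < w,
      cA S' (zt ^ (4 : ℤ)) (clS N c0 hN i) = zt ^ (4 : ℤ) ∧
        cB S' (zt ^ (-4 : ℤ)) (clS N c0 hN i) = zt ^ (-4 : ℤ) := by
    intro S' hS' i hi
    unfold cA cB
    rw [if_neg (hS' i hi), if_neg (hS' i hi)]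
    exact ⟨rfl, rfl⟩
  have eA : ∀ (S' : Finset (Fin N)) (j : ℕ), AS X xr y0 y EL EU (insert (clS N c0 hN j) S') ζ =
      cpn (net (rtiles L.row _) hm y) (fun k => ph0 X xr y0 y m (k +
        (dsh (X.freeze (RS N xr y0) (ug EL EU (1, -1) ζ))
          (rn0 (X.freeze (RS N xr y0) (ug EL EU (1, -1) ζ))) - dsh X m)))
        (cA S' (zt ^ (4 : ℤ))) (cB S' (zt ^ (-4 : ℤ))) (clS N c0 hN j) := by
    intro S' j
    rw [cpn_eq]
    exact AR_eq L hy hm m (insert_nonempty _ _) _ _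
  have hξ : (zt ^ (2 : ℤ)) ^ 2 = zt ^ (4 : ℤ) := by rw [← zpow_natCast, ← zpow_mul]; norm_num
  have hun : ∀ e e', FarIn In Out ζ e → FarIn In Out ζ e' → e = e' := fun e e' h1 h2 =>
    uniq e e' ((hζ.far hη).1 h1) ((hζ.far hη).1 h2)
  rw [eA] at hne
  obtain ⟨e, x1, hx1, h1, h3, h2⟩ := V.win_first (L.sg W.G dflt ζ) W.ob hun hI hRt
    (fun i hi => W.mark i hi) over_zt hξ (hab S hS) hi hu hd hne
  have hsub : {e | BL (xr + c0) y0 w h e} ⊆ (gE EL EU (1, -1) : Set (ℤ × ℤ)) := by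
    rintro e ⟨i, hi, j, hj, rfl⟩
    have := W.G.box i j (by omega) (by omega) (by omega) (by omega)
    exact this
  have ev : ((clS N c0 hN x1 : Fin N) : ℕ) = c0 + x1 := by
    have := W.G.c2
    unfold clS
    simp only
    exact Nat.mod_eq_of_lt (by omega)
  refine ⟨e, x1, hx1, h1, fun z hz => ?_, fun S' hS' => ?_⟩
  · have h4 := h3 z hz
    rw [sgc_eq] at h4
    have h5 : xr + c0 + (x1 : ℤ) - y0 + 1 = xr - y0 + 1 + ((clS N c0 hN x1 : Fin N) : ℕ) := by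
      rw [ev]; push_cast; ring
    rw [h5] at h4
    rcases h4 with ⟨n, g1, g2⟩ | ⟨n, g1, g2⟩
    · exact Or.inl ⟨n, g1, fun t ht => hsub (g2 t ht)⟩
    · exact Or.inr ⟨n, g1, fun t ht => hsub (g2 t ht)⟩
  rw [eA, eA]
  exact h2 over_zt hξ (by rw [norm_zpow, zt_norm, one_zpow]) (hab S' hS') _

end

/-- the near property of a window, in columns of the row: centre `cc`, radii `rI` (inner box) and `rB`
(big box) -/
def Near {N : ℕ} (Nw : Net (Fin N)) (e : Bool) (x1 : Fin N) (cc rI rB : ℤ) : Prop :=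
  ∃ S : Finset (Fin N), S.card ≤ 2 ∧ ∀ c : Fin N, |((c : ℕ) : ℤ) - cc| ≤ rI → c ∉ S →
    ∃ c' : Fin N, Nw.π (c, sd e) = (c', sd e) ∧ |((c' : ℕ) : ℤ) - cc| ≤ rB ∧
      ¬ (c < x1 ∧ x1 < c') ∧ ¬ (c' < x1 ∧ x1 < c)

/-! ### Positions of the windows -/

section
variable {b K : ℤ} {S m N' : ℕ} {κ : Fin m → ℕ × ℤ}

lemma cells_lt (hb : 2 ≤ b) (hK : 1 ≤ K) (hk : κ ∈ cells b K S m N') {i : Fin m} {x : ℤ}
    (hx : x ∈ dy b (κ i).1 (κ i).2) : x < N' := by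
  obtain ⟨h1, h2⟩ := dy_bd hb hx
  by_cases h0 : (κ i).1 = 0
  · obtain ⟨j, hj, rfl⟩ := cells_key hk
    obtain ⟨h3, -⟩ := Pool.Agent.Q1.M6b.mem_inc.1 hj
    unfold Pool.Agent.Q1.M6b.key at h0 hx
    simp only at h0 hx
    rw [h0, mem_dy hb, pow_zero, Int.ediv_one, Int.ediv_one] at hx
    rw [hx]; exact (h3 i).2
  · obtain ⟨g1, g2⟩ := cells_ends hb hK hk (Nat.pos_of_ne_zero h0)
    have : b ^ (κ i).1 ≤ K * b ^ (κ i).1 := by
      have : 0 < b ^ (κ i).1 := by positivity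
      nlinarith
    omega

lemma cells_inj (hb : 2 ≤ b) (hk : κ ∈ cells b K S m N') {i i' : Fin m} (hne : i ≠ i')
    (h0 : (κ i).1 = 0) (h0' : (κ i').1 = 0) : (κ i).2 ≠ (κ i').2 := by
  obtain ⟨j, hj, rfl⟩ := cells_key hk
  obtain ⟨-, h3⟩ := Pool.Agent.Q1.M6b.mem_inc.1 hj
  unfold Pool.Agent.Q1.M6b.key at h0 h0' ⊢
  simp only at h0 h0' ⊢
  rw [h0, h0', pow_zero, Int.ediv_one, Int.ediv_one]
  exact fun hh => hne (h3.injective hh)

end

section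
variable {N : ℕ} {k : ℕ} {b K K0 : ℤ} {S m₁ m₂ : ℕ} {k₁ : Fin m₁ → ℕ × ℤ} {k₂ : Fin m₂ → ℕ × ℤ}
  {Lv : Fin m₁ ⊕ Fin m₂ → ℕ} {yv : Fin m₁ ⊕ Fin m₂ → ℤ}

/-- centre of a window -/
def ctz {m₁ m₂ : ℕ} (k : ℕ) (b : ℤ) (Lv : Fin m₁ ⊕ Fin m₂ → ℕ) (yv : Fin m₁ ⊕ Fin m₂ → ℤ)
    (i : Fin m₁ ⊕ Fin m₂) : ℤ := k + czz i (b ^ Lv i * yv i)

/-- radius of the big box of a window -/
def rad {m₁ m₂ : ℕ} (b : ℤ) (Lv : Fin m₁ ⊕ Fin m₂ → ℕ) (i : Fin m₁ ⊕ Fin m₂) : ℤ :=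
  if Lv i = 0 then 0 else 2 * (b ^ (Lv i + 1) + 1) + 1

/-- the columns of the cells are columns of the row -/
lemma col_range (hb : 2 ≤ b) (hK : 1 ≤ K) (hkN : k ≤ N) (hk₁ : k₁ ∈ cells b K S m₁ k)
    (hk₂ : k₂ ∈ cells b K S m₂ (N - k)) {i : Fin m₁ ⊕ Fin m₂} {x : ℤ}
    (hx : x ∈ dy b (lv2 k₁ k₂ i) (nu2 k₁ k₂ i)) : 0 ≤ (k : ℤ) + czz i x ∧ (k : ℤ) + czz i x < N := by
  have h1 := (dy_bd hb hx).1
  rcases i with i | i
  · have h2 := cells_nonneg hb hk₁ i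
    have h3 := cells_lt hb hK hk₁ (i := i) hx
    have h4 : 0 ≤ b ^ (k₁ i).1 * (k₁ i).2 := mul_nonneg (by positivity) h2
    have h5 : b ^ (k₁ i).1 * (k₁ i).2 ≤ x := h1
    change 0 ≤ (k : ℤ) + (-1 - x) ∧ (k : ℤ) + (-1 - x) < N
    omega
  · have h2 := cells_nonneg hb hk₂ i
    have h3 := cells_lt hb hK hk₂ (i := i) hx
    have h4 : 0 ≤ b ^ (k₂ i).1 * (k₂ i).2 := mul_nonneg (by positivity) h2
    have h5 : b ^ (k₂ i).1 * (k₂ i).2 ≤ x := h1
    change 0 ≤ (k : ℤ) + x ∧ (k : ℤ) + x < N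
    omega

/-- the big boxes of the windows are disjoint -/
lemma rad_sep (hb : 4 ≤ b) (hK : 4 * b + 9 ≤ K) {N₁ N₂ : ℕ} (hk₁ : k₁ ∈ cells b K S m₁ N₁)
    (hk₂ : k₂ ∈ cells b K S m₂ N₂) (hL : Lv ∈ Lev (lv2 k₁ k₂))
    (hyv : yv ∈ Num b (lv2 k₁ k₂) (nu2 k₁ k₂) Lv) {i i' : Fin m₁ ⊕ Fin m₂} (hne : i ≠ i') :
    rad b Lv i + rad b Lv i' < |ctz k b Lv yv i' - ctz k b Lv yv i| := by
  have hLi := mem_Lev.1 hL
  have hyi := mem_Num.1 hyv
  have top : ∀ i, b ^ Lv i * yv i ∈ dy b (lv2 k₁ k₂ i) (nu2 k₁ k₂ i) := fun i =>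
    dy_trans (by omega) (hLi i) (cen_dy (by omega) _ _) (hyi i)
  have hrad : ∀ i, rad b Lv i ≤ (2 * b + 3) * b ^ lv2 k₁ k₂ i ∧ (lv2 k₁ k₂ i = 0 → rad b Lv i = 0) := by
    intro i
    have h1 := hLi i
    have hp : 0 < b ^ lv2 k₁ k₂ i := by positivity
    unfold rad
    split_ifs with h0
    · exact ⟨mul_nonneg (by omega) hp.le, fun _ => rfl⟩
    · refine ⟨?_, fun h2 => by omega⟩
      have h2 : b ^ Lv i ≤ b ^ lv2 k₁ k₂ i := pow_le_pow_right₀ (by omega) h1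
      have h3 : b ≤ b ^ lv2 k₁ k₂ i := by
        calc b = b ^ 1 := (pow_one b).symm
          _ ≤ b ^ lv2 k₁ k₂ i := pow_le_pow_right₀ (by omega) (by omega)
      rw [pow_succ]
      nlinarith
  have e : ctz k b Lv yv i' - ctz k b Lv yv i = czz i' (b ^ Lv i' * yv i') - czz i (b ^ Lv i * yv i) := by
    unfold ctz; ring
  rw [e]
  have big : ∀ {i i' : Fin m₁ ⊕ Fin m₂}, i ≠ i' → lv2 k₁ k₂ i' ≤ lv2 k₁ k₂ i → 0 < lv2 k₁ k₂ i →
      rad b Lv i + rad b Lv i' < |czz i' (b ^ Lv i' * yv i') - czz i (b ^ Lv i * yv i)| := by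
    intro i i' hne hle hpos
    have h1 := win_sep (by omega) (by omega) hk₁ hk₂ hne hpos (top i) (top i')
    have h2 := (hrad i).1
    have h3 := (hrad i').1
    have h4 : b ^ lv2 k₁ k₂ i' ≤ b ^ lv2 k₁ k₂ i := pow_le_pow_right₀ (by omega) hle
    have h5 : (2 * b + 3) * b ^ lv2 k₁ k₂ i' ≤ (2 * b + 3) * b ^ lv2 k₁ k₂ i :=
      mul_le_mul_of_nonneg_left h4 (by omega)
    have hp : 0 < b ^ lv2 k₁ k₂ i := by positivity
    have h6 : (4 * b + 6) * b ^ lv2 k₁ k₂ i ≤ (K - 2) * b ^ lv2 k₁ k₂ i :=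
      mul_le_mul_of_nonneg_right (by omega) hp.le
    have e2 : (4 * b + 6) * b ^ lv2 k₁ k₂ i = (2 * b + 3) * b ^ lv2 k₁ k₂ i +
      (2 * b + 3) * b ^ lv2 k₁ k₂ i := by ring
    linarith
  rcases Nat.eq_zero_or_pos (lv2 k₁ k₂ i) with hz | hz <;>
    rcases Nat.eq_zero_or_pos (lv2 k₁ k₂ i') with hz' | hz'
  · rw [(hrad i).2 hz, (hrad i').2 hz', add_zero, abs_pos, sub_ne_zero]
    have l0 : Lv i = 0 := by have := hLi i; omega
    have l0' : Lv i' = 0 := by have := hLi i'; omega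
    have v : ∀ i, lv2 k₁ k₂ i = 0 → b ^ Lv i * yv i = nu2 k₁ k₂ i := by
      intro i hz
      have h1 := top i
      rw [hz, mem_dy (by omega), pow_zero, Int.ediv_one] at h1
      exact h1
    rw [v i hz, v i' hz']
    rcases i with i | i <;> rcases i' with i' | i'
    · have := cells_inj (b := b) (by omega) hk₁ (i := i) (i' := i') (fun h => hne (by rw [h])) hz hz'
      change ¬ (-1 - (k₁ i').2 = -1 - (k₁ i).2)
      omega
    · have h1 := cells_nonneg (b := b) (by omega) hk₁ i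
      have h2 := cells_nonneg (b := b) (by omega) hk₂ i'
      change ¬ ((k₂ i').2 = -1 - (k₁ i).2)
      omega
    · have h1 := cells_nonneg (b := b) (by omega) hk₂ i
      have h2 := cells_nonneg (b := b) (by omega) hk₁ i'
      change ¬ (-1 - (k₁ i').2 = (k₂ i).2)
      omega
    · have := cells_inj (b := b) (by omega) hk₂ (i := i) (i' := i') (fun h => hne (by rw [h])) hz hz'
      change ¬ ((k₂ i').2 = (k₂ i).2)
      omega
  · have := big hne.symm (by omega) hz'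
    rw [abs_sub_comm, add_comm]
    exact this
  · exact big hne (by omega) hz
  · rcases le_total (lv2 k₁ k₂ i') (lv2 k₁ k₂ i) with hle | hle
    · exact big hne hle hz
    · have := big hne.symm hle hz'
      rw [abs_sub_comm, add_comm]
      exact this

end

end Pool.Agent.H69.M6b
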