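import Mathlib
import Pool.Agent.H69.M6b.F1d

set_option autoImplicit false
set_option linter.unusedSectionVars false
set_option linter.unusedVariables false
open Finset

/-! # The outer factor: state sum of the row with coupons at the first crossings -/

namespace Pool.Agent.H69.M6b

open Pool.Agent.H75.Perc Pool.Agent.H75.TwoArm Pool.Agent.Q1 Pool.Agent.H81.G1
open Pool.Agent.H30.Mid (RS rl rp rcr HasRow AR cA cB ug cs rtiles AR_none AR_triv AR_net AR_triv_zero)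
open Pool.Agent.Q1.M6b.Gl (gE tr mem_tr)
open Pool.Agent.Q1.M6b.Gd
open Pool.Agent.Q1.M6b (dy mem_dy cells)
open Pool.Agent.H47.NC (Bq mem_Bq)

section
variable {X : Env} {EL EU : Finset (ℤ × ℤ)} {N : ℕ} {xr y0 : ℤ} {k : ℕ} {y : Fin N × Dir}
  {b K K0 : ℤ} {S m₁ m₂ : ℕ} {k₁ : Fin m₁ → ℕ × ℤ} {k₂ : Fin m₂ → ℕ × ℤ}
  {Lv : Fin m₁ ⊕ Fin m₂ → ℕ} {yv : Fin m₁ ⊕ Fin m₂ → ℤ} {ω ζ η0 : Finset (ℤ × ℤ)}

/-- near property of a window from the near property of the box -/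
lemma near_of (hb : 4 ≤ b) {i : Fin m₁ ⊕ Fin m₂} (hi : Lv i ≠ 0) {hN : 0 < N} {c0 R : ℕ}
    (hR : (R : ℤ) = b ^ (Lv i + 1) + 1) (hc0 : (c0 : ℤ) = k + czz i (b ^ Lv i * yv i) - (2 * R + 1))
    (hN2 : c0 + (2 * (2 * R + 1) + 1) < N) {dflt : TI X} {Nw : Net (Fin N)} {e : Bool} {x1 : ℕ}
    (hx1 : x1 < 2 * (2 * R + 1) + 1)
    (hn : World.NearE (TS X dflt (xr + c0) y0 (2 * R + 1)) (2 * (2 * R + 1) + 1) (2 * R + 1)
      (clS N c0 hN) (Isf (TS X dflt (xr + c0) y0 (2 * R + 1)) (2 * (2 * R + 1) + 1) (2 * R + 1)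
        (xr + c0) y0 (InB b (zz (zr xr y0 k) i) (Lv i) (yv i))) Nw e x1) :
    |(((clS N c0 hN x1 : Fin N) : ℕ) : ℤ) - ctz k b Lv yv i| ≤ rad b Lv i ∧
      Near Nw e (clS N c0 hN x1) (ctz k b Lv yv i) (8 * b ^ Lv i - 2) (rad b Lv i) := by
  classical
  have clv : ∀ j < 2 * (2 * R + 1) + 1, ((clS N c0 hN j : Fin N) : ℕ) = c0 + j := by
    intro j hj
    unfold clS
    simp only
    exact Nat.mod_eq_of_lt (by omega)
  have hcc : ctz k b Lv yv i = c0 + (2 * R + 1) := by unfold ctz; rw [hc0]; ring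
  have hrad : rad b Lv i = 2 * R + 1 := by unfold rad; rw [if_neg hi, hR]
  have hbl : 8 * b ^ Lv i ≤ 2 * R := by
    rw [hR, pow_succ]
    have : 0 < b ^ Lv i := by positivity
    nlinarith
  refine ⟨?_, ?_⟩
  · rw [clv x1 hx1, hcc, hrad, abs_le]
    push_cast
    omega
  · obtain ⟨S, hS, hc⟩ := hn
    refine ⟨S.image (clS N c0 hN), card_image_le.trans hS, ?_⟩
    intro c hcr hcS
    have hcr' := hcr
    rw [hcc, abs_le] at hcr'
    set ic : ℕ := (c : ℕ) - c0 with hic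
    have hic2 : (c : ℕ) = c0 + ic := by omega
    have hicw : ic < 2 * (2 * R + 1) + 1 := by omega
    have ec : c = clS N c0 hN ic := Fin.ext (by rw [clv ic hicw]; exact hic2)
    have hlab := nl_of (xr := xr) (y0 := y0) (k := (k : ℤ)) hb (cz := czz i) (z := zr xr y0 k)
      (fun j => rfl) hc0 (i := ic) (by
        have e1 : (c0 : ℤ) + ic - (k + czz i (b ^ Lv i * yv i)) = ((c : ℕ) : ℤ) - ctz k b Lv yv i := by
          rw [hic2]; unfold ctz; push_cast; ring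
        rw [e1]; exact hcr)
    have eIn : InB b (zz (zr xr y0 k) i) (Lv i) (yv i) =
        InB b (fun x => zr xr y0 k (czz i x)) (Lv i) (yv i) := by rw [zz_czz]
    have hts : Isf (TS X dflt (xr + c0) y0 (2 * R + 1)) (2 * (2 * R + 1) + 1) (2 * R + 1)
        (xr + c0) y0 (InB b (zz (zr xr y0 k) i) (Lv i) (yv i))
        (World.ts (TS X dflt (xr + c0) y0 (2 * R + 1)) (2 * R + 1) e ic) := by
      cases e
      · exact ⟨ic, hicw, 2 * R + 1 - 1, by omega, rfl, by rw [eIn]; exact hlab.2⟩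
      · exact ⟨ic, hicw, 2 * R + 1, by omega, rfl, by rw [eIn]; exact hlab.1⟩
    have hnS : ic ∉ S := fun hh => hcS (by rw [ec]; exact mem_image_of_mem _ hh)
    obtain ⟨c', hc', h1, h2, h3⟩ := hc ic hicw hts hnS
    refine ⟨clS N c0 hN c', by rw [ec]; exact h1, ?_, ?_, ?_⟩
    · rw [clv c' hc', hcc, hrad, abs_le]
      push_cast
      omega
    · rintro ⟨g1, g2⟩
      rw [Fin.lt_def, clv x1 hx1] at g1
      rw [Fin.lt_def, clv x1 hx1, clv c' hc'] at g2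
      exact h2 ⟨by omega, by omega⟩
    · rintro ⟨g1, g2⟩
      rw [Fin.lt_def, clv x1 hx1, clv c' hc'] at g1
      rw [Fin.lt_def, clv x1 hx1] at g2
      exact h3 ⟨by omega, by omega⟩

/-- the reference: columns `x1 i` and sides `e i` of the windows -/
structure Ref (k : ℕ) (b : ℤ) (Lv : Fin m₁ ⊕ Fin m₂ → ℕ) (yv : Fin m₁ ⊕ Fin m₂ → ℤ)
    (Nw : Net (Fin N)) (x1 : Fin m₁ ⊕ Fin m₂ → Fin N) (e : Fin m₁ ⊕ Fin m₂ → Bool) : Prop where
  pt : ∀ i, Lv i = 0 → ((x1 i : ℕ) : ℤ) = ctz k b Lv yv i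
  bd : ∀ i, |((x1 i : ℕ) : ℤ) - ctz k b Lv yv i| ≤ rad b Lv i
  near : ∀ i, Lv i ≠ 0 → Near Nw (e i) (x1 i) (ctz k b Lv yv i) (8 * b ^ Lv i - 2) (rad b Lv i)

/-- the big boxes are inside the row and do not contain the mark -/
theorem rad_in (hb : 4 ≤ b) (hK0 : 1 ≤ K0) (hK : K0 * (4 * b + 8) + 1 ≤ K) (hkN : k ≤ N)
    (hgeo : RowGeo (gE EL EU (1, -1)) (zr xr y0 k) K0 k (N - k))
    (hk₁ : k₁ ∈ cells b K S m₁ k) (hk₂ : k₂ ∈ cells b K S m₂ (N - k)) (hL : Lv ∈ Lev (lv2 k₁ k₂))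
    (hyv : yv ∈ Num b (lv2 k₁ k₂) (nu2 k₁ k₂) Lv) {yc : Fin N} (hyk : (yc : ℕ) = k ∨ (yc : ℕ) + 1 = k)
    {i : Fin m₁ ⊕ Fin m₂} (hi : Lv i ≠ 0) :
    0 < ctz k b Lv yv i - rad b Lv i ∧ ctz k b Lv yv i + rad b Lv i + 1 < N ∧
      rad b Lv i < |((yc : ℕ) : ℤ) - ctz k b Lv yv i| := by
  have hN : 0 < N := by have := yc.2; omega
  obtain ⟨c0, R, -, -, hR, hc0, h0, hN2, hm⟩ := win_geo hb hK0 hK hkN hgeo hyk hk₁ hk₂ hL hyv hN hi
  have hcc : ctz k b Lv yv i = c0 + (2 * R + 1) := by unfold ctz; rw [hc0]; ring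
  have hrad : rad b Lv i = 2 * R + 1 := by unfold rad; rw [if_neg hi, hR]
  rw [hcc, hrad]
  refine ⟨by omega, by omega, ?_⟩
  rw [lt_abs]
  omega

/-- **The factorization with the outer factor of the first crossings.** -/
theorem amp_first (L3 : Lay3 X N xr y0 EL EU) (hb : 4 ≤ b) (hK0 : 1 ≤ K0)
    (hK : K0 * (4 * b + 8) + 1 ≤ K) (hkN : k ≤ N)
    (hgeo : RowGeo (gE EL EU (1, -1)) (zr xr y0 k) K0 k (N - k)) (hy : inc (rp xr y0) y = true)
    (hyk : (y.1 : ℕ) = k ∨ (y.1 : ℕ) + 1 = k) (hk₁ : k₁ ∈ cells b K S m₁ k)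
    (hk₂ : k₂ ∈ cells b K S m₂ (N - k)) (hL : Lv ∈ Lev (lv2 k₁ k₂))
    (hyv : yv ∈ Num b (lv2 k₁ k₂) (nu2 k₁ k₂) Lv)
    (uniq : ∀ i, Lv i ≠ 0 → ∀ a a', FarIn (InB b (zz (zr xr y0 k) i) (Lv i) (yv i))
      (OutB b (zz (zr xr y0 k) i) (Lv i) (yv i)) ω a → FarIn (InB b (zz (zr xr y0 k) i) (Lv i) (yv i))
      (OutB b (zz (zr xr y0 k) i) (Lv i) (yv i)) ω a' → a = a') :
    ∃ A, AmpData b (zz (zr xr y0 k)) Lv yv ω (fun x ζ => AX X xr y0 y EL EU k x ζ) A
        (hX xr y0 k b Lv yv ω) ∧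
      (‖A‖ ≤ 1 ∨ ∃ η0, η0 ⊆ univ.biUnion (Wi b (zz (zr xr y0 k)) Lv yv) ∧
        ∃ (x1 : Fin m₁ ⊕ Fin m₂ → Fin N) (e : Fin m₁ ⊕ Fin m₂ → Bool)
          (hm : Meets (X.freeze (RS N xr y0) (ug EL EU (1, -1)
            (ω \ (univ.biUnion (Wi b (zz (zr xr y0 k)) Lv yv)) ∪ η0)))),
          y ≠ rx0 (rtiles L3.row _) hm ∧
          ‖A‖ = ‖(net (rtiles L3.row _) hm y).Z (cA (univ.image x1) (zt ^ (4 : ℤ)))
            (cB (univ.image x1) (zt ^ (-4 : ℤ)))‖ ∧
          Ref k b Lv yv (net (rtiles L3.row _) hm y) x1 e ∧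
          ∀ i, Lv i ≠ 0 → ∀ a, FarIn (InB b (zz (zr xr y0 k) i) (Lv i) (yv i))
            (OutB b (zz (zr xr y0 k) i) (Lv i) (yv i))
            (ω \ (univ.biUnion (Wi b (zz (zr xr y0 k)) Lv yv)) ∪ η0) a →
            Con (ω \ (univ.biUnion (Wi b (zz (zr xr y0 k)) Lv yv)) ∪ η0) (gE EL EU (1, -1)) a
              (sm true y0 (xr - y0 + 1 + (x1 i : ℕ)))) := by
  classical
  set V := univ.biUnion (Wi b (zz (zr xr y0 k)) Lv yv) with hV
  obtain ⟨D1, D2⟩ := amp_data L3 hb hK0 hK hkN hgeo hy hyk hk₁ hk₂ hL hyv uniq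
  have hN : 0 < N := by have := y.1.2; omega
  have hK2 : 4 * b + 9 ≤ K := by nlinarith
  by_cases hgood : ∃ x0 ∈ Bo b Lv yv, ∃ η0, η0 ⊆ V ∧
      ∀ i, hX xr y0 k b Lv yv ω i (x0 i) (η0 ∩ Wi b (zz (zr xr y0 k)) Lv yv i) ≠ 0
  swap
  · push Not at hgood
    exact ⟨0, D2 hgood, Or.inl (by rw [norm_zero]; exact zero_le_one)⟩
  obtain ⟨x0, hx0, η0, hη0, hne⟩ := hgood
  obtain ⟨A, hA, hAn⟩ := D1 x0 hx0 η0 hη0 hne
  refine ⟨A, hA, ?_⟩
  by_cases hle : ‖A‖ ≤ 1
  · exact Or.inl hle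
  right
  refine ⟨η0, hη0, ?_⟩
  set ζ := ω \ V ∪ η0 with hζdef
  have hx0' := mem_Bo.1 hx0
  have hLi := mem_Lev.1 hL
  have hyi := mem_Num.1 hyv
  have top : ∀ i, x0 i ∈ dy b (lv2 k₁ k₂ i) (nu2 k₁ k₂ i) := fun i =>
    dy_trans (by omega) (hLi i) (hx0' i) (hyi i)
  -- the columns of the reference
  have hrg : ∀ i, 0 ≤ (k : ℤ) + czz i (x0 i) ∧ (k : ℤ) + czz i (x0 i) < N := fun i =>
    col_range (by omega) (by omega) hkN hk₁ hk₂ (top i)
  set xc : Fin m₁ ⊕ Fin m₂ → Fin N := fun i =>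
    ⟨((k : ℤ) + czz i (x0 i)).toNat, by have := hrg i; omega⟩ with hxc
  have hxcv : ∀ i, ((xc i : ℕ) : ℤ) = k + czz i (x0 i) := by
    intro i
    have := hrg i
    change ((((k : ℤ) + czz i (x0 i)).toNat : ℕ) : ℤ) = _
    omega
  have hcs : cs N k (cols2 x0) = univ.image xc := by
    ext c
    unfold cs
    rw [mem_filter, cols2_eq, mem_image, mem_image]
    constructor
    · rintro ⟨-, i, -, hi⟩
      exact ⟨i, mem_univ _, Fin.ext (by have := hxcv i; omega)⟩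
    · rintro ⟨i, -, rfl⟩
      exact ⟨mem_univ _, i, mem_univ _, by have := hxcv i; omega⟩
  have eAX : AX X xr y0 y EL EU k x0 ζ = AS X xr y0 y EL EU (univ.image xc) ζ := by
    unfold AX Pool.Agent.H30.Mid.Amp AS
    rw [hcs]
  rw [eAX] at hAn
  have hAne : AS X xr y0 y EL EU (univ.image xc) ζ ≠ 0 := by
    intro h0
    rw [h0, norm_zero] at hAn
    rw [hAn] at hle
    exact hle zero_le_one
  have hm : Meets (X.freeze (RS N xr y0) (ug EL EU (1, -1) ζ)) := by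
    by_contra hm
    exact hAne (AR_none L3.row hy hm)
  have hrx : y ≠ rx0 (rtiles L3.row _) hm := by
    intro hrx
    rcases (univ.image xc).eq_empty_or_nonempty with h0 | h0
    · apply hle
      rw [hAn, h0]
      have e1 : AS X xr y0 y EL EU ∅ ζ = Pool.Agent.Q1.ph _ * ∏ i, ((cA ∅ (zt ^ (4 : ℤ)) : Fin N → ℂ) i +
          (cB ∅ (zt ^ (-4 : ℤ)) : Fin N → ℂ) i) := AR_triv L3.row hm hrx
      rw [e1]
      have e2 : ∏ i, ((cA ∅ (zt ^ (4 : ℤ)) : Fin N → ℂ) i + (cB ∅ (zt ^ (-4 : ℤ)) : Fin N → ℂ) i) = 1 := by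
        refine prod_eq_one fun i _ => ?_
        unfold cA cB
        rw [if_neg (notMem_empty _), if_neg (notMem_empty _)]
        exact over_zt.add
      rw [e2, mul_one]
      exact (Pool.Agent.Q1.ph_norm _).le
    · exact hAne (AR_triv_zero L3.row hm hrx h0 _ _)
  -- the data of the windows
  have dflt : TI X := ⟨lbt (xr + ((y.1 : ℕ) : ℤ)) y0, L3.row (Pool.Agent.H30.Mid.mem_RS.2 ⟨y.1, rfl⟩)⟩
  have hxcJ : ∀ i, |((xc i : ℕ) : ℤ) - ctz k b Lv yv i| ≤ rad b Lv i := by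
    intro i
    have h1 := dy_bd (by omega) (hx0' i)
    have e1 : ((xc i : ℕ) : ℤ) - ctz k b Lv yv i = czz i (x0 i) - czz i (b ^ Lv i * yv i) := by
      rw [hxcv]; unfold ctz; ring
    rw [e1, czz_iso]
    unfold rad
    split_ifs with h0
    · rw [h0, pow_zero, one_mul] at h1 ⊢
      rw [abs_le]; omega
    · have hp : 0 < b ^ Lv i := by positivity
      have h2 : b ^ Lv i ≤ b ^ (Lv i + 1) := by rw [pow_succ]; nlinarith
      rw [abs_le]; omega
  have ins : ∀ (g : Fin m₁ ⊕ Fin m₂ → Fin N) j,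
      univ.image g = insert (g j) ((univ.erase j).image g) := by
    intro g j
    rw [← image_insert, insert_erase (mem_univ j)]
  have far : ∀ (g : Fin m₁ ⊕ Fin m₂ → Fin N), (∀ i, |((g i : ℕ) : ℤ) - ctz k b Lv yv i| ≤ rad b Lv i) →
      ∀ j, ∀ c ∈ (univ.erase j).image g, rad b Lv j < |((c : ℕ) : ℤ) - ctz k b Lv yv j| := by
    intro g hg j c hc
    obtain ⟨i, hi, rfl⟩ := mem_image.1 hc
    have hij : j ≠ i := (mem_erase.1 hi).1.symm
    have h1 := rad_sep (k := k) hb hK2 hk₁ hk₂ hL hyv hij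
    have h2 := hg i
    have h3 := abs_sub_le (ctz k b Lv yv i) ((g i : ℕ) : ℤ) (ctz k b Lv yv j)
    have h4 := abs_sub_comm (ctz k b Lv yv i) ((g i : ℕ) : ℤ)
    have h5 := abs_sub_comm (ctz k b Lv yv i) (ctz k b Lv yv j)
    linarith
  have hwin : ∀ i, ∃ (e : Bool) (x1 : Fin N), (Lv i = 0 → x1 = xc i) ∧
      |((x1 : ℕ) : ℤ) - ctz k b Lv yv i| ≤ rad b Lv i ∧
      (Lv i ≠ 0 → Near (net (rtiles L3.row _) hm y) e x1 (ctz k b Lv yv i) (8 * b ^ Lv i - 2)
        (rad b Lv i)) ∧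
      (Lv i ≠ 0 → ∀ a, FarIn (InB b (zz (zr xr y0 k) i) (Lv i) (yv i))
        (OutB b (zz (zr xr y0 k) i) (Lv i) (yv i)) ζ a →
        Con ζ (gE EL EU (1, -1)) a (sm true y0 (xr - y0 + 1 + (x1 : ℕ)))) ∧
      (Lv i ≠ 0 → ∀ S' : Finset (Fin N), (∀ c ∈ S', rad b Lv i < |((c : ℕ) : ℤ) - ctz k b Lv yv i|) →
        ‖AS X xr y0 y EL EU (insert (xc i) S') ζ‖ = ‖AS X xr y0 y EL EU (insert x1 S') ζ‖) := by
    intro i
    by_cases hi : Lv i = 0
    · exact ⟨true, xc i, fun _ => rfl, hxcJ i, fun h => absurd hi h, fun h => absurd hi h,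
        fun h => absurd hi h⟩
    · obtain ⟨c0, R, W, hfar, hR, hc0, hc0p, hN2, -⟩ :=
        win_geo hb hK0 hK hkN hgeo hyk hk₁ hk₂ hL hyv hN hi
      have hcc : ctz k b Lv yv i = c0 + (2 * R + 1) := by unfold ctz; rw [hc0]; ring
      have hrad : rad b Lv i = 2 * R + 1 := by unfold rad; rw [if_neg hi, hR]
      have hnot : ∀ S' : Finset (Fin N), (∀ c ∈ S', rad b Lv i < |((c : ℕ) : ℤ) - ctz k b Lv yv i|) →
          ∀ j < 2 * (2 * R + 1) + 1, clS N c0 hN j ∉ S' := by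
        intro S' hS' j hj hmem
        have h1 := hS' _ hmem
        have h2 : ((clS N c0 hN j : Fin N) : ℕ) = c0 + j := by
          unfold clS
          simp only
          exact Nat.mod_eq_of_lt (by omega)
        rw [h2, hcc, hrad, lt_abs] at h1
        push_cast at h1
        omega
      have hloc : Loc (InB b (zz (zr xr y0 k) i) (Lv i) (yv i))
          (OutB b (zz (zr xr y0 k) i) (Lv i) (yv i)) ω
          (η0 ∩ Wi b (zz (zr xr y0 k)) Lv yv i) ζ := by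
        have eW : Wi b (zz (zr xr y0 k)) Lv yv i = InB b (zz (zr xr y0 k) i) (Lv i) (yv i) := by
          unfold Wi; rw [if_neg hi]
        have hdisj : ∀ j, j ≠ i → ∀ e ∈ OutB b (zz (zr xr y0 k) i) (Lv i) (yv i),
            e ∉ Wi b (zz (zr xr y0 k)) Lv yv j :=
          out_disj hb hgeo (by nlinarith) hk₁ hk₂ hL hyv hi
        intro e he
        rw [hζdef, mem_union, mem_union, mem_sdiff, mem_sdiff, mem_inter]
        constructor
        · rintro (⟨h1, h2⟩ | ⟨h1, h2⟩)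
          · left
            refine ⟨h1, fun h3 => ?_⟩
            rw [hV, mem_biUnion] at h3
            obtain ⟨j, -, h4⟩ := h3
            by_cases hj : j = i
            · subst hj; rw [eW] at h4; exact h2 h4
            · exact hdisj j hj e he h4
          · exact Or.inr h1
        · rintro (⟨h1, h2⟩ | h1)
          · left
            refine ⟨h1, fun h3 => h2 ?_⟩
            rw [hV, mem_biUnion]
            exact ⟨i, mem_univ _, by rw [eW]; exact h3⟩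
          · right
            refine ⟨h1, ?_⟩
            have h2 := hη0 h1
            rw [hV, mem_biUnion] at h2
            obtain ⟨j, -, h4⟩ := h2
            by_cases hj : j = i
            · subst hj; exact h4
            · exact absurd h4 (hdisj j hj e he)
      have hsub : η0 ∩ Wi b (zz (zr xr y0 k)) Lv yv i ⊆ InB b (zz (zr xr y0 k) i) (Lv i) (yv i) := by
        refine inter_subset_right.trans ?_
        unfold Wi; rw [if_neg hi]
      have hne1 : AS X xr y0 y EL EU (insert (xc i) ((univ.erase i).image xc)) ζ ≠ 0 := by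
        rw [← ins xc i]; exact hAne
      obtain ⟨e, x1, hx1, h1, h5, h2⟩ := env_first L3 W hy (hnot _ (far xc hxcJ i)) (uniq i hi) (hx0' i) hsub
        hloc (c := xc i) (by rw [hxcv]; ring) dflt hm hne1
      obtain ⟨h3, h4⟩ := near_of hb hi hR hc0 hN2 hx1 h1
      exact ⟨e, clS N c0 hN x1, fun h => absurd h hi, h3, fun _ => h4, fun _ => h5,
        fun _ S' hS' => h2 S' (hnot S' hS')⟩
  choose e x1 hp1 hp2 hp3 hp5 hp4 using hwin
  -- moving the coupons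
  have hmove : ∀ s : Finset (Fin m₁ ⊕ Fin m₂),
      ‖AS X xr y0 y EL EU (univ.image (fun i => if i ∈ s then x1 i else xc i)) ζ‖ =
        ‖AS X xr y0 y EL EU (univ.image xc) ζ‖ := by
    intro s
    induction s using Finset.induction_on with
    | empty => simp
    | insert j s hj ih =>
      set g : Fin m₁ ⊕ Fin m₂ → Fin N := fun i => if i ∈ s then x1 i else xc i with hg
      set g' : Fin m₁ ⊕ Fin m₂ → Fin N := fun i => if i ∈ insert j s then x1 i else xc i with hg'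
      have hgJ : ∀ i, |((g i : ℕ) : ℤ) - ctz k b Lv yv i| ≤ rad b Lv i := by
        intro i
        rw [hg]
        simp only
        split_ifs
        · exact hp2 i
        · exact hxcJ i
      have e1 : (univ.erase j).image g' = (univ.erase j).image g := by
        refine image_congr ?_
        intro i hi
        have hij : i ≠ j := (mem_erase.1 (mem_coe.1 hi)).1
        rw [hg, hg']
        simp only [mem_insert, hij, false_or]
      have e2 : g' j = x1 j := by rw [hg']; simp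
      have e3 : g j = xc j := by rw [hg]; simp only [hj, if_false]
      rw [ins g' j, e1, e2, ← ih, ins g j, e3]
      by_cases hj0 : Lv j = 0
      · rw [hp1 j hj0]
      · exact (hp4 j hj0 _ (far g hgJ j)).symm
  refine ⟨x1, e, hm, hrx, ?_, ?_, hp5⟩
  · have h1 := hmove univ
    have e1 : (fun i => if i ∈ (univ : Finset (Fin m₁ ⊕ Fin m₂)) then x1 i else xc i) = x1 := by
      funext i; rw [if_pos (mem_univ _)]
    rw [e1] at h1
    rw [hAn, ← h1]
    have h2 : AS X xr y0 y EL EU (univ.image x1) ζ = zt ^ (_ : ℤ) * (net (rtiles L3.row _) hm y).Z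
        (cA (univ.image x1) (zt ^ (4 : ℤ))) (cB (univ.image x1) (zt ^ (-4 : ℤ))) :=
      AR_net L3.row hy hm hrx
    rw [h2, norm_mul, norm_zpow, zt_norm, one_zpow, one_mul]
  · refine ⟨fun i hi => ?_, hp2, hp3⟩
    rw [hp1 i hi]
    have := hxcJ i
    unfold rad at this
    rw [if_pos hi, abs_le] at this
    omega

end

end Pool.Agent.H69.M6b
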