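import Mathlib
import Pool.Agent.H69.M6b.F1e
import Pool.Agent.H81.G1.Ar

set_option autoImplicit false
set_option linter.unusedSectionVars false
set_option linter.unusedVariables false
open Finset

/-! # The hypotheses of the bound of a row with a frame for the reference of the first crossings -/

namespace Pool.Agent.H69.M6b

open Pool.Agent.H75.Perc Pool.Agent.H75.TwoArm Pool.Agent.Q1 Pool.Agent.H81.G1
open Pool.Agent.H30.Mid (RS rl rp rcr HasRow AR cA cB ug cs rtiles)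
open Pool.Agent.Q1.M6b.Gl (gE tr mem_tr)
open Pool.Agent.Q1.M6b.Gd
open Pool.Agent.Q1.M6b (dy mem_dy cells)
open Pool.Agent.Q1.M6b.Strand (pos)
open Pool.Agent.H47.NC (Bq mem_Bq)

section
variable {N k : ℕ} {b K K0 : ℤ} {S m₁ m₂ : ℕ} {k₁ : Fin m₁ → ℕ × ℤ} {k₂ : Fin m₂ → ℕ × ℤ}
  {Lv : Fin m₁ ⊕ Fin m₂ → ℕ} {yv : Fin m₁ ⊕ Fin m₂ → ℤ} {Nw : Net (Fin N)}
  {x1 : Fin m₁ ⊕ Fin m₂ → Fin N} {e : Fin m₁ ⊕ Fin m₂ → Bool}

/-- first column of the window -/
def lW (k : ℕ) (b : ℤ) (Lv : Fin m₁ ⊕ Fin m₂ → ℕ) (yv : Fin m₁ ⊕ Fin m₂ → ℤ)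
    (i : Fin m₁ ⊕ Fin m₂) : ℕ := (ctz k b Lv yv i - rad b Lv i).toNat

/-- last column of the window -/
def rW (k : ℕ) (b : ℤ) (Lv : Fin m₁ ⊕ Fin m₂ → ℕ) (yv : Fin m₁ ⊕ Fin m₂ → ℤ)
    (i : Fin m₁ ⊕ Fin m₂) : ℕ := (ctz k b Lv yv i + rad b Lv i).toNat

/-- columns of the inner box -/
def IvW (N k : ℕ) (b : ℤ) (Lv : Fin m₁ ⊕ Fin m₂ → ℕ) (yv : Fin m₁ ⊕ Fin m₂ → ℤ)
    (i : Fin m₁ ⊕ Fin m₂) : Finset (Fin N) :=
  if Lv i = 0 then ∅ else
    univ.filter fun c : Fin N => |((c : ℕ) : ℤ) - ctz k b Lv yv i| ≤ 8 * b ^ Lv i - 2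

lemma rad_nn (hb : 0 ≤ b) (i : Fin m₁ ⊕ Fin m₂) : 0 ≤ rad b Lv i := by
  unfold rad
  split_ifs
  · exact le_rfl
  · positivity

/-- the window as integers -/
lemma lW_eq (hb : 4 ≤ b) {yc : Fin N}
    (hin : ∀ i, Lv i ≠ 0 → 0 < ctz k b Lv yv i - rad b Lv i ∧
      ctz k b Lv yv i + rad b Lv i + 1 < N ∧ rad b Lv i < |((yc : ℕ) : ℤ) - ctz k b Lv yv i|)
    (hR : Ref k b Lv yv Nw x1 e) (i : Fin m₁ ⊕ Fin m₂) :
    ((lW k b Lv yv i : ℕ) : ℤ) = ctz k b Lv yv i - rad b Lv i ∧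
      ((rW k b Lv yv i : ℕ) : ℤ) = ctz k b Lv yv i + rad b Lv i ∧ rW k b Lv yv i < N := by
  unfold lW rW
  by_cases hi : Lv i = 0
  · have h1 := hR.pt i hi
    have h2 : rad b Lv i = 0 := by unfold rad; rw [if_pos hi]
    have h3 := (x1 i).2
    rw [h2, ← h1]
    omega
  · have h1 := hin i hi
    have h2 := rad_nn (b := b) (Lv := Lv) (by omega) i
    omega

/-- **The windows of the reference.** -/
theorem Ref.winR (hb : 4 ≤ b) {yc : Fin N × Dir} (hyd : yc.2 = .W ∨ yc.2 = .E)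
    (hin : ∀ i, Lv i ≠ 0 → 0 < ctz k b Lv yv i - rad b Lv i ∧
      ctz k b Lv yv i + rad b Lv i + 1 < N ∧ rad b Lv i < |((yc.1 : ℕ) : ℤ) - ctz k b Lv yv i|)
    (hsep : ∀ i i', i ≠ i' → rad b Lv i + rad b Lv i' < |ctz k b Lv yv i' - ctz k b Lv yv i|)
    (hR : Ref k b Lv yv Nw x1 e) {U D : Fin N → Option (Fin N)} (hRM : RM Nw U D) :
    WinR U D (univ.image x1) (pos yc) (lW k b Lv yv) (rW k b Lv yv) x1 e (IvW N k b Lv yv) := by
  classical
  have hlr := lW_eq hb hin hR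
  have hbd := fun i => abs_le.1 (hR.bd i)
  have hpos : (pos yc : ℕ) = yc.1 ∨ (pos yc : ℕ) = (yc.1 : ℕ) + 1 := by
    obtain ⟨c, d⟩ := yc
    rcases hyd with h | h
    · simp only at h; subst h; exact Or.inl rfl
    · simp only at h; subst h; exact Or.inr rfl
  have hposd : pos yc = yc.1 ∧ yc.2 = .W ∨ pos yc = (yc.1 : ℕ) + 1 ∧ yc.2 = .E := by
    obtain ⟨c, d⟩ := yc
    rcases hyd with h | h
    · simp only at h; subst h; exact Or.inl ⟨rfl, rfl⟩
    · simp only at h; subst h; exact Or.inr ⟨rfl, rfl⟩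
  refine ⟨?_, ?_, ?_, ?_, ?_, ?_, ?_, ?_⟩
  · -- disjointness
    intro i j hij
    have h1 := hsep i j hij
    have h2 := hlr i
    have h3 := hlr j
    rw [lt_abs] at h1
    omega
  · intro i
    have h2 := hlr i
    have h3 := hbd i
    omega
  · exact fun i => (hlr i).2.2
  · intro i c hc
    unfold IvW at hc
    split_ifs at hc with h0
    · exact absurd hc (notMem_empty _)
    · have h1 := abs_le.1 (mem_filter.1 hc).2
      have h2 := hlr i
      have h3 : 8 * b ^ Lv i - 2 ≤ rad b Lv i := by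
        unfold rad
        rw [if_neg h0, pow_succ]
        have : 0 < b ^ Lv i := by positivity
        nlinarith
      omega
  · exact fun i => mem_image_of_mem _ (mem_univ _)
  · intro c hc
    obtain ⟨i, -, rfl⟩ := mem_image.1 hc
    exact ⟨i, rfl⟩
  · intro i
    have h2 := hlr i
    by_cases h0 : Lv i = 0
    · have h3 : rad b Lv i = 0 := by unfold rad; rw [if_pos h0]
      omega
    · have h3 := (hin i h0).2.2
      rw [lt_abs] at h3
      omega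
  · intro i
    by_cases h0 : Lv i = 0
    · refine ⟨∅, by simp, fun c hc => ?_⟩
      unfold IvW at hc
      rw [if_pos h0] at hc
      exact absurd hc (notMem_empty _)
    · obtain ⟨S, hS, hc⟩ := hR.near i h0
      refine ⟨S, hS, fun c hcI hcS c' hcc' => ?_⟩
      unfold IvW at hcI
      rw [if_neg h0] at hcI
      obtain ⟨c'', h1, h2, h3, h4⟩ := hc c (mem_filter.1 hcI).2 hcS
      have h5 : Nw.π (c, sd (e i)) = (c', sd (e i)) := by
        cases he : e i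
        · rw [he] at hcc'
          exact (hRM.dn c c' hcc').1
        · rw [he] at hcc'
          exact (hRM.up c c' hcc').1
      rw [h1] at h5
      have h6 : c'' = c' := congrArg Prod.fst h5
      subst h6
      have h7 := hlr i
      have h8 := abs_le.1 h2
      exact ⟨by omega, h3, h4⟩

end

/-! ### The glued configuration with fixed labels -/

section
variable {ζ G W' In Out : Finset (ℤ × ℤ)}

lemma nx_un (hd : Disjoint G W') {c : ℤ × ℤ} (hc : lab c ∈ G) :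
    nx (ζ ∪ W') c = nx ζ c := by
  refine (nx_congr ?_).1
  rw [mem_union]
  exact ⟨fun h => h.resolve_right fun h2 => disjoint_left.1 hd hc h2, Or.inl⟩

lemma iter_un (hd : Disjoint G W') {c : ℤ × ℤ} {n : ℕ} (hc : ∀ t < n, lab ((nx ζ)^[t] c) ∈ G) :
    (nx (ζ ∪ W'))^[n] c = (nx ζ)^[n] c :=
  World.iter_cg (f := nx ζ) (g := nx (ζ ∪ W')) (n := n) (x := c)
    (fun i hi => (nx_un hd (hc i hi)).symm) n le_rfl

lemma Con.un (hd : Disjoint G W') {a c : ℤ × ℤ} (h : Con ζ G a c) :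
    ∃ n, (nx (ζ ∪ W'))^[n] a = c ∨ (nx (ζ ∪ W'))^[n] c = a := by
  rcases h with ⟨n, h1, h2⟩ | ⟨n, h1, h2⟩
  · exact ⟨n, Or.inl (by rw [iter_un hd h2, h1])⟩
  · exact ⟨n, Or.inr (by rw [iter_un hd h2, h1])⟩

lemma far_un (hd : Disjoint G W') (hO : Out ⊆ G) {a : ℤ × ℤ} (h : FarIn In Out (ζ ∪ W') a) :
    FarIn In Out ζ a := by
  obtain ⟨h1, c, m, h2, h3, h4⟩ := h
  have key : ∀ i ≤ m, (nx ζ)^[i] c = (nx (ζ ∪ W'))^[i] c :=
    World.iter_cg (f := nx (ζ ∪ W')) (g := nx ζ) (n := m) (x := c)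
      (fun i hi => nx_un hd (hO (mem_sdiff.1 (h4 i hi)).1))
  refine ⟨h1, c, m, h2, by rw [key m le_rfl]; exact h3, fun i hi => ?_⟩
  rw [key i hi.le]
  exact h4 i hi

end

section
variable {X : Env} {EL EU : Finset (ℤ × ℤ)} {N : ℕ} {xr y0 : ℤ} {k : ℕ} {yc : Fin N}
  {cr : ℤ → ℤ × ℤ} {cz : ℤ → ℤ} {I : Finset ℤ} {In Out : Finset (ℤ × ℤ)} {hN : 0 < N} {c0 w h : ℕ}

/-- the columns with a seam label in the outer box -/
lemma col_out (W : WG EL EU N xr y0 k yc cr cz I In Out hN c0 w h) {c : Fin N}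
    (hc : lab (sm true y0 (xr - y0 + 1 + ((c : ℕ) : ℤ))) ∈ Out) : c0 ≤ (c : ℕ) ∧ (c : ℕ) < c0 + w := by
  obtain ⟨i, hi, j, hj, e⟩ := W.ob _ hc
  have e1 : sm true y0 (xr - y0 + 1 + ((c : ℕ) : ℤ)) = crn (gl xr y0 0 c 0) .S := by
    have := sgc_eq xr y0 0 c
    unfold sgc at this
    rw [this]
    congr 1
    ring
  rw [e1] at e
  have hg := gl_odd xr y0 0 c 0
  have e2 : ∃ v : ℤ, lab (crn (gl xr y0 0 c 0) .S) = lbt (xr + (c : ℕ)) v := by
    cases hc : ic (gl xr y0 0 c 0) .S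
    · rw [lab_crn' hg hc]
      refine ⟨y0 - 1, ?_⟩
      unfold nb gl lbt
      refine Prod.ext ?_ ?_ <;> simp only <;> push_cast <;> ring
    · rw [lab_crn hg hc]
      exact ⟨_, rfl⟩
  obtain ⟨v, e2⟩ := e2
  rw [e2] at e
  unfold gl at e
  have := (lbt_inj e).1
  omega

/-- the labels of the outer box are random -/
lemma out_sub (W : WG EL EU N xr y0 k yc cr cz I In Out hN c0 w h) : Out ⊆ gE EL EU (1, -1) := by
  intro e he
  obtain ⟨i, hi, j, hj, rfl⟩ := W.ob _ he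
  have := W.G.box i j (by omega) (by omega) (by omega) (by omega)
  exact this

end

end Pool.Agent.H69.M6b
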