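import Mathlib
import Pool.Agent.H69.M6b.F1f

set_option autoImplicit false
set_option linter.unusedSectionVars false
set_option linter.unusedVariables false
open Finset

/-! # The bound of the outer factor of the factorization -/

namespace Pool.Agent.H69.M6b

open Pool.Agent.H75.Perc Pool.Agent.H75.TwoArm Pool.Agent.Q1 Pool.Agent.H81.G1
open Pool.Agent.H30.Mid (RS rl rp rcr HasRow AR cA cB ug cs rtiles AR_net OutL Frame frz_E)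
open Pool.Agent.Q1.M6b.Gl (gE tr mem_tr)
open Pool.Agent.Q1.M6b.Gd
open Pool.Agent.Q1.M6b.Nest (Lp)
open Pool.Agent.Q1.M6b (dy mem_dy cells)
open Pool.Agent.Q1.M6b.Strand (pos)

section
variable {X : Env} {EL EU : Finset (ℤ × ℤ)} {N : ℕ} {xr y0 : ℤ} {k : ℕ} {y : Fin N × Dir}
  {b K K0 : ℤ} {S m₁ m₂ : ℕ} {k₁ : Fin m₁ → ℕ × ℤ} {k₂ : Fin m₂ → ℕ × ℤ}
  {Lv : Fin m₁ ⊕ Fin m₂ → ℕ} {yv : Fin m₁ ⊕ Fin m₂ → ℤ} {ω : Finset (ℤ × ℤ)}

/-- the outer boxes of the windows -/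
noncomputable def OW (b : ℤ) (zi : Fin m₁ ⊕ Fin m₂ → ℤ → ℤ × ℤ) (Lv : Fin m₁ ⊕ Fin m₂ → ℕ)
    (yv : Fin m₁ ⊕ Fin m₂ → ℤ) (i : Fin m₁ ⊕ Fin m₂) : Finset (ℤ × ℤ) :=
  if Lv i = 0 then ∅ else OutB b (zi i) (Lv i) (yv i)

/-- **The reference of the first crossings, in the form which is needed for the bound of a row with a
frame.** -/
theorem amp_ref (L3 : Lay3 X N xr y0 EL EU) (hb : 4 ≤ b) (hK0 : 1 ≤ K0)
    (hK : K0 * (4 * b + 8) + 1 ≤ K) (hkN : k ≤ N)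
    (hgeo : RowGeo (gE EL EU (1, -1)) (zr xr y0 k) K0 k (N - k)) (hy : inc (rp xr y0) y = true)
    (hyd : y.2 = .W ∨ y.2 = .E)
    (hyk : (y.1 : ℕ) = k ∨ (y.1 : ℕ) + 1 = k) (hk₁ : k₁ ∈ cells b K S m₁ k)
    (hk₂ : k₂ ∈ cells b K S m₂ (N - k)) (hL : Lv ∈ Lev (lv2 k₁ k₂))
    (hyv : yv ∈ Num b (lv2 k₁ k₂) (nu2 k₁ k₂) Lv)
    (uniq : ∀ i, Lv i ≠ 0 → ∀ a a', FarIn (InB b (zz (zr xr y0 k) i) (Lv i) (yv i))
      (OutB b (zz (zr xr y0 k) i) (Lv i) (yv i)) ω a → FarIn (InB b (zz (zr xr y0 k) i) (Lv i) (yv i))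
      (OutB b (zz (zr xr y0 k) i) (Lv i) (yv i)) ω a' → a = a') :
    (∀ i, Wi b (zz (zr xr y0 k)) Lv yv i ⊆ OW b (zz (zr xr y0 k)) Lv yv i) ∧
    (∀ i, (∀ c : Fin N, lab (sm true y0 (xr - y0 + 1 + (c : ℕ))) ∈ OW b (zz (zr xr y0 k)) Lv yv i →
        (c : ℕ) < pos y) ∨
      (∀ c : Fin N, lab (sm true y0 (xr - y0 + 1 + (c : ℕ))) ∈ OW b (zz (zr xr y0 k)) Lv yv i →
        pos y ≤ (c : ℕ))) ∧
    univ.biUnion (Wi b (zz (zr xr y0 k)) Lv yv) ⊆ gE EL EU (1, -1) ∧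
    ∃ A, AmpData b (zz (zr xr y0 k)) Lv yv ω (fun x ζ => AX X xr y0 y EL EU k x ζ) A
        (hX xr y0 k b Lv yv ω) ∧
      (‖A‖ ≤ 1 ∨ ∃ η0, η0 ⊆ univ.biUnion (Wi b (zz (zr xr y0 k)) Lv yv) ∧
        ∃ (x1 : Fin m₁ ⊕ Fin m₂ → Fin N) (e : Fin m₁ ⊕ Fin m₂ → Bool),
          ‖A‖ = ‖AR X xr y0 y (cA (univ.image x1) (zt ^ (4 : ℤ))) (cB (univ.image x1) (zt ^ (-4 : ℤ)))
            (ug EL EU (1, -1) (ω \ (univ.biUnion (Wi b (zz (zr xr y0 k)) Lv yv)) ∪ η0))‖ ∧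
          (∀ i, |((x1 i : ℕ) : ℤ) - ctz k b Lv yv i| ≤ rad b Lv i) ∧
          (∀ i, ((lW k b Lv yv i : ℕ) : ℤ) = ctz k b Lv yv i - rad b Lv i ∧
            ((rW k b Lv yv i : ℕ) : ℤ) = ctz k b Lv yv i + rad b Lv i ∧ rW k b Lv yv i < N) ∧
          (∀ (L : Finset (ℤ × ℤ)) (F : Frame L N xr y0),
            OutL (X.freeze (RS N xr y0) (ug EL EU (1, -1)
              (ω \ (univ.biUnion (Wi b (zz (zr xr y0 k)) Lv yv)) ∪ η0))) L →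
            WinR (opt F.EU F.U) (opt F.ED F.D) (univ.image x1) (pos y) (lW k b Lv yv) (rW k b Lv yv)
              x1 e (IvW N k b Lv yv)) ∧
          ∀ W' : Finset (ℤ × ℤ), Disjoint (gE EL EU (1, -1)) W' → ∀ i z,
            FarIn (Wi b (zz (zr xr y0 k)) Lv yv i) (OW b (zz (zr xr y0 k)) Lv yv i)
              (ω \ (univ.biUnion (Wi b (zz (zr xr y0 k)) Lv yv)) ∪ η0 ∪ W') z →
            ∃ (n : ℕ) (c : Fin N), c ∈ univ.image x1 ∧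
              ((nx (ω \ (univ.biUnion (Wi b (zz (zr xr y0 k)) Lv yv)) ∪ η0 ∪ W'))^[n] z =
                  sm true y0 (xr - y0 + 1 + (c : ℕ)) ∨
                (nx (ω \ (univ.biUnion (Wi b (zz (zr xr y0 k)) Lv yv)) ∪ η0 ∪ W'))^[n]
                  (sm true y0 (xr - y0 + 1 + (c : ℕ))) = z)) := by
  classical
  have hN : 0 < N := by have := y.1.2; omega
  have hK2 : 4 * b + 9 ≤ K := by nlinarith
  have geo := fun (i : Fin m₁ ⊕ Fin m₂) (hi : Lv i ≠ 0) =>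
    win_geo hb hK0 hK hkN hgeo hyk hk₁ hk₂ hL hyv hN hi
  have hin : ∀ i, Lv i ≠ 0 → 0 < ctz k b Lv yv i - rad b Lv i ∧
      ctz k b Lv yv i + rad b Lv i + 1 < N ∧ rad b Lv i < |((y.1 : ℕ) : ℤ) - ctz k b Lv yv i| :=
    fun i hi => rad_in hb hK0 hK hkN hgeo hk₁ hk₂ hL hyv hyk hi
  have hposd : pos y = y.1 ∨ pos y = (y.1 : ℕ) + 1 := by
    obtain ⟨c, d⟩ := y
    rcases hyd with h | h
    · simp only at h; subst h; exact Or.inl rfl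
    · simp only at h; subst h; exact Or.inr rfl
  have hWO : ∀ i, Wi b (zz (zr xr y0 k)) Lv yv i ⊆ OW b (zz (zr xr y0 k)) Lv yv i := by
    intro i
    unfold Wi OW
    split_ifs with h0
    · exact subset_rfl
    · obtain ⟨c0, R, W, -⟩ := geo i h0
      exact W.io
  have hOG : ∀ i, OW b (zz (zr xr y0 k)) Lv yv i ⊆ gE EL EU (1, -1) := by
    intro i
    unfold OW
    split_ifs with h0
    · exact empty_subset _
    · obtain ⟨c0, R, W, -⟩ := geo i h0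
      exact out_sub W
  refine ⟨hWO, ?_, ?_, ?_⟩
  · intro i
    by_cases h0 : Lv i = 0
    · left
      intro c hc
      unfold OW at hc
      rw [if_pos h0] at hc
      exact absurd hc (notMem_empty _)
    · obtain ⟨c0, R, W, -, -, -, -, -, hm⟩ := geo i h0
      have hc : ∀ c : Fin N, lab (sm true y0 (xr - y0 + 1 + (c : ℕ))) ∈
          OW b (zz (zr xr y0 k)) Lv yv i → c0 ≤ (c : ℕ) ∧ (c : ℕ) < c0 + (2 * (2 * R + 1) + 1) := by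
        intro c hc
        unfold OW at hc
        rw [if_neg h0] at hc
        exact col_out W hc
      rcases hm with hm | hm
      · right
        intro c hcc
        have := hc c hcc
        omega
      · left
        intro c hcc
        have := hc c hcc
        omega
  · intro e he
    obtain ⟨i, -, hi⟩ := mem_biUnion.1 he
    exact hOG i (hWO i hi)
  · obtain ⟨A, hA, hd⟩ := amp_first L3 hb hK0 hK hkN hgeo hy hyk hk₁ hk₂ hL hyv uniq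
    refine ⟨A, hA, ?_⟩
    rcases hd with hd | ⟨η0, hη0, x1, e, hm, hne, h1, hR, hcon⟩
    · exact Or.inl hd
    right
    set ζ := ω \ (univ.biUnion (Wi b (zz (zr xr y0 k)) Lv yv)) ∪ η0 with hζ
    refine ⟨η0, hη0, x1, e, ?_, hR.bd, lW_eq hb hin hR, ?_, ?_⟩
    · rw [h1, AR_net L3.row hy hm hne, norm_mul, norm_zpow, zt_norm, one_zpow, one_mul]
    · intro L F ho
      have hW := net_wired (rtiles L3.row (ug EL EU (1, -1) ζ)) hm hy hne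
      have hRM := frame_rm F hW ho (frz_E L3.row _)
      exact hR.winR hb hyd hin (fun i i' hii => rad_sep hb hK2 hk₁ hk₂ hL hyv hii) hRM
    · intro W' hd i z hz
      by_cases h0 : Lv i = 0
      · exfalso
        obtain ⟨h2, -⟩ := hz
        unfold Wi at h2
        rw [if_pos h0] at h2
        exact absurd h2 (notMem_empty _)
      · have h2 := far_un hd (hOG i) hz
        unfold Wi OW at h2
        rw [if_neg h0, if_neg h0] at h2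
        obtain ⟨n, h3⟩ := (hcon i h0 z h2).un hd
        exact ⟨n, x1 i, mem_image_of_mem _ (mem_univ _), h3⟩

/-- **The bound of the outer factor.** -/
theorem amp_bound (L3 : Lay3 X N xr y0 EL EU) (hb : 4 ≤ b) (hK0 : 1 ≤ K0)
    (hK : K0 * (4 * b + 8) + 1 ≤ K) (hkN : k ≤ N)
    (hgeo : RowGeo (gE EL EU (1, -1)) (zr xr y0 k) K0 k (N - k)) (hy : inc (rp xr y0) y = true)
    (hyd : y.2 = .W ∨ y.2 = .E)
    (hyk : (y.1 : ℕ) = k ∨ (y.1 : ℕ) + 1 = k) (hk₁ : k₁ ∈ cells b K S m₁ k)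
    (hk₂ : k₂ ∈ cells b K S m₂ (N - k)) (hL : Lv ∈ Lev (lv2 k₁ k₂))
    (hyv : yv ∈ Num b (lv2 k₁ k₂) (nu2 k₁ k₂) Lv)
    (uniq : ∀ i, Lv i ≠ 0 → ∀ a a', FarIn (InB b (zz (zr xr y0 k) i) (Lv i) (yv i))
      (OutB b (zz (zr xr y0 k) i) (Lv i) (yv i)) ω a → FarIn (InB b (zz (zr xr y0 k) i) (Lv i) (yv i))
      (OutB b (zz (zr xr y0 k) i) (Lv i) (yv i)) ω a' → a = a')
    (hω : ω ⊆ gE EL EU (1, -1)) {W' : Finset (ℤ × ℤ)} (hW' : Disjoint (gE EL EU (1, -1)) W')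
    {E W : Finset (ℤ × ℤ)} {g T : ℕ}
    (hfr : ∀ ζ ⊆ gE EL EU (1, -1), ∃ (L : Finset (ℤ × ℤ)) (F : Frame L N xr y0),
      OutL (X.freeze (RS N xr y0) (ug EL EU (1, -1) ζ)) L ∧ ¬ F.In (plab X.c0) ∧ GLab F (ζ ∪ W') ∧
      F.EU.card + F.ED.card ≤ g)
    (hex : ∀ x1 : Fin m₁ ⊕ Fin m₂ → Fin N, (∀ i, |((x1 i : ℕ) : ℤ) - ctz k b Lv yv i| ≤ rad b Lv i) →
      (∀ i, ((lW k b Lv yv i : ℕ) : ℤ) = ctz k b Lv yv i - rad b Lv i ∧
        ((rW k b Lv yv i : ℕ) : ℤ) = ctz k b Lv yv i + rad b Lv i ∧ rW k b Lv yv i < N) →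
      ∀ ζ ⊆ gE EL EU (1, -1), (∀ e, e ∉ univ.biUnion (Wi b (zz (zr xr y0 k)) Lv yv) →
        (e ∈ ζ ↔ e ∈ ω)) → ∃ (Sp : Finset ℤ) (R0 : ℕ),
        ExD N (ω ∪ W') (ζ ∪ W') E W {q | ∃ i, q ∈ Wi b (zz (zr xr y0 k)) Lv yv i} (xr - y0 + 1) y0
          (Zc N (pos y) (lW k b Lv yv) x1) Sp R0 (IvW N k b Lv yv) ∧
        TEE N (ω ∪ W') E W (xr - y0 + 1) y0 Sp R0 ≤ T)
    (hfin : (Lp (ω ∪ W') (vx (sm true y0 (xr - y0 + 1 + (pos y : ℕ))))).Finite) :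
    ∃ A, AmpData b (zz (zr xr y0 k)) Lv yv ω (fun x ζ => AX X xr y0 y EL EU k x ζ) A
        (hX xr y0 k b Lv yv ω) ∧
      ‖A‖ ≤ 2 ^ ((Lp (ω ∪ W') (vx (sm true y0 (xr - y0 + 1 + (pos y : ℕ))))).ncard + 1) *
        2 ^ (6 * (m₁ + m₂ + g) + (3 * (m₁ + m₂) + 3)) *
        (1 + (6 * (m₁ + m₂) + T : ℕ)) ^ (m₁ + m₂ + g + (3 * (m₁ + m₂) + 3)) := by
  classical
  obtain ⟨hsub, hout, hV, A, hA, hd⟩ :=
    amp_ref L3 hb hK0 hK hkN hgeo hy hyd hyk hk₁ hk₂ hL hyv uniq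
  refine ⟨A, hA, ?_⟩
  have hbase : (1 : ℝ) ≤ 1 + ((6 * (m₁ + m₂) + T : ℕ) : ℝ) := by
    have : (0 : ℝ) ≤ ((6 * (m₁ + m₂) + T : ℕ) : ℝ) := Nat.cast_nonneg _
    linarith
  have hge1 : (1 : ℝ) ≤ 2 ^ ((Lp (ω ∪ W') (vx (sm true y0 (xr - y0 + 1 + (pos y : ℕ))))).ncard + 1) *
      2 ^ (6 * (m₁ + m₂ + g) + (3 * (m₁ + m₂) + 3)) *
      (1 + (6 * (m₁ + m₂) + T : ℕ)) ^ (m₁ + m₂ + g + (3 * (m₁ + m₂) + 3)) := by
    refine one_le_mul_of_one_le_of_one_le (one_le_mul_of_one_le_of_one_le ?_ ?_) ?_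
    · exact one_le_pow₀ (by norm_num)
    · exact one_le_pow₀ (by norm_num)
    · exact one_le_pow₀ hbase
  rcases hd with hd | ⟨η0, hη0, x1, e, h1, hbd, hlr, hwin, hfar⟩
  · exact hd.trans hge1
  set V := univ.biUnion (Wi b (zz (zr xr y0 k)) Lv yv) with hVd
  set ζ := ω \ V ∪ η0 with hζ
  have hζg : ζ ⊆ gE EL EU (1, -1) := union_subset (sdiff_subset.trans hω) (hη0.trans hV)
  have hag : ∀ e, e ∉ V → (e ∈ ζ ↔ e ∈ ω) := by
    intro e he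
    rw [hζ, mem_union, mem_sdiff]
    exact ⟨fun h => h.elim (fun h => h.1) (fun h => absurd (hη0 h) he), fun h => Or.inl ⟨h, he⟩⟩
  obtain ⟨L, F, ho, hroot, hG, hg⟩ := hfr ζ hζg
  obtain ⟨Sp, R0, hE, hT⟩ := hex x1 hbd hlr ζ hζg hag
  have hyk' : y = (y.1, .W) ∨ y = (y.1, .E) := by
    rcases hyd with h | h
    · exact Or.inl (Prod.ext rfl h)
    · exact Or.inr (Prod.ext rfl h)
  have key := ar_bound L3.row ho F hroot hy hyk' (hwin L F ho) hG hE hsub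
    (hfar W' hW') hout hfin
  rw [h1]
  refine key.trans ?_
  have hcard : Fintype.card (Fin m₁ ⊕ Fin m₂) = m₁ + m₂ := by simp
  rw [hcard]
  refine mul_le_mul (mul_le_mul_of_nonneg_left ?_ (by positivity)) ?_ (by positivity) (by positivity)
  · exact pow_le_pow_right₀ (by norm_num) (by omega)
  · calc (1 + ((6 * (m₁ + m₂) + TEE N (ω ∪ W') E W (xr - y0 + 1) y0 Sp R0 : ℕ) : ℝ)) ^ _ ≤
        (1 + ((6 * (m₁ + m₂) + T : ℕ) : ℝ)) ^ (m₁ + m₂ + F.EU.card + F.ED.card + (3 * (m₁ + m₂) + 3)) := by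
          refine pow_le_pow_left₀ (by positivity) ?_ _
          have : ((6 * (m₁ + m₂) + TEE N (ω ∪ W') E W (xr - y0 + 1) y0 Sp R0 : ℕ) : ℝ) ≤
            ((6 * (m₁ + m₂) + T : ℕ) : ℝ) := by
            exact_mod_cast Nat.add_le_add_left hT _
          linarith
      _ ≤ _ := pow_le_pow_right₀ hbase (by omega)

end

end Pool.Agent.H69.M6b
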