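import Mathlib
import Pool.Agent.H69.M6b.F1g
import Pool.Agent.H81.G1.Core
import Pool.Agent.H81.G1.LpFin

set_option autoImplicit false
set_option linter.unusedSectionVars false
set_option linter.unusedVariables false
open Finset

/-! # The data of a row: abstract form

`RowI`: what is needed of an environment with a row. `data_row`: the factorization with the bound of the
outer factor for every such environment. -/

namespace Pool.Agent.H69.M6b

open Pool.Agent.H75.Perc Pool.Agent.H75.TwoArm Pool.Agent.Q1 Pool.Agent.H81.G1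
open Pool.Agent.H30.Mid (RS rl rp rcr HasRow AR cA cB ug cs rtiles AR_net OutL Frame frz_E)
open Pool.Agent.Q1.M6b.Gl (gE tr mem_tr)
open Pool.Agent.Q1.M6b.Gd
open Pool.Agent.Q1.M6b.Nest (Lp)
open Pool.Agent.Q1.M6b (dy mem_dy cells)
open Pool.Agent.Q1.M6b.Strand (pos)
open Pool.Agent.H34.Q1 (OneType Dst)
open Pool.Agent.H53.G1 (gF gF_nonneg gF_root TB TE_le_TB)

/-- **A row of an environment.** `X` : environment with the columns `xr, …, xr + N - 1` of the row `y0`,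
random labels `EL` below and `EU` above the row, `W'` : the other open labels of the glued configuration,
`k` : position of the mark, `Sw` : special columns, `R0` : height of the random zone near the row. -/
structure RowI (X : Env) (N : ℕ) (xr y0 : ℤ) (k : ℕ) (EL EU W' : Finset (ℤ × ℤ)) (K0 : ℤ)
    (g s R0 : ℕ) (Sw : Finset ℤ) : Prop where
  lay : Lay3 X N xr y0 EL EU
  geo : RowGeo (gE EL EU (1, -1)) (zr xr y0 k) K0 k (N - k)
  disj : Disjoint (gE EL EU (1, -1)) W'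
  fr : ∀ ζ ⊆ gE EL EU (1, -1), ∃ (L : Finset (ℤ × ℤ)) (F : Frame L N xr y0),
    OutL (X.freeze (RS N xr y0) (ug EL EU (1, -1) ζ)) L ∧ ¬ F.In (plab X.c0) ∧ GLab F (ζ ∪ W') ∧
    F.EU.card + F.ED.card ≤ g
  near : ∀ (Sp : Finset ℤ), Sw ⊆ Sp → ∀ (c : Fin N) (M : ℤ), 1 ≤ M → Dst Sp R0 (sc xr y0 c) M →
    ∀ e : ℤ × ℤ, (e.1 + e.2) % 2 = 1 → |e.1 - (sc xr y0 c).1| ≤ M → |e.2 - (sc xr y0 c).2| ≤ M →
    e ∈ gE EL EU (1, -1)
  sw : Sw.card ≤ s

/-- the factor `g` of the row, `m` coupons -/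
noncomputable def gR (N : ℕ) (xr y0 : ℤ) (E W' : Finset (ℤ × ℤ)) (g s m R0 : ℕ)
    (ω : Finset (ℤ × ℤ)) : ℝ :=
  gF (4 * m + g + 2) (m + g) m (11 * m + s + 2) N E W' W' (HN y0) (HS y0) (sc xr y0) (sc xr y0)
    R0 R0 ω

lemma gR_nonneg (N : ℕ) (xr y0 : ℤ) (E W' : Finset (ℤ × ℤ)) (g s m R0 : ℕ) (ω : Finset (ℤ × ℤ)) :
    0 ≤ gR N xr y0 E W' g s m R0 ω := gF_nonneg ..

lemma one_gR (N : ℕ) (xr y0 : ℤ) (E W' : Finset (ℤ × ℤ)) (g s m R0 : ℕ) (ω : Finset (ℤ × ℤ)) :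
    1 ≤ gR N xr y0 E W' g s m R0 ω := by
  unfold gR gF
  refine one_le_mul_of_one_le_of_one_le (one_le_pow₀ (by norm_num)) (one_le_pow₀ ?_)
  exact le_add_of_nonneg_right (Nat.cast_nonneg _)

section
variable {X : Env} {EL EU W' Sw' : Finset (ℤ × ℤ)} {N : ℕ} {xr y0 : ℤ} {k : ℕ} {y : Fin N × Dir}
  {b K K0 : ℤ} {g s R0 : ℕ} {Sw : Finset ℤ} {S m₁ m₂ : ℕ} {k₁ : Fin m₁ → ℕ × ℤ}
  {k₂ : Fin m₂ → ℕ × ℤ} {Lv : Fin m₁ ⊕ Fin m₂ → ℕ} {yv : Fin m₁ ⊕ Fin m₂ → ℤ} {ω : Finset (ℤ × ℤ)}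

/-- **The factorization of the amplitudes of a row with the bound of the outer factor.** -/
theorem data_row (I : RowI X N xr y0 k EL EU W' K0 g s R0 Sw) (hb : 6 ≤ b) (hK0 : 1 ≤ K0)
    (hK : K0 * (4 * b + 8) + 1 ≤ K) (hkN : k ≤ N) (hy : inc (rp xr y0) y = true) {kk : Fin N}
    (hyk : y = (kk, .W) ∨ y = (kk, .E)) (hpos : pos y = k) (hR0 : 2 ≤ R0)
    (hk₁ : k₁ ∈ cells b K S m₁ k) (hk₂ : k₂ ∈ cells b K S m₂ (N - k)) (hL : Lv ∈ Lev (lv2 k₁ k₂))
    (hyv : yv ∈ Num b (lv2 k₁ k₂) (nu2 k₁ k₂) Lv) (hω : ω ⊆ gE EL EU (1, -1))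
    (hS : Stops b (lv2 k₁ k₂) (fun i => badB b (zz (zr xr y0 k) i) (gE EL EU (1, -1))) Lv yv ω) :
    ∃ A hh, AmpData b (zz (zr xr y0 k)) Lv yv ω
      (fun x ζ => Pool.Agent.H30.Mid.Amp X xr y0 y (zt ^ (4 : ℤ)) (zt ^ (-4 : ℤ)) EL EU k
        (cols2 x) ζ) A hh ∧
      ‖A‖ ≤ 2 ^ ((Lp (ω ∪ W') (vx (sm true y0 (xr - y0 + 1 + (k : ℕ))))).ncard + 1) *
        gR N xr y0 (gE EL EU (1, -1)) W' g s (m₁ + m₂) R0 ω := by
  classical
  have hb4 : 4 ≤ b := by omega
  have hN : 0 < N := kk.pos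
  have hyd : y.2 = .W ∨ y.2 = .E := by rcases hyk with h | h <;> rw [h] <;> simp
  have hyk' : (y.1 : ℕ) = k ∨ (y.1 : ℕ) + 1 = k := by
    rcases hyk with e1 | e1
    · left; rw [← hpos, e1]; rfl
    · right; rw [← hpos, e1]; rfl
  have geo := fun (i : Fin m₁ ⊕ Fin m₂) (hi : Lv i ≠ 0) =>
    win_geo hb4 hK0 hK hkN I.geo hyk' hk₁ hk₂ hL hyv hN hi
  have uniq : ∀ i, Lv i ≠ 0 → ∀ a a', FarIn (InB b (zz (zr xr y0 k) i) (Lv i) (yv i))
      (OutB b (zz (zr xr y0 k) i) (Lv i) (yv i)) ω a → FarIn (InB b (zz (zr xr y0 k) i) (Lv i) (yv i))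
      (OutB b (zz (zr xr y0 k) i) (Lv i) (yv i)) ω a' → a = a' := by
    intro i hi a a' ha ha'
    have h2 := (hS i).1
    obtain ⟨c0, R, W, -⟩ := geo i hi
    refine Pool.Agent.H65.G1.far_unique_box hb (out_sub W) ?_ ha ha'
    rcases h2 with h2 | h2
    · exact absurd h2 hi
    · exact h2
  obtain ⟨A, hA, hb2⟩ := amp_bound (E := gE EL EU (1, -1)) (W := W') (g := g)
    (T := TB N (ω ∪ W') (gE EL EU (1, -1)) W' (HN y0) (sc xr y0) (11 * (m₁ + m₂) + s + 2) R0 +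
      TB N (ω ∪ W') (gE EL EU (1, -1)) W' (HS y0) (sc xr y0) (11 * (m₁ + m₂) + s + 2) R0)
    I.lay hb4 hK0 hK hkN I.geo hy hyd hyk' hk₁ hk₂ hL hyv uniq hω I.disj I.fr (by
      intro x1 hx1 hlr ζ hζ hag
      have one : ∀ Sp : Finset ℤ, Sw ⊆ Sp → ∀ G : Set (ℤ × ℤ), (∀ q ∈ G, (q.1 + q.2) % 2 = 1) →
          ∀ c : Fin N, ∀ M : ℤ, 1 ≤ M → Dst Sp R0 (sc xr y0 c) M →
          OneType (gE EL EU (1, -1)) W' G (sc xr y0 c) M := by
        intro Sp hSp G hG c M hM1 hM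
        left
        intro e he h2 h3
        exact disjoint_left.1 I.disj (I.near Sp hSp c M hM1 hM e (hG e he) h2 h3)
      set Sp : Finset ℤ := (Zc N (pos y) (lW k b Lv yv) x1).image (fun z : ℕ => xr - y0 + 1 + (z : ℤ)) ∪
        Sb (xr - y0 + 1) b Lv (ctz k b Lv yv) ∪ Sw with hSp
      have hcard : Fintype.card (Fin m₁ ⊕ Fin m₂) = m₁ + m₂ := by simp
      have hSpc : Sp.card ≤ 11 * (m₁ + m₂) + s + 2 := by
        rw [hSp]
        refine (card_union_le _ _).trans ?_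
        have h1 : ((Zc N (pos y) (lW k b Lv yv) x1).image (fun z : ℕ => xr - y0 + 1 + (z : ℤ)) ∪
          Sb (xr - y0 + 1) b Lv (ctz k b Lv yv)).card ≤ (3 * (m₁ + m₂) + 2) + 8 * (m₁ + m₂) := by
          refine (card_union_le _ _).trans (Nat.add_le_add (card_image_le.trans ?_) ?_)
          · have := card_Zc (N := N) (p := pos y) (l := lW k b Lv yv) (x := x1)
            rwa [hcard] at this
          · have := card_Sb (a0 := xr - y0 + 1) (b := b) (Lv := Lv) (cc := ctz k b Lv yv)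
            rwa [hcard] at this
        have h2 := I.sw
        omega
      refine ⟨Sp, R0, ?_, ?_⟩
      · exact
        { cuts := fun z hz => by
            rw [hSp]
            exact mem_union_left _ (mem_union_left _ (mem_image_of_mem _ hz))
          r0 := hR0
          oneN := fun c M hM1 hM => one Sp (by rw [hSp]; exact subset_union_right) _ HN_odd c M hM1 hM
          oneS := fun c M hM1 hM => one Sp (by rw [hSp]; exact subset_union_right) _ HS_odd c M hM1 hM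
          agr := fun e he => by
            rw [mem_union, mem_union, hag e (fun h => ?_)]
            obtain ⟨i, -, hi⟩ := mem_biUnion.1 h
            exact he ⟨i, hi⟩
          box := fun c hc M hM q hq => by
            obtain ⟨i, hi⟩ := hq
            by_cases hl : Lv i = 0
            · unfold Wi at hi
              rw [if_pos hl] at hi
              exact absurd hi (notMem_empty _)
            · unfold Wi at hi
              rw [if_neg hl] at hi
              unfold InB at hi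
              obtain ⟨h3, h4⟩ := box_near hi
              have h5 := h3.1
              have hz : zz (zr xr y0 k) i (b ^ Lv i * yv i) =
                  sm true y0 (xr - y0 + 1 + ctz k b Lv yv i) := by
                rw [zz_czz]
                unfold zr ctz
                ring_nf
              rw [hz] at h5
              have e1 : (sm true y0 (xr - y0 + 1 + ctz k b Lv yv i)).1 =
                  xr - y0 + 1 + ctz k b Lv yv i := by unfold sm; simp
              rw [e1] at h5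
              exact box_far (by rw [hSp]; exact subset_union_right.trans subset_union_left) hl (hc i)
                hM (by linarith) h4 }
      · unfold TEE
        exact Nat.add_le_add (TE_le_TB hSpc) (TE_le_TB hSpc))
    (Lp_finite _ _)
  refine ⟨A, _, hA, hb2.trans ?_⟩
  rw [hpos, mul_assoc]
  refine mul_le_mul_of_nonneg_left ?_ (by positivity)
  unfold gR gF
  refine mul_le_mul ?_ ?_ (by positivity) (by positivity)
  · exact pow_le_pow_right₀ (by norm_num) (by omega)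
  · have e : 6 * (m₁ + m₂) + (TB N (ω ∪ W') (gE EL EU (1, -1)) W' (HN y0) (sc xr y0)
        (11 * (m₁ + m₂) + s + 2) R0 + TB N (ω ∪ W') (gE EL EU (1, -1)) W' (HS y0) (sc xr y0)
        (11 * (m₁ + m₂) + s + 2) R0) = 6 * (m₁ + m₂) + TB N (ω ∪ W') (gE EL EU (1, -1)) W' (HN y0)
        (sc xr y0) (11 * (m₁ + m₂) + s + 2) R0 + TB N (ω ∪ W') (gE EL EU (1, -1)) W' (HS y0)
        (sc xr y0) (11 * (m₁ + m₂) + s + 2) R0 := by ring
    rw [e]
    refine pow_le_pow_right₀ ?_ (by omega)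
    exact le_add_of_nonneg_right (Nat.cast_nonneg _)

/-- **The moment of the factor `g` of a row.** -/
theorem gR_root (g s m A : ℕ) (ε : ℝ) (hε : 0 < ε) : ∃ C : ℝ, 1 ≤ C ∧
    ∀ (N : ℕ) (xr y0 : ℤ) (E W' : Finset (ℤ × ℤ)) (R0 : ℕ) (R : ℝ),
    (∀ e ∈ E, (e.1 + e.2) % 2 = 1) → 2 ≤ R0 → (R0 : ℝ) ≤ R → N ≤ A * R0 →
    (Pool.Agent.H99.NC.Ex (Pool.Agent.H99.NC.cp (1 / 2)) E
      (fun ω => gR N xr y0 E W' g s m R0 ω ^ 10)) ^ (1 / 10 : ℝ) ≤ C * R ^ ε := by
  obtain ⟨C, hC, hg⟩ := gF_root (4 * m + g + 2) (m + g) m (11 * m + s + 2) A 0 ε hε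
  refine ⟨C, hC, ?_⟩
  intro N xr y0 E W' R0 R hE h2 hR hN
  exact hg N _ _ _ _ _ _ _ R0 R0 R hE (sc_slope N xr y0) (sc_slope N xr y0) h2 h2 hR hR hN hN

end

end Pool.Agent.H69.M6b
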