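import Pool.Agent.H69.M6b.Row

set_option autoImplicit false
set_option linter.unusedSectionVars false
open Finset

/-! # Mirror image (exchange of `N` and `S`), relabelling of the tiles, slides in a row -/

namespace Pool.Agent.H69.M6b

open Pool.Agent.H81.G1 Pool.Agent.H80.Sweep Pool.Agent.H75.Perc

/-! ### Conjugation of the step map -/

section gen
variable {D D' : Type*} [DecidableEq D] [DecidableEq D']

lemma ampF_conj {f : D → D} {f' : D' → D'} {d : D → ℤ} {d' : D' → ℤ} (e : D ≃ D') (ε : ℤ)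
    (hf : ∀ p, f' (e p) = e (f p)) (hd : ∀ p, d' (e p) = ε * d p) (x0 y0 : D) (φ ψ : ℤ → ℂ)
    (hφ : ∀ k, ψ (ε * k) = φ k) : ampF f' d' (e x0) (e y0) ψ = ampF f d x0 y0 φ := by
  have h1 : ∀ i p, f'^[i] (e p) = e (f^[i] p) := by
    intro i
    induction i with
    | zero => intro p; rfl
    | succ i ih => intro p; rw [Function.iterate_succ_apply, hf, ih, Function.iterate_succ_apply]
  have h2 : Function.minimalPeriod f' (e x0) = Function.minimalPeriod f x0 := by
    rw [Function.minimalPeriod_eq_minimalPeriod_iff]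
    intro n
    unfold Function.IsPeriodicPt Function.IsFixedPt
    rw [h1]
    exact e.injective.eq_iff
  unfold ampF
  rw [h2]
  apply sum_congr rfl
  intro i _
  rw [h1]
  have h3 : KK f' d' (e x0) 0 i = ε * KK f d x0 0 i := by
    unfold KK
    rw [zero_add, zero_add, mul_sum]
    exact sum_congr rfl fun j _ => by rw [h1, hd]
  by_cases h : f^[i] x0 = y0
  · rw [if_pos h, if_pos (by rw [h]), h3, hφ]
  · rw [if_neg h, if_neg (fun hh => h (e.injective hh))]

end gen

variable {ι : Type*} [Fintype ι] [DecidableEq ι]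

/-! ### Mirror -/

/-- exchange of `N` and `S` -/
def fld : Dir → Dir
  | .N => .S | .S => .N | .W => .W | .E => .E

/-- exchange of `N` and `S` -/
def fl (p : ι × Dir) : ι × Dir := (p.1, fld p.2)

lemma fld_fld (d : Dir) : fld (fld d) = d := by cases d <;> rfl

omit [Fintype ι] [DecidableEq ι] in
lemma fl_fl (p : ι × Dir) : fl (fl p) = p := by
  unfold fl; simp only [fld_fld]

/-- exchange of `N` and `S` -/
def flE : ι × Dir ≃ ι × Dir := ⟨fl, fl, fl_fl, fl_fl⟩

/-- mirror image of a network -/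
def mir (X : Net ι) : Net ι where
  π p := fl (X.π (fl p))
  t p := -X.t (fl p)
  x0 := fl X.x0
  y0 := fl X.y0

lemma fld_mate (b : Bool) (d : Dir) : Dir.mate (!b) (fld d) = fld (Dir.mate b d) := by
  cases b <;> cases d <;> rfl

lemma fld_tn (b : Bool) (d : Dir) : Dir.tn (!b) (fld d) = -Dir.tn b d := by
  cases b <;> cases d <;> rfl

omit [Fintype ι] [DecidableEq ι] in
lemma mir_step (X : Net ι) (s : ι → Bool) (p : ι × Dir) :
    (mir X).step (fun i => !s i) (fl p) = fl (X.step s p) := by
  unfold Net.step mir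
  simp only [fl, fld_mate, fld_fld]

omit [Fintype ι] [DecidableEq ι] in
lemma mir_dt (X : Net ι) (s : ι → Bool) (p : ι × Dir) :
    (mir X).dt (fun i => !s i) (fl p) = -X.dt s p := by
  unfold Net.dt mir
  simp only [fl, fld_mate, fld_fld, fld_tn]
  ring

/-- the flip of all states -/
def notE : (ι → Bool) ≃ (ι → Bool) where
  toFun s i := !s i
  invFun s i := !s i
  left_inv s := by ext i; simp
  right_inv s := by ext i; simp

/-- **mirror image of a state sum** -/
theorem ZF_mir (X : Net ι) (φ : ℤ → ℂ) (a b : ι → ℂ) :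
    ZF (mir X) (fun k => φ (-k)) b a = ZF X φ a b := by
  unfold ZF
  rw [← Equiv.sum_comp (notE (ι := ι))]
  apply sum_congr rfl
  intro s _
  congr 1
  · apply prod_congr rfl
    intro i _
    change (if (!s i) = true then a i else b i) = _
    cases s i <;> rfl
  · refine ampF_conj (flE (ι := ι)) (-1) (fun p => mir_step X s p) (fun p => ?_) X.x0 X.y0 φ _
      (fun k => by ring_nf)
    rw [neg_one_mul]
    exact mir_dt X s p

omit [Fintype ι] [DecidableEq ι] in
lemma mir_inv {X : Net ι} (h : ∀ p, X.π (X.π p) = p) (p : ι × Dir) :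
    (mir X).π ((mir X).π p) = p := by
  unfold mir
  simp only [fl_fl, h]

omit [Fintype ι] [DecidableEq ι] in
lemma mir_tn {X : Net ι} (h : ∀ p, X.t (X.π p) = -X.t p) (p : ι × Dir) :
    (mir X).t ((mir X).π p) = -(mir X).t p := by
  unfold mir
  simp only [fl_fl, h]

omit [Fintype ι] [DecidableEq ι] in
lemma mir_mir (X : Net ι) : mir (mir X) = X := by
  unfold mir
  simp [fl_fl]

/-! ### Relabelling -/

/-- relabelling of the tiles -/
def relE (ρ : ι ≃ ι) : ι × Dir ≃ ι × Dir := Equiv.prodCongr ρ (Equiv.refl Dir)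

/-- relabelling of the tiles of a network -/
def rel (X : Net ι) (ρ : ι ≃ ι) : Net ι where
  π p := relE ρ (X.π ((relE ρ).symm p))
  t p := X.t ((relE ρ).symm p)
  x0 := relE ρ X.x0
  y0 := relE ρ X.y0

omit [Fintype ι] [DecidableEq ι] in
lemma rel_step (X : Net ι) (ρ : ι ≃ ι) (s : ι → Bool) (p : ι × Dir) :
    (rel X ρ).step (fun i => s (ρ.symm i)) (relE ρ p) = relE ρ (X.step s p) := by
  unfold Net.step rel relE
  simp

omit [Fintype ι] [DecidableEq ι] in
lemma rel_dt (X : Net ι) (ρ : ι ≃ ι) (s : ι → Bool) (p : ι × Dir) :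
    (rel X ρ).dt (fun i => s (ρ.symm i)) (relE ρ p) = X.dt s p := by
  unfold Net.dt rel relE
  simp

/-- relabelling of a state sum -/
theorem ZF_rel (X : Net ι) (ρ : ι ≃ ι) (φ : ℤ → ℂ) (a b : ι → ℂ) :
    ZF (rel X ρ) φ (fun i => a (ρ.symm i)) (fun i => b (ρ.symm i)) = ZF X φ a b := by
  unfold ZF
  rw [← Equiv.sum_comp (Equiv.arrowCongr ρ (Equiv.refl Bool))]
  apply sum_congr rfl
  intro s _
  have hs : (Equiv.arrowCongr ρ (Equiv.refl Bool)) s = fun i => s (ρ.symm i) := by
    ext i; rfl
  rw [hs]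
  congr 1
  · exact Equiv.prod_comp ρ.symm (fun i => if s i then b i else a i)
  · exact ampF_conj (relE ρ) 1 (fun p => rel_step X ρ s p)
      (fun p => by rw [one_mul]; exact rel_dt X ρ s p) X.x0 X.y0 φ φ (fun k => by rw [one_mul])

/-! ### Slides in a row -/

variable {N : ℕ}

lemma fa_upd {U : Fin N → Fin N} {G : Finset (Fin N)} {a : Fin N → ℂ} {x y : Fin N} {u v : ℂ}
    (hx : x ∉ G) (hy : y ∉ G) : fa U G (upd2 a x y u v) = upd2 (fa U G a) x y u v := by
  ext c
  unfold upd2
  by_cases h1 : c = y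
  · subst h1; unfold fa; rw [if_neg hy, Function.update_self, Function.update_self]
  · rw [Function.update_of_ne h1]
    by_cases h2 : c = x
    · subst h2
      unfold fa
      rw [if_neg hx, Function.update_of_ne h1, Function.update_self, Function.update_self]
    · rw [Function.update_of_ne h2]
      unfold fa
      rw [Function.update_of_ne h1, Function.update_of_ne h2]

lemma fb_upd {U : Fin N → Fin N} {G : Finset (Fin N)} {a : Fin N → ℂ} {x y : Fin N} {u v : ℂ}
    (hx : x ∉ G) (hy : y ∉ G) : fb U G (upd2 a x y u v) = upd2 (fb U G a) x y u v := by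
  ext c
  unfold upd2
  by_cases h1 : c = y
  · subst h1; unfold fb; rw [if_neg hy, Function.update_self, Function.update_self]
  · rw [Function.update_of_ne h1]
    by_cases h2 : c = x
    · subst h2
      unfold fb
      rw [if_neg hx, Function.update_of_ne h1, Function.update_self, Function.update_self]
    · rw [Function.update_of_ne h2]
      unfold fb
      rw [Function.update_of_ne h1, Function.update_of_ne h2]

/-- **Slide along an arc above the row**: the coupon at the right foot is `B` times the coupon at the left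
foot. -/
theorem slide_row {X : Net (Fin N)} {P : Finset (Fin N)} {U : Fin N → Fin N} (hP : Arcs X P U)
    {A B : ℂ} (hAB : Over A B) (hinv : ∀ p, X.π (X.π p) = p)
    (htn : ∀ p, X.t (X.π p) = -X.t p) (φ : ℤ → ℂ) (a b : Fin N → ℂ) {x : Fin N} (hx : x ∈ P)
    (hxy : x < U x) (hov : ∀ z, x < z → z < U x → a z = A ∧ b z = B) :
    ZF X φ (upd2 a x (U x) A 1) (upd2 b x (U x) B (-1)) =
      B * ZF X φ (upd2 a x (U x) 1 A) (upd2 b x (U x) (-1) B) := by
  set y := U x with hy
  set G := univ.filter (fun z : Fin N => x < z ∧ z < y) with hG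
  have memG : ∀ z, z ∈ G ↔ x < z ∧ z < y := fun z => by rw [hG, mem_filter]; simp
  have hxG : x ∉ G := fun h => lt_irrefl _ ((memG x).1 h).1
  have hyG : y ∉ G := fun h => lt_irrefl _ ((memG y).1 h).2
  have hGP : G ⊆ P := fun z hz => (hP.nest x hx z ((memG z).1 hz).1 ((memG z).1 hz).2).1
  have hGU : ∀ c ∈ G, U c ∈ G := fun c hc =>
    (memG _).2 (hP.nest x hx c ((memG c).1 hc).1 ((memG c).1 hc).2).2
  have hGn : ∀ c ∈ G, ∀ z, c < z → z < U c → z ∈ G := fun c hc z h1 h2 =>
    (memG z).2 ⟨((memG c).1 hc).1.trans h1, h2.trans ((memG _).1 (hGU c hc)).2⟩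
  have hval : ∀ (u v u' v' : ℂ), ∀ c ∈ G, upd2 a x y u v c = A ∧ upd2 b x y u' v' c = B := by
    intro u v u' v' c hc
    have h1 := (memG c).1 hc
    unfold upd2
    rw [Function.update_of_ne h1.2.ne, Function.update_of_ne h1.1.ne',
      Function.update_of_ne h1.2.ne, Function.update_of_ne h1.1.ne']
    exact hov c h1.1 h1.2
  have f1 := freeze_all hP hAB hinv htn φ (upd2 a x y A 1) (upd2 b x y B (-1)) _ G rfl hGP hGU hGn
    (hval _ _ _ _)
  have f2 := freeze_all hP hAB hinv htn φ (upd2 a x y 1 A) (upd2 b x y (-1) B) _ G rfl hGP hGU hGn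
    (hval _ _ _ _)
  rw [f1, f2, fa_upd hxG hyG, fb_upd hxG hyG, fa_upd hxG hyG, fb_upd hxG hyG]
  refine slide hAB hinv htn hxy.ne φ (fa U G a) (fb U G b) ?_
  intro s hs
  apply hP.ok hinv htn hx hxy
  intro z hxz hzy
  have hzG : z ∈ G := (memG z).2 ⟨hxz, hzy⟩
  unfold rest at hs
  rw [Finset.prod_ne_zero_iff] at hs
  exact cn_of_ne hzG (hP.ne z (hGP hzG)) (hs z (by
    rw [mem_erase, mem_erase]; exact ⟨hzy.ne, hxz.ne', mem_univ z⟩))

/-- **Slide along an arc below the row** (`hP` for the mirror image): the coupon at the right foot is `A`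
times the coupon at the left foot. -/
theorem slide_row_dn {X : Net (Fin N)} {P : Finset (Fin N)} {D : Fin N → Fin N}
    (hP : Arcs (mir X) P D) {A B : ℂ} (hAB : Over A B) (hinv : ∀ p, X.π (X.π p) = p)
    (htn : ∀ p, X.t (X.π p) = -X.t p) (φ : ℤ → ℂ) (a b : Fin N → ℂ) {x : Fin N} (hx : x ∈ P)
    (hxy : x < D x) (hov : ∀ z, x < z → z < D x → a z = A ∧ b z = B) :
    ZF X φ (upd2 a x (D x) A 1) (upd2 b x (D x) B (-1)) =
      A * ZF X φ (upd2 a x (D x) 1 A) (upd2 b x (D x) (-1) B) := by
  have hAB' : Over B A := ⟨by rw [mul_comm]; exact hAB.mul, by rw [add_comm]; exact hAB.add⟩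
  have hy := hxy.ne
  -- the sign of the coupon
  have sgn : ∀ (Y : Net (Fin N)) (ψ : ℤ → ℂ) (u v u' v' : Fin N → ℂ) (c : Fin N),
      (∀ z, z ≠ c → u' z = u z ∧ v' z = v z) → u' c = -u c → v' c = -v c →
      ZF Y ψ u' v' = -ZF Y ψ u v := by
    intro Y ψ u v u' v' c h1 h2 h3
    unfold ZF
    rw [← sum_neg_distrib]
    apply sum_congr rfl
    intro s _
    rw [← neg_mul]
    congr 1
    rw [← Finset.mul_prod_erase univ _ (mem_univ c), ← Finset.mul_prod_erase univ _ (mem_univ c),
      ← neg_mul]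
    congr 1
    · rw [h2, h3]; split_ifs <;> rfl
    · apply prod_congr rfl
      intro z hz
      rw [(h1 z (mem_erase.1 hz).1).1, (h1 z (mem_erase.1 hz).1).2]
  have h1 := slide_row hP hAB' (mir_inv hinv) (mir_tn htn) (fun k => φ (-k)) b a hx hxy
    (fun z h2 h3 => ⟨(hov z h2 h3).2, (hov z h2 h3).1⟩)
  have e1 : ZF (mir X) (fun k => φ (-k)) (upd2 b x (D x) B 1) (upd2 a x (D x) A (-1)) =
      -ZF X φ (upd2 a x (D x) A 1) (upd2 b x (D x) B (-1)) := by
    rw [← ZF_mir X φ]
    apply sgn _ _ _ _ _ _ (D x)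
    · intro z hz
      unfold upd2
      rw [Function.update_of_ne hz, Function.update_of_ne hz, Function.update_of_ne hz,
        Function.update_of_ne hz]
      exact ⟨rfl, rfl⟩
    · rw [upd2_y, upd2_y]; ring
    · rw [upd2_y, upd2_y]
  have e2 : ZF (mir X) (fun k => φ (-k)) (upd2 b x (D x) 1 B) (upd2 a x (D x) (-1) A) =
      -ZF X φ (upd2 a x (D x) 1 A) (upd2 b x (D x) (-1) B) := by
    rw [← ZF_mir X φ]
    apply sgn _ _ _ _ _ _ x
    · intro z hz
      have : ∀ (g : Fin N → ℂ) (u u' v : ℂ), upd2 g x (D x) u v z = upd2 g x (D x) u' v z := by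
        intro g u u' v
        unfold upd2
        by_cases h : z = D x
        · subst h; rw [Function.update_self, Function.update_self]
        · rw [Function.update_of_ne h, Function.update_of_ne h, Function.update_of_ne hz,
            Function.update_of_ne hz]
      exact ⟨this b _ _ _, this a _ _ _⟩
    · rw [upd2_x hy, upd2_x hy]; ring
    · rw [upd2_x hy, upd2_x hy]
  rw [e1, e2] at h1
  linear_combination -h1

end Pool.Agent.H69.M6b
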