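import Mathlib
import Pool.Agent.H69.M6b.DataR
import Pool.Agent.Q1.M6b.Asm2

set_option autoImplicit false
set_option linter.unusedSectionVars false
set_option linter.unusedVariables false
open Finset

/-! # The sums over the coupons of a row: abstract form

`row_sum`: for every row of an environment with the interface `RowI` and the bound `R ^ (25/32)` of the
moment of the number of closed strands around the mark, the sum over `m` coupons of the amplitudes is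
at most `D R ^ (2 m / 3 + 2 / 5)`. -/

namespace Pool.Agent.H69.M6b

open Pool.Agent.H75.Perc Pool.Agent.H75.TwoArm Pool.Agent.Q1 Pool.Agent.H81.G1
open Pool.Agent.H99.NC Pool.Agent.H81.NC
open Pool.Agent.H30.Mid (RS rl rp rcr)
open Pool.Agent.Q1.M6b.Gl (gE tr mem_tr)
open Pool.Agent.Q1.M6b.Gd
open Pool.Agent.Q1.M6b.Nest (Lp)
open Pool.Agent.Q1.M6b (dy mem_dy cells)
open Pool.Agent.Q1.M6b.Strand (pos)

/-- **The sums over the coupons of a row.** -/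
theorem row_sum (hAP : AP Pool.Agent.Q1.M6c.PlaneK) (m g s A : ℕ) (K0 : ℤ) (Cb : ℝ) (hK0 : 1 ≤ K0)
    (hCb : 0 ≤ Cb) : ∃ D : ℝ, 0 ≤ D ∧
    ∀ (X : Env) (N : ℕ) (xr y0 : ℤ) (k : ℕ) (EL EU W' : Finset (ℤ × ℤ)) (R0 : ℕ) (Sw : Finset ℤ)
      (R : ℝ), RowI X N xr y0 k EL EU W' K0 g s R0 Sw → (∀ e ∈ gE EL EU (1, -1), (e.1 + e.2) % 2 = 1) →
      k ≤ N → 1 ≤ R → ((N + 1 : ℕ) : ℝ) ≤ A * R → 2 ≤ R0 → (R0 : ℝ) ≤ A * R → N ≤ A * R0 →
      Ex (cp (1 / 2)) (gE EL EU (1, -1))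
        (fun ω => (4 : ℝ) ^ (Lp (ω ∪ W') (vx (sm true y0 (xr - y0 + 1 + (k : ℕ))))).ncard) ≤
        Cb * R ^ (25 / 32 : ℝ) →
      ∀ (y : Fin N × Dir) (kk : Fin N), inc (rp xr y0) y = true → (y = (kk, .W) ∨ y = (kk, .E)) →
      pos y = k →
      ‖∑ t ∈ powersetCard m (Finset.Ico (-(k : ℤ)) ((N : ℤ) - k)),
        Ec (fun _ => (1 / 2 : ℂ)) (gE EL EU (1, -1))
          (Pool.Agent.H30.Mid.Amp X xr y0 y (zt ^ (4 : ℤ)) (zt ^ (-4 : ℤ)) EL EU k t)‖ ≤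
        D * R ^ ((2 / 3 : ℝ) * m + 2 / 5) := by
  obtain ⟨b, hb, C, hC, hg1⟩ := g1_final hAP
  obtain ⟨Cx, hCx, hgx⟩ := gR_root g s m A (1 / 160) (by norm_num)
  have hC0 : 0 ≤ C := by linarith
  obtain ⟨D, hD⟩ := hg1 m (K0 * (4 * b + 8) + 8 * b + 33) K0 (A : ℝ)
    (C ^ (2 * m) * 4 * Cb) (Cx * (A : ℝ) ^ (1 / 160 : ℝ)) (by positivity) (by positivity)
    hK0 (by nlinarith)
  refine ⟨max D 0, le_max_right _ _, ?_⟩
  intro X N xr y0 k EL EU W' R0 Sw R I hodd hkN hR hNA hR02 hR0A hNR0 hE y kk hy hyk hpos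
  have hRp : (0 : ℝ) < R := by linarith
  have key := hD (gE EL EU (1, -1)) true y0 (xr + k - y0 + 1) k (N - k) N R I.geo hkN (by omega) hR hNA
    (fun ω => C ^ m * 2 ^ ((Lp (ω ∪ W') (vx (sm true y0 (xr - y0 + 1 + (k : ℕ))))).ncard + 1))
    (fun ω => gR N xr y0 (gE EL EU (1, -1)) W' g s m R0 ω)
    (fun ω _ => by positivity) (fun ω _ => gR_nonneg ..) ?_ ?_
    (fun t ω => Pool.Agent.H30.Mid.Amp X xr y0 y (zt ^ (4 : ℤ)) (zt ^ (-4 : ℤ)) EL EU k t ω) ?_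
  · have e1 : ((N : ℤ) - (k : ℤ)) = ((N - k : ℕ) : ℤ) := by omega
    rw [e1]
    exact key.trans (mul_le_mul_of_nonneg_right (le_max_left _ _) (by positivity))
  · rw [show (fun ω : Finset (ℤ × ℤ) => (C ^ m *
        2 ^ ((Lp (ω ∪ W') (vx (sm true y0 (xr - y0 + 1 + (k : ℕ))))).ncard + 1)) ^ 2) =
        fun ω => (C ^ (2 * m) * 4) *
          (4 : ℝ) ^ (Lp (ω ∪ W') (vx (sm true y0 (xr - y0 + 1 + (k : ℕ))))).ncard from by
      funext ω
      generalize (Lp (ω ∪ W') (vx (sm true y0 (xr - y0 + 1 + (k : ℕ))))).ncard = n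
      rw [mul_pow, ← pow_mul, ← pow_mul, show (4 : ℝ) = 2 ^ 2 by norm_num, ← pow_mul]
      ring, Ex_smul, mul_assoc _ Cb]
    exact mul_le_mul_of_nonneg_left hE (by positivity)
  · have h5 := hgx N xr y0 (gE EL EU (1, -1)) W' R0 ((A : ℝ) * R) hodd hR02 hR0A hNR0
    rw [Real.mul_rpow (by positivity) hRp.le, ← mul_assoc] at h5
    exact h5
  · intro S p' hp' k₁ hk₁ k₂ hk₂ L hL y' hy' ω hω hS
    obtain ⟨A', hh, hA', hn⟩ := data_row I hb hK0 (by nlinarith) hkN hy hyk hpos hR02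
      hk₁ hk₂ hL hy' hω hS
    refine ⟨A', hh, hA', ?_⟩
    rw [mem_antidiagonal.1 hp'] at hn
    calc ‖A'‖ * C ^ m ≤ _ * C ^ m := mul_le_mul_of_nonneg_right hn (by positivity)
      _ = _ := by ring

end Pool.Agent.H69.M6b
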