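import Mathlib
import Pool.Agent.H81.G1.Net
import Pool.Agent.H80.Sweep.Ret

set_option autoImplicit false
open Finset

/-! # Amplitudes of networks with a general phase function

`ampF f d x0 y0 φ` is `φ (turning from x0 to y0)` if the point `y0` is on the loop of `x0`, and `0`
otherwise. It depends only on the first-return data of `f`, `d` (helper80's substitution principle). -/

namespace Pool.Agent.H69.M6b

open Pool.Agent.H81.G1 Pool.Agent.H80.Sweep Pool.Agent.Q1 Pool.Agent.H75.Perc

section gen
variable {D : Type*} [DecidableEq D]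

/-- amplitude with a general phase `φ` -/
noncomputable def ampF (f : D → D) (d : D → ℤ) (x0 y0 : D) (φ : ℤ → ℂ) : ℂ :=
  ∑ i ∈ range (Function.minimalPeriod f x0), if f^[i] x0 = y0 then φ (KK f d x0 0 i) else 0

lemma ampF_vis {f : D → D} {d : D → ℤ} {x0 y0 : D} {φ : ℤ → ℂ} {k : ℤ}
    (h : Vis f d x0 0 y0 k) : ampF f d x0 y0 φ = φ k := by
  obtain ⟨i, hi, h1, h2⟩ := h
  unfold ampF
  rw [Finset.sum_eq_single i]
  · rw [if_pos h1, h2]
  · intro j hj hji
    rw [if_neg]
    intro h3
    apply hji
    exact Function.iterate_injOn_Iio_minimalPeriod (f := f) (x := x0) (mem_range.1 hj) hi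
      (h3.trans h1.symm)
  · intro h3; exact absurd (mem_range.2 hi) h3

lemma ampF_not_vis {f : D → D} {d : D → ℤ} {x0 y0 : D} {φ : ℤ → ℂ}
    (h : ∀ k, ¬ Vis f d x0 0 y0 k) : ampF f d x0 y0 φ = 0 := by
  unfold ampF
  apply Finset.sum_eq_zero
  intro i hi
  rw [if_neg]
  intro h1
  exact h _ ⟨i, mem_range.1 hi, h1, rfl⟩

/-- **Substitution principle** for amplitudes. -/
theorem ampF_congr {f f' : D → D} {d d' : D → ℤ} {R : D → Prop} {x0 y0 : D} (φ : ℤ → ℂ)
    (hx0 : R x0) (hy0 : R y0) (H : ∀ x, R x → ∃ y t, Ret f d R x y t ∧ Ret f' d' R x y t) :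
    ampF f d x0 y0 φ = ampF f' d' x0 y0 φ := by
  have H' : ∀ x, R x → ∃ y t, Ret f' d' R x y t ∧ Ret f d R x y t := fun x hx => by
    obtain ⟨y, t, h1, h2⟩ := H x hx
    exact ⟨y, t, h2, h1⟩
  by_cases h : ∃ k, Vis f d x0 0 y0 k
  · obtain ⟨k, hk⟩ := h
    rw [ampF_vis hk, ampF_vis (hk.mono hx0 H hy0)]
  · push Not at h
    rw [ampF_not_vis h, ampF_not_vis]
    intro k hk
    exact h k (hk.mono hx0 H' hy0)

omit [DecidableEq D] in
/-- a walk through points outside `R` followed by a first return -/
lemma walk {f g : D → D} {d e : D → ℤ} {R : D → Prop} {k : ℕ} : ∀ {z : D},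
    (∀ i < k, f (g^[i] z) = g (g^[i] z) ∧ d (g^[i] z) = e (g^[i] z)) →
    (∀ i, 0 < i → i ≤ k → ¬ R (g^[i] z)) → ∀ {w : D} {t : ℤ}, Ret f d R (g^[k] z) w t →
    Ret f d R z w (∑ i ∈ range k, e (g^[i] z) + t) := by
  induction k with
  | zero => intro z _ _ w t h; simpa using h
  | succ k ih =>
    intro z h hR w t hw
    have h0 := h 0 (Nat.succ_pos k)
    simp only [Function.iterate_zero, id] at h0
    have h1 := ih (z := g z) (fun i hi => by
      have := h (i + 1) (by omega)
      rwa [Function.iterate_succ_apply] at this)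
      (fun i hi hik => by
        have := hR (i + 1) (by omega) (by omega)
        rwa [Function.iterate_succ_apply] at this) (w := w) (t := t)
      (by rwa [← Function.iterate_succ_apply])
    have hR1 : ¬ R (g z) := by
      have := hR 1 one_pos (by omega)
      simpa using this
    have h2 := Ret.step (x := z) h0.1 hR1 h0.2 h1
    rw [Finset.sum_range_succ']
    simp only [Function.iterate_succ_apply, Function.iterate_zero, id]
    have : e z + (∑ i ∈ range k, e (g^[i] (g z)) + t) =
        ∑ i ∈ range k, e (g^[i] (g z)) + e z + t := by ring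
    rw [← this]
    exact h2

end gen

variable {ι : Type*} [Fintype ι] [DecidableEq ι]

/-- state sum with the phase function `φ` -/
noncomputable def ZF (X : Net ι) (φ : ℤ → ℂ) (a b : ι → ℂ) : ℂ :=
  ∑ s : ι → Bool, (∏ i, if s i then b i else a i) * ampF (X.step s) (X.dt s) X.x0 X.y0 φ

lemma ZF_eq (X : Net ι) (a b : ι → ℂ) : ZF X (fun k => zt ^ (-2 * k)) a b = X.Z a b := by
  unfold ZF Net.Z Net.amp ampF Net.ln Net.KT
  simp only [KK, zero_add]

/-! ### Sums over two tiles -/

/-- flip of one tile -/
def flipT (x : ι) : (ι → Bool) ≃ (ι → Bool) where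
  toFun s := Function.update s x (!s x)
  invFun s := Function.update s x (!s x)
  left_inv s := by ext i; by_cases h : i = x <;> simp [Function.update, h]
  right_inv s := by ext i; by_cases h : i = x <;> simp [Function.update, h]

lemma sum_flip (x : ι) (H : (ι → Bool) → ℂ) :
    2 * ∑ s, H s = ∑ s, ∑ u : Bool, H (Function.update s x u) := by
  have h1 : ∑ s, H (flipT x s) = ∑ s, H s := Equiv.sum_comp (flipT x) H
  have h2 : ∀ s : ι → Bool, ∑ u : Bool, H (Function.update s x u) = H s + H (flipT x s) := by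
    intro s
    rw [Fintype.sum_bool]
    have e : Function.update s x (s x) = s := Function.update_eq_self x s
    change _ = H s + H (Function.update s x (!s x))
    cases hs : s x
    · rw [hs] at e; rw [e]; simp only [Bool.not_false]; ring
    · rw [hs] at e; rw [e]; simp only [Bool.not_true]
  rw [sum_congr rfl (fun s _ => h2 s), sum_add_distrib, h1]
  ring

/-- states of the pair `x, y` -/
def up2 (s : ι → Bool) (x y : ι) (u v : Bool) : ι → Bool :=
  Function.update (Function.update s x u) y v

lemma sum_pair {x y : ι} (H : (ι → Bool) → ℂ) :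
    4 * ∑ s, H s = ∑ s, ∑ u : Bool, ∑ v : Bool, H (up2 s x y u v) := by
  have h1 := sum_flip y H
  have h2 := sum_flip x (fun s => ∑ v : Bool, H (Function.update s y v))
  have : ∑ s, ∑ u : Bool, ∑ v : Bool, H (up2 s x y u v) =
      ∑ s, ∑ u : Bool, (fun s => ∑ v : Bool, H (Function.update s y v)) (Function.update s x u) := rfl
  rw [this, ← h2, ← h1]
  ring

/-- two sums agree if the sums over the states of the pair agree -/
lemma sum_pair_congr {x y : ι} {G H : (ι → Bool) → ℂ}
    (h : ∀ s, ∑ u : Bool, ∑ v : Bool, G (up2 s x y u v) = ∑ u : Bool, ∑ v : Bool, H (up2 s x y u v)) :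
    ∑ s, G s = ∑ s, H s := by
  have h1 := sum_pair (x := x) (y := y) G
  have h2 := sum_pair (x := x) (y := y) H
  rw [sum_congr rfl (fun s _ => h s), ← h2] at h1
  have h4 : (4 : ℂ) ≠ 0 := by norm_num
  exact mul_left_cancel₀ h4 h1

omit [Fintype ι] in
lemma up2_x {s : ι → Bool} {x y : ι} (h : x ≠ y) (u v : Bool) : up2 s x y u v x = u := by
  unfold up2; rw [Function.update_of_ne h, Function.update_self]

omit [Fintype ι] in
lemma up2_y {s : ι → Bool} {x y : ι} (u v : Bool) : up2 s x y u v y = v := by
  unfold up2; rw [Function.update_self]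

omit [Fintype ι] in
lemma up2_ne {s : ι → Bool} {x y i : ι} (hx : i ≠ x) (hy : i ≠ y) (u v : Bool) :
    up2 s x y u v i = s i := by
  unfold up2; rw [Function.update_of_ne hy, Function.update_of_ne hx]

/-- weight of the tiles different from `x, y` -/
noncomputable def rest (a b : ι → ℂ) (s : ι → Bool) (x y : ι) : ℂ :=
  ∏ i ∈ univ.erase x |>.erase y, if s i then b i else a i

lemma prod_pair {a b : ι → ℂ} {s : ι → Bool} {x y : ι} (h : x ≠ y) (u v : Bool) :
    (∏ i, if up2 s x y u v i then b i else a i) =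
      (if u then b x else a x) * (if v then b y else a y) * rest a b s x y := by
  rw [← Finset.mul_prod_erase univ _ (mem_univ x),
    ← Finset.mul_prod_erase (univ.erase x) _ (mem_erase.2 ⟨h.symm, mem_univ y⟩), up2_x h, up2_y,
    mul_assoc]
  congr 2
  unfold rest
  apply prod_congr rfl
  intro i hi
  rw [mem_erase, mem_erase] at hi
  rw [up2_ne hi.2.1 hi.1]

end Pool.Agent.H69.M6b
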