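import Mathlib
import Pool.Agent.H69.M6b.F1g
import Pool.Agent.H81.G1.Glu

set_option autoImplicit false
set_option linter.unusedSectionVars false
set_option linter.unusedVariables false
open Finset

/-! # The frozen environments `XF`: layers, frames and the bound of the outer factor -/

namespace Pool.Agent.H69.M6b

open Pool.Agent.H75.Perc Pool.Agent.H75.TwoArm Pool.Agent.Q1 Pool.Agent.H81.G1
open Pool.Agent.H30.Mid
open Pool.Agent.Q1.M6b.Gl (gE tr mem_tr)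
open Pool.Agent.Q1.M6b.Gd
open Pool.Agent.Q1.M6b.Nest (Lp)
open Pool.Agent.Q1.M6b (dy mem_dy cells)
open Pool.Agent.Q1.M6b.Strand (pos)
open Pool.Agent.H74.R45 Pool.Agent.H13.R45 Pool.Agent.H33.Q1

section
variable {w h j : ℤ} {N : ℕ} {B t : Finset (ℤ × ℤ)} (O : Out w h) (h0 : 0 ≤ j) (h1 : j ≤ h)
  (j2 : j % 2 = 0)

/-- the layers of the frozen environment -/
theorem lay3_XF (hN : (N : ℤ) = w) (g0 : 0 < j) (g1 : j < h) :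
    Lay3 (XF O h0 h1 j2 N B t) N 0 (j - 1) (Pool.Agent.H30.Mid.BL w j B) (BU w h j B) := by
  refine ⟨hasRow_XF O h0 h1 j2 hN g0 g1, XF_sdiff O h0 h1 j2 hN g0 g1, ?_, ?_⟩
  · intro e he
    obtain ⟨x, y, rfl⟩ := exists_lbt (odd_BL he)
    have h2 := mem_BL.1 he
    rw [lbt_diff]
    omega
  · intro e he
    obtain ⟨x, y, rfl⟩ := exists_lbt (odd_BU he)
    have h2 := mem_BU.1 he
    rw [lbt_diff]
    omega

/-- **The frames of the frozen environment.** -/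
theorem fr_XF (hN : (N : ℤ) = w) (g0 : 0 < j) (g1 : j < h) (hr : RootFar O) {ζ : Finset (ℤ × ℤ)}
    (hζ : ζ ⊆ gE (Pool.Agent.H30.Mid.BL w j B) (BU w h j B) (1, -1)) :
    ∃ (L : Finset (ℤ × ℤ)) (F : Frame L N 0 (j - 1)),
      OutL ((XF O h0 h1 j2 N B t).freeze (RS N 0 (j - 1)) (ug (Pool.Agent.H30.Mid.BL w j B) (BU w h j B) (1, -1) ζ)) L ∧
      ¬ F.In (plab (XF O h0 h1 j2 N B t).c0) ∧
      GLab F (ζ ∪ WGl w h j (WF O h0 h1 j2 N B t) (BU w h j B)) ∧ F.EU.card + F.ED.card ≤ 18 := by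
  have w2 := O.w2
  obtain ⟨F, f1, f2, f3⟩ := frame_R45 (lay_XF O h0 h1 j2 (B := B) (t := t)
    (ω := ug (Pool.Agent.H30.Mid.BL w j B) (BU w h j B) (1, -1) ζ) hN) (by omega) O.h2 j2 h0 h1
  have hroot : ¬ F.In (plab O.c0) := by
    intro hIn
    obtain ⟨x, y, e⟩ := exists_lbt (odd_plab' O.c0)
    rw [e] at hIn
    have := f3 x y hIn
    exact hr x y e (by omega)
  exact ⟨_, F, outL_XF O h0 h1 j2, hroot, glab_XF O h0 h1 j2 hN g0 g1 hζ F f3, by omega⟩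

variable {k : ℕ} {y : Fin N × Dir} {b K K0 : ℤ} {S m₁ m₂ : ℕ} {k₁ : Fin m₁ → ℕ × ℤ}
  {k₂ : Fin m₂ → ℕ × ℤ} {Lv : Fin m₁ ⊕ Fin m₂ → ℕ} {yv : Fin m₁ ⊕ Fin m₂ → ℤ} {ω : Finset (ℤ × ℤ)}

/-- **The bound of the outer factor for the frozen environment.** -/
theorem amp_XF (hN : (N : ℤ) = w) (g0 : 0 < j) (g1 : j < h) (hr : RootFar O) (hb : 4 ≤ b)
    (hK0 : 6 ≤ K0) (hK : K0 * (4 * b + 8) + 1 ≤ K) (hk1 : 1 ≤ k) (hkN : k + 1 ≤ N)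
    (hya : w < K0 * (j + 1)) (hyb : w < K0 * (h - j + 1)) (hB : Sep B N 0 (j - 1)) (hB' : Sep B N 0 j)
    (hy : inc (rp 0 (j - 1)) y = true) (hyd : y.2 = .W ∨ y.2 = .E)
    (hyk : (y.1 : ℕ) = k ∨ (y.1 : ℕ) + 1 = k) (hk₁ : k₁ ∈ cells b K S m₁ k)
    (hk₂ : k₂ ∈ cells b K S m₂ (N - k)) (hL : Lv ∈ Lev (lv2 k₁ k₂))
    (hyv : yv ∈ Num b (lv2 k₁ k₂) (nu2 k₁ k₂) Lv)
    (uniq : ∀ i, Lv i ≠ 0 → ∀ a a', FarIn (InB b (zz (zr 0 (j - 1) k) i) (Lv i) (yv i))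
      (OutB b (zz (zr 0 (j - 1) k) i) (Lv i) (yv i)) ω a →
      FarIn (InB b (zz (zr 0 (j - 1) k) i) (Lv i) (yv i))
        (OutB b (zz (zr 0 (j - 1) k) i) (Lv i) (yv i)) ω a' → a = a')
    (hω : ω ⊆ gE (Pool.Agent.H30.Mid.BL w j B) (BU w h j B) (1, -1)) {E W : Finset (ℤ × ℤ)} {T : ℕ}
    (hex : ∀ x1 : Fin m₁ ⊕ Fin m₂ → Fin N, (∀ i, |((x1 i : ℕ) : ℤ) - ctz k b Lv yv i| ≤ rad b Lv i) →
      (∀ i, ((lW k b Lv yv i : ℕ) : ℤ) = ctz k b Lv yv i - rad b Lv i ∧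
        ((rW k b Lv yv i : ℕ) : ℤ) = ctz k b Lv yv i + rad b Lv i ∧ rW k b Lv yv i < N) →
      ∀ ζ ⊆ gE (Pool.Agent.H30.Mid.BL w j B) (BU w h j B) (1, -1),
        (∀ e, e ∉ univ.biUnion (Wi b (zz (zr 0 (j - 1) k)) Lv yv) → (e ∈ ζ ↔ e ∈ ω)) →
        ∃ (Sp : Finset ℤ) (R0 : ℕ),
        ExD N (ω ∪ WGl w h j (WF O h0 h1 j2 N B t) (BU w h j B))
          (ζ ∪ WGl w h j (WF O h0 h1 j2 N B t) (BU w h j B)) E W
          {q | ∃ i, q ∈ Wi b (zz (zr 0 (j - 1) k)) Lv yv i} (0 - (j - 1) + 1) (j - 1)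
          (Zc N (pos y) (lW k b Lv yv) x1) Sp R0 (IvW N k b Lv yv) ∧
        TEE N (ω ∪ WGl w h j (WF O h0 h1 j2 N B t) (BU w h j B)) E W (0 - (j - 1) + 1) (j - 1)
          Sp R0 ≤ T)
    (hfin : (Lp (ω ∪ WGl w h j (WF O h0 h1 j2 N B t) (BU w h j B))
      (vx (sm true (j - 1) (0 - (j - 1) + 1 + (pos y : ℕ))))).Finite) :
    ∃ A, AmpData b (zz (zr 0 (j - 1) k)) Lv yv ω
        (fun x ζ => AX (XF O h0 h1 j2 N B t) 0 (j - 1) y (Pool.Agent.H30.Mid.BL w j B) (BU w h j B) k x ζ) A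
        (hX 0 (j - 1) k b Lv yv ω) ∧
      ‖A‖ ≤ 2 ^ ((Lp (ω ∪ WGl w h j (WF O h0 h1 j2 N B t) (BU w h j B))
          (vx (sm true (j - 1) (0 - (j - 1) + 1 + (pos y : ℕ))))).ncard + 1) *
        2 ^ (6 * (m₁ + m₂ + 18) + (3 * (m₁ + m₂) + 3)) *
        (1 + (6 * (m₁ + m₂) + T : ℕ)) ^ (m₁ + m₂ + 18 + (3 * (m₁ + m₂) + 3)) := by
  have hgeo0 := rowGeo_XF (B := B) (h := h) hN hk1 hkN hK0 hya hyb hB hB'
  have hgeo : RowGeo (gE (Pool.Agent.H30.Mid.BL w j B) (BU w h j B) (1, -1)) (zr 0 (j - 1) k) K0 k (N - k) := by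
    have e : zr 0 (j - 1) k = fun i => sm true (j - 1) ((k : ℤ) - (j - 1) + 1 + i) := by
      funext i
      unfold zr
      congr 1
      ring
    rw [e]; exact hgeo0
  exact amp_bound (lay3_XF O h0 h1 j2 hN g0 g1) hb (by omega) hK (by omega) hgeo hy hyd hyk hk₁ hk₂ hL
    hyv uniq hω (disj_WGl O h0 h1 j2 hN g0 g1)
    (fun ζ hζ => fr_XF O h0 h1 j2 hN g0 g1 hr hζ) hex hfin

end

end Pool.Agent.H69.M6b
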