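import Pool.Agent.H69.M6b.Amp

set_option autoImplicit false
set_option linter.unusedSectionVars false
open Finset

/-! # The second Reidemeister move as freezing

`x`, `y` are tiles of the over-row joined by an arc above; between them the row is deterministic.
The three states `(α,α)`, `(β,β)`, `(β,α)` have the same amplitude (`three`). With the weights
`A, B`, `A B = 1`, `A² + 1 + B² = 0`, the pair may be frozen in the state `(α,β)` (`freeze`), and a
coupon `(1,-1)` may be moved from `y` to `x` (`slide`). -/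

namespace Pool.Agent.H69.M6b

open Pool.Agent.H81.G1 Pool.Agent.H80.Sweep

variable {ι : Type*} [Fintype ι] [DecidableEq ι]

/-- an arc above the row, with feet `x`, `y`, with a deterministic row of turning `τ` between them -/
structure Arc (X : Net ι) (s : ι → Bool) (x y : ι) (τ : ℤ) (k l : ℕ) : Prop where
  ne : x ≠ y
  arc : X.π (x, .N) = (y, .N)
  fe : (X.step s)^[k] (X.π (x, .E)) = (y, .W)
  fi : ∀ i < k, ((X.step s)^[i] (X.π (x, .E))).1 ≠ x ∧ ((X.step s)^[i] (X.π (x, .E))).1 ≠ y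
  ft : X.t (x, .E) + ∑ i ∈ range k, X.dt s ((X.step s)^[i] (X.π (x, .E))) = τ
  be : (X.step s)^[l] (X.π (y, .W)) = (x, .E)
  bi : ∀ i < l, ((X.step s)^[i] (X.π (y, .W))).1 ≠ x ∧ ((X.step s)^[i] (X.π (y, .W))).1 ≠ y
  bt : X.t (y, .W) + ∑ i ∈ range l, X.dt s ((X.step s)^[i] (X.π (y, .W))) = -τ
  turn : X.t (x, .N) = τ - 2

/-- the points inside the arc -/
def MM (X : Net ι) (s : ι → Bool) (x y : ι) (k l : ℕ) (p : ι × Dir) : Prop :=
  p = (x, .N) ∨ p = (y, .N) ∨ (∃ i ≤ k, p = (X.step s)^[i] (X.π (x, .E))) ∨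
    (∃ i ≤ l, p = (X.step s)^[i] (X.π (y, .W)))

omit [Fintype ι] [DecidableEq ι] in
lemma mate_mate (b : Bool) (d : Dir) : Dir.mate b (Dir.mate b d) = d := by
  cases b <;> cases d <;> rfl

omit [Fintype ι] [DecidableEq ι] in
lemma mate_inj {b : Bool} {d d' : Dir} (h : Dir.mate b d = Dir.mate b d') : d = d' := by
  rw [← mate_mate b d, h, mate_mate]

section
variable {X : Net ι} {s : ι → Bool} {x y : ι} {τ : ℤ} {k l : ℕ}

omit [Fintype ι] in
/-- the ends in front of the points of `MM` -/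
lemma MM_ends (hinv : ∀ p, X.π (X.π p) = p) (h : Arc X s x y τ k l) {e : ι × Dir}
    (he : MM X s x y k l (X.π e)) :
    e = (x, .N) ∨ e = (y, .N) ∨ e = (x, .E) ∨ e = (y, .W) ∨
      ∃ z, MM X s x y k l z ∧ z.1 ≠ x ∧ z.1 ≠ y ∧ e = (z.1, z.2.mate (s z.1)) := by
  have hπ : ∀ {a b : ι × Dir}, X.π a = X.π b → a = b := by
    intro a b hab
    rw [← hinv a, hab, hinv]
  rcases he with he | he | ⟨i, hi, he⟩ | ⟨i, hi, he⟩
  · right; left
    apply hπ
    rw [he, ← h.arc, hinv]
  · left
    apply hπ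
    rw [he, h.arc]
  · rcases Nat.eq_zero_or_pos i with h0 | h0
    · subst h0
      right; right; left
      exact hπ he
    · obtain ⟨j, rfl⟩ : ∃ j, i = j + 1 := ⟨i - 1, by omega⟩
      rw [Function.iterate_succ_apply'] at he
      have h1 := hπ he
      have h2 := h.fi j (by omega)
      right; right; right; right
      exact ⟨_, Or.inr (Or.inr (Or.inl ⟨j, by omega, rfl⟩)), h2.1, h2.2, h1⟩
  · rcases Nat.eq_zero_or_pos i with h0 | h0
    · subst h0
      right; right; right; left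
      exact hπ he
    · obtain ⟨j, rfl⟩ : ∃ j, i = j + 1 := ⟨i - 1, by omega⟩
      rw [Function.iterate_succ_apply'] at he
      have h1 := hπ he
      have h2 := h.bi j (by omega)
      right; right; right; right
      exact ⟨_, Or.inr (Or.inr (Or.inr ⟨j, by omega, rfl⟩)), h2.1, h2.2, h1⟩

omit [Fintype ι] in
lemma out_x (hinv : ∀ p, X.π (X.π p) = p) (h : Arc X s x y τ k l) {d : Dir}
    (hd : d = .W ∨ d = .S) : ¬ MM X s x y k l (X.π (x, d)) := by
  intro hm
  rcases MM_ends hinv h hm with e | e | e | e | ⟨z, -, h1, -, e⟩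
  · rcases hd with rfl | rfl <;> simp at e
  · exact h.ne (congrArg Prod.fst e)
  · rcases hd with rfl | rfl <;> simp at e
  · exact h.ne (congrArg Prod.fst e)
  · exact h1 (congrArg Prod.fst e).symm

omit [Fintype ι] in
lemma out_y (hinv : ∀ p, X.π (X.π p) = p) (h : Arc X s x y τ k l) {d : Dir}
    (hd : d = .E ∨ d = .S) : ¬ MM X s x y k l (X.π (y, d)) := by
  intro hm
  rcases MM_ends hinv h hm with e | e | e | e | ⟨z, -, -, h1, e⟩
  · exact h.ne (congrArg Prod.fst e).symm
  · rcases hd with rfl | rfl <;> simp at e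
  · exact h.ne (congrArg Prod.fst e).symm
  · rcases hd with rfl | rfl <;> simp at e
  · exact h1 (congrArg Prod.fst e).symm

omit [Fintype ι] in
lemma step_out (hinv : ∀ p, X.π (X.π p) = p) (h : Arc X s x y τ k l) {p : ι × Dir}
    (hp : ¬ MM X s x y k l p) (hx : p.1 ≠ x) (hy : p.1 ≠ y) : ¬ MM X s x y k l (X.step s p) := by
  intro hm
  rcases MM_ends hinv h hm with e | e | e | e | ⟨z, hz, h1, h2, e⟩
  · exact hx (congrArg Prod.fst e)
  · exact hy (congrArg Prod.fst e)
  · exact hx (congrArg Prod.fst e)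
  · exact hy (congrArg Prod.fst e)
  · apply hp
    have e1 : p.1 = z.1 := (Prod.ext_iff.1 e).1
    have e2 := (Prod.ext_iff.1 e).2
    simp only at e2
    rw [e1] at e2
    have e3 := mate_inj e2
    have : p = z := Prod.ext e1 e3
    rw [this]; exact hz

omit [Fintype ι] in
lemma step_up {u v : Bool} {p : ι × Dir} (hx : p.1 ≠ x) (hy : p.1 ≠ y) :
    X.step (up2 s x y u v) p = X.step s p ∧ X.dt (up2 s x y u v) p = X.dt s p := by
  unfold Net.step Net.dt
  rw [up2_ne hx hy]
  exact ⟨rfl, rfl⟩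

omit [Fintype ι] in
lemma walkF (h : Arc X s x y τ k l) {u v : Bool} {w : ι × Dir} {t : ℤ}
    (hw : Ret (X.step (up2 s x y u v)) (X.dt (up2 s x y u v)) (fun p => ¬ MM X s x y k l p)
      (y, .W) w t) :
    Ret (X.step (up2 s x y u v)) (X.dt (up2 s x y u v)) (fun p => ¬ MM X s x y k l p)
      (X.π (x, .E)) w (τ - X.t (x, .E) + t) := by
  have h1 := walk (f := X.step (up2 s x y u v)) (g := X.step s) (d := X.dt (up2 s x y u v))
    (e := X.dt s) (R := fun p => ¬ MM X s x y k l p) (k := k) (z := X.π (x, .E))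
    (fun i hi => step_up (h.fi i hi).1 (h.fi i hi).2)
    (fun i _ hik => not_not.2 (Or.inr (Or.inr (Or.inl ⟨i, hik, rfl⟩)))) (w := w) (t := t)
    (by rw [h.fe]; exact hw)
  have h2 : ∑ i ∈ range k, X.dt s ((X.step s)^[i] (X.π (x, .E))) = τ - X.t (x, .E) := by
    have := h.ft; linarith
  rwa [h2] at h1

omit [Fintype ι] in
lemma walkB (h : Arc X s x y τ k l) {u v : Bool} {w : ι × Dir} {t : ℤ}
    (hw : Ret (X.step (up2 s x y u v)) (X.dt (up2 s x y u v)) (fun p => ¬ MM X s x y k l p)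
      (x, .E) w t) :
    Ret (X.step (up2 s x y u v)) (X.dt (up2 s x y u v)) (fun p => ¬ MM X s x y k l p)
      (X.π (y, .W)) w (-τ - X.t (y, .W) + t) := by
  have h1 := walk (f := X.step (up2 s x y u v)) (g := X.step s) (d := X.dt (up2 s x y u v))
    (e := X.dt s) (R := fun p => ¬ MM X s x y k l p) (k := l) (z := X.π (y, .W))
    (fun i hi => step_up (h.bi i hi).1 (h.bi i hi).2)
    (fun i _ hik => not_not.2 (Or.inr (Or.inr (Or.inr ⟨i, hik, rfl⟩)))) (w := w) (t := t)
    (by rw [h.be]; exact hw)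
  have h2 : ∑ i ∈ range l, X.dt s ((X.step s)^[i] (X.π (y, .W))) = -τ - X.t (y, .W) := by
    have := h.bt; linarith
  rwa [h2] at h1

omit [Fintype ι] in
lemma MMx (h : Arc X s x y τ k l) {d : Dir} (hd : d = .N ∨ d = .E) : MM X s x y k l (x, d) := by
  rcases hd with rfl | rfl
  · exact Or.inl rfl
  · exact Or.inr (Or.inr (Or.inr ⟨l, le_rfl, h.be.symm⟩))

omit [Fintype ι] in
lemma MMy (h : Arc X s x y τ k l) {d : Dir} (hd : d = .N ∨ d = .W) : MM X s x y k l (y, d) := by
  rcases hd with rfl | rfl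
  · exact Or.inr (Or.inl rfl)
  · exact Or.inr (Or.inr (Or.inl ⟨k, le_rfl, h.fe.symm⟩))

omit [Fintype ι] in
/-- one step in the states `u, v` -/
lemma stp_x (hne : x ≠ y) (u v : Bool) (d : Dir) : X.step (up2 s x y u v) (x, d) = X.π (x, d.mate u) ∧
    X.dt (up2 s x y u v) (x, d) = d.tn u + X.t (x, d.mate u) := by
  unfold Net.step Net.dt
  simp only [up2_x hne]
  exact ⟨trivial, trivial⟩

omit [Fintype ι] in
lemma stp_y (u v : Bool) (d : Dir) : X.step (up2 s x y u v) (y, d) = X.π (y, d.mate v) ∧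
    X.dt (up2 s x y u v) (y, d) = d.tn v + X.t (y, d.mate v) := by
  unfold Net.step Net.dt
  simp only [up2_y]
  exact ⟨trivial, trivial⟩

/-- the data of the first returns of the pair -/
def Data (X : Net ι) (x y : ι) (f : ι × Dir → ι × Dir) (d : ι × Dir → ℤ) (R : ι × Dir → Prop) :
    Prop :=
  Ret f d R (x, .W) (X.π (x, .S)) (-1 + X.t (x, .S)) ∧
  Ret f d R (x, .S) (X.π (x, .W)) (1 + X.t (x, .W)) ∧
  Ret f d R (y, .E) (X.π (y, .S)) (1 + X.t (y, .S)) ∧
  Ret f d R (y, .S) (X.π (y, .E)) (-1 + X.t (y, .E))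

omit [Fintype ι] in
lemma data_ba (hinv : ∀ p, X.π (X.π p) = p) (h : Arc X s x y τ k l) :
    Data X x y (X.step (up2 s x y true false)) (X.dt (up2 s x y true false))
      (fun p => ¬ MM X s x y k l p) := by
  have hx := fun d => stp_x (X := X) (s := s) h.ne true false d
  have hy := fun d => stp_y (X := X) (s := s) (x := x) (y := y) true false d
  refine ⟨?_, ?_, ?_, ?_⟩
  · exact Ret.last (hx .W).1 (out_x hinv h (Or.inr rfl)) (hx .W).2
  · exact Ret.last (hx .S).1 (out_x hinv h (Or.inl rfl)) (hx .S).2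
  · exact Ret.last (hy .E).1 (out_y hinv h (Or.inr rfl)) (hy .E).2
  · exact Ret.last (hy .S).1 (out_y hinv h (Or.inl rfl)) (hy .S).2

omit [Fintype ι] in
lemma data_aa (hinv : ∀ p, X.π (X.π p) = p) (htn : ∀ p, X.t (X.π p) = -X.t p)
    (h : Arc X s x y τ k l) :
    Data X x y (X.step (up2 s x y false false)) (X.dt (up2 s x y false false))
      (fun p => ¬ MM X s x y k l p) := by
  have hx := fun d => stp_x (X := X) (s := s) h.ne false false d
  have hy := fun d => stp_y (X := X) (s := s) (x := x) (y := y) false false d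
  have tN : X.t (y, .N) = -X.t (x, .N) := by rw [← h.arc, htn]
  have aN : X.π (y, .N) = (x, .N) := by rw [← h.arc, hinv]
  refine ⟨?_, ?_, ?_, ?_⟩
  · -- (x, W) → (y, N) → ... → (x, E) → π (x, S)
    have r1 := Ret.last (R := fun p => ¬ MM X s x y k l p) (hx .E).1
      (out_x hinv h (Or.inr rfl)) (hx .E).2
    have r2 := walkB h r1
    have r3 := Ret.step (R := fun p => ¬ MM X s x y k l p) (hy .N).1
      (not_not.2 (Or.inr (Or.inr (Or.inr ⟨0, Nat.zero_le _, rfl⟩)))) (hy .N).2 r2
    have r4 := Ret.step (R := fun p => ¬ MM X s x y k l p) ((hx .W).1.trans h.arc)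
      (not_not.2 (MMy h (Or.inl rfl))) (hx .W).2 r3
    have e : Dir.tn false .W + X.t (x, Dir.mate false .W) + (Dir.tn false .N +
        X.t (y, Dir.mate false .N) + (-τ - X.t (y, .W) + (Dir.tn false .E +
        X.t (x, Dir.mate false .E)))) = -1 + X.t (x, .S) := by
      simp only [Dir.tn, Dir.mate]; rw [h.turn]; ring
    rw [e] at r4
    exact r4
  · -- (x, S) → ... → (y, W) → (x, N) → π (x, W)
    have r1 := Ret.last (R := fun p => ¬ MM X s x y k l p) (hx .N).1
      (out_x hinv h (Or.inl rfl)) (hx .N).2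
    have r2 := Ret.step (R := fun p => ¬ MM X s x y k l p) ((hy .W).1.trans aN)
      (not_not.2 (MMx h (Or.inl rfl))) (hy .W).2 r1
    have r3 := walkF h r2
    have r4 := Ret.step (R := fun p => ¬ MM X s x y k l p) (hx .S).1
      (not_not.2 (Or.inr (Or.inr (Or.inl ⟨0, Nat.zero_le _, rfl⟩)))) (hx .S).2 r3
    have e : Dir.tn false .S + X.t (x, Dir.mate false .S) + (τ - X.t (x, .E) + (Dir.tn false .W +
        X.t (y, Dir.mate false .W) + (Dir.tn false .N + X.t (x, Dir.mate false .N)))) =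
        1 + X.t (x, .W) := by
      simp only [Dir.tn, Dir.mate]; rw [tN, h.turn]; ring
    rw [e] at r4
    exact r4
  · exact Ret.last (hy .E).1 (out_y hinv h (Or.inr rfl)) (hy .E).2
  · exact Ret.last (hy .S).1 (out_y hinv h (Or.inl rfl)) (hy .S).2

omit [Fintype ι] in
lemma data_bb (hinv : ∀ p, X.π (X.π p) = p) (htn : ∀ p, X.t (X.π p) = -X.t p)
    (h : Arc X s x y τ k l) :
    Data X x y (X.step (up2 s x y true true)) (X.dt (up2 s x y true true))
      (fun p => ¬ MM X s x y k l p) := by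
  have hx := fun d => stp_x (X := X) (s := s) h.ne true true d
  have hy := fun d => stp_y (X := X) (s := s) (x := x) (y := y) true true d
  have tN : X.t (y, .N) = -X.t (x, .N) := by rw [← h.arc, htn]
  have aN : X.π (y, .N) = (x, .N) := by rw [← h.arc, hinv]
  refine ⟨?_, ?_, ?_, ?_⟩
  · exact Ret.last (hx .W).1 (out_x hinv h (Or.inr rfl)) (hx .W).2
  · exact Ret.last (hx .S).1 (out_x hinv h (Or.inl rfl)) (hx .S).2
  · -- (y, E) → (x, N) → ... → (y, W) → π (y, S)
    have r1 := Ret.last (R := fun p => ¬ MM X s x y k l p) (hy .W).1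
      (out_y hinv h (Or.inr rfl)) (hy .W).2
    have r2 := walkF h r1
    have r3 := Ret.step (R := fun p => ¬ MM X s x y k l p) (hx .N).1
      (not_not.2 (Or.inr (Or.inr (Or.inl ⟨0, Nat.zero_le _, rfl⟩)))) (hx .N).2 r2
    have r4 := Ret.step (R := fun p => ¬ MM X s x y k l p) ((hy .E).1.trans aN)
      (not_not.2 (MMx h (Or.inl rfl))) (hy .E).2 r3
    have e : Dir.tn true .E + X.t (y, Dir.mate true .E) + (Dir.tn true .N +
        X.t (x, Dir.mate true .N) + (τ - X.t (x, .E) + (Dir.tn true .W +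
        X.t (y, Dir.mate true .W)))) = 1 + X.t (y, .S) := by
      simp only [Dir.tn, Dir.mate]; rw [tN, h.turn]; ring
    rw [e] at r4
    exact r4
  · -- (y, S) → ... → (x, E) → (y, N) → π (y, E)
    have r1 := Ret.last (R := fun p => ¬ MM X s x y k l p) (hy .N).1
      (out_y hinv h (Or.inl rfl)) (hy .N).2
    have r2 := Ret.step (R := fun p => ¬ MM X s x y k l p) ((hx .E).1.trans h.arc)
      (not_not.2 (MMy h (Or.inl rfl))) (hx .E).2 r1
    have r3 := walkB h r2
    have r4 := Ret.step (R := fun p => ¬ MM X s x y k l p) (hy .S).1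
      (not_not.2 (Or.inr (Or.inr (Or.inr ⟨0, Nat.zero_le _, rfl⟩)))) (hy .S).2 r3
    have e : Dir.tn true .S + X.t (y, Dir.mate true .S) + (-τ - X.t (y, .W) + (Dir.tn true .E +
        X.t (x, Dir.mate true .E) + (Dir.tn true .N + X.t (y, Dir.mate true .N)))) =
        -1 + X.t (y, .E) := by
      simp only [Dir.tn, Dir.mate]; rw [h.turn]; ring
    rw [e] at r4
    exact r4

/-- amplitude in the states `u, v` of the pair -/
noncomputable def amp2 (X : Net ι) (φ : ℤ → ℂ) (s : ι → Bool) (x y : ι) (u v : Bool) : ℂ :=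
  ampF (X.step (up2 s x y u v)) (X.dt (up2 s x y u v)) X.x0 X.y0 φ

omit [Fintype ι] in
lemma amp_of_data (hinv : ∀ p, X.π (X.π p) = p) (h : Arc X s x y τ k l) (φ : ℤ → ℂ)
    (hx0 : ¬ MM X s x y k l X.x0) (hy0 : ¬ MM X s x y k l X.y0) {u v u' v' : Bool}
    (h1 : Data X x y (X.step (up2 s x y u v)) (X.dt (up2 s x y u v)) (fun p => ¬ MM X s x y k l p))
    (h2 : Data X x y (X.step (up2 s x y u' v')) (X.dt (up2 s x y u' v'))
      (fun p => ¬ MM X s x y k l p)) : amp2 X φ s x y u v = amp2 X φ s x y u' v' := by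
  unfold amp2
  refine ampF_congr (R := fun p => ¬ MM X s x y k l p) φ hx0 hy0 ?_
  intro p hp
  by_cases hx : p.1 = x
  · obtain ⟨i, d⟩ := p
    simp only at hx
    subst hx
    cases d
    · exact ⟨_, _, h1.1, h2.1⟩
    · exact absurd (MMx h (Or.inl rfl)) hp
    · exact absurd (MMx h (Or.inr rfl)) hp
    · exact ⟨_, _, h1.2.1, h2.2.1⟩
  by_cases hy : p.1 = y
  · obtain ⟨i, d⟩ := p
    simp only at hy
    subst hy
    cases d
    · exact absurd (MMy h (Or.inr rfl)) hp
    · exact absurd (MMy h (Or.inl rfl)) hp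
    · exact ⟨_, _, h1.2.2.1, h2.2.2.1⟩
    · exact ⟨_, _, h1.2.2.2, h2.2.2.2⟩
  have e1 := step_up (X := X) (s := s) (u := u) (v := v) hx hy
  have e2 := step_up (X := X) (s := s) (u := u') (v := v') hx hy
  have e3 := step_out hinv h hp hx hy
  exact ⟨_, _, Ret.last e1.1 e3 e1.2, Ret.last e2.1 e3 e2.2⟩

omit [Fintype ι] in
/-- **the three states with the same amplitude** -/
theorem three (hinv : ∀ p, X.π (X.π p) = p) (htn : ∀ p, X.t (X.π p) = -X.t p)
    (h : Arc X s x y τ k l) (φ : ℤ → ℂ) (hx0 : ¬ MM X s x y k l X.x0)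
    (hy0 : ¬ MM X s x y k l X.y0) :
    amp2 X φ s x y false false = amp2 X φ s x y true false ∧
      amp2 X φ s x y true true = amp2 X φ s x y true false :=
  ⟨amp_of_data hinv h φ hx0 hy0 (data_aa hinv htn h) (data_ba hinv h),
    amp_of_data hinv h φ hx0 hy0 (data_bb hinv htn h) (data_ba hinv h)⟩

end

/-- the arc `x, y` is usable in the state `s` -/
def Ok (X : Net ι) (s : ι → Bool) (x y : ι) : Prop :=
  ∃ τ k l, Arc X s x y τ k l ∧ ¬ MM X s x y k l X.x0 ∧ ¬ MM X s x y k l X.y0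

variable {X : Net ι} {x y : ι}

/-- weights of the over-row at the feet of an arc -/
structure Over (A B : ℂ) : Prop where
  mul : A * B = 1
  add : A + B = 1

lemma Over.sq {A B : ℂ} (h : Over A B) : A ^ 2 + 1 + B ^ 2 = 0 := by
  have h1 := h.mul
  have h2 : B = 1 - A := by linear_combination h.add
  subst h2
  linear_combination (-2 : ℂ) * h1

/-- the weights `a`, with the values `u`, `v` at `x`, `y` -/
def upd2 (a : ι → ℂ) (x y : ι) (u v : ℂ) : ι → ℂ := Function.update (Function.update a x u) y v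

omit [Fintype ι] in
lemma upd2_x {a : ι → ℂ} (h : x ≠ y) (u v : ℂ) : upd2 a x y u v x = u := by
  unfold upd2; rw [Function.update_of_ne h, Function.update_self]

omit [Fintype ι] in
lemma upd2_y {a : ι → ℂ} (u v : ℂ) : upd2 a x y u v y = v := by
  unfold upd2; rw [Function.update_self]

lemma rest_upd {a b : ι → ℂ} {s : ι → Bool} (u v u' v' : ℂ) :
    rest (upd2 a x y u v) (upd2 b x y u' v') s x y = rest a b s x y := by
  unfold rest
  apply prod_congr rfl
  intro i hi
  rw [mem_erase, mem_erase] at hi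
  unfold upd2
  rw [Function.update_of_ne hi.1, Function.update_of_ne hi.2.1, Function.update_of_ne hi.1,
    Function.update_of_ne hi.2.1]

lemma ZF_congr (hxy : x ≠ y) (φ : ℤ → ℂ) (a b : ι → ℂ) {u v u' v' w z w' z' : ℂ} {C : ℂ}
    (h : ∀ s, rest a b s x y ≠ 0 →
      u * v * amp2 X φ s x y false false + u * v' * amp2 X φ s x y false true +
        u' * v * amp2 X φ s x y true false + u' * v' * amp2 X φ s x y true true =
      C * (w * z * amp2 X φ s x y false false + w * z' * amp2 X φ s x y false true +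
        w' * z * amp2 X φ s x y true false + w' * z' * amp2 X φ s x y true true)) :
    ZF X φ (upd2 a x y u v) (upd2 b x y u' v') =
      C * ZF X φ (upd2 a x y w z) (upd2 b x y w' z') := by
  unfold ZF
  rw [mul_sum]
  apply sum_pair_congr (x := x) (y := y)
  intro s
  simp only [Fintype.sum_bool, prod_pair hxy, rest_upd, upd2_x hxy, upd2_y]
  by_cases h0 : rest a b s x y = 0
  · simp [h0]
  have h1 := h s h0
  unfold amp2 at h1
  simp only [if_true, Bool.false_eq_true, if_false]
  linear_combination (rest a b s x y) * h1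

/-- **R2 = freezing**: the feet of an inner arc may be frozen, the left foot in the state `α`, the right
foot in the state `β`. -/
theorem freeze {A B : ℂ} (hAB : Over A B) (hinv : ∀ p, X.π (X.π p) = p)
    (htn : ∀ p, X.t (X.π p) = -X.t p) (hxy : x ≠ y) (φ : ℤ → ℂ) (a b : ι → ℂ)
    (hok : ∀ s, rest a b s x y ≠ 0 → Ok X s x y) :
    ZF X φ (upd2 a x y A A) (upd2 b x y B B) = ZF X φ (upd2 a x y 1 0) (upd2 b x y 0 1) := by
  rw [ZF_congr (w := 1) (z := 0) (w' := 0) (z' := 1) (C := 1) hxy φ a b ?_, one_mul]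
  intro s hs
  obtain ⟨τ, k, l, h1, h2, h3⟩ := hok s hs
  obtain ⟨e1, e2⟩ := three hinv htn h1 φ h2 h3
  rw [e1, e2]
  linear_combination (amp2 X φ s x y true false) * hAB.sq +
    (amp2 X φ s x y false true + amp2 X φ s x y true false) * hAB.mul

/-- **slide** of a coupon along an arc above the row -/
theorem slide {A B : ℂ} (hAB : Over A B) (hinv : ∀ p, X.π (X.π p) = p)
    (htn : ∀ p, X.t (X.π p) = -X.t p) (hxy : x ≠ y) (φ : ℤ → ℂ) (a b : ι → ℂ)
    (hok : ∀ s, rest a b s x y ≠ 0 → Ok X s x y) :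
    ZF X φ (upd2 a x y A 1) (upd2 b x y B (-1)) =
      B * ZF X φ (upd2 a x y 1 A) (upd2 b x y (-1) B) := by
  apply ZF_congr hxy φ a b
  intro s hs
  obtain ⟨τ, k, l, h1, h2, h3⟩ := hok s hs
  obtain ⟨e1, e2⟩ := three hinv htn h1 φ h2 h3
  rw [e1, e2]
  have h4 : B = 1 - A := by linear_combination hAB.add
  have h5 := hAB.mul
  subst h4
  ring_nf
  ring_nf at h5
  linear_combination (-(amp2 X φ s x y true false - amp2 X φ s x y false true)) * h5

end Pool.Agent.H69.M6b
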