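import Pool.Agent.H69.M6b.R2

set_option autoImplicit false
set_option linter.unusedSectionVars false
set_option linter.unusedVariables false
open Finset

/-! # Freezing of all inner arcs of a row

`P` is a set of columns of a row which is a union of nested arcs above the row. The feet may be frozen:
left feet in the state `α`, right feet in the state `β` (`freeze_all`). -/

namespace Pool.Agent.H69.M6b

open Pool.Agent.H81.G1 Pool.Agent.H80.Sweep

variable {N : ℕ}

/-- turning of the row between the columns `n`, `n + 1` -/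
def TE (X : Net (Fin N)) (n : ℕ) : ℤ := if h : n < N then X.t (⟨n, h⟩, .E) else 0

lemma TE_eq (X : Net (Fin N)) (c : Fin N) : TE X c = X.t (c, .E) := by
  unfold TE; rw [dif_pos c.2]

/-- `P` is a union of nested arcs above the row -/
structure Arcs (X : Net (Fin N)) (P : Finset (Fin N)) (U : Fin N → Fin N) : Prop where
  mem : ∀ c ∈ P, U c ∈ P
  ne : ∀ c ∈ P, U c ≠ c
  inv : ∀ c ∈ P, U (U c) = c
  arc : ∀ c ∈ P, X.π (c, .N) = (U c, .N)
  nest : ∀ c ∈ P, ∀ z, c < z → z < U c → z ∈ P ∧ c < U z ∧ U z < U c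
  row : ∀ c ∈ P, ∀ z z' : Fin N, c ≤ z → z' ≤ U c → (z' : ℕ) = z + 1 → X.π (z, .E) = (z', .W)
  turn : ∀ c ∈ P, c < U c → X.t (c, .N) = ∑ n ∈ Ico (c : ℕ) (U c), TE X n - 2
  nr : ∀ c ∈ P, c < U c → ∀ z d, c ≤ z → z ≤ U c → d ≠ Dir.S → (z, d) ≠ (c, .W) →
    (z, d) ≠ (U c, .E) → (z, d) ≠ X.x0 ∧ (z, d) ≠ X.y0

section
variable {X : Net (Fin N)} {P : Finset (Fin N)} {U : Fin N → Fin N} (hP : Arcs X P U)
include hP

lemma Arcs.arc_t (htn : ∀ p, X.t (X.π p) = -X.t p) {c : Fin N} (hc : c ∈ P) (h : U c < c) :
    X.t (c, .N) = 2 - ∑ n ∈ Ico ((U c : Fin N) : ℕ) c, TE X n := by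
  have h1 := hP.turn (U c) (hP.mem c hc) (by rw [hP.inv c hc]; exact h)
  have h2 := htn (U c, .N)
  rw [hP.arc _ (hP.mem c hc), hP.inv c hc] at h2
  rw [h2, h1, hP.inv c hc]
  ring

/-- the state `s` is canonical at `c` -/
def Cn (U : Fin N → Fin N) (s : Fin N → Bool) (c : Fin N) : Prop := s c = decide (U c < c)

lemma Arcs.fwd {s : Fin N → Bool} {x : Fin N} (hx : x ∈ P) (hxy : x < U x)
    (hs : ∀ z, x < z → z < U x → Cn U s z) : ∀ (n : ℕ) (c : Fin N), x < c → c ≤ U x →
      (U x : ℕ) - c = n → (∀ z, c ≤ z → z < U x → c ≤ U z) →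
      ∃ k, (X.step s)^[k] (c, .W) = (U x, .W) ∧
        (∀ i < k, x < ((X.step s)^[i] (c, .W)).1 ∧ ((X.step s)^[i] (c, .W)).1 < U x ∧
          ((X.step s)^[i] (c, .W)).2 ≠ .S) ∧
        ∑ i ∈ range k, X.dt s ((X.step s)^[i] (c, .W)) = ∑ n ∈ Ico (c : ℕ) (U x), TE X n := by
  intro n
  induction n using Nat.strong_induction_on with
  | _ n ih =>
    intro c hxc hcy hn hcl
    rcases eq_or_lt_of_le hcy with heq | hlt
    · refine ⟨0, ?_, fun i hi => absurd hi (Nat.not_lt_zero i), ?_⟩
      · rw [Function.iterate_zero_apply, heq]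
      · rw [heq]; simp
    · obtain ⟨hcP, h1, h2⟩ := hP.nest x hx c hxc hlt
      have h3 : c < U c := lt_of_le_of_ne (hcl c le_rfl hlt) (hP.ne c hcP).symm
      have hsc : s c = false := by
        have := hs c hxc hlt
        unfold Cn at this
        rw [this]; exact decide_eq_false (not_lt.2 h3.le)
      have hsu : s (U c) = true := by
        have := hs (U c) h1 h2
        unfold Cn at this
        rw [this, hP.inv c hcP]; exact decide_eq_true h3
      have hval : ((U c : Fin N) : ℕ) + 1 < N := by
        have := (U x).2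
        have h4 : ((U c : Fin N) : ℕ) < (U x : ℕ) := h2
        omega
      set c' : Fin N := ⟨(U c : ℕ) + 1, hval⟩ with hc'
      have e1 : X.step s (c, .W) = (U c, .N) := by
        unfold Net.step
        simp only [hsc, Dir.mate]
        exact hP.arc c hcP
      have e2 : X.step s (U c, .N) = (c', .W) := by
        unfold Net.step
        simp only [hsu, Dir.mate]
        refine hP.row x hx (U c) c' h1.le ?_ rfl
        rw [Fin.le_def]
        have h4 : ((U c : Fin N) : ℕ) < (U x : ℕ) := h2
        simp only [hc']; omega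
      have hcc' : c < c' := by
        rw [Fin.lt_def] at h3 ⊢; simp only [hc']; omega
      have hc'y : c' ≤ U x := by
        rw [Fin.le_def]
        have h4 : ((U c : Fin N) : ℕ) < (U x : ℕ) := h2
        simp only [hc']; omega
      have hcl' : ∀ z, c' ≤ z → z < U x → c' ≤ U z := by
        intro z hz hzy
        have hcz : c < z := lt_of_lt_of_le hcc' hz
        have h4 := hcl z hcz.le hzy
        have hUcz : U c < z := by
          rw [Fin.lt_def]; rw [Fin.le_def] at hz; simp only [hc'] at hz; omega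
        have hzP := (hP.nest x hx z (hxc.trans hcz) hzy).1
        by_contra hcon
        rw [not_le, Fin.lt_def] at hcon
        simp only [hc'] at hcon
        have h5 : U z ≤ U c := by rw [Fin.le_def]; omega
        rcases eq_or_lt_of_le h5 with h6 | h6
        · have h7 : z = c := by
            rw [← hP.inv z hzP, h6, hP.inv c hcP]
          exact absurd h7 hcz.ne'
        rcases eq_or_lt_of_le h4 with h7 | h7
        · have h8 : U c = z := by rw [h7, hP.inv z hzP]
          exact absurd h8 hUcz.ne
        · have h8 := (hP.nest c hcP (U z) h7 h6).2.2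
          rw [hP.inv z hzP] at h8
          exact absurd h8 (not_lt.2 hUcz.le)
      obtain ⟨k, k1, k2, k3⟩ := ih ((U x : ℕ) - c') (by
        have h4 : ((U c : Fin N) : ℕ) < (U x : ℕ) := h2
        have h5 : (c : ℕ) < (U c : ℕ) := h3
        simp only [hc']; omega) c' (hxc.trans hcc') hc'y rfl hcl'
      have e3 : ∀ i, (X.step s)^[i + 2] (c, .W) = (X.step s)^[i] (c', .W) := by
        intro i
        rw [Function.iterate_add_apply]
        congr 1
        change X.step s (X.step s (c, .W)) = _
        rw [e1, e2]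
      refine ⟨k + 2, ?_, ?_, ?_⟩
      · rw [e3, k1]
      · intro i hi
        rcases Nat.lt_or_ge i 2 with h4 | h4
        · interval_cases i
          · exact ⟨hxc, hlt, by simp⟩
          · rw [Function.iterate_one, e1]
            exact ⟨h1, h2, by simp⟩
        · obtain ⟨j, rfl⟩ : ∃ j, i = j + 2 := ⟨i - 2, by omega⟩
          rw [e3]
          exact k2 j (by omega)
      · rw [Finset.sum_range_succ', Finset.sum_range_succ']
        simp only [Nat.zero_add]
        have e4 : ∑ i ∈ range k, X.dt s ((X.step s)^[i + 1 + 1] (c, .W)) =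
            ∑ i ∈ range k, X.dt s ((X.step s)^[i] (c', .W)) :=
          sum_congr rfl fun i _ => by rw [show i + 1 + 1 = i + 2 from rfl, e3]
        rw [e4, k3, Function.iterate_one, Function.iterate_zero_apply, e1]
        have d1 : X.dt s (c, .W) = 1 + (∑ n ∈ Ico (c : ℕ) (U c), TE X n - 2) := by
          unfold Net.dt
          simp only [hsc, Dir.mate, Dir.tn]
          rw [hP.turn c hcP h3]
        have d2 : X.dt s (U c, .N) = 1 + TE X (U c) := by
          unfold Net.dt
          simp only [hsu, Dir.mate, Dir.tn]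
          rw [TE_eq]
        rw [d1, d2]
        have e5 : ∑ n ∈ Ico (c : ℕ) (U x), TE X n = ∑ n ∈ Ico (c : ℕ) (U c), TE X n + TE X (U c) +
            ∑ n ∈ Ico (c' : ℕ) (U x), TE X n := by
          rw [← Finset.sum_Ico_succ_top (show (c : ℕ) ≤ (U c : ℕ) from h3.le),
            ← Finset.sum_Ico_consecutive _ (show (c : ℕ) ≤ (U c : ℕ) + 1 from by
              have : (c : ℕ) < (U c : ℕ) := h3
              omega) (show (U c : ℕ) + 1 ≤ (U x : ℕ) from h2)]
        rw [e5]; ring

lemma Arcs.bwd (hinv : ∀ p, X.π (X.π p) = p) (htn : ∀ p, X.t (X.π p) = -X.t p)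
    {s : Fin N → Bool} {x : Fin N} (hx : x ∈ P) (hxy : x < U x)
    (hs : ∀ z, x < z → z < U x → Cn U s z) : ∀ (n : ℕ) (c : Fin N), x ≤ c → c < U x →
      (c : ℕ) - x = n → (∀ z, x < z → z ≤ c → U z ≤ c) →
      ∃ k, (X.step s)^[k] (c, .E) = (x, .E) ∧
        (∀ i < k, x < ((X.step s)^[i] (c, .E)).1 ∧ ((X.step s)^[i] (c, .E)).1 < U x ∧
          ((X.step s)^[i] (c, .E)).2 ≠ .S) ∧
        ∑ i ∈ range k, X.dt s ((X.step s)^[i] (c, .E)) = -∑ n ∈ Ico (x : ℕ) c, TE X n := by
  intro n
  induction n using Nat.strong_induction_on with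
  | _ n ih =>
    intro c hxc hcy hn hcl
    rcases eq_or_lt_of_le hxc with heq | hlt
    · refine ⟨0, ?_, fun i hi => absurd hi (Nat.not_lt_zero i), ?_⟩
      · rw [Function.iterate_zero_apply, heq]
      · rw [heq]; simp
    · obtain ⟨hcP, h1, h2⟩ := hP.nest x hx c hlt hcy
      have h3 : U c < c := lt_of_le_of_ne (hcl c hlt le_rfl) (hP.ne c hcP)
      have hsc : s c = true := by
        have := hs c hlt hcy
        unfold Cn at this
        rw [this]; exact decide_eq_true h3
      have hsu : s (U c) = false := by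
        have := hs (U c) h1 h2
        unfold Cn at this
        rw [this, hP.inv c hcP]; exact decide_eq_false (not_lt.2 h3.le)
      have h1' : (x : ℕ) < (U c : ℕ) := h1
      have h3' : (U c : ℕ) < (c : ℕ) := h3
      have hcN := c.2
      set c' : Fin N := ⟨(U c : ℕ) - 1, by omega⟩ with hc'
      have hc'v : ((U c : Fin N) : ℕ) = c' + 1 := by simp only [hc']; omega
      have e1 : X.step s (c, .E) = (U c, .N) := by
        unfold Net.step
        simp only [hsc, Dir.mate]
        exact hP.arc c hcP
      have hrow : X.π (c', .E) = (U c, .W) := by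
        refine hP.row x hx c' (U c) ?_ h2.le hc'v
        rw [Fin.le_def]; simp only [hc']; omega
      have e2 : X.step s (U c, .N) = (c', .E) := by
        unfold Net.step
        simp only [hsu, Dir.mate]
        rw [← hrow, hinv]
      have hcc' : c' < c := by
        rw [Fin.lt_def]; simp only [hc']; omega
      have hxc' : x ≤ c' := by
        rw [Fin.le_def]; simp only [hc']; omega
      have hcl' : ∀ z, x < z → z ≤ c' → U z ≤ c' := by
        intro z hxz hz
        have hzc : z < c := lt_of_le_of_lt hz hcc'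
        have h4 := hcl z hxz hzc.le
        have hzUc : z < U c := by
          rw [Fin.lt_def]; rw [Fin.le_def] at hz; simp only [hc'] at hz; omega
        have hzP := (hP.nest x hx z hxz (hzc.trans hcy)).1
        by_contra hcon
        rw [not_le, Fin.lt_def] at hcon
        simp only [hc'] at hcon
        have h5 : U c ≤ U z := by rw [Fin.le_def]; omega
        rcases eq_or_lt_of_le h5 with h6 | h6
        · have h7 : z = c := by
            rw [← hP.inv z hzP, ← h6, hP.inv c hcP]
          exact absurd h7 hzc.ne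
        rcases eq_or_lt_of_le h4 with h7 | h7
        · have h8 : U c = z := by rw [← h7, hP.inv z hzP]
          exact absurd h8 hzUc.ne'
        · have h9 : U (U c) = c := hP.inv c hcP
          have h8 := (hP.nest (U c) (hP.mem c hcP) (U z) h6 (by rw [h9]; exact h7)).2.1
          rw [hP.inv z hzP] at h8
          exact absurd h8 (not_lt.2 hzUc.le)
      obtain ⟨k, k1, k2, k3⟩ := ih ((c' : ℕ) - x) (by
        simp only [hc']; omega) c' hxc' (hcc'.trans hcy) rfl hcl'
      have e3 : ∀ i, (X.step s)^[i + 2] (c, .E) = (X.step s)^[i] (c', .E) := by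
        intro i
        rw [Function.iterate_add_apply]
        congr 1
        change X.step s (X.step s (c, .E)) = _
        rw [e1, e2]
      refine ⟨k + 2, ?_, ?_, ?_⟩
      · rw [e3, k1]
      · intro i hi
        rcases Nat.lt_or_ge i 2 with h4 | h4
        · interval_cases i
          · exact ⟨hlt, hcy, by simp⟩
          · rw [Function.iterate_one, e1]
            exact ⟨h1, h2, by simp⟩
        · obtain ⟨j, rfl⟩ : ∃ j, i = j + 2 := ⟨i - 2, by omega⟩
          rw [e3]
          exact k2 j (by omega)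
      · rw [Finset.sum_range_succ', Finset.sum_range_succ']
        simp only [Nat.zero_add]
        have e4 : ∑ i ∈ range k, X.dt s ((X.step s)^[i + 1 + 1] (c, .E)) =
            ∑ i ∈ range k, X.dt s ((X.step s)^[i] (c', .E)) :=
          sum_congr rfl fun i _ => by rw [show i + 1 + 1 = i + 2 from rfl, e3]
        rw [e4, k3, Function.iterate_one, Function.iterate_zero_apply, e1]
        have d1 : X.dt s (c, .E) = -1 + (2 - ∑ n ∈ Ico ((U c : Fin N) : ℕ) c, TE X n) := by
          unfold Net.dt
          simp only [hsc, Dir.mate, Dir.tn]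
          rw [hP.arc_t htn hcP h3]
        have d2 : X.dt s (U c, .N) = -1 - TE X c' := by
          unfold Net.dt
          simp only [hsu, Dir.mate, Dir.tn]
          rw [TE_eq, ← hrow, htn]
          ring
        rw [d1, d2]
        have e5 : ∑ n ∈ Ico (x : ℕ) c, TE X n = ∑ n ∈ Ico (x : ℕ) c', TE X n + TE X c' +
            ∑ n ∈ Ico ((U c : Fin N) : ℕ) c, TE X n := by
          rw [← Finset.sum_Ico_succ_top (show (x : ℕ) ≤ (c' : ℕ) from hxc'), ← hc'v,
            Finset.sum_Ico_consecutive _ (show (x : ℕ) ≤ (U c : ℕ) from h1.le)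
              (show (U c : ℕ) ≤ (c : ℕ) from h3.le)]
        rw [e5]; ring

/-- an inner arc with canonical states between its feet is usable -/
theorem Arcs.ok (hinv : ∀ p, X.π (X.π p) = p) (htn : ∀ p, X.t (X.π p) = -X.t p)
    {s : Fin N → Bool} {x : Fin N} (hx : x ∈ P) (hxy : x < U x)
    (hs : ∀ z, x < z → z < U x → Cn U s z) : Ok X s x (U x) := by
  have hxy' : (x : ℕ) < (U x : ℕ) := hxy
  have hN := (U x).2
  set c : Fin N := ⟨x + 1, by omega⟩ with hc
  set e : Fin N := ⟨(U x : ℕ) - 1, by omega⟩ with he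
  have hxc : x < c := by rw [Fin.lt_def]; simp only [hc]; omega
  have hcy : c ≤ U x := by rw [Fin.le_def]; simp only [hc]; omega
  have hxe : x ≤ e := by rw [Fin.le_def]; simp only [he]; omega
  have hey : e < U x := by rw [Fin.lt_def]; simp only [he]; omega
  have hev : ((U x : Fin N) : ℕ) = e + 1 := by simp only [he]; omega
  have r1 : X.π (x, .E) = (c, .W) := hP.row x hx x c le_rfl hcy rfl
  have r2 : X.π (e, .E) = (U x, .W) := hP.row x hx e (U x) hxe le_rfl hev
  have r3 : X.π (U x, .W) = (e, .E) := by rw [← r2, hinv]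
  obtain ⟨k, k1, k2, k3⟩ := hP.fwd hx hxy hs _ c hxc hcy rfl (by
    intro z hz hzy
    have hxz : x < z := lt_of_lt_of_le hxc hz
    have h1 := (hP.nest x hx z hxz hzy).2.1
    rw [Fin.le_def]; rw [Fin.lt_def] at h1; simp only [hc]; omega)
  obtain ⟨l, l1, l2, l3⟩ := hP.bwd hinv htn hx hxy hs _ e hxe hey rfl (by
    intro z hxz hz
    have hzy : z < U x := lt_of_le_of_lt hz hey
    have h1 := (hP.nest x hx z hxz hzy).2.2
    rw [Fin.le_def]; rw [Fin.lt_def] at h1; simp only [he]; omega)
  have hA : Arc X s x (U x) (∑ n ∈ Ico (x : ℕ) (U x), TE X n) k l := by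
    refine ⟨hxy.ne, hP.arc x hx, ?_, ?_, ?_, ?_, ?_, ?_, hP.turn x hx hxy⟩
    · rw [r1]; exact k1
    · intro i hi
      rw [r1]
      exact ⟨(k2 i hi).1.ne', (k2 i hi).2.1.ne⟩
    · rw [r1, k3, ← TE_eq]
      have : (c : ℕ) = x + 1 := rfl
      rw [this, ← Finset.sum_eq_sum_Ico_succ_bot hxy']
    · rw [r3]; exact l1
    · intro i hi
      rw [r3]
      exact ⟨(l2 i hi).1.ne', (l2 i hi).2.1.ne⟩
    · have h1 : X.t (U x, .W) = -TE X e := by rw [TE_eq, ← r2, htn]
      rw [r3, l3, h1, hev, Finset.sum_Ico_succ_top (show (x : ℕ) ≤ (e : ℕ) from hxe)]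
      ring
  have hM : ∀ p, MM X s x (U x) k l p → p ≠ X.x0 ∧ p ≠ X.y0 := by
    have key : ∀ p : Fin N × Dir, x ≤ p.1 → p.1 ≤ U x → p.2 ≠ .S → p ≠ (x, .W) → p ≠ (U x, .E) →
        p ≠ X.x0 ∧ p ≠ X.y0 := by
      rintro ⟨z, d⟩ h1 h2 h3 h4 h5
      exact hP.nr x hx hxy z d h1 h2 h3 h4 h5
    have kin : ∀ p : Fin N × Dir, x < p.1 → p.1 < U x → p.2 ≠ .S → p ≠ X.x0 ∧ p ≠ X.y0 := by
      intro p h1 h2 h3
      refine key p h1.le h2.le h3 ?_ ?_
      · intro h; rw [h] at h1; exact lt_irrefl _ h1
      · intro h; rw [h] at h2; exact lt_irrefl _ h2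
    rintro p (rfl | rfl | ⟨i, hi, rfl⟩ | ⟨i, hi, rfl⟩)
    · exact key _ le_rfl hxy.le (by simp) (by simp) (by simp)
    · exact key _ hxy.le le_rfl (by simp) (by simp) (by simp)
    · rcases eq_or_lt_of_le hi with h1 | h1
      · subst h1
        rw [r1, k1]
        refine key _ hxy.le le_rfl (by simp) ?_ (by simp)
        intro h; exact hxy.ne' (congrArg Prod.fst h)
      · rw [r1]
        exact kin _ (k2 i h1).1 (k2 i h1).2.1 (k2 i h1).2.2
    · rcases eq_or_lt_of_le hi with h1 | h1
      · subst h1
        rw [r3, l1]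
        refine key _ le_rfl hxy.le (by simp) (by simp) ?_
        intro h; exact hxy.ne (congrArg Prod.fst h)
      · rw [r3]
        exact kin _ (l2 i h1).1 (l2 i h1).2.1 (l2 i h1).2.2
  exact ⟨_, k, l, hA, fun h => (hM _ h).1 rfl, fun h => (hM _ h).2 rfl⟩

end

/-- frozen weights of the state `α` -/
noncomputable def fa (U : Fin N → Fin N) (G : Finset (Fin N)) (a : Fin N → ℂ) (c : Fin N) : ℂ :=
  if c ∈ G then (if c < U c then 1 else 0) else a c

/-- frozen weights of the state `β` -/
noncomputable def fb (U : Fin N → Fin N) (G : Finset (Fin N)) (b : Fin N → ℂ) (c : Fin N) : ℂ :=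
  if c ∈ G then (if c < U c then 0 else 1) else b c

lemma cn_of_ne {U : Fin N → Fin N} {G : Finset (Fin N)} {a b : Fin N → ℂ} {s : Fin N → Bool}
    {c : Fin N} (hc : c ∈ G) (hne : U c ≠ c)
    (h : (if s c then fb U G b c else fa U G a c) ≠ 0) : Cn U s c := by
  unfold Cn
  unfold fa fb at h
  simp only [if_pos hc] at h
  rcases lt_or_gt_of_ne hne with h1 | h1
  · rw [decide_eq_true h1]
    by_contra h2
    rw [Bool.not_eq_true] at h2
    rw [h2] at h
    simp [not_lt.2 h1.le] at h
  · rw [decide_eq_false (not_lt.2 h1.le)]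
    by_contra h2
    rw [Bool.not_eq_false] at h2
    rw [h2] at h
    simp [h1] at h

/-- **All inner arcs may be frozen.** -/
theorem freeze_all {X : Net (Fin N)} {P : Finset (Fin N)} {U : Fin N → Fin N} (hP : Arcs X P U)
    {A B : ℂ} (hAB : Over A B) (hinv : ∀ p, X.π (X.π p) = p)
    (htn : ∀ p, X.t (X.π p) = -X.t p) (φ : ℤ → ℂ) (a b : Fin N → ℂ) :
    ∀ (n : ℕ) (G : Finset (Fin N)), G.card = n → G ⊆ P → (∀ c ∈ G, U c ∈ G) →
      (∀ c ∈ G, ∀ z, c < z → z < U c → z ∈ G) → (∀ c ∈ G, a c = A ∧ b c = B) →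
      ZF X φ a b = ZF X φ (fa U G a) (fb U G b) := by
  intro n
  induction n using Nat.strong_induction_on with
  | _ n ih =>
    intro G hn hGP hGU hGn hab
    by_cases hG : G = ∅
    · subst hG
      have e1 : fa U ∅ a = a := by ext c; simp [fa]
      have e2 : fb U ∅ b = b := by ext c; simp [fb]
      rw [e1, e2]
    -- the longest arc
    set L := G.filter (fun c => c < U c) with hL
    have hLne : L.Nonempty := by
      obtain ⟨c, hc⟩ := Finset.nonempty_iff_ne_empty.2 hG
      rcases lt_or_gt_of_ne (hP.ne c (hGP hc)) with h | h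
      · refine ⟨U c, mem_filter.2 ⟨hGU c hc, ?_⟩⟩
        rw [hP.inv c (hGP hc)]; exact h
      · exact ⟨c, mem_filter.2 ⟨hc, h⟩⟩
    obtain ⟨x, hxL, hmax⟩ := Finset.exists_max_image L (fun c => ((U c : Fin N) : ℕ) - c) hLne
    obtain ⟨hxG, hxy⟩ := mem_filter.1 hxL
    have hxP := hGP hxG
    have hyG := hGU x hxG
    set y := U x with hy
    have hyx : U y = x := hP.inv x hxP
    set G' := (G.erase x).erase y with hG'
    have hxG' : x ∉ G' := by rw [hG', mem_erase, mem_erase]; tauto
    have hyG' : y ∉ G' := by rw [hG', mem_erase]; tauto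
    have hG'G : G' ⊆ G := (erase_subset _ _).trans (erase_subset _ _)
    have memG' : ∀ c, c ∈ G' ↔ c ≠ y ∧ c ≠ x ∧ c ∈ G := by
      intro c; rw [hG', mem_erase, mem_erase]
    have hUG' : ∀ c ∈ G', U c ∈ G' := by
      intro c hc
      obtain ⟨h1, h2, h3⟩ := (memG' c).1 hc
      refine (memG' _).2 ⟨?_, ?_, hGU c h3⟩
      · intro h
        apply h2
        rw [← hP.inv c (hGP h3), h, hyx]
      · intro h
        apply h1
        rw [← hP.inv c (hGP h3), h, hy]
    have hnG' : ∀ c ∈ G', ∀ z, c < z → z < U c → z ∈ G' := by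
      intro c hc z hcz hzc
      obtain ⟨h1, h2, h3⟩ := (memG' c).1 hc
      have hcP := hGP h3
      have hcU : c < U c := hcz.trans hzc
      have h4 : ((U c : Fin N) : ℕ) - c ≤ ((U x : Fin N) : ℕ) - x := hmax c (mem_filter.2 ⟨h3, hcU⟩)
      have hcU' : (c : ℕ) < (U c : ℕ) := hcU
      have hxy' : (x : ℕ) < (y : ℕ) := hxy
      refine (memG' z).2 ⟨?_, ?_, hGn c h3 z hcz hzc⟩
      · intro h
        rw [h] at hcz hzc
        have h5 := (hP.nest c hcP y hcz hzc).2.1
        rw [hyx] at h5
        have a1 : (c : ℕ) < (x : ℕ) := h5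
        have a2 : (y : ℕ) < (U c : ℕ) := hzc
        omega
      · intro h
        rw [h] at hcz hzc
        have h5 := (hP.nest c hcP x hcz hzc).2.2
        have a1 : (c : ℕ) < (x : ℕ) := hcz
        have a2 : (y : ℕ) < (U c : ℕ) := h5
        omega
    have hcard : G'.card < n := by
      rw [← hn]
      exact card_lt_card ⟨hG'G, fun h => hxG' (h hxG)⟩
    rw [ih _ hcard G' rfl (hG'G.trans hGP) hUG' hnG' (fun c hc => hab c (hG'G hc))]
    have hne : x ≠ y := hxy.ne
    have ea : fa U G' a = upd2 (fa U G' a) x y A A := by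
      ext c
      unfold upd2
      by_cases h1 : c = y
      · subst h1
        rw [Function.update_self]
        unfold fa; rw [if_neg hyG']; exact (hab _ hyG).1
      · rw [Function.update_of_ne h1]
        by_cases h2 : c = x
        · subst h2
          rw [Function.update_self]
          unfold fa; rw [if_neg hxG']; exact (hab _ hxG).1
        · rw [Function.update_of_ne h2]
    have eb : fb U G' b = upd2 (fb U G' b) x y B B := by
      ext c
      unfold upd2
      by_cases h1 : c = y
      · subst h1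
        rw [Function.update_self]
        unfold fb; rw [if_neg hyG']; exact (hab _ hyG).2
      · rw [Function.update_of_ne h1]
        by_cases h2 : c = x
        · subst h2
          rw [Function.update_self]
          unfold fb; rw [if_neg hxG']; exact (hab _ hxG).2
        · rw [Function.update_of_ne h2]
    have ea' : fa U G a = upd2 (fa U G' a) x y 1 0 := by
      ext c
      unfold upd2
      by_cases h1 : c = y
      · subst h1
        rw [Function.update_self]
        unfold fa; rw [if_pos hyG, hyx, if_neg (not_lt.2 hxy.le)]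
      · rw [Function.update_of_ne h1]
        by_cases h2 : c = x
        · subst h2
          rw [Function.update_self]
          unfold fa; rw [if_pos hxG, if_pos hxy]
        · rw [Function.update_of_ne h2]
          unfold fa
          by_cases h3 : c ∈ G
          · rw [if_pos h3, if_pos ((memG' c).2 ⟨h1, h2, h3⟩)]
          · rw [if_neg h3, if_neg (fun h => h3 (hG'G h))]
    have eb' : fb U G b = upd2 (fb U G' b) x y 0 1 := by
      ext c
      unfold upd2
      by_cases h1 : c = y
      · subst h1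
        rw [Function.update_self]
        unfold fb; rw [if_pos hyG, hyx, if_neg (not_lt.2 hxy.le)]
      · rw [Function.update_of_ne h1]
        by_cases h2 : c = x
        · subst h2
          rw [Function.update_self]
          unfold fb; rw [if_pos hxG, if_pos hxy]
        · rw [Function.update_of_ne h2]
          unfold fb
          by_cases h3 : c ∈ G
          · rw [if_pos h3, if_pos ((memG' c).2 ⟨h1, h2, h3⟩)]
          · rw [if_neg h3, if_neg (fun h => h3 (hG'G h))]
    rw [ea', eb', ← freeze hAB hinv htn hne φ (fa U G' a) (fb U G' b), ← ea, ← eb]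
    intro s hs
    apply hP.ok hinv htn hxP hxy
    intro z hxz hzy
    have hzG' : z ∈ G' := (memG' z).2 ⟨hzy.ne, hxz.ne', hGn x hxG z hxz hzy⟩
    unfold rest at hs
    rw [Finset.prod_ne_zero_iff] at hs
    exact cn_of_ne hzG' (hP.ne z (hGP (hG'G hzG'))) (hs z (by
      rw [mem_erase, mem_erase]; exact ⟨hzy.ne, hxz.ne', mem_univ z⟩))

end Pool.Agent.H69.M6b
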