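import Mathlib
import Pool.Agent.H69.M6b.DataR
import Pool.Agent.H30.Mid.RGeo

set_option autoImplicit false
set_option linter.unusedSectionVars false
set_option linter.unusedVariables false
open Finset

/-! # Rows with a band of random labels

`Band`: the labels of the columns of the row, up to the distance `R0`, are random except for labels `B`
near the ends of the row. `Band.rowI`: the interface `RowI`. -/

namespace Pool.Agent.H69.M6b

open Pool.Agent.H75.Perc Pool.Agent.H75.TwoArm Pool.Agent.Q1 Pool.Agent.H81.G1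
open Pool.Agent.H30.Mid (RS rl rp rcr Sep OutL Frame rowGeo_glued exists_lbt ug)
open Pool.Agent.Q1.M6b.Gl (gE tr mem_tr)
open Pool.Agent.Q1.M6b.Gd
open Pool.Agent.H34.Q1 (OneType Dst)

/-- the labels `EL` below and `EU` above the row contain the band of height `R0`, except for `B` -/
structure Band (EL EU B : Finset (ℤ × ℤ)) (N : ℕ) (xr y0 : ℤ) (R0 : ℕ) : Prop where
  low : ∀ x y : ℤ, xr ≤ x → x < xr + N → y0 - R0 ≤ y → y < y0 → lbt x y ∉ B → lbt x y ∈ EL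
  upp : ∀ x y : ℤ, xr ≤ x → x < xr + N → y0 < y → y ≤ y0 + R0 → lbt x y ∉ B → lbt x y ∈ EU
  s1 : Sep B N xr y0
  s2 : Sep B N xr (y0 + 1)

/-- special columns at the ends of the row -/
def SwR (N : ℕ) (xr y0 : ℤ) : Finset ℤ :=
  (({0, 1, 2, 3} : Finset ℤ) ∪ {(N : ℤ) - 4, (N : ℤ) - 3, (N : ℤ) - 2, (N : ℤ) - 1, (N : ℤ)}).image
    fun c => xr - y0 + 1 + c

lemma card_SwR (N : ℕ) (xr y0 : ℤ) : (SwR N xr y0).card ≤ 9 := by
  unfold SwR
  refine card_image_le.trans ((card_union_le _ _).trans ?_)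
  have h1 : ({0, 1, 2, 3} : Finset ℤ).card ≤ 4 := by decide
  have h2 : ({(N : ℤ) - 4, (N : ℤ) - 3, (N : ℤ) - 2, (N : ℤ) - 1, (N : ℤ)} : Finset ℤ).card ≤ 5 := by
    refine (card_insert_le _ _).trans (Nat.succ_le_succ ?_)
    refine (card_insert_le _ _).trans (Nat.succ_le_succ ?_)
    refine (card_insert_le _ _).trans (Nat.succ_le_succ ?_)
    exact card_le_two
  omega

lemma mem_SwR {N : ℕ} {xr y0 c : ℤ} (hc : (0 ≤ c ∧ c ≤ 3) ∨ ((N : ℤ) - 4 ≤ c ∧ c ≤ N)) :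
    xr - y0 + 1 + c ∈ SwR N xr y0 := by
  unfold SwR
  refine mem_image.2 ⟨c, ?_, rfl⟩
  rw [mem_union]
  simp only [mem_insert, mem_singleton]
  omega

section
variable {X : Env} {EL EU B W' : Finset (ℤ × ℤ)} {N : ℕ} {xr y0 K0 : ℤ} {k g R0 : ℕ}

lemma mem_gE' {x y : ℤ} : lbt x y ∈ gE EL EU (1, -1) ↔ lbt x y ∈ EL ∨ lbt x (y + 1) ∈ EU := by
  unfold gE
  rw [mem_union, mem_tr, lbt_sub]

lemma gE_odd' (h1 : ∀ e ∈ EL, (e.1 + e.2) % 2 = 1) (h2 : ∀ e ∈ EU, (e.1 + e.2) % 2 = 1)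
    {e : ℤ × ℤ} (he : e ∈ gE EL EU (1, -1)) : (e.1 + e.2) % 2 = 1 := by
  unfold gE at he
  rw [mem_union, mem_tr] at he
  rcases he with he | he
  · exact h1 e he
  · have := h2 _ he
    simp only [Prod.fst_sub, Prod.snd_sub] at this
    omega

/-- the geometry of the glued row -/
theorem Band.geo (hB : Band EL EU B N xr y0 R0) (hk1 : 1 ≤ k) (hkN : k + 1 ≤ N) (hK : 6 ≤ K0)
    (hN : (N : ℤ) < K0 * (R0 + 1)) :
    RowGeo (gE EL EU (1, -1)) (zr xr y0 k) K0 k (N - k) := by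
  have h := rowGeo_glued (EL := EL) (EU := EU) (BL := B) (BU := B) (N := N) (k := k) (x0 := xr)
    (y0 := y0) (ya := y0 - R0) (yb := y0 + R0 + 1) (K0 := K0) hk1 hkN hK (by ring_nf; ring_nf at hN; exact hN)
    (by ring_nf; ring_nf at hN; exact hN)
    (fun x y a1 a2 a3 a4 a5 => hB.low x y a1 a2 a3 a4 a5)
    (fun x y a1 a2 a3 a4 a5 => hB.upp x y a1 a2 a3 (by omega) a5) hB.s1 hB.s2
  exact h

/-- **The labels near a column of the row are random.** -/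
theorem Band.near (hB : Band EL EU B N xr y0 R0) {Sp : Finset ℤ} (hSp : SwR N xr y0 ⊆ Sp) (c : Fin N)
    {M : ℤ} (hM1 : 1 ≤ M) (hM : Dst Sp R0 (sc xr y0 c) M) {e : ℤ × ℤ} (ho : (e.1 + e.2) % 2 = 1)
    (h1 : |e.1 - (sc xr y0 c).1| ≤ M) (h2 : |e.2 - (sc xr y0 c).2| ≤ M) : e ∈ gE EL EU (1, -1) := by
  have hc := c.2
  obtain ⟨hMR, hMs⟩ := hM
  have e1 : (sc xr y0 c).1 = xr - y0 + 1 + (c : ℕ) := by
    unfold sc sm; simp
  have e2 : (sc xr y0 c).2 = xr + y0 + 1 + (c : ℕ) := by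
    unfold sc sm; simp; ring
  rw [e1] at h1 hMs
  rw [e2] at h2
  rw [abs_le] at h1 h2
  have key : ∀ d : ℤ, (0 ≤ d ∧ d ≤ 3) ∨ ((N : ℤ) - 4 ≤ d ∧ d ≤ N) → M ≤ |((c : ℕ) : ℤ) - d| := by
    intro d hd
    have h3 := hMs _ (hSp (mem_SwR (xr := xr) (y0 := y0) hd))
    have e3 : xr - y0 + 1 + ((c : ℕ) : ℤ) - (xr - y0 + 1 + d) = ((c : ℕ) : ℤ) - d := by ring
    rwa [e3] at h3
  have hcl : 3 < ((c : ℕ) : ℤ) := by
    by_contra hh
    have := key (c : ℕ) (Or.inl ⟨by omega, by omega⟩)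
    rw [sub_self, abs_zero] at this
    omega
  have hcr : ((c : ℕ) : ℤ) < N - 4 := by
    by_contra hh
    have := key (c : ℕ) (Or.inr ⟨by omega, by omega⟩)
    rw [sub_self, abs_zero] at this
    omega
  have k1 := key 3 (Or.inl ⟨by omega, by omega⟩)
  have k2 := key (N - 4) (Or.inr ⟨by omega, by omega⟩)
  rw [abs_of_nonneg (by omega)] at k1
  rw [abs_of_nonpos (by omega)] at k2
  obtain ⟨x, y, rfl⟩ := exists_lbt ho
  unfold lbt at h1 h2
  simp only at h1 h2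
  rw [mem_gE']
  rcases lt_or_ge y y0 with hy | hy
  · left
    refine hB.low x y (by omega) (by omega) (by omega) hy fun hb => ?_
    rcases hB.s1 x y hb with h3 | h3
    · rw [abs_of_neg (by omega)] at h3; omega
    · rw [abs_of_neg (by omega)] at h3; omega
  · right
    refine hB.upp x (y + 1) (by omega) (by omega) (by omega) (by omega) fun hb => ?_
    rcases hB.s2 x (y + 1) hb with h3 | h3
    · rw [abs_of_nonneg (by omega)] at h3; omega
    · rw [abs_of_nonneg (by omega)] at h3; omega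

/-- **The interface of a row with a band.** -/
theorem Band.rowI (hB : Band EL EU B N xr y0 R0) (lay : Lay3 X N xr y0 EL EU) (hk1 : 1 ≤ k)
    (hkN : k + 1 ≤ N) (hK : 6 ≤ K0) (hN : (N : ℤ) < K0 * (R0 + 1))
    (disj : Disjoint (gE EL EU (1, -1)) W')
    (fr : ∀ ζ ⊆ gE EL EU (1, -1), ∃ (L : Finset (ℤ × ℤ)) (F : Frame L N xr y0),
      OutL (X.freeze (RS N xr y0) (ug EL EU (1, -1) ζ)) L ∧ ¬ F.In (plab X.c0) ∧ GLab F (ζ ∪ W') ∧
      F.EU.card + F.ED.card ≤ g) :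
    RowI X N xr y0 k EL EU W' K0 g 9 R0 (SwR N xr y0) :=
  ⟨lay, hB.geo hk1 hkN hK hN, disj, fr,
    fun Sp hSp c M hM1 hM e ho h1 h2 => hB.near hSp c hM1 hM ho h1 h2, card_SwR N xr y0⟩

end

end Pool.Agent.H69.M6b
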